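import Pool.Agent.Helper59.CM.StPF

/-!
Project CM, module CVX (helper33): convex sets, extension, simply connected sets.
-/

set_option autoImplicit false

namespace CM

open Set Topology unitInterval

namespace CVX

/-- straight line homotopy -/
noncomputable def slh {V : Type} [NormedAddCommGroup V] [NormedSpace ℝ V] {a b : V}
    (p q : Path a b) : p.Homotopy q where
  toFun x := AffineMap.lineMap (p x.2) (q x.2) (x.1 : ℝ)
  continuous_toFun := by
    simp only [AffineMap.lineMap_apply_module]
    fun_prop
  map_zero_left t := by simp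
  map_one_left t := by simp
  prop' s t ht := by
    rcases ht with rfl | rfl
    · simp
    · simp

theorem slh_mem {V : Type} [NormedAddCommGroup V] [NormedSpace ℝ V] {S : Set V}
    (hS : Convex ℝ S) {a b : V} (p q : Path a b) (hp : ∀ t, p t ∈ S) (hq : ∀ t, q t ∈ S)
    (x : I × I) : slh p q x ∈ S :=
  hS.lineMap_mem (hp x.2) (hq x.2) x.1.2

theorem seg_mem {V : Type} [NormedAddCommGroup V] [NormedSpace ℝ V] {S : Set V}
    (hS : Convex ℝ S) {a b : V} (ha : a ∈ S) (hb : b ∈ S) (t : I) : Path.segment a b t ∈ S := by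
  rw [Path.segment_apply]
  exact hS.lineMap_mem ha hb t.2

end CVX

open CVX in
theorem pCvx : StCvx := by
  intro V Γ _ _ _ S F hS hF
  rcases S.eq_empty_or_nonempty with rfl | ⟨x0, hx0⟩
  · exact ⟨fun _ => 1, fun a b p hp => absurd (hp 0) (Set.notMem_empty _)⟩
  refine ⟨fun x => F x0 x (Path.segment x0 x), ?_⟩
  intro a b p hp
  have ha : a ∈ S := by have := hp 0; rwa [p.source] at this
  have hb : b ∈ S := by have := hp 1; rwa [p.target] at this
  have h1 := hF.trans x0 a b (Path.segment x0 a) p (seg_mem hS hx0 ha) hp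
  have h2 := hF.hom x0 b ((Path.segment x0 a).trans p) (Path.segment x0 b) (slh _ _)
    (slh_mem hS _ _ (trans_mem (seg_mem hS hx0 ha) hp) (seg_mem hS hx0 hb))
  show F a b p = (F x0 a (Path.segment x0 a))⁻¹ * F x0 b (Path.segment x0 b)
  rw [← h2, h1]
  group

theorem pExt (h : StGL) : StExt := by
  intro X Γ _ _ S N F hS hN hF hE
  obtain ⟨g, hg⟩ := hE
  have e : S ∪ N = ⋃ i : Bool, (fun i : Bool => if i = true then S else N) i := by
    ext x
    simp
    tauto
  have h1 : ∀ i : Bool, IsOpen ((fun i : Bool => if i = true then S else N) i) := by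
    intro i
    cases i
    · exact hN
    · exact hS
  have h2 : ∀ i : Bool, IsPF ((fun i : Bool => if i = true then S else N) i)
      ((fun i : Bool => if i = true then F else (fun a b _ => (g a)⁻¹ * g b : PFun X Γ)) i) := by
    intro i
    cases i
    · refine ⟨fun a b p q H hH => rfl, fun a b c p q hp hq => ?_⟩
      show (g a)⁻¹ * g c = (g a)⁻¹ * g b * ((g b)⁻¹ * g c)
      group
    · exact hF
  have h3 : ∀ (i j : Bool) (a b : X) (p : Path a b),
      (∀ t, p t ∈ (fun i : Bool => if i = true then S else N) i ∩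
        (fun i : Bool => if i = true then S else N) j) →
      (fun i : Bool => if i = true then F else (fun a b _ => (g a)⁻¹ * g b : PFun X Γ)) i a b p =
      (fun i : Bool => if i = true then F else (fun a b _ => (g a)⁻¹ * g b : PFun X Γ)) j a b p := by
    intro i j a b p hp
    cases i <;> cases j
    · rfl
    · exact (hg a b p (fun t => ⟨(hp t).2, (hp t).1⟩)).symm
    · exact hg a b p hp
    · rfl
  obtain ⟨F', h4, h5⟩ := h X Γ Bool _ _ h1 h2 h3
  rw [e]
  exact ⟨F', h4, fun a b p hp => h5 true a b p hp⟩

theorem pSC : StSC := by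
  intro E Γ _ _ M _ F hF
  classical
  obtain ⟨x0⟩ : Nonempty ↥M := inferInstance
  refine ⟨fun x => if hx : x ∈ M then
    F _ _ ((PathConnectedSpace.somePath x0 ⟨x, hx⟩).map continuous_subtype_val) else 1, ?_⟩
  intro a b p hp
  have ha : a ∈ M := by have := hp 0; rwa [p.source] at this
  have hb : b ∈ M := by have := hp 1; rwa [p.target] at this
  show F a b p = (if hx : a ∈ M then
    F _ _ ((PathConnectedSpace.somePath x0 ⟨a, hx⟩).map continuous_subtype_val) else 1)⁻¹ *
    (if hx : b ∈ M then
    F _ _ ((PathConnectedSpace.somePath x0 ⟨b, hx⟩).map continuous_subtype_val) else 1)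
  rw [dif_pos ha, dif_pos hb]
  let p' : Path (⟨a, ha⟩ : ↥M) (⟨b, hb⟩ : ↥M) :=
    { toFun := fun t => ⟨p t, hp t⟩
      continuous_toFun := p.continuous.subtype_mk hp
      source' := Subtype.ext p.source
      target' := Subtype.ext p.target }
  have e : p'.map continuous_subtype_val = p := by ext t; rfl
  set qa := PathConnectedSpace.somePath x0 (⟨a, ha⟩ : ↥M)
  set qb := PathConnectedSpace.somePath x0 (⟨b, hb⟩ : ↥M)
  obtain ⟨H⟩ : Path.Homotopic (qa.trans p') qb := SimplyConnectedSpace.paths_homotopic _ _
  have h1 := hF.hom _ _ _ _ (H.map ⟨Subtype.val, continuous_subtype_val⟩)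
    (fun x => (H x).2)
  have h2 := hF.trans _ _ _ (qa.map continuous_subtype_val) (p'.map continuous_subtype_val)
    (fun t => (qa t).2) (fun t => (p' t).2)
  have h3 : (qa.trans p').map continuous_subtype_val =
      (qa.map continuous_subtype_val).trans (p'.map continuous_subtype_val) := Path.map_trans _ _ _
  have h4 : F _ _ ((qa.trans p').map continuous_subtype_val) =
      F _ _ (qb.map continuous_subtype_val) := h1
  rw [h3, h2, e] at h4
  rw [← h4]
  group

end CM
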