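import Pool.Agent.Helper59.CM.StPF

/-!
Project CM, module GL: gluing of path functors (van Kampen).
-/

set_option autoImplicit false

namespace CM

open Set Topology unitInterval

namespace GLu

variable {X Γ : Type} [TopologicalSpace X] [Group Γ]

/-- straight path in `I` -/
noncomputable def sg (s t : I) : Path s t where
  toFun := Icc.convexComb s t
  continuous_toFun := Icc.continuous_convexComb s t
  source' := by simp
  target' := by simp

theorem sg_map {a b : X} (p : Path a b) (s t : I) :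
    (sg s t).map p.continuous = p.subpath s t := rfl

theorem cc_mem {r t x y : I} (hx : x ∈ Icc r t) (hy : y ∈ Icc r t) (u : I) :
    Icc.convexComb x y u ∈ Icc r t := by
  have h : Icc.convexComb x y u ∈ uIcc x y := by
    rw [← Path.range_subpathAux]
    exact ⟨u, rfl⟩
  rcases le_total x y with hxy | hxy
  · rw [uIcc_of_le hxy] at h
    exact ⟨hx.1.trans h.1, h.2.trans hy.2⟩
  · rw [uIcc_of_ge hxy] at h
    exact ⟨hy.1.trans h.1, h.2.trans hx.2⟩

/-- straight homotopy in `I` -/
noncomputable def ht {r t : I} (P Q : Path r t) : P.Homotopy Q where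
  toFun x := Icc.convexComb (P x.2) (Q x.2) x.1
  continuous_toFun :=
    Icc.continuous_convexComb_prod.comp ((P.continuous.comp continuous_snd).prodMk
      ((Q.continuous.comp continuous_snd).prodMk continuous_fst))
  map_zero_left := by simp
  map_one_left := by simp
  prop' := by
    rintro u x (rfl | rfl) <;> simp

theorem reparam {S : Set X} {F : PFun X Γ} (hF : IsPF S F) {a b : X} (p : Path a b) {x y r t : I}
    (P Q : Path x y) (hP : ∀ u, P u ∈ Icc r t) (hQ : ∀ u, Q u ∈ Icc r t)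
    (hp : ∀ u ∈ Icc r t, p u ∈ S) :
    F _ _ (P.map p.continuous) = F _ _ (Q.map p.continuous) := by
  refine hF.hom _ _ _ _ ((ht P Q).map p.toContinuousMap) fun z => ?_
  show p (Icc.convexComb (P z.2) (Q z.2) z.1) ∈ S
  exact hp _ (cc_mem (hP _) (hQ _) _)

/-- multiplicativity of subpaths -/
theorem sub_mul {S : Set X} {F : PFun X Γ} (hF : IsPF S F) {a b : X} (p : Path a b) {r s t : I}
    (hrs : r ≤ s) (hst : s ≤ t) (hp : ∀ u ∈ Icc r t, p u ∈ S) :
    F _ _ (p.subpath r t) = F _ _ (p.subpath r s) * F _ _ (p.subpath s t) := by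
  have h1 : ∀ u, sg r t u ∈ Icc r t := fun u =>
    cc_mem ⟨le_rfl, hrs.trans hst⟩ ⟨hrs.trans hst, le_rfl⟩ u
  have h2 : ∀ u, sg r s u ∈ Icc r t := fun u =>
    cc_mem ⟨le_rfl, hrs.trans hst⟩ ⟨hrs, hst⟩ u
  have h3 : ∀ u, sg s t u ∈ Icc r t := fun u =>
    cc_mem ⟨hrs, hst⟩ ⟨hrs.trans hst, le_rfl⟩ u
  have h4 : ∀ u, ((sg r s).trans (sg s t)) u ∈ Icc r t := trans_mem h2 h3
  rw [← sg_map, reparam hF p (sg r t) ((sg r s).trans (sg s t)) h1 h4 hp, Path.map_trans,
    hF.trans]
  · rfl
  · intro u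
    exact hp _ (h2 u)
  · intro u
    exact hp _ (h3 u)

variable {ι : Type} (O : ι → Set X) (F : ι → PFun X Γ)

/-- `g` is a potential along `p` on `[0,T]` -/
def Pot {a b : X} (p : Path a b) (g : I → Γ) (T : I) : Prop :=
  ∀ (i : ι) (s t : I), s ≤ t → t ≤ T → (∀ u ∈ Icc s t, p u ∈ O i) →
    F i (p s) (p t) (p.subpath s t) = (g s)⁻¹ * g t

variable {O F}

theorem sub_in {S : Set X} {a b : X} {p : Path a b} {s t : I} (hst : s ≤ t)
    (h : ∀ u ∈ Icc s t, p u ∈ S) : ∀ u, p.subpath s t u ∈ S := fun u =>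
  h _ (cc_mem ⟨le_rfl, hst⟩ ⟨hst, le_rfl⟩ u)

theorem pot_ex (hO : ∀ i, IsOpen (O i)) (hF : ∀ i, IsPF (O i) (F i))
    (hagr : ∀ (i j : ι) (a b : X) (p : Path a b), (∀ t, p t ∈ O i ∩ O j) → F i a b p = F j a b p)
    {a b : X} (p : Path a b) (hp : ∀ t, p t ∈ ⋃ i, O i) : ∃ g, Pot O F p g 1 := by
  obtain ⟨t, ht0, htm, ⟨n, hn⟩, htc⟩ := exists_monotone_Icc_subset_open_cover_unitInterval
    (c := fun i => p ⁻¹' O i) (fun i => (hO i).preimage p.continuous) (fun u _ => by
      have := hp u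
      rw [mem_iUnion] at this ⊢
      exact this)
  have key : ∀ k : ℕ, ∃ g, Pot O F p g (t k) := by
    intro k
    induction k with
    | zero =>
      refine ⟨fun _ => 1, ?_⟩
      intro i s u hsu hu hc
      rw [ht0] at hu
      have hu0 : u = 0 := le_antisymm hu bot_le
      have hs0 : s = 0 := le_antisymm (hsu.trans hu) bot_le
      subst hu0
      subst hs0
      rw [Path.subpath_self, (hF i).refl (hc 0 ⟨le_rfl, le_rfl⟩)]
      simp
    | succ k ih =>
      obtain ⟨g, hg⟩ := ih
      obtain ⟨i₀, hi₀⟩ := htc k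
      have hkk : t k ≤ t (k + 1) := htm (Nat.le_succ k)
      refine ⟨fun u => if u ≤ t k then g u else
        g (t k) * F i₀ _ _ (p.subpath (t k) u), ?_⟩
      have hval : ∀ u, t k ≤ u → (if u ≤ t k then g u else
          g (t k) * F i₀ _ _ (p.subpath (t k) u)) = g (t k) * F i₀ _ _ (p.subpath (t k) u) := by
        intro u hu
        split_ifs with h
        · have : u = t k := le_antisymm h hu
          subst this
          rw [Path.subpath_self, (hF i₀).refl (hi₀ ⟨le_rfl, hkk⟩), mul_one]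
        · rfl
      -- second half
      have hsec : ∀ (i : ι) (s u : I), t k ≤ s → s ≤ u → u ≤ t (k + 1) →
          (∀ v ∈ Icc s u, p v ∈ O i) → F i (p s) (p u) (p.subpath s u) =
            (F i₀ _ _ (p.subpath (t k) s))⁻¹ * F i₀ _ _ (p.subpath (t k) u) := by
        intro i s u hks hsu hu hc
        have h1 : F i (p s) (p u) (p.subpath s u) = F i₀ (p s) (p u) (p.subpath s u) := by
          refine hagr i i₀ _ _ _ fun v => ⟨sub_in hsu hc v, sub_in hsu (fun w hw => ?_) v⟩
          exact hi₀ ⟨hks.trans hw.1, hw.2.trans hu⟩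
        rw [h1, sub_mul (hF i₀) p hks hsu (fun w hw => hi₀ ⟨hw.1, hw.2.trans hu⟩)]
        group
      intro i s u hsu hu hc
      simp only
      by_cases hs : t k ≤ s
      · rw [hval s hs, hval u (hs.trans hsu), hsec i s u hs hsu hu hc]
        group
      · rw [not_le] at hs
        by_cases huk : u ≤ t k
        · rw [if_pos hs.le, if_pos huk]
          exact hg i s u hsu huk hc
        · rw [not_le] at huk
          rw [if_pos hs.le, hval u huk.le, sub_mul (hF i) p hs.le huk.le hc,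
            hg i s (t k) hs.le le_rfl (fun v hv => hc v ⟨hv.1, hv.2.trans huk.le⟩),
            hsec i (t k) u le_rfl huk.le hu (fun v hv => hc v ⟨hs.le.trans hv.1, hv.2⟩),
            Path.subpath_self, (hF i₀).refl (hi₀ ⟨le_rfl, hkk⟩)]
          group
  obtain ⟨g, hg⟩ := key n
  rw [hn n le_rfl] at hg
  exact ⟨g, hg⟩

/-- uniqueness of the increment -/
theorem pot_uniq (hO : ∀ i, IsOpen (O i)) {a b : X} (p : Path a b) (hp : ∀ t, p t ∈ ⋃ i, O i)
    {g g' : I → Γ} (hg : Pot O F p g 1) (hg' : Pot O F p g' 1) :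
    (g 0)⁻¹ * g 1 = (g' 0)⁻¹ * g' 1 := by
  obtain ⟨t, ht0, htm, ⟨n, hn⟩, htc⟩ := exists_monotone_Icc_subset_open_cover_unitInterval
    (c := fun i => p ⁻¹' O i) (fun i => (hO i).preimage p.continuous) (fun u _ => by
      have := hp u
      rw [mem_iUnion] at this ⊢
      exact this)
  have key : ∀ k : ℕ, (g 0)⁻¹ * g (t k) = (g' 0)⁻¹ * g' (t k) := by
    intro k
    induction k with
    | zero => rw [ht0]; simp
    | succ k ih =>
      obtain ⟨i, hi⟩ := htc k
      have h1 := hg i (t k) (t (k + 1)) (htm (Nat.le_succ k)) le_top (fun u hu => hi hu)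
      have h2 := hg' i (t k) (t (k + 1)) (htm (Nat.le_succ k)) le_top (fun u hu => hi hu)
      have h3 : (g (t k))⁻¹ * g (t (k + 1)) = (g' (t k))⁻¹ * g' (t (k + 1)) := h1.symm.trans h2
      calc (g 0)⁻¹ * g (t (k + 1)) = ((g 0)⁻¹ * g (t k)) * ((g (t k))⁻¹ * g (t (k + 1))) := by
            group
        _ = ((g' 0)⁻¹ * g' (t k)) * ((g' (t k))⁻¹ * g' (t (k + 1))) := by rw [ih, h3]
        _ = (g' 0)⁻¹ * g' (t (k + 1)) := by group
  have := key n
  rwa [hn n le_rfl] at this

open Classical in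
/-- the glued function -/
noncomputable def glue (O : ι → Set X) (F : ι → PFun X Γ) : PFun X Γ := fun _ _ p =>
  if h : ∃ g, Pot O F p g 1 then (h.choose 0)⁻¹ * h.choose 1 else 1

theorem glue_val (hO : ∀ i, IsOpen (O i)) {a b : X} (p : Path a b) (hp : ∀ t, p t ∈ ⋃ i, O i)
    {g : I → Γ} (hg : Pot O F p g 1) : glue O F a b p = (g 0)⁻¹ * g 1 := by
  have h : ∃ g, Pot O F p g 1 := ⟨g, hg⟩
  unfold glue
  rw [dif_pos h]
  exact pot_uniq hO p hp h.choose_spec hg

theorem cc_cc (s₀ t₀ s t u : I) : Icc.convexComb s₀ t₀ (Icc.convexComb s t u) =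
    Icc.convexComb (Icc.convexComb s₀ t₀ s) (Icc.convexComb s₀ t₀ t) u := by
  apply Subtype.ext
  simp only [Icc.coe_convexComb]
  ring

theorem cc_mono {s₀ t₀ s t : I} (h : s₀ ≤ t₀) (hst : s ≤ t) :
    Icc.convexComb s₀ t₀ s ≤ Icc.convexComb s₀ t₀ t := by
  apply Subtype.coe_le_coe.1
  simp only [Icc.coe_convexComb]
  have h1 : (s₀ : ℝ) ≤ t₀ := h
  have h2 : (s : ℝ) ≤ t := hst
  nlinarith

theorem pot_aff {a b c d : X} (p : Path a b) (P : Path c d) (s₀ t₀ : I) (h₀ : s₀ ≤ t₀)
    (hpP : ∀ u, p u = P (Icc.convexComb s₀ t₀ u)) {g : I → Γ} (hg : Pot O F P g 1) :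
    Pot O F p (fun u => g (Icc.convexComb s₀ t₀ u)) 1 := by
  intro i s t hst _ hc
  have h1 : p.subpath s t = (P.subpath (Icc.convexComb s₀ t₀ s) (Icc.convexComb s₀ t₀ t)).cast
      (hpP s) (hpP t) := by
    ext u
    show p (Icc.convexComb s t u) =
      P (Icc.convexComb (Icc.convexComb s₀ t₀ s) (Icc.convexComb s₀ t₀ t) u)
    rw [hpP, cc_cc]
  rw [h1, F_cast (F i)]
  refine hg i _ _ (cc_mono h₀ hst) le_top fun v hv => ?_
  rw [← uIcc_of_le (cc_mono h₀ hst), ← Path.range_subpathAux] at hv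
  obtain ⟨u, rfl⟩ := hv
  rw [← cc_cc, ← hpP]
  exact hc _ (cc_mem ⟨le_rfl, hst⟩ ⟨hst, le_rfl⟩ u)

theorem const_one {S : Set X} {F : PFun X Γ} (hF : IsPF S F) {x y c : X} (p : Path x y)
    (hc : c ∈ S) (hp : ∀ t, p t = c) : F x y p = 1 := by
  have hx : c = x := by rw [← hp 0]; exact p.source
  have hy : c = y := by rw [← hp 1]; exact p.target
  subst hx
  subst hy
  have : p = Path.refl c := by
    ext t
    rw [hp t]
    rfl
  rw [this]
  exact hF.refl hc

/-- vertical path of a square -/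
noncomputable def vp {a b : X} {p q : Path a b} (H : p.Homotopy q) (s s' τ : I) :
    Path (H (s, τ)) (H (s', τ)) where
  toFun u := H (Icc.convexComb s s' u, τ)
  continuous_toFun := by
    exact H.continuous.comp ((Icc.continuous_convexComb s s').prodMk continuous_const)
  source' := by simp
  target' := by simp

theorem square (hSq : StSq) {S : Set X} {F : PFun X Γ} (hF : IsPF S F) {a b : X} {p q : Path a b}
    (H : p.Homotopy q) {s s' τ τ' : I} (hs : s ≤ s') (hτ : τ ≤ τ')
    (hH : ∀ x ∈ Icc s s', ∀ y ∈ Icc τ τ', H (x, y) ∈ S) :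
    F _ _ ((H.eval s).subpath τ τ') * F _ _ (vp H s s' τ') =
      F _ _ (vp H s s' τ) * F _ _ ((H.eval s').subpath τ τ') := by
  let Q : C(I × I, X) := ⟨fun x => H (Icc.convexComb s s' x.2, Icc.convexComb τ τ' x.1), by
    exact H.continuous.comp (((Icc.continuous_convexComb s s').comp continuous_snd).prodMk
      ((Icc.continuous_convexComb τ τ').comp continuous_fst))⟩
  refine hSq X Γ S F hF Q (fun x => hH _ (cc_mem ⟨le_rfl, hs⟩ ⟨hs, le_rfl⟩ _) _
    (cc_mem ⟨le_rfl, hτ⟩ ⟨hτ, le_rfl⟩ _)) _ _ _ _ ((H.eval s).subpath τ τ') (vp H s s' τ')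
    (vp H s s' τ) ((H.eval s').subpath τ τ') ?_ ?_ ?_ ?_
  · intro t
    show H (s, Icc.convexComb τ τ' t) = H (Icc.convexComb s s' 0, Icc.convexComb τ τ' t)
    rw [Icc.convexComb_zero]
  · intro t
    show H (Icc.convexComb s s' t, τ') = H (Icc.convexComb s s' t, Icc.convexComb τ τ' 1)
    rw [Icc.convexComb_one]
  · intro t
    show H (Icc.convexComb s s' t, τ) = H (Icc.convexComb s s' t, Icc.convexComb τ τ' 0)
    rw [Icc.convexComb_zero]
  · intro t
    show H (s', Icc.convexComb τ τ' t) = H (Icc.convexComb s s' 1, Icc.convexComb τ τ' t)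
    rw [Icc.convexComb_one]

theorem glue_hom (hSq : StSq) (hO : ∀ i, IsOpen (O i)) (hF : ∀ i, IsPF (O i) (F i))
    (hagr : ∀ (i j : ι) (a b : X) (p : Path a b), (∀ t, p t ∈ O i ∩ O j) → F i a b p = F j a b p)
    {a b : X} {p q : Path a b} (H : p.Homotopy q) (hH : ∀ x, H x ∈ ⋃ i, O i) :
    glue O F a b p = glue O F a b q := by
  obtain ⟨t, ht0, htm, ⟨n, hn⟩, htc⟩ :=
    exists_monotone_Icc_subset_open_cover_unitInterval_prod_self
    (c := fun i => H ⁻¹' O i) (fun i => (hO i).preimage H.continuous) (fun u _ => by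
      have := hH u
      rw [mem_iUnion] at this ⊢
      exact this)
  have row : ∀ k : ℕ, glue O F a b (H.eval (t k)) = glue O F a b (H.eval (t (k + 1))) := by
    intro k
    set s := t k
    set s' := t (k + 1)
    have hss : s ≤ s' := htm (Nat.le_succ k)
    obtain ⟨g, hg⟩ := pot_ex hO hF hagr (H.eval s) (fun u => hH (s, u))
    obtain ⟨g', hg'⟩ := pot_ex hO hF hagr (H.eval s') (fun u => hH (s', u))
    rw [glue_val hO _ (fun u => hH (s, u)) hg, glue_val hO _ (fun u => hH (s', u)) hg']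
    have key : ∀ m : ℕ, ∀ i, (∀ x ∈ Icc s s', H (x, t m) ∈ O i) →
        (g 0)⁻¹ * g (t m) * F i _ _ (vp H s s' (t m)) = (g' 0)⁻¹ * g' (t m) := by
      intro m
      induction m with
      | zero =>
        intro i hi
        rw [ht0] at hi ⊢
        have h1 : F i _ _ (vp H s s' 0) = 1 := by
          refine const_one (hF i) (c := a) _ ?_ ?_
          · have := hi s ⟨le_rfl, hss⟩
            simpa using this
          · intro u
            show H (Icc.convexComb s s' u, 0) = a
            simp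
        rw [h1]
        group
      | succ m ih =>
        intro i hi
        obtain ⟨j, hj⟩ := htc k m
        have hmm : t m ≤ t (m + 1) := htm (Nat.le_succ m)
        have h1 := ih j (fun x hx => hj ⟨hx, le_rfl, hmm⟩)
        have h2 := square hSq (hF j) H hss hmm (fun x hx y hy => hj ⟨hx, hy⟩)
        have h3 : F i _ _ (vp H s s' (t (m + 1))) = F j _ _ (vp H s s' (t (m + 1))) := by
          refine hagr i j _ _ _ fun u => ?_
          have hu := cc_mem (⟨le_rfl, hss⟩ : s ∈ Icc s s') (⟨hss, le_rfl⟩ : s' ∈ Icc s s') u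
          exact ⟨hi _ hu, hj ⟨hu, hmm, le_rfl⟩⟩
        have h4 := hg j (t m) (t (m + 1)) hmm le_top
          (fun u hu => hj ⟨⟨le_rfl, hss⟩, hu⟩)
        have h5 := hg' j (t m) (t (m + 1)) hmm le_top
          (fun u hu => hj ⟨⟨hss, le_rfl⟩, hu⟩)
        rw [h4, h5] at h2
        rw [h3]
        calc (g 0)⁻¹ * g (t (m + 1)) * F j _ _ (vp H s s' (t (m + 1)))
            = (g 0)⁻¹ * g (t m) * ((g (t m))⁻¹ * g (t (m + 1)) *
                F j _ _ (vp H s s' (t (m + 1)))) := by group
          _ = (g 0)⁻¹ * g (t m) * F j _ _ (vp H s s' (t m)) *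
                ((g' (t m))⁻¹ * g' (t (m + 1))) := by rw [h2]; group
          _ = (g' 0)⁻¹ * g' (t (m + 1)) := by rw [h1]; group
    obtain ⟨j, hj⟩ := htc k n
    have h1 := key n j (fun x hx => hj ⟨hx, le_rfl, htm (Nat.le_succ n)⟩)
    rw [hn n le_rfl] at h1
    have h2 : F j _ _ (vp H s s' 1) = 1 := by
      refine const_one (hF j) (c := b) _ ?_ ?_
      · have := hj (show (s, t n) ∈ Icc s s' ×ˢ Icc (t n) (t (n + 1)) from
          ⟨⟨le_rfl, hss⟩, le_rfl, htm (Nat.le_succ n)⟩)
        rw [hn n le_rfl] at this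
        have h3 : H (s, 1) ∈ O j := this
        simpa using h3
      · intro u
        show H (Icc.convexComb s s' u, 1) = b
        simp
    rw [h2, mul_one] at h1
    exact h1
  have all : ∀ k : ℕ, glue O F a b (H.eval 0) = glue O F a b (H.eval (t k)) := by
    intro k
    induction k with
    | zero => rw [ht0]
    | succ k ih => rw [ih, row k]
  have h1 := all n
  rw [hn n le_rfl, Path.Homotopy.eval_zero, Path.Homotopy.eval_one] at h1
  exact h1

end GLu

open GLu in
theorem pGL (hSq : StSq) : StGL := by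
  intro X Γ _ _ ι O F hO hF hagr
  refine ⟨glue O F, ⟨fun a b p q H hH => glue_hom hSq hO hF hagr H hH, ?_⟩, ?_⟩
  · intro a b c p q hp hq
    have hpq := trans_mem hp hq
    obtain ⟨g, hg⟩ := pot_ex hO hF hagr (p.trans q) hpq
    let hf : I := ⟨1 / 2, by norm_num, by norm_num⟩
    have h1 := pot_aff p (p.trans q) 0 hf bot_le (fun u => by
      rw [Path.trans_apply]
      have hu : ((Icc.convexComb 0 hf u : I) : ℝ) = u / 2 := by
        rw [Icc.coe_convexComb]
        simp [hf]
        ring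
      have hu1 : (u : ℝ) ≤ 1 := u.2.2
      rw [dif_pos (by rw [hu]; linarith)]
      congr 1
      apply Subtype.ext
      show (u : ℝ) = 2 * ((Icc.convexComb 0 hf u : I) : ℝ)
      rw [hu]
      ring) hg
    have h2 := pot_aff q (p.trans q) hf 1 le_top (fun u => by
      have hu : ((Icc.convexComb hf 1 u : I) : ℝ) = (1 + u) / 2 := by
        rw [Icc.coe_convexComb]
        simp [hf]
        ring
      by_cases h0 : (u : ℝ) = 0
      · have hu0 : u = 0 := Subtype.ext h0
        subst hu0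
        rw [Icc.convexComb_zero, q.source, Path.trans_apply, dif_pos (le_refl (1 / 2 : ℝ))]
        have h3 : ∀ h, p ⟨2 * (1 / 2 : ℝ), h⟩ = b := by
          intro h
          have h4 : (⟨2 * (1 / 2 : ℝ), h⟩ : I) = 1 := by
            apply Subtype.ext
            show 2 * (1 / 2 : ℝ) = 1
            norm_num
          rw [h4, p.target]
        exact (h3 _).symm
      · have hu0 : 0 < (u : ℝ) := lt_of_le_of_ne u.2.1 (Ne.symm h0)
        rw [Path.trans_apply, dif_neg (by rw [hu]; linarith)]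
        congr 1
        apply Subtype.ext
        show (u : ℝ) = 2 * ((Icc.convexComb hf 1 u : I) : ℝ) - 1
        rw [hu]
        ring) hg
    rw [glue_val hO _ hpq hg, glue_val hO _ hp h1, glue_val hO _ hq h2]
    simp only [Icc.convexComb_zero, Icc.convexComb_one]
    group
  · intro i a b p hp
    have hp' : ∀ t, p t ∈ ⋃ i, O i := fun t => mem_iUnion.2 ⟨i, hp t⟩
    have hg : Pot O F p (fun t => F i _ _ (p.subpath 0 t)) 1 := by
      intro j s t hst _ hc
      have h1 : F j (p s) (p t) (p.subpath s t) = F i (p s) (p t) (p.subpath s t) :=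
        hagr j i _ _ _ fun v => ⟨sub_in hst hc v, hp _⟩
      rw [h1]
      simp only
      rw [sub_mul (hF i) p (r := 0) s.2.1 hst (fun u _ => hp u)]
      group
    rw [glue_val hO p hp' hg, Path.subpath_self, (hF i).refl (hp 0), Path.subpath_zero_one, F_cast (F i)]
    group

end CM

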