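import Pool.Agent.Helper59.CM.StMain

set_option autoImplicit false

namespace CM

open Set Topology unitInterval in
theorem pLev : StLev := by
  intro X _ T
  have hG : ∀ n, (T.lev n).G = T.G := by
    intro n
    induction n with
    | zero => rfl
    | succ n ih => show (T.lev n).G = T.G; exact ih
  have hmono : ∀ n, (T.lev n).K ⊆ interior (T.lev (n + 1)).K := fun n => (T.lev n).mono
  have hle : ∀ m n, m ≤ n → (T.lev m).K ⊆ (T.lev n).K := by
    intro m n hmn
    induction n, hmn using Nat.le_induction with
    | base => exact subset_rfl
    | succ n _ ih => exact ih.trans ((hmono n).trans interior_subset)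
  have hK : ∀ n, (T.lev n).K = (⇑T.G)^[n] '' T.K := by
    intro n
    induction n with
    | zero => simp [Tower.lev]
    | succ n ih =>
      show (T.lev n).G '' (T.lev n).K = _
      rw [hG, ih, Function.iterate_succ', image_comp]
  refine ⟨hG, hmono, hle, ?_⟩
  intro C hC
  obtain ⟨N, hN⟩ := hC.elim_directed_cover (fun n => interior (T.lev (n + 1)).K)
    (fun n => isOpen_interior) (by
      intro x _
      obtain ⟨n, hn⟩ := T.exhaust x
      rw [← hK n] at hn
      exact mem_iUnion.2 ⟨n, hmono n hn⟩)
    (by
      apply directed_of_isDirected_le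
      intro m n hmn
      exact interior_mono (hle _ _ (by omega)))
  exact ⟨N + 1, fun n hn => hN.trans (interior_subset.trans (hle _ _ hn))⟩

end CM
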