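import Pool.Agent.Helper59.CM.StPF

/-!
Project CM, module SQ (helper33): square lemma for path functors.
-/

set_option autoImplicit false

namespace CM

open Set Topology unitInterval

namespace SQ

theorem contr : ContractibleSpace (I × I) := by
  have : ContractibleSpace I := (convex_Icc (0 : ℝ) 1).contractibleSpace ⟨0, by simp⟩
  infer_instance

/-- bottom side -/
def g1 : Path ((0, 0) : I × I) (1, 0) where
  toFun t := (t, 0)
  continuous_toFun := by fun_prop
  source' := rfl
  target' := rfl

/-- right side -/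
def g2 : Path ((1, 0) : I × I) (1, 1) where
  toFun t := (1, t)
  continuous_toFun := by fun_prop
  source' := rfl
  target' := rfl

/-- left side -/
def g3 : Path ((0, 0) : I × I) (0, 1) where
  toFun t := (0, t)
  continuous_toFun := by fun_prop
  source' := rfl
  target' := rfl

/-- top side -/
def g4 : Path ((0, 1) : I × I) (1, 1) where
  toFun t := (t, 1)
  continuous_toFun := by fun_prop
  source' := rfl
  target' := rfl

end SQ

open SQ in
theorem pSq : StSq := by
  intro X Γ _ _ S F hF Q hQ a b c d p₁ p₂ p₃ p₄ h₁ h₂ h₃ h₄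
  obtain rfl : a = Q (0, 0) := by rw [← h₁ 0]; exact p₁.source.symm
  obtain rfl : b = Q (1, 0) := by rw [← h₁ 1]; exact p₁.target.symm
  obtain rfl : c = Q (0, 1) := by rw [← h₃ 1]; exact p₃.target.symm
  obtain rfl : d = Q (1, 1) := by rw [← h₂ 1]; exact p₂.target.symm
  have e₁ : p₁ = g1.map Q.continuous := by ext t; exact h₁ t
  have e₂ : p₂ = g2.map Q.continuous := by ext t; exact h₂ t
  have e₃ : p₃ = g3.map Q.continuous := by ext t; exact h₃ t
  have e₄ : p₄ = g4.map Q.continuous := by ext t; exact h₄ t
  have := contr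
  obtain ⟨H⟩ : Path.Homotopic (g1.trans g2) (g3.trans g4) :=
    SimplyConnectedSpace.paths_homotopic _ _
  rw [e₁, e₂, e₃, e₄]
  rw [← hF.trans _ _ _ _ _ (fun t => hQ _) (fun t => hQ _),
    ← hF.trans _ _ _ _ _ (fun t => hQ _) (fun t => hQ _), ← Path.map_trans, ← Path.map_trans]
  exact hF.hom _ _ _ _ (H.map Q) (fun x => hQ _)

end CM
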