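import Pool.Agent.Helper59.CM.StMain

/-!
Project CM (MP_e9500f_gt): module PAIR.
-/

set_option autoImplicit false

namespace CM

open Set Topology unitInterval

namespace PAIR

theorem hom_pf {X G H : Type} [TopologicalSpace X] [Group G] [Group H] {S : Set X}
    {F : PFun X G} (hF : IsPF S F) (φ : G →* H) : IsPF S (fun a b p => φ (F a b p)) :=
  ⟨fun a b p q Hh hH => by show φ _ = φ _; rw [hF.hom a b p q Hh hH],
    fun a b c p q hp hq => by
      show φ _ = φ _ * φ _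
      rw [hF.trans a b c p q hp hq, map_mul]⟩

theorem shift_K {X : Type} [TopologicalSpace X] (T : Tower X) : T.K ⊆ T.shift.K :=
  T.mono.trans interior_subset

theorem lev_K {X : Type} [TopologicalSpace X] (T : Tower X) (k : ℕ) : T.K ⊆ (T.lev k).K := by
  induction k with
  | zero => exact subset_rfl
  | succ k ih => exact ih.trans (shift_K (T.lev k))

theorem hom2_W1 {G : Type} [Group G] (a b : G) : hom2 a b (W1 xx yy) = W1 a b := by
  simp [W1, cm]

theorem hom2_W2 {G : Type} [Group G] (a b : G) : hom2 a b (W2 xx yy) = W2 a b := by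
  simp [W2, cm]

end PAIR

theorem pPair (h : StUniq) : StPair := by
  intro X _ T F hF
  have hR : IsPF T.Kᶜ (fun a b p => hom2 (F T.p T.p T.lx) (F T.p T.p T.ly) (T.Φ a b p)) :=
    PAIR.hom_pf T.Φ_pf _
  obtain ⟨g, -, hg⟩ := h X T _ F hR hF (by simp [T.Φx]) (by simp [T.Φy])
  have hsub : T.shift.Kᶜ ⊆ T.Kᶜ := compl_subset_compl.2 (PAIR.shift_K T)
  refine ⟨⟨g, hg⟩, (g (T.G T.p))⁻¹, ?_, ?_⟩
  · have := hg _ _ T.shift.lx (fun t => hsub (T.shift.lx_mem t))
    rw [this]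
    have e : T.Φ T.shift.p T.shift.p T.shift.lx = W1 xx yy := T.ΦGx
    rw [e, PAIR.hom2_W1, inv_inv]
    rfl
  · have := hg _ _ T.shift.ly (fun t => hsub (T.shift.ly_mem t))
    rw [this]
    have e : T.Φ T.shift.p T.shift.p T.shift.ly = W2 xx yy := T.ΦGy
    rw [e, PAIR.hom2_W2, inv_inv]
    rfl

theorem pSeq (h1 : StPair) (h2 : StChain) : StSeq := by
  intro X _ T h hF h0
  apply h2 (fun k => h _ _ (T.lev k).lx) (fun k => h _ _ (T.lev k).ly) _ h0
  intro k
  exact (h1 X (T.lev k) h (hF.mono (compl_subset_compl.2 (PAIR.lev_K T k)))).2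

theorem pRho1 (h1 : StMagnus) (h2 : StSeq) : StRho1 := by
  intro X _ T
  obtain ⟨A, B, -, -, hAB, hinj⟩ := h1
  have hpf : IsPF T.Kᶜ (fun a b p => hom2 A B (T.Φ a b p)) := PAIR.hom_pf T.Φ_pf _
  refine ⟨A, B, hinj, hpf, ?_⟩
  exact (h2 X T (fun a b p => hom2 A B (T.Φ a b p)) hpf (by simpa [T.Φx, T.Φy] using hAB)).1

end CM
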