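import Pool.Agent.Helper59.CM.StMain

/-!
Project CM (MP_e9500f_gt): a ball minus a closed set contained in finitely many segments.
-/

set_option autoImplicit false

namespace CM

open Set Topology unitInterval

namespace BALL

theorem span_ne_top (a b c : E3) : affineSpan ℝ ({a, b, c} : Set E3) ≠ ⊤ := by
  intro h
  have h1 : Coplanar ℝ ({a, b, c} : Set E3) := (collinear_pair ℝ b c).coplanar_insert a
  have h2 := h1.finrank_le_two
  have h3 : vectorSpan ℝ ({a, b, c} : Set E3) = ⊤ := by
    rw [← direction_affineSpan, h, AffineSubspace.direction_top]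
  rw [h3] at h2
  simp at h2

theorem exists_avoid (O : Set E3) (hO : IsOpen O) (hne : O.Nonempty)
    (F : Finset (AffineSubspace ℝ E3)) (hF : ∀ A ∈ F, A ≠ ⊤) :
    ∃ m ∈ O, ∀ A ∈ F, m ∉ A := by
  by_contra hcon
  push Not at hcon
  have h1 : O ⊆ ⋃ A ∈ F, (A : Set E3) := by
    intro m hm
    obtain ⟨A, hA, hmA⟩ := hcon m hm
    simp only [mem_iUnion]
    exact ⟨A, hA, hmA⟩
  have h2 : MeasureTheory.volume (⋃ A ∈ F, (A : Set E3)) = 0 := by
    refine (MeasureTheory.measure_biUnion_null_iff (Finset.countable_toSet F)).2 ?_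
    intro A hA
    exact MeasureTheory.Measure.addHaar_affineSubspace _ A (hF A hA)
  have h3 : 0 < MeasureTheory.volume O := hO.measure_pos _ hne
  exact absurd (MeasureTheory.measure_mono_null h1 h2) h3.ne'

/-- segments from `a` to `m` avoid the segment `[u, v]` if `a ∉ [u, v]` and `m` is not in the
span -/
theorem avoid_seg {a m u v z : E3} (ha : a ∉ segment ℝ u v)
    (hm : m ∉ affineSpan ℝ ({a, u, v} : Set E3)) (hz : z ∈ segment ℝ a m) :
    z ∉ segment ℝ u v := by
  intro hz'
  have haS : a ∈ affineSpan ℝ ({a, u, v} : Set E3) := subset_affineSpan ℝ _ (by simp)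
  have huS : u ∈ affineSpan ℝ ({a, u, v} : Set E3) := subset_affineSpan ℝ _ (by simp)
  have hvS : v ∈ affineSpan ℝ ({a, u, v} : Set E3) := subset_affineSpan ℝ _ (by simp)
  have hzS : z ∈ affineSpan ℝ ({a, u, v} : Set E3) :=
    (affineSpan ℝ ({a, u, v} : Set E3)).convex.segment_subset huS hvS hz'
  obtain ⟨t, ht, rfl⟩ : ∃ t : ℝ, t ∈ Set.Icc (0 : ℝ) 1 ∧ AffineMap.lineMap a m t = z := by
    rw [segment_eq_image_lineMap] at hz
    exact hz
  have ht0 : t ≠ 0 := by
    rintro rfl
    rw [AffineMap.lineMap_apply_zero] at hz'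
    exact ha hz'
  apply hm
  have h1 : AffineMap.lineMap a (AffineMap.lineMap a m t) t⁻¹ = m := by
    rw [AffineMap.lineMap_apply, AffineMap.lineMap_apply]
    simp only [vsub_eq_sub, vadd_eq_add, add_sub_cancel_right, smul_smul]
    rw [inv_mul_cancel₀ ht0, one_smul, sub_add_cancel]
  rw [← h1]
  exact AffineMap.lineMap_mem _ haS hzS

end BALL

open BALL in
theorem pBall : StBall := by
  classical
  intro B L c r hB hBL
  -- a point of an open set outside all segments
  have hpt : ∀ O : Set E3, IsOpen O → O.Nonempty → ∃ m ∈ O, ∀ l ∈ L, m ∉ segment ℝ l.1 l.2 := by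
    intro O hO hne
    obtain ⟨m, hm, hm2⟩ := exists_avoid O hO hne
      (L.image fun l => affineSpan ℝ ({l.1, l.1, l.2} : Set E3)) (by
        intro A hA
        obtain ⟨l, -, rfl⟩ := Finset.mem_image.1 hA
        exact span_ne_top _ _ _)
    refine ⟨m, hm, fun l hl hml => ?_⟩
    refine hm2 _ (Finset.mem_image_of_mem _ hl) ?_
    exact (affineSpan ℝ ({l.1, l.1, l.2} : Set E3)).convex.segment_subset
      (subset_affineSpan ℝ _ (by simp)) (subset_affineSpan ℝ _ (by simp)) hml
  have hgood : ∀ m ∈ Metric.ball c r, (∀ l ∈ L, m ∉ segment ℝ l.1 l.2) → m ∈ Metric.ball c r \ B := by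
    intro m hm hm2
    refine ⟨hm, fun hmB => ?_⟩
    have := hBL ⟨hmB, hm⟩
    simp only [mem_iUnion] at this
    obtain ⟨l, hl, hml⟩ := this
    exact hm2 l hl hml
  refine ⟨?_, ?_⟩
  · -- joined
    have hU : IsOpen (Metric.ball c r \ B) := Metric.isOpen_ball.sdiff hB
    have hmove : ∀ a ∈ Metric.ball c r \ B, ∃ a' ∈ Metric.ball c r \ B,
        (∀ l ∈ L, a' ∉ segment ℝ l.1 l.2) ∧ JoinedIn (Metric.ball c r \ B) a a' := by
      intro a ha
      obtain ⟨ε, hε, hball⟩ := Metric.isOpen_iff.1 hU a ha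
      obtain ⟨a', ha', ha'2⟩ := hpt (Metric.ball a ε) Metric.isOpen_ball
        ⟨a, Metric.mem_ball_self hε⟩
      refine ⟨a', hball ha', ha'2, JoinedIn.of_segment_subset ?_⟩
      exact ((convex_ball a ε).segment_subset (Metric.mem_ball_self hε) ha').trans hball
    intro a ha b hb
    obtain ⟨a', ha', ha2, hja⟩ := hmove a ha
    obtain ⟨b', hb', hb2, hjb⟩ := hmove b hb
    obtain ⟨m, hm, hm2⟩ := exists_avoid (Metric.ball c r) Metric.isOpen_ball ⟨a, ha.1⟩
      ((L.image fun l => affineSpan ℝ ({a', l.1, l.2} : Set E3)) ∪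
        (L.image fun l => affineSpan ℝ ({b', l.1, l.2} : Set E3))) (by
        intro A hA
        rcases Finset.mem_union.1 hA with hA | hA
        · obtain ⟨l, -, rfl⟩ := Finset.mem_image.1 hA
          exact span_ne_top _ _ _
        · obtain ⟨l, -, rfl⟩ := Finset.mem_image.1 hA
          exact span_ne_top _ _ _)
    have h1 : segment ℝ a' m ⊆ Metric.ball c r \ B := by
      intro z hz
      refine hgood z ((convex_ball c r).segment_subset ha'.1 hm hz) fun l hl => ?_
      exact avoid_seg (ha2 l hl) (hm2 _ (Finset.mem_union_left _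
        (Finset.mem_image_of_mem _ hl))) hz
    have h2 : segment ℝ b' m ⊆ Metric.ball c r \ B := by
      intro z hz
      refine hgood z ((convex_ball c r).segment_subset hb'.1 hm hz) fun l hl => ?_
      exact avoid_seg (hb2 l hl) (hm2 _ (Finset.mem_union_right _
        (Finset.mem_image_of_mem _ hl))) hz
    exact ((hja.trans (JoinedIn.of_segment_subset h1)).trans
      (JoinedIn.of_segment_subset h2).symm).trans hjb.symm
  · -- dense
    intro x hx
    rw [Metric.mem_closure_iff]
    intro ε hε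
    obtain ⟨m, hm, hm2⟩ := hpt (Metric.ball c r ∩ Metric.ball x ε)
      (Metric.isOpen_ball.inter Metric.isOpen_ball) ⟨x, hx, Metric.mem_ball_self hε⟩
    refine ⟨m, hgood m hm.1 hm2, ?_⟩
    rw [dist_comm]
    exact hm.2

end CM
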