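import Pool.Agent.Helper59.CM.StGeo

set_option autoImplicit false

namespace CM

namespace BB

open Set Topology

theorem bump_lip (c q q' : ℂ) : |bump c q - bump c q'| ≤ ‖q - q'‖ / 11 := by
  unfold bump
  have h1 : |max 0 (1 - ‖q - c‖ / 11) - max 0 (1 - ‖q' - c‖ / 11)| ≤
      |(1 - ‖q - c‖ / 11) - (1 - ‖q' - c‖ / 11)| := by
    have := abs_max_sub_max_le_max (0 : ℝ) (1 - ‖q - c‖ / 11) 0 (1 - ‖q' - c‖ / 11)
    simpa using this
  refine h1.trans ?_
  have h2 : |‖q' - c‖ - ‖q - c‖| ≤ ‖(q' - c) - (q - c)‖ := abs_norm_sub_norm_le _ _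
  have h3 : (q' - c) - (q - c) = -(q - q') := by ring
  rw [h3, norm_neg] at h2
  have h4 : (1 - ‖q - c‖ / 11) - (1 - ‖q' - c‖ / 11) = (‖q' - c‖ - ‖q - c‖) / 11 := by ring
  rw [h4, abs_div, abs_of_pos (by norm_num : (0 : ℝ) < 11)]
  gcongr

theorem bump_nonneg (c q : ℂ) : 0 ≤ bump c q := le_max_left _ _

theorem bump_le_one (c q : ℂ) : bump c q ≤ 1 := by
  unfold bump
  apply max_le zero_le_one
  have := norm_nonneg (q - c)
  linarith

theorem bump_self (c : ℂ) : bump c c = 1 := by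
  unfold bump; simp

theorem bump_far (c q : ℂ) (h : 11 ≤ ‖q - c‖) : bump c q = 0 := by
  unfold bump
  apply max_eq_left
  linarith

/-- the basic estimate -/
theorem est (c r r' w w' : ℂ) (hr : ‖r - c‖ ≤ 8) :
    ‖w - w'‖ ≤ 11 / 3 * (‖bb c r w - bb c r' w'‖ + ‖r - r'‖) := by
  have h1 : w - w' = (bb c r w - bb c r' w') - ((bump c w - bump c w' : ℝ) : ℂ) * (r - c)
      - (bump c w' : ℂ) * (r - r') := by
    unfold bb; push_cast; ring
  have h2 : ‖((bump c w - bump c w' : ℝ) : ℂ) * (r - c)‖ ≤ ‖w - w'‖ / 11 * 8 := by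
    rw [norm_mul, Complex.norm_real, Real.norm_eq_abs]
    have := bump_lip c w w'
    gcongr
  have h3 : ‖(bump c w' : ℂ) * (r - r')‖ ≤ ‖r - r'‖ := by
    rw [norm_mul, Complex.norm_real, Real.norm_eq_abs, abs_of_nonneg (bump_nonneg _ _)]
    exact mul_le_of_le_one_left (norm_nonneg _) (bump_le_one _ _)
  have h4 : ‖w - w'‖ ≤ ‖bb c r w - bb c r' w'‖ +
      ‖((bump c w - bump c w' : ℝ) : ℂ) * (r - c)‖ + ‖(bump c w' : ℂ) * (r - r')‖ := by
    calc ‖w - w'‖ = ‖(bb c r w - bb c r' w') - ((bump c w - bump c w' : ℝ) : ℂ) * (r - c)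
          - (bump c w' : ℂ) * (r - r')‖ := by rw [← h1]
      _ ≤ ‖(bb c r w - bb c r' w') - ((bump c w - bump c w' : ℝ) : ℂ) * (r - c)‖ +
          ‖(bump c w' : ℂ) * (r - r')‖ := norm_sub_le _ _
      _ ≤ _ := by gcongr; exact norm_sub_le _ _
  linarith

theorem exi (c r q : ℂ) (hr : ‖r - c‖ ≤ 8) : ∃ w, bb c r w = q := by
  set T : ℂ → ℂ := fun w => q - (bump c w : ℂ) * (r - c) with hT
  have hL : LipschitzWith (8 / 11) T := by
    apply LipschitzWith.of_dist_le_mul
    intro w w'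
    rw [dist_eq_norm, dist_eq_norm]
    have h1 : T w - T w' = -(((bump c w - bump c w' : ℝ) : ℂ) * (r - c)) := by
      simp only [hT]; push_cast; ring
    rw [h1, norm_neg, norm_mul, Complex.norm_real, Real.norm_eq_abs]
    have h2 := bump_lip c w w'
    have h3 : |bump c w - bump c w'| * ‖r - c‖ ≤ ‖w - w'‖ / 11 * 8 := by gcongr
    have h4 : (((8 / 11 : NNReal)) : ℝ) = 8 / 11 := by norm_num
    rw [h4]
    linarith
  have hK : ContractingWith (8 / 11) T := ⟨by
    rw [← NNReal.coe_lt_coe]; norm_num, hL⟩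
  refine ⟨hK.fixedPoint, ?_⟩
  have := hK.fixedPoint_isFixedPt
  have h1 : q - (bump c hK.fixedPoint : ℂ) * (r - c) = hK.fixedPoint := this
  unfold bb
  nth_rewrite 1 [← h1]
  ring

end BB

open BB Set Topology in
theorem pBB : StBB := by
  intro c
  have hex : ∀ p : ℂ × ℂ, ∃ w, ‖p.1 - c‖ ≤ 8 → bb c p.1 w = p.2 := by
    intro p
    by_cases h : ‖p.1 - c‖ ≤ 8
    · obtain ⟨w, hw⟩ := exi c p.1 p.2 h
      exact ⟨w, fun _ => hw⟩
    · exact ⟨0, fun h' => absurd h' h⟩
  choose e he using hex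
  have hmem : ∀ r ∈ Metric.closedBall c 8, ‖r - c‖ ≤ 8 := by
    intro r hr
    rwa [Metric.mem_closedBall, dist_eq_norm] at hr
  have hinj : ∀ r w w', ‖r - c‖ ≤ 8 → bb c r w = bb c r w' → w = w' := by
    intro r w w' hr h
    have := est c r r w w' hr
    rw [h, sub_self, sub_self, norm_zero, add_zero, mul_zero] at this
    exact sub_eq_zero.1 (norm_le_zero_iff.1 this)
  refine ⟨e, ?_, ?_⟩
  · have hL : LipschitzOnWith (22 / 3) e (Metric.closedBall c 8 ×ˢ univ) := by
      apply LipschitzOnWith.of_dist_le_mul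
      rintro ⟨r, q⟩ ⟨hr, _⟩ ⟨r', q'⟩ ⟨hr', _⟩
      have hr0 := hmem r hr
      have hr0' := hmem r' hr'
      have h1 := est c r r' (e (r, q)) (e (r', q')) hr0
      rw [he (r, q) hr0, he (r', q') hr0'] at h1
      simp only at h1
      rw [dist_eq_norm, Prod.dist_eq]
      simp only [dist_eq_norm]
      have h4 : (((22 / 3 : NNReal)) : ℝ) = 22 / 3 := by norm_num
      rw [h4]
      have h2 : ‖r - r'‖ ≤ max ‖r - r'‖ ‖q - q'‖ := le_max_left _ _
      have h3 : ‖q - q'‖ ≤ max ‖r - r'‖ ‖q - q'‖ := le_max_right _ _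
      linarith
    exact hL.continuousOn
  · intro r hr q
    have hr0 := hmem r hr
    have h1 : bb c r (e (r, q)) = q := he (r, q) hr0
    have hfar : ∀ w, 11 ≤ ‖w - c‖ → bb c r w = w := by
      intro w hw
      unfold bb
      rw [bump_far c w hw]; simp
    have hc : bb c r c = r := by
      unfold bb
      rw [bump_self]; simp
    refine ⟨h1, ?_, ?_, ?_, ?_, ?_⟩
    · exact hinj r _ _ hr0 (he (r, bb c r q) hr0)
    · intro hq
      exact hinj r _ _ hr0 (h1.trans (hfar q hq).symm)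
    · intro hq
      by_contra hcon
      push Not at hcon
      have h2 := hfar _ hcon
      rw [h1] at h2
      rw [← h2] at hcon
      linarith
    · have h2 : q - r = (e (r, q) - c) + ((bump c (e (r, q)) - bump c c : ℝ) : ℂ) * (r - c) := by
        nth_rewrite 1 [← h1]
        unfold bb
        rw [bump_self]
        push_cast
        ring
      have h3 : ‖((bump c (e (r, q)) - bump c c : ℝ) : ℂ) * (r - c)‖ ≤
          ‖e (r, q) - c‖ / 11 * 8 := by
        rw [norm_mul, Complex.norm_real, Real.norm_eq_abs]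
        have := bump_lip c (e (r, q)) c
        gcongr
      have h4 : ‖q - r‖ ≤ ‖e (r, q) - c‖ +
          ‖((bump c (e (r, q)) - bump c c : ℝ) : ℂ) * (r - c)‖ := by
        rw [h2]; exact norm_add_le _ _
      have := norm_nonneg (e (r, q) - c)
      linarith
    · constructor
      · intro h hqr
        apply h
        rw [sub_eq_zero]
        exact hinj r _ _ hr0 (by rw [h1, hc, hqr])
      · intro h hec
        apply h
        rw [sub_eq_zero] at hec
        rw [← h1, hec, hc]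

end CM
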