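import Pool.Agent.Helper59.CM.StGeo

/-!
Project CM (MP_e9500f_gt), module BF: `Bf` is a homeomorphism.
-/

set_option autoImplicit false

namespace CM

open Set Topology unitInterval Complex

namespace BF

theorem bb_self (c q : ℂ) : bb c c q = q := by simp [bb]

theorem ext_mem {c : ℂ} (p : Path c c) (hp : ∀ t, p t ∈ TT c) (s : ℝ) :
    p.extend s ∈ Metric.closedBall c 8 := by
  have h1 : p.extend s ∈ range p.extend := ⟨s, rfl⟩
  rw [Path.extend_range] at h1
  obtain ⟨t, ht⟩ := h1
  rw [← ht, Metric.mem_closedBall, dist_eq_norm]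
  exact (hp t).1

theorem continuous_bump (c : ℂ) : Continuous (bump c) := by
  unfold bump; fun_prop

theorem continuous_Bf : Continuous Bf := by
  unfold Bf psi
  have h1 := continuous_bump q1
  have h2 := continuous_bump q2
  have h3 : Continuous gam1.extend := gam1.continuous_extend
  have h4 : Continuous gam2.extend := gam2.continuous_extend
  fun_prop

theorem Bf_neg (s : ℝ) (q : ℂ) (hs : s ≤ 0) :
    Bf (s, q) = (s, bb q1 (gam1.extend (s + 2)) q) := by
  have h : gam2.extend (s - 1) = q2 := gam2.extend_of_le_zero (by linarith)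
  simp only [Bf, psi, bb, h, sub_self, mul_zero, add_zero]

theorem Bf_pos (s : ℝ) (q : ℂ) (hs : 0 ≤ s) :
    Bf (s, q) = (s, bb q2 (gam2.extend (s - 1)) q) := by
  have h : gam1.extend (s + 2) = q1 := gam1.extend_of_one_le (by linarith)
  simp only [Bf, psi, bb, h, sub_self, mul_zero, zero_add]

theorem Bf_id (s : ℝ) (q : ℂ) (hs : |s| ≤ 1 ∨ 2 ≤ |s|) : Bf (s, q) = (s, q) := by
  rcases le_total s 0 with h0 | h0
  · rw [Bf_neg s q h0]
    have h : gam1.extend (s + 2) = q1 := by
      rw [abs_of_nonpos h0] at hs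
      rcases hs with h | h
      · exact gam1.extend_of_one_le (by linarith)
      · exact gam1.extend_of_le_zero (by linarith)
    rw [h, bb_self]
  · rw [Bf_pos s q h0]
    have h : gam2.extend (s - 1) = q2 := by
      rw [abs_of_nonneg h0] at hs
      rcases hs with h | h
      · exact gam2.extend_of_le_zero (by linarith)
      · exact gam2.extend_of_one_le (by linarith)
    rw [h, bb_self]

end BF

open BF in
theorem pBf (h1 : StBB) (h2 : StGam) : StBf := by
  refine ⟨?_, fun s q hs => Bf_neg s q hs, fun s q hs => Bf_pos s q hs,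
    fun s q hs => Bf_id s q hs⟩
  obtain ⟨e₁, he₁c, he₁⟩ := h1 q1
  obtain ⟨e₂, he₂c, he₂⟩ := h1 q2
  have hg1 := ext_mem gam1 h2.2.2.2.2.1
  have hg2 := ext_mem gam2 h2.2.2.2.2.2
  have hc1 : q1 ∈ Metric.closedBall q1 8 := by simp
  have hc2 : q2 ∈ Metric.closedBall q2 8 := by simp
  have e1id : ∀ q, e₁ (q1, q) = q := fun q => by
    have := (he₁ q1 hc1 q).2.1
    rwa [bb_self] at this
  have e2id : ∀ q, e₂ (q2, q) = q := fun q => by
    have := (he₂ q2 hc2 q).2.1
    rwa [bb_self] at this
  let g : E → E := fun p => if p.1 ≤ 0 then (p.1, e₁ (gam1.extend (p.1 + 2), p.2))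
    else (p.1, e₂ (gam2.extend (p.1 - 1), p.2))
  have hgc : Continuous g := by
    apply Continuous.if_le
    · have : Continuous fun p : E => e₁ (gam1.extend (p.1 + 2), p.2) := by
        apply he₁c.comp_continuous (f := fun p : E => (gam1.extend (p.1 + 2), p.2))
        · have h3 : Continuous gam1.extend := gam1.continuous_extend
          fun_prop
        · intro p; exact ⟨hg1 _, mem_univ _⟩
      exact continuous_fst.prodMk this
    · have : Continuous fun p : E => e₂ (gam2.extend (p.1 - 1), p.2) := by
        apply he₂c.comp_continuous (f := fun p : E => (gam2.extend (p.1 - 1), p.2))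
        · have h3 : Continuous gam2.extend := gam2.continuous_extend
          fun_prop
        · intro p; exact ⟨hg2 _, mem_univ _⟩
      exact continuous_fst.prodMk this
    · fun_prop
    · fun_prop
    · intro p hp
      have ha : gam1.extend (p.1 + 2) = q1 := gam1.extend_of_one_le (by linarith)
      have hb : gam2.extend (p.1 - 1) = q2 := gam2.extend_of_le_zero (by linarith)
      rw [ha, hb, e1id, e2id]
  refine ⟨{ toFun := Bf, invFun := g, left_inv := ?_, right_inv := ?_,
            continuous_toFun := continuous_Bf, continuous_invFun := hgc }, rfl⟩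
  · rintro ⟨s, q⟩
    rcases le_or_gt s 0 with h0 | h0
    · rw [Bf_neg s q h0]
      simp only [g, if_pos h0]
      rw [(he₁ _ (hg1 _) q).2.1]
    · rw [Bf_pos s q h0.le]
      simp only [g, if_neg (not_le.mpr h0)]
      rw [(he₂ _ (hg2 _) q).2.1]
  · rintro ⟨s, q⟩
    rcases le_or_gt s 0 with h0 | h0
    · simp only [g, if_pos h0]
      rw [Bf_neg s _ h0, (he₁ _ (hg1 _) q).1]
    · simp only [g, if_neg (not_le.mpr h0)]
      rw [Bf_pos s _ h0.le, (he₂ _ (hg2 _) q).1]

end CM
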