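import Pool.Agent.Helper59.CM.StMain

set_option autoImplicit false

namespace CM

open Set Topology unitInterval

namespace BOX

/-- upper half space -/
def up (i : Fin 3) (R : ℝ) : Set E3 := {y | R < y i}

/-- lower half space -/
def dn (i : Fin 3) (R : ℝ) : Set E3 := {y | y i < -R}

theorem cont_apply (i : Fin 3) : Continuous fun y : E3 => y i := by fun_prop

theorem isOpen_up (i : Fin 3) (R : ℝ) : IsOpen (up i R) :=
  isOpen_lt continuous_const (cont_apply i)

theorem isOpen_dn (i : Fin 3) (R : ℝ) : IsOpen (dn i R) :=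
  isOpen_lt (cont_apply i) continuous_const

theorem convex_up (i : Fin 3) (R : ℝ) : Convex ℝ (up i R) := by
  intro x hx y hy a b ha hb hab
  simp only [up, mem_ofPred_eq] at *
  show R < (a • x + b • y) i
  have h1 : (a • x + b • y) i = a * x i + b * y i := by simp
  rw [h1]
  rcases eq_or_lt_of_le ha with h0 | h0
  · have hb1 : b = 1 := by linarith
    subst h0; subst hb1; linarith
  · have e : R = a * R + b * R := by rw [← add_mul, hab, one_mul]
    have h2 := mul_lt_mul_of_pos_left hx h0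
    have h3 := mul_le_mul_of_nonneg_left hy.le hb
    linarith

theorem convex_dn (i : Fin 3) (R : ℝ) : Convex ℝ (dn i R) := by
  intro x hx y hy a b ha hb hab
  simp only [dn, mem_ofPred_eq] at *
  show (a • x + b • y) i < -R
  have h1 : (a • x + b • y) i = a * x i + b * y i := by simp
  rw [h1]
  rcases eq_or_lt_of_le ha with h0 | h0
  · have hb1 : b = 1 := by linarith
    subst h0; subst hb1; linarith
  · have e : -R = a * -R + b * -R := by rw [← add_mul, hab, one_mul]
    have h2 := mul_lt_mul_of_pos_left hx h0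
    have h3 := mul_le_mul_of_nonneg_left hy.le hb
    linarith

theorem up_sub (i : Fin 3) (R : ℝ) : up i R ⊆ VV R := by
  intro y hy h
  have h1 := h i
  have h2 : R < y i := hy
  exact absurd (le_trans (le_abs_self _) h1) (not_le.mpr h2)

theorem dn_sub (i : Fin 3) (R : ℝ) : dn i R ⊆ VV R := by
  intro y hy h
  have h1 := h i
  have h2 : y i < -R := hy
  have h3 := neg_abs_le (y i)
  linarith

theorem mem_VV {R : ℝ} {y : E3} (h : y ∈ VV R) : ∃ i, y ∈ up i R ∨ y ∈ dn i R := by
  simp only [VV, box, mem_compl_iff, mem_ofPred_eq, not_forall, not_le] at h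
  obtain ⟨i, hi⟩ := h
  rcases lt_abs.mp hi with h1 | h1
  · exact ⟨i, Or.inl h1⟩
  · exact ⟨i, Or.inr (by show y i < -R; linarith)⟩

/-- point with prescribed coordinates -/
noncomputable def mk (a b c : ℝ) : E3 := !₂[a, b, c]

theorem mk0 (a b c : ℝ) : mk a b c 0 = a := by simp [mk]
theorem mk1 (a b c : ℝ) : mk a b c 1 = b := by simp [mk]
theorem mk2 (a b c : ℝ) : mk a b c 2 = c := by simp [mk]

/-- base point -/
noncomputable def bp (R : ℝ) : E3 := mk (R + 1) (R + 1) (R + 1)

theorem bp_apply (R : ℝ) (i : Fin 3) : bp R i = R + 1 := by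
  fin_cases i
  · exact mk0 _ _ _
  · exact mk1 _ _ _
  · exact mk2 _ _ _

theorem bp_mem (R : ℝ) (i : Fin 3) : bp R ∈ up i R := by
  show R < bp R i
  rw [bp_apply]; linarith

theorem join_up {R : ℝ} {x : E3} {i : Fin 3} (h : x ∈ up i R) : JoinedIn (VV R) x (bp R) :=
  JoinedIn.of_segment_subset
    (((convex_up i R).segment_subset h (bp_mem R i)).trans (up_sub i R))

/-- the point with coordinate `-(R+1)` at `i`, the other coordinates `R + 1` -/
noncomputable def cp' (R : ℝ) (i : Fin 3) : E3 :=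
  WithLp.toLp 2 (fun j => if j = i then -(R + 1) else R + 1)

theorem cp'_same (R : ℝ) (i : Fin 3) : cp' R i i = -(R + 1) := by simp [cp']

theorem cp'_ne (R : ℝ) (i j : Fin 3) (h : j ≠ i) : cp' R i j = R + 1 := by simp [cp', h]

theorem join_dn {R : ℝ} {x : E3} {i : Fin 3} (h : x ∈ dn i R) : JoinedIn (VV R) x (bp R) := by
  obtain ⟨j, hj⟩ : ∃ j : Fin 3, j ≠ i := by
    by_cases h0 : i = 0
    · exact ⟨1, by rw [h0]; decide⟩
    · exact ⟨0, fun h1 => h0 h1.symm⟩
  have h1 : cp' R i ∈ dn i R := by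
    show cp' R i i < -R
    rw [cp'_same]; linarith
  have h2 : cp' R i ∈ up j R := by
    show R < cp' R i j
    rw [cp'_ne R i j hj]; linarith
  have h3 : JoinedIn (VV R) x (cp' R i) := JoinedIn.of_segment_subset
    (((convex_dn i R).segment_subset h h1).trans (dn_sub i R))
  exact h3.trans (join_up h2)

theorem jn_VV (R : ℝ) : Jn (VV R) := by
  have key : ∀ x ∈ VV R, JoinedIn (VV R) x (bp R) := by
    intro x hx
    obtain ⟨i, h | h⟩ := mem_VV hx
    · exact join_up h
    · exact join_dn h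
  intro x hx y hy
  exact (key x hx).trans (key y hy).symm

theorem isClosed_box (R : ℝ) : IsClosed (box R) := by
  have : box R = ⋂ i, {y : E3 | |y i| ≤ R} := by
    ext y; simp [box]
  rw [this]
  exact isClosed_iInter fun i => isClosed_le (cont_apply i).abs continuous_const

theorem isCompact_box (R : ℝ) : IsCompact (box R) := by
  refine Metric.isCompact_of_isClosed_isBounded (isClosed_box R) ?_
  refine (Metric.isBounded_closedBall (x := (0 : E3)) (r := 3 * |R|)).subset ?_
  intro y hy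
  rw [mem_closedBall_zero_iff]
  have h1 : ‖y‖ ^ 2 ≤ (3 * |R|) ^ 2 := by
    rw [EuclideanSpace.norm_sq_eq, Fin.sum_univ_three]
    have h2 : ∀ i, ‖y i‖ ^ 2 ≤ |R| ^ 2 := by
      intro i
      rw [Real.norm_eq_abs]
      exact pow_le_pow_left₀ (abs_nonneg _) ((hy i).trans (le_abs_self _)) 2
    have := h2 0
    have := h2 1
    have := h2 2
    nlinarith [sq_nonneg |R|]
  exact (sq_le_sq₀ (norm_nonneg _) (by positivity)).mp h1

theorem compact_sub (C : Set E3) (hC : IsCompact C) : ∃ R : ℝ, 0 ≤ R ∧ C ⊆ box R := by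
  obtain ⟨R, hR⟩ := hC.isBounded.subset_closedBall (0 : E3)
  refine ⟨max R 0, le_max_right _ _, ?_⟩
  intro y hy i
  have h1 := hR hy
  rw [mem_closedBall_zero_iff] at h1
  have h2 : ‖y i‖ ≤ ‖y‖ := PiLp.norm_apply_le y i
  rw [Real.norm_eq_abs] at h2
  exact h2.trans (h1.trans (le_max_left _ _))

/-- poles -/
def AA (R : ℝ) : Fin 2 → Set E3 := ![up 2 R, dn 2 R]

/-- ring -/
def CC (R : ℝ) : Fin 4 → Set E3 := ![up 0 R, up 1 R, dn 0 R, dn 1 R]

theorem VV_eq (R : ℝ) : VV R = AA R 0 ∪ AA R 1 ∪ ⋃ i, CC R i := by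
  apply Subset.antisymm
  · intro y hy
    obtain ⟨i, h⟩ := mem_VV hy
    fin_cases i
    · rcases h with h | h
      · exact Or.inr (mem_iUnion.mpr ⟨0, h⟩)
      · exact Or.inr (mem_iUnion.mpr ⟨2, h⟩)
    · rcases h with h | h
      · exact Or.inr (mem_iUnion.mpr ⟨1, h⟩)
      · exact Or.inr (mem_iUnion.mpr ⟨3, h⟩)
    · rcases h with h | h
      · exact Or.inl (Or.inl h)
      · exact Or.inl (Or.inr h)
  · refine union_subset (union_subset (up_sub _ _) (dn_sub _ _)) (iUnion_subset ?_)
    intro i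
    fin_cases i
    · exact up_sub _ _
    · exact up_sub _ _
    · exact dn_sub _ _
    · exact dn_sub _ _

theorem up_dn (i : Fin 3) {R : ℝ} (hR : 0 ≤ R) : up i R ∩ dn i R = ∅ := by
  ext y
  simp only [up, dn, mem_inter_iff, mem_ofPred_eq, mem_empty_iff_false, iff_false, not_and, not_lt]
  intro h; linarith

theorem pfe_VV (h : StShell) {R : ℝ} (hR : 0 ≤ R) (Γ : Type) [Group Γ] : PFE Γ (VV R) := by
  intro F hF
  rw [VV_eq R] at hF ⊢
  refine h E3 Γ (AA R) (CC R) F ?_ ?_ ?_ ?_ (up_dn 2 hR) (up_dn 0 hR) (up_dn 1 hR) ?_ ?_ hF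
  · intro i; fin_cases i
    · exact isOpen_up _ _
    · exact isOpen_dn _ _
  · intro i; fin_cases i
    · exact convex_up _ _
    · exact convex_dn _ _
  · intro i; fin_cases i
    · exact isOpen_up _ _
    · exact isOpen_up _ _
    · exact isOpen_dn _ _
    · exact isOpen_dn _ _
  · intro i; fin_cases i
    · exact convex_up _ _
    · exact convex_up _ _
    · exact convex_dn _ _
    · exact convex_dn _ _
  · intro i j
    refine ⟨mk (![R + 1, 0, -(R + 1), 0] j) (![0, R + 1, 0, -(R + 1)] j)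
      (![R + 1, -(R + 1)] i), ?_, ?_⟩
    · fin_cases i
      · show R < mk _ _ _ 2
        rw [mk2]; simp
      · show mk _ _ _ 2 < -R
        rw [mk2]; simp
    · fin_cases j
      · show R < mk _ _ _ 0
        rw [mk0]; simp
      · show R < mk _ _ _ 1
        rw [mk1]; simp
      · show mk _ _ _ 0 < -R
        rw [mk0]; simp
      · show mk _ _ _ 1 < -R
        rw [mk1]; simp
  · intro i j
    refine ⟨mk (![R + 1, -(R + 1), -(R + 1), R + 1] j) (![R + 1, R + 1, -(R + 1), -(R + 1)] j)
      (![R + 1, -(R + 1)] i), ⟨?_, ?_⟩, ?_⟩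
    · fin_cases i
      · show R < mk _ _ _ 2
        rw [mk2]; simp
      · show mk _ _ _ 2 < -R
        rw [mk2]; simp
    · fin_cases j
      · show R < mk _ _ _ 0
        rw [mk0]; simp
      · show R < mk _ _ _ 1
        rw [mk1]; simp
      · show mk _ _ _ 0 < -R
        rw [mk0]; simp
      · show mk _ _ _ 1 < -R
        rw [mk1]; simp
    · fin_cases j
      · show R < mk _ _ _ 1
        rw [mk1]; simp
      · show mk _ _ _ 0 < -R
        rw [mk0]; simp
      · show mk _ _ _ 1 < -R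
        rw [mk1]; simp
      · show R < mk _ _ _ 0
        rw [mk0]; simp

end BOX

theorem pBox (h : StShell) : StBox := by
  refine ⟨fun R hR => ⟨(BOX.isClosed_box R).isOpen_compl, BOX.isCompact_box R, BOX.jn_VV R,
    ⟨BOX.bp R, BOX.up_sub 0 R (BOX.bp_mem R 0)⟩, fun Γ _ => BOX.pfe_VV h hR Γ⟩,
    BOX.compact_sub, fun R hR C hC => ?_⟩
  obtain ⟨R', hR', hC'⟩ := BOX.compact_sub C hC
  refine ⟨BOX.bp (max R R'), ?_, ?_⟩
  · apply BOX.up_sub 0 R
    show R < BOX.bp _ 0
    rw [BOX.bp_apply]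
    have := le_max_left R R'
    linarith
  · intro hy
    have h1 := hC' hy 0
    rw [BOX.bp_apply] at h1
    have h2 := le_max_right R R'
    have h3 := le_abs_self (max R R' + 1)
    linarith

end CM
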