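import Pool.Agent.Helper59.CM.StAlg

/-!
Project CM (MP_e9500f_gt): module CHAIN (helper76).  Sign bookkeeping along the chain of pairs.
-/

set_option autoImplicit false

namespace CM

open NS

namespace CHAIN

/-- a pair with `mn < nm`, `|n| = 3|m|` and a condition on the two leading coefficients -/
def Q (s : ℚ → ℚ → Prop) (a b : UU) : Prop :=
  ∃ (m n : List Bool) (α β : ℚ), LG a m α ∧ LG b n β ∧
    wlt (m ++ n) (n ++ m) ∧ n.length = 3 * m.length ∧ s α β

theorem lg_ne {a : UU} {m : List Bool} {α : ℚ} (h : LG a m α) : α ≠ 0 := h.2.1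

theorem not_lg_one {m : List Bool} {α : ℚ} (h : LG 1 m α) : False := by
  obtain ⟨h1, h2, -⟩ := h
  rw [sr_one, sub_self, co_zero] at h1
  exact h2 h1.symm

theorem conjQ (h2 : StComm) {s : ℚ → ℚ → Prop} {a b a' b' : UU} (hc : Conj a b a' b')
    (h : Q s a b) : Q s a' b' := by
  obtain ⟨g, rfl, rfl⟩ := hc
  obtain ⟨m, n, α, β, ha, hb, h⟩ := h
  exact ⟨m, n, α, β, h2.2.2.1 a g m α ha, h2.2.2.1 b g n β hb, h⟩

theorem conjND (h2 : StComm) {a b a' b' : UU} (hc : Conj a b a' b')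
    (h : ND a b) : ND a' b' := by
  obtain ⟨g, rfl, rfl⟩ := hc
  obtain ⟨m, n, α, β, ha, hb, h⟩ := h
  exact ⟨m, n, α, β, h2.2.2.1 a g m α ha, h2.2.2.1 b g n β hb, h⟩

theorem monoQ {s t : ℚ → ℚ → Prop} (hst : ∀ α β, s α β → t α β) {a b : UU} (h : Q s a b) :
    Q t a b := by
  obtain ⟨m, n, α, β, ha, hb, hw, hl, h⟩ := h
  exact ⟨m, n, α, β, ha, hb, hw, hl, hst α β h⟩

theorem lenA (m n : List Bool) :
    (m ++ m ++ n ++ n ++ m ++ n).length = 3 * (m ++ n).length := by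
  simp only [List.length_append]; omega

/-- one step from a pair with noncommuting leading words -/
theorem nd_step (h1 : StWord) (h3 : StND) {a b : UU} (h : ND a b) :
    Q (fun α β => α * β ≠ 0) (W1 a b) (W2 a b) := by
  obtain ⟨m, n, α, β, ha, hb, hmn⟩ := h
  have hα := lg_ne ha
  have hβ := lg_ne hb
  have hlen : (m ++ n).length = (n ++ m).length := by
    simp only [List.length_append]; omega
  rcases h1.2.2.1 _ _ hlen hmn with hw | hw
  · obtain ⟨c1, c2, c3⟩ := (h3 a b m n α β ha hb).2 hw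
    exact ⟨_, _, _, _, c1, c2, c3, lenA n m, mul_ne_zero (lg_ne c1) (lg_ne c2)⟩
  · obtain ⟨c1, c2, c3⟩ := (h3 a b m n α β ha hb).1 hw
    exact ⟨_, _, _, _, c1, c2, c3, lenA m n, mul_ne_zero (lg_ne c1) (lg_ne c2)⟩

/-- one step from a pair with `mn < nm`, signs become opposite -/
theorem q_step (h3 : StND) {a b : UU} (h : Q (fun α β => α * β ≠ 0) a b) :
    Q (fun α β => α * β < 0) (W1 a b) (W2 a b) := by
  obtain ⟨m, n, α, β, ha, hb, hw, -, hne⟩ := h
  obtain ⟨c1, c2, c3⟩ := (h3 a b m n α β ha hb).2 hw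
  refine ⟨_, _, _, _, c1, c2, c3, lenA n m, ?_⟩
  have h4 : 0 < (α * β) ^ 4 := by positivity
  have : -(α * β) * (α * β) ^ 3 = -((α * β) ^ 4) := by ring
  show -(α * β) * (α * β) ^ 3 < 0
  rw [this]; linarith

/-- one more step gives a good pair -/
theorem good_step (h3 : StND) {a b : UU} (h : Q (fun α β => α * β < 0) a b) :
    Good (W1 a b) (W2 a b) := by
  obtain ⟨m, n, α, β, ha, hb, hw, -, hne⟩ := h
  obtain ⟨c1, c2, c3⟩ := (h3 a b m n α β ha hb).2 hw
  refine ⟨_, _, _, _, c1, c2, c3, lenA n m, ?_, ?_⟩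
  · show 0 < -(α * β)
    linarith
  · show (α * β) ^ 3 < 0
    exact Odd.pow_neg ⟨1, by norm_num⟩ hne

theorem good_iff (a b : UU) : Good a b ↔ Q (fun α β => 0 < α ∧ β < 0) a b := Iff.rfl

theorem good_neg {a b : UU} (h : Good a b) : Q (fun α β => α * β < 0) a b :=
  monoQ (fun _ _ h => mul_neg_of_pos_of_neg h.1 h.2) ((good_iff a b).1 h)

theorem neg_ne {a b : UU} (h : Q (fun α β => α * β < 0) a b) : Q (fun α β => α * β ≠ 0) a b :=
  monoQ (fun _ _ h => ne_of_lt h) h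

theorem ne_nd (h1 : StWord) {a b : UU} (h : Q (fun α β => α * β ≠ 0) a b) : ND a b := by
  obtain ⟨m, n, α, β, ha, hb, hw, -, hne⟩ := h
  refine ⟨m, n, α, β, ha, hb, fun e => ?_⟩
  rw [e] at hw
  exact h1.1 _ hw

/-- ND pairs do not commute -/
theorem nd_comm (h1 : StWord) (h2 : StComm) {a b : UU} (h : ND a b) : a * b ≠ b * a := by
  obtain ⟨m, n, α, β, ha, hb, hmn⟩ := h
  intro e
  have hc : cm a b = 1 := by
    unfold cm
    rw [e]; group
  have hlen : (m ++ n).length = (n ++ m).length := by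
    simp only [List.length_append]; omega
  rcases h1.2.2.1 _ _ hlen hmn with hw | hw
  · have := (h2.1 a b m n α β ha hb).2 hw
    rw [hc] at this
    exact not_lg_one this
  · have := (h2.1 a b m n α β ha hb).1 hw
    rw [hc] at this
    exact not_lg_one this

theorem chain_of_nd (h1 : StWord) (h2 : StComm) (h3 : StND) (a b : ℕ → UU)
    (hs : ∀ k, Conj (W1 (a k) (b k)) (W2 (a k) (b k)) (a (k + 1)) (b (k + 1)))
    (i : ℕ) (h : ND (a i) (b i)) :
    (∀ k, i ≤ k → ND (a k) (b k)) ∧ ∀ k, i + 3 ≤ k → Good (a k) (b k) := by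
  have g1 : Q (fun α β => α * β ≠ 0) (a (i + 1)) (b (i + 1)) :=
    conjQ h2 (hs i) (nd_step h1 h3 h)
  have g2 : Q (fun α β => α * β < 0) (a (i + 2)) (b (i + 2)) :=
    conjQ h2 (hs (i + 1)) (q_step h3 g1)
  have g3 : ∀ k, i + 3 ≤ k → Good (a k) (b k) := by
    intro k hk
    induction k, hk using Nat.le_induction with
    | base => exact conjQ h2 (hs (i + 2)) (good_step h3 g2)
    | succ k _ ih => exact conjQ h2 (hs k) (good_step h3 (good_neg ih))
  refine ⟨fun k hk => ?_, g3⟩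
  by_cases hk3 : i + 3 ≤ k
  · exact ne_nd h1 (neg_ne (good_neg (g3 k hk3)))
  · have : k = i ∨ k = i + 1 ∨ k = i + 2 := by omega
    rcases this with rfl | rfl | rfl
    · exact h
    · exact ne_nd h1 g1
    · exact ne_nd h1 (neg_ne g2)

end CHAIN

open CHAIN in
/-- ALG7. -/
theorem pChain (h1 : StWord) (h2 : StComm) (h3 : StND) (h4 : StD) : StChain := by
  intro a b hs h0
  by_cases hnd : ND (a 0) (b 0)
  · obtain ⟨c1, c2⟩ := chain_of_nd h1 h2 h3 a b hs 0 hnd
    exact ⟨fun k => nd_comm h1 h2 (c1 k (Nat.zero_le k)), fun k hk => c2 k (by omega)⟩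
  · have ha : a 0 ≠ 1 := by
      intro e; rw [e] at h0; simp at h0
    have hb : b 0 ≠ 1 := by
      intro e; rw [e] at h0; simp at h0
    obtain ⟨m, α, hm, -⟩ := h2.2.2.2.2.1 _ ha
    obtain ⟨n, β, hn, -⟩ := h2.2.2.2.2.1 _ hb
    have hmn : m ++ n = n ++ m := by
      by_contra hne
      exact hnd ⟨m, n, α, β, hm, hn, hne⟩
    have g1 : ND (a 1) (b 1) := conjND h2 (hs 0) (h4 _ _ m n α β h0 hm hn hmn)
    obtain ⟨c1, c2⟩ := chain_of_nd h1 h2 h3 a b hs 1 g1
    refine ⟨fun k => ?_, fun k hk => c2 k (by omega)⟩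
    rcases Nat.eq_zero_or_pos k with rfl | hk
    · exact h0
    · exact nd_comm h1 h2 (c1 k hk)

end CM
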