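import Pool.Agent.Helper59.CM.StPF

set_option autoImplicit false

namespace CM

open Set Topology unitInterval

namespace CI

/-- two potentials which agree at `x` agree at every point joined to `x` -/
private theorem cmp {X Γ : Type} [TopologicalSpace X] [Group Γ] {S T : Set X} {F : PFun X Γ}
    {g g' : X → Γ} (hg : ∀ (a b : X) (p : Path a b), (∀ t, p t ∈ S) → F a b p = (g a)⁻¹ * g b)
    (hg' : ∀ (a b : X) (p : Path a b), (∀ t, p t ∈ T) → F a b p = (g' a)⁻¹ * g' b)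
    {x y : X} (hj : JoinedIn (S ∩ T) x y) (hx : g x = g' x) : g y = g' y := by
  obtain ⟨p, hp⟩ := hj
  have h1 := hg x y p fun t => (hp t).1
  have h2 := hg' x y p fun t => (hp t).2
  rw [h1, hx] at h2
  exact mul_left_cancel h2

/-- gluing of potentials which are given by one function on the cover -/
private theorem glue (h : StAG) {X Γ : Type} [TopologicalSpace X] [Group Γ] {ι : Type} {S : Set X}
    {O : ι → Set X} {F : PFun X Γ} (hF : IsPF S F) (hO : ∀ i, IsOpen (O i)) (hS : S ⊆ ⋃ i, O i)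
    (gi : ι → X → Γ)
    (hg : ∀ i, ∀ (a b : X) (p : Path a b), (∀ t, p t ∈ O i) → F a b p = (gi i a)⁻¹ * gi i b)
    (g : X → Γ) (hgg : ∀ i, ∀ x ∈ O i, g x = gi i x) : IsExact S F := by
  have hE : IsExact S (fun a b _ => (g a)⁻¹ * g b : PFun X Γ) := ⟨g, fun a b p _ => rfl⟩
  refine ⟨g, fun a b p hp => ?_⟩
  refine h X Γ ι S O F (fun a b _ => (g a)⁻¹ * g b) hF hE.isPF hO hS ?_ a b p hp
  intro i a b p hp
  have ha : a ∈ O i := by have := (hp 0).2; rwa [p.source] at this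
  have hb : b ∈ O i := by have := (hp 1).2; rwa [p.target] at this
  rw [hg i a b p fun t => (hp t).2, hgg i a ha, hgg i b hb]

end CI

theorem pCI (h : StAG) : StCI := by
  classical
  intro X Γ _ _ S₁ S₂ F ho₁ ho₂ hF he₁ he₂ hj
  obtain ⟨g₁, hg₁⟩ := he₁
  obtain ⟨g₂, hg₂⟩ := he₂
  obtain ⟨c, hc⟩ : ∃ c : Γ, ∀ y ∈ S₁ ∩ S₂, g₁ y = c * g₂ y := by
    rcases (S₁ ∩ S₂).eq_empty_or_nonempty with he | ⟨x, hx⟩
    · exact ⟨1, fun y hy => by rw [he] at hy; exact absurd hy (notMem_empty y)⟩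
    · refine ⟨g₁ x * (g₂ x)⁻¹, fun y hy => ?_⟩
      refine CI.cmp (S := S₁) (T := S₂) (F := F) (g' := fun y => g₁ x * (g₂ x)⁻¹ * g₂ y) hg₁ ?_
        (hj x hx y hy) (by group)
      intro a b p hp
      rw [hg₂ a b p hp]; group
  refine CI.glue h (ι := Bool) (O := fun i => if i then S₁ else S₂) hF ?_ ?_
    (fun i => if i then g₁ else fun y => c * g₂ y) ?_ (fun x => if x ∈ S₁ then g₁ x else c * g₂ x) ?_
  · rintro (_ | _)
    · simpa using ho₂
    · simpa using ho₁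
  · rintro x (hx | hx)
    · exact mem_iUnion.2 ⟨true, by simpa using hx⟩
    · exact mem_iUnion.2 ⟨false, by simpa using hx⟩
  · rintro (_ | _) a b p hp
    · simp only [Bool.false_eq_true, if_false] at hp ⊢
      rw [hg₂ a b p hp]; group
    · simp only [if_true] at hp ⊢
      exact hg₁ a b p hp
  · rintro (_ | _) x hx
    · simp only [Bool.false_eq_true, if_false] at hx ⊢
      by_cases h1 : x ∈ S₁
      · rw [if_pos h1]; exact hc x ⟨h1, hx⟩
      · rw [if_neg h1]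
    · simp only [if_true] at hx ⊢
      rw [if_pos hx]

theorem pStar (h1 : StAG) (h2 : StCvx) : StStar := by
  classical
  intro V Γ _ _ _ ι U i₀ F hO hC hm hF
  have hex : ∀ i, ∃ g : V → Γ, (∀ (a b : V) (p : Path a b), (∀ t, p t ∈ U i) →
      F a b p = (g a)⁻¹ * g b) := fun i =>
    h2 V Γ (U i) F (hC i) (hF.mono (subset_iUnion U i))
  choose g0 hg0 using hex
  -- normalise
  have hnorm : ∀ i, ∃ g : V → Γ, (∀ (a b : V) (p : Path a b), (∀ t, p t ∈ U i) →
      F a b p = (g a)⁻¹ * g b) ∧ ∀ y ∈ U i ∩ U i₀, g y = g0 i₀ y := by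
    intro i
    rcases (U i ∩ U i₀).eq_empty_or_nonempty with he | ⟨x, hx⟩
    · exact ⟨g0 i, hg0 i, fun y hy => by rw [he] at hy; exact absurd hy (notMem_empty y)⟩
    · have hg' : ∀ (a b : V) (p : Path a b), (∀ t, p t ∈ U i) →
          F a b p = (g0 i₀ x * (g0 i x)⁻¹ * g0 i a)⁻¹ * (g0 i₀ x * (g0 i x)⁻¹ * g0 i b) := by
        intro a b p hp
        rw [hg0 i a b p hp]; group
      refine ⟨fun y => g0 i₀ x * (g0 i x)⁻¹ * g0 i y, hg', fun y hy => ?_⟩
      have hpc : IsPathConnected (U i ∩ U i₀) := ((hC i).inter (hC i₀)).isPathConnected ⟨x, hx⟩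
      exact CI.cmp (S := U i) (T := U i₀) (F := F)
        (g := fun y => g0 i₀ x * (g0 i x)⁻¹ * g0 i y) hg' (hg0 i₀)
        (hpc.joinedIn x hx y hy) (by group)
  choose g hg hgn using hnorm
  have hcomp : ∀ i j, ∀ y ∈ U i ∩ U j, g i y = g j y := by
    intro i j y hy
    obtain ⟨z, ⟨hzi, hzj⟩, hz0⟩ := hm i j ⟨y, hy⟩
    have hpc : IsPathConnected (U i ∩ U j) := ((hC i).inter (hC j)).isPathConnected ⟨y, hy⟩
    exact CI.cmp (S := U i) (T := U j) (F := F) (hg i) (hg j)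
      (hpc.joinedIn z ⟨hzi, hzj⟩ y hy) (by rw [hgn i z ⟨hzi, hz0⟩, hgn j z ⟨hzj, hz0⟩])
  refine CI.glue h1 (ι := ι) (O := U) hF hO (le_refl _) g hg
    (fun x => if hx : ∃ i, x ∈ U i then g hx.choose x else 1) ?_
  intro i x hx
  have hx' : ∃ i, x ∈ U i := ⟨i, hx⟩
  simp only [dif_pos hx']
  exact hcomp _ _ x ⟨hx'.choose_spec, hx⟩

end CM
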