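import Pool.Agent.Helper59.CM.StAlg

/-!
Project CM (MP_e9500f_gt), module COMM: leading words of commutators, inverses, conjugates.
-/

set_option autoImplicit false

namespace CM

open NS

namespace COMM

/-- an element of `UU` has leading word `[]` with coefficient one -/
theorem leadU (u : UU) : IsLead (sr u) [] 1 := by
  refine ⟨sr_nil u, one_ne_zero, ?_⟩
  intro v hv
  exfalso
  rcases hv with h | ⟨h, h'⟩
  · simp at h
  · have : v = [] := List.length_eq_zero_iff.1 h
    subst this
    exact h'

theorem mul_right (h3 : StLead) {f : NS} {w : List Bool} {c : ℚ} (u : UU) (h : IsLead f w c) :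
    IsLead (f * sr u) w c := by
  have := h3.2.1 f (sr u) w [] c 1 h (leadU u)
  rwa [List.append_nil, mul_one] at this

theorem mul_left (h3 : StLead) {f : NS} {w : List Bool} {c : ℚ} (u : UU) (h : IsLead f w c) :
    IsLead (sr u * f) w c := by
  have := h3.2.1 (sr u) f [] w 1 c (leadU u) h
  rwa [List.nil_append, one_mul] at this

/-- words that are not after `m` are at least as leading as `m` -/
theorem tri (h1 : StWord) (m v : List Bool) (h : ¬ Before m v) : v = m ∨ Before v m := by
  unfold Before at h ⊢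
  push Not at h
  by_cases he : v = m
  · exact Or.inl he
  · right
    rcases Nat.lt_or_ge v.length m.length with hl | hl
    · exact Or.inl hl
    · have hlen : v.length = m.length := le_antisymm h.1 hl
      right
      refine ⟨hlen, ?_⟩
      rcases h1.2.2.1 v m hlen he with h' | h'
      · exact absurd h' (h.2 hlen.symm)
      · exact h'

theorem before_trans (h1 : StWord) {u v w : List Bool} (h : Before u v) (h' : Before v w) :
    Before u w := by
  rcases h with h | ⟨h, hw⟩
  · rcases h' with h' | ⟨h', hw'⟩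
    · exact Or.inl (h.trans h')
    · exact Or.inl (h'.symm ▸ h)
  · rcases h' with h' | ⟨h', hw'⟩
    · exact Or.inl (h ▸ h')
    · exact Or.inr ⟨h.trans h', h1.2.1 _ _ _ hw' hw⟩

theorem sub_lead (h1 : StWord) (h3 : StLead) {f g : NS} {m n : List Bool} {α β : ℚ}
    (hf : IsLead f m α) (hg : IsLead g n β) (hb : Before m n) : IsLead (f - g) m α := by
  rw [sub_eq_add_neg]
  apply h3.2.2.1 f (-g) m α hf
  intro v hv
  rw [co_neg, neg_eq_zero]
  apply hg.2.2
  rcases tri h1 m v hv with h | h
  · rw [h]; exact hb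
  · exact before_trans h1 h hb

theorem cm_sub (a b : UU) : sr (cm a b) - 1 =
    ((sr a - 1) * (sr b - 1) - (sr b - 1) * (sr a - 1)) * sr (a⁻¹ * b⁻¹) := by
  have e1 : (sr a - 1) * (sr b - 1) - (sr b - 1) * (sr a - 1) = sr a * sr b - sr b * sr a := by
    noncomm_ring
  have e2 : sr (cm a b) = sr a * sr b * sr (a⁻¹ * b⁻¹) := by
    rw [← sr_mul, ← sr_mul]
    congr 1
    unfold cm
    group
  have e3 : sr b * sr a * sr (a⁻¹ * b⁻¹) = 1 := by
    rw [← sr_mul, ← sr_mul, ← sr_one]
    congr 1
    group
  rw [e1, sub_mul, e2, e3]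

theorem sub_cm (a b : UU) : (sr a - 1) * (sr b - 1) - (sr b - 1) * (sr a - 1) =
    (sr (cm a b) - 1) * sr (b * a) := by
  have e1 : (sr a - 1) * (sr b - 1) - (sr b - 1) * (sr a - 1) = sr a * sr b - sr b * sr a := by
    noncomm_ring
  have e2 : sr (cm a b) * sr (b * a) = sr a * sr b := by
    rw [← sr_mul, ← sr_mul]
    congr 1
    unfold cm
    group
  rw [e1, sub_mul, e2, one_mul, sr_mul]

end COMM

open COMM in
theorem pComm (h1 : StWord) (h2 : StLeadEx) (h3 : StLead) : StComm := by
  refine ⟨?_, ?_, ?_, ?_, ?_, ?_⟩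
  · intro a b m n α β ha hb
    have hxy := h3.2.1 _ _ _ _ _ _ ha hb
    have hyx := h3.2.1 _ _ _ _ _ _ hb ha
    constructor
    · intro hw
      unfold LG
      rw [cm_sub]
      apply mul_right h3
      apply sub_lead h1 h3 hxy hyx
      right
      exact ⟨by simp [Nat.add_comm], hw⟩
    · intro hw
      unfold LG
      rw [cm_sub]
      apply mul_right h3
      have hs : (sr a - 1) * (sr b - 1) - (sr b - 1) * (sr a - 1) =
          (-1 : ℚ) • ((sr b - 1) * (sr a - 1) - (sr a - 1) * (sr b - 1)) := by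
        rw [neg_one_smul]; noncomm_ring
      rw [hs]
      have h := sub_lead h1 h3 hyx hxy (Or.inr ⟨by simp [Nat.add_comm], hw⟩)
      have := h3.2.2.2.2 _ _ _ (-1) h (by norm_num)
      rwa [neg_one_mul, mul_comm β α] at this
  · intro a m α ha
    unfold LG
    have hs : sr a⁻¹ - 1 = (-1 : ℚ) • ((sr a - 1) * sr a⁻¹) := by
      rw [neg_one_smul, sub_mul, sr_mul_inv, one_mul]; noncomm_ring
    rw [hs]
    have := h3.2.2.2.2 _ _ _ (-1) (mul_right h3 a⁻¹ ha) (by norm_num)
    rwa [neg_one_mul] at this
  · intro a g m α ha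
    unfold LG
    have hs : sr (g * a * g⁻¹) - 1 = sr g * (sr a - 1) * sr g⁻¹ := by
      rw [sr_mul, sr_mul, mul_sub, sub_mul, mul_one, sr_mul_inv]
    rw [hs]
    exact mul_right h3 g⁻¹ (mul_left h3 g ha)
  · intro a b w c
    constructor
    · intro h
      rw [sub_cm]
      exact mul_right h3 _ h
    · intro h
      unfold LG
      rw [cm_sub]
      exact mul_right h3 _ h
  · intro a ha
    have hne : sr a - 1 ≠ 0 := by
      intro h
      apply ha
      apply sr_inj
      rw [sr_one]
      exact sub_eq_zero.1 h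
    obtain ⟨w, c, hw⟩ := h2 _ hne
    refine ⟨w, c, hw, ?_⟩
    rintro rfl
    apply hw.2.1
    rw [← hw.1, co_sub, sr_nil, co_one_nil, sub_self]
  · intro a w w' c c' h h'
    exact h3.1 _ _ _ _ _ h h'

end CM
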