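import Pool.Agent.Helper59.CM.StGeo

set_option autoImplicit false

namespace CM

namespace CONN

open Set Topology unitInterval

theorem box (I1 I2 I3 : Set ℝ) (h1 : Convex ℝ I1) (h2 : Convex ℝ I2) (h3 : Convex ℝ I3)
    (S : Set E) (hS : ∀ p : E, p.1 ∈ I1 → p.2.re ∈ I2 → p.2.im ∈ I3 → p ∈ S) (x y : E)
    (hx : x.1 ∈ I1 ∧ x.2.re ∈ I2 ∧ x.2.im ∈ I3) (hy : y.1 ∈ I1 ∧ y.2.re ∈ I2 ∧ y.2.im ∈ I3) :
    JoinedIn S x y := by
  apply JoinedIn.of_segment_subset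
  rintro u ⟨a, b, ha, hb, hab, rfl⟩
  apply hS
  · have := h1 hx.1 hy.1 ha hb hab
    simpa using this
  · have := h2 hx.2.1 hy.2.1 ha hb hab
    simpa using this
  · have := h3 hx.2.2 hy.2.2 ha hb hab
    simpa using this

theorem abs_lt_of_uIcc {a b c x : ℝ} (h : x ∈ uIcc a b) (ha : |a| < c) (hb : |b| < c) :
    |x| < c := by
  rw [abs_lt] at *
  rcases mem_uIcc.1 h with h | h <;> constructor <;> linarith [h.1, h.2]

/-- move in the direction of `s` -/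
theorem moveS (s s' y z : ℝ) (hs : |s| < 9 / 2) (hs' : |s'| < 9 / 2) (hy : |y| < 7 / 2)
    (hy' : |y| < 5 / 4 ∨ 7 / 4 < |y|) (hz : |z| = 5 / 4) :
    JoinedIn (OO \ K0) ((s, ⟨y, z⟩) : E) (s', ⟨y, z⟩) := by
  apply box (uIcc s s') {y} {z} (convex_uIcc _ _) (convex_singleton _) (convex_singleton _)
  · rintro ⟨u, v⟩ h1 h2 h3
    simp only [mem_singleton_iff] at h1 h2 h3
    refine ⟨⟨abs_lt_of_uIcc h1 hs hs', ?_, ?_, ?_⟩, ?_⟩
    · simp only [h2]; exact hy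
    · simp only [h3]; rw [hz]; norm_num
    · right; simp only [h2]; exact hy'
    · rintro ⟨_, _, h, _⟩
      simp only [h3] at h
      rw [hz] at h; norm_num at h
  · exact ⟨left_mem_uIcc, rfl, rfl⟩
  · exact ⟨right_mem_uIcc, rfl, rfl⟩

/-- move in the direction of `y` -/
theorem moveY (s y y' z : ℝ) (hs : |s| < 9 / 2) (hs' : 5 / 2 < |s|) (hy : |y| < 7 / 2)
    (hy' : |y'| < 7 / 2) (hz : |z| = 5 / 4) :
    JoinedIn (OO \ K0) ((s, ⟨y, z⟩) : E) (s, ⟨y', z⟩) := by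
  apply box {s} (uIcc y y') {z} (convex_singleton _) (convex_uIcc _ _) (convex_singleton _)
  · rintro ⟨u, v⟩ h1 h2 h3
    simp only [mem_singleton_iff] at h1 h2 h3
    refine ⟨⟨?_, abs_lt_of_uIcc h2 hy hy', ?_, ?_⟩, ?_⟩
    · simp only [h1]; exact hs
    · simp only [h3]; rw [hz]; norm_num
    · left; simp only [h1]; exact hs'
    · rintro ⟨_, _, h, _⟩
      simp only [h3] at h
      rw [hz] at h; norm_num at h
  · exact ⟨rfl, left_mem_uIcc, rfl⟩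
  · exact ⟨rfl, right_mem_uIcc, rfl⟩

/-- move in the direction of `z` -/
theorem moveZ (s y z z' : ℝ) (hs : |s| < 9 / 2) (hy : |y| < 7 / 2)
    (hD : 5 / 2 < |s| ∨ |y| < 5 / 4 ∨ 7 / 4 < |y|) (hz : |z| < 3 / 2) (hz' : |z'| < 3 / 2)
    (h : (¬ (|s| ≤ 4 ∧ |y| ≤ 3 ∧ (3 ≤ |s| ∨ |y| ≤ 1 ∨ 2 ≤ |y|))) ∨ (∀ w ∈ uIcc z z', 1 < |w|)) :
    JoinedIn (OO \ K0) ((s, ⟨y, z⟩) : E) (s, ⟨y, z'⟩) := by
  apply box {s} {y} (uIcc z z') (convex_singleton _) (convex_singleton _) (convex_uIcc _ _)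
  · rintro ⟨u, v⟩ h1 h2 h3
    simp only [mem_singleton_iff] at h1 h2 h3
    refine ⟨⟨?_, ?_, abs_lt_of_uIcc h3 hz hz', ?_⟩, ?_⟩
    · simp only [h1]; exact hs
    · simp only [h2]; exact hy
    · simp only [h1, h2]; exact hD
    · rintro ⟨k1, k2, k3, k4⟩
      simp only [h1, h2] at k1 k2 k3 k4
      rcases h with h | h
      · exact h ⟨k1, k2, k4⟩
      · exact absurd (h _ h3) (not_lt.2 k3)
  · exact ⟨rfl, rfl, left_mem_uIcc⟩
  · exact ⟨rfl, rfl, right_mem_uIcc⟩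

theorem layer (s y z : ℝ) (hs : |s| < 9 / 2) (hy : |y| < 7 / 2)
    (hD : 5 / 2 < |s| ∨ |y| < 5 / 4 ∨ 7 / 4 < |y|) (hz : |z| = 5 / 4) :
    JoinedIn (OO \ K0) ((s, ⟨y, z⟩) : E) (17 / 4, ⟨0, z⟩) := by
  have h17 : |(17 / 4 : ℝ)| < 9 / 2 := by rw [abs_of_pos] <;> norm_num
  have h17' : 5 / 2 < |(17 / 4 : ℝ)| := by rw [abs_of_pos] <;> norm_num
  have h0 : |(0 : ℝ)| < 7 / 2 := by norm_num
  by_cases h : |y| < 5 / 4 ∨ 7 / 4 < |y|
  · exact (moveS s (17 / 4) y z hs h17 hy h hz).trans (moveY (17 / 4) y 0 z h17 h17' hy h0 hz)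
  · have h' : 5 / 2 < |s| := by tauto
    refine (moveY s y 0 z hs h' hy h0 hz).trans (moveS s (17 / 4) 0 z hs h17 h0 ?_ hz)
    left; norm_num

theorem base (z z' : ℝ) (hz : |z| < 3 / 2) (hz' : |z'| < 3 / 2) :
    JoinedIn (OO \ K0) ((17 / 4, ⟨0, z⟩) : E) (17 / 4, ⟨0, z'⟩) := by
  apply moveZ
  · rw [abs_of_pos] <;> norm_num
  · norm_num
  · left; rw [abs_of_pos] <;> norm_num
  · exact hz
  · exact hz'
  · left
    rintro ⟨h, _⟩
    rw [abs_of_pos (by norm_num)] at h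
    norm_num at h

theorem toBase (p : E) (hp : p ∈ OO \ K0) :
    JoinedIn (OO \ K0) p ((17 / 4, ⟨0, 5 / 4⟩) : E) := by
  obtain ⟨s, ⟨y, z⟩⟩ := p
  obtain ⟨⟨hs, hy, hz, hD⟩, hK⟩ := hp
  simp only at hs hy hz hD
  have h54 : |(5 / 4 : ℝ)| = 5 / 4 := abs_of_pos (by norm_num)
  have h54' : |(-(5 / 4) : ℝ)| = 5 / 4 := by rw [abs_neg, h54]
  by_cases h1 : 1 < z
  · refine (moveZ s y z (5 / 4) hs hy hD hz (by rw [h54]; norm_num) (Or.inr ?_)).trans
      (layer s y (5 / 4) hs hy hD h54)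
    intro w hw
    have : 1 < w := by
      rcases mem_uIcc.1 hw with h | h
      · linarith [h.1]
      · linarith [h.1]
    exact lt_of_lt_of_le this (le_abs_self w)
  · by_cases h2 : z < -1
    · refine ((moveZ s y z (-(5 / 4)) hs hy hD hz (by rw [h54']; norm_num) (Or.inr ?_)).trans
        (layer s y (-(5 / 4)) hs hy hD h54')).trans (base _ _ (by rw [h54']; norm_num)
          (by rw [h54]; norm_num))
      intro w hw
      have : w < -1 := by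
        rcases mem_uIcc.1 hw with h | h
        · linarith [h.2]
        · linarith [h.2]
      have := neg_abs_le w
      linarith
    · refine (moveZ s y z (5 / 4) hs hy hD hz (by rw [h54]; norm_num) (Or.inl ?_)).trans
        (layer s y (5 / 4) hs hy hD h54)
      rintro ⟨k1, k2, k3⟩
      exact hK ⟨k1, k2, abs_le.2 ⟨by simpa using h2, by simpa using h1⟩, k3⟩

end CONN

open CONN Set Topology unitInterval in
theorem pConn (h1 : StOO) (h2 : StContr) : StConn := by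
  obtain ⟨hK0, _, _, _, hHK, h0, hKc, _, hOo⟩ := h1
  obtain ⟨hC, hMo, _, hOM, _⟩ := h2
  have hsub : OO \ K0 ⊆ MM \ K0 := fun x hx => ⟨hOM hx.1, hx.2⟩
  have h0M : (0 : E) ∈ MM := hOM (hK0 (hHK h0))
  have key : ∀ x ∈ MM \ K0, JoinedIn (MM \ K0) x ((17 / 4, ⟨0, 5 / 4⟩) : E) := by
    intro x hx
    have : PathConnectedSpace ↥MM := inferInstance
    obtain ⟨p⟩ := PathConnectedSpace.joined (⟨x, hx.1⟩ : ↥MM) ⟨0, h0M⟩
    set f : ℝ → E := fun t => (p.extend t : E) with hf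
    have hfc : Continuous f := continuous_subtype_val.comp p.continuous_extend
    have hfM : ∀ t, f t ∈ MM := fun t => (p.extend t).2
    set T : Set ℝ := Icc 0 1 ∩ f ⁻¹' K0 with hT
    have hTc : IsClosed T := isClosed_Icc.inter (hKc.isClosed.preimage hfc)
    have hTne : T.Nonempty := by
      refine ⟨1, ⟨zero_le_one, le_rfl⟩, ?_⟩
      show f 1 ∈ K0
      have : f 1 = 0 := by simp [hf]
      rw [this]; exact hHK h0
    have hTb : BddBelow T := ⟨0, fun t ht => ht.1.1⟩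
    have ht₀ : sInf T ∈ T := hTc.csInf_mem hTne hTb
    set t₀ := sInf T with ht₀def
    have hlt : ∀ t ∈ Icc (0 : ℝ) 1, t < t₀ → f t ∉ K0 := by
      intro t ht htt hK
      exact absurd (csInf_le hTb (⟨ht, hK⟩ : t ∈ T)) (not_le.2 htt)
    have hf0 : f 0 = x := by simp [hf]
    have htpos : 0 < t₀ := by
      rcases ht₀.1.1.eq_or_lt with h | h
      · exfalso
        apply hx.2
        rw [← hf0]
        have := ht₀.2
        rw [← h] at this
        exact this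
      · exact h
    have hnear : ∀ᶠ t in 𝓝 t₀, f t ∈ OO :=
      hfc.continuousAt.eventually_mem (hOo.mem_nhds (hK0 ht₀.2))
    obtain ⟨δ, hδ, hball⟩ := Metric.eventually_nhds_iff.1 hnear
    set t₁ := max 0 (t₀ - δ / 2) with ht₁
    have ht₁0 : 0 ≤ t₁ := le_max_left _ _
    have ht₁lt : t₁ < t₀ := max_lt htpos (by linarith)
    have ht₁1 : t₁ ≤ 1 := ht₁lt.le.trans ht₀.1.2
    have ht₁O : f t₁ ∈ OO := by
      apply hball
      rw [Real.dist_eq, abs_sub_lt_iff]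
      have : t₀ - δ / 2 ≤ t₁ := le_max_right _ _
      constructor <;> linarith
    have ht₁K : f t₁ ∉ K0 := hlt t₁ ⟨ht₁0, ht₁1⟩ ht₁lt
    have hpc : IsPathConnected (f '' Icc 0 t₁) :=
      ((convex_Icc (0 : ℝ) t₁).isPathConnected ⟨0, le_rfl, ht₁0⟩).image hfc
    have hj : JoinedIn (f '' Icc 0 t₁) x (f t₁) :=
      hpc.joinedIn x ⟨0, ⟨le_rfl, ht₁0⟩, hf0⟩ (f t₁) ⟨t₁, ⟨ht₁0, le_rfl⟩, rfl⟩
    have hj' : JoinedIn (MM \ K0) x (f t₁) := by
      refine hj.mono ?_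
      rintro _ ⟨t, ht, rfl⟩
      exact ⟨hfM t, hlt t ⟨ht.1, ht.2.trans ht₁1⟩ (lt_of_le_of_lt ht.2 ht₁lt)⟩
    exact hj'.trans ((toBase (f t₁) ⟨ht₁O, ht₁K⟩).mono hsub)
  intro x hx y hy
  exact (key x hx).trans (key y hy).symm

end CM
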