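import Pool.Agent.Helper59.CM.StGeo

/-!
Project CM (MP_e9500f_gt): module CONTR (helper76).  `MM` is contractible.
-/

set_option autoImplicit false

namespace CM

open Set Topology unitInterval

namespace CONTR

/-- iterates of a homeomorphism -/
noncomputable def it (G : E ≃ₜ E) : ℕ → (E ≃ₜ E)
  | 0 => Homeomorph.refl E
  | n + 1 => (it G n).trans G

theorem it_apply (G : E ≃ₜ E) (n : ℕ) : ⇑(it G n) = (⇑G)^[n] := by
  induction n with
  | zero => rfl
  | succ n ih =>
    funext x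
    show G (it G n x) = _
    rw [ih, Function.iterate_succ_apply']

theorem exG (h1 : StBf) (h2 : StRho) : ∃ G : E ≃ₜ E, ⇑G = Gf := by
  obtain ⟨⟨B, hB⟩, -⟩ := h1
  obtain ⟨R, hR, -⟩ := h2
  refine ⟨R.trans B, ?_⟩
  funext x
  show B (R x) = Bf (rho x)
  rw [hB, hR]

open Classical in
/-- the contraction of `K n`, inside `MM` -/
noncomputable def cc (c : E × ℝ → E) (G : E ≃ₜ E) (x₀ : ↥MM) (n : ℕ) (x : ↥MM × ℝ) : ↥MM :=
  if h : it G n (c ((it G n).symm x.1, x.2)) ∈ MM then ⟨_, h⟩ else x₀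

theorem cc_val (c : E × ℝ → E) (G : E ≃ₜ E) (x₀ : ↥MM) (n : ℕ) (x : ↥MM × ℝ)
    (h : it G n (c ((it G n).symm x.1, x.2)) ∈ MM) :
    ((cc c G x₀ n x : ↥MM) : E) = it G n (c ((it G n).symm x.1, x.2)) := by
  unfold cc
  rw [dif_pos h]

end CONTR

open CONTR in
/-- GEO9. -/
theorem pContr (h1 : StBf) (h2 : StRho) (h3 : StOO) (h4 : StNull) (h5 : StTel) : StContr := by
  obtain ⟨G, hG⟩ := exG h1 h2
  obtain ⟨o1, o2, o3, o4, o5, o6, o7, o8, o9⟩ := h3
  obtain ⟨c, hc1, hc2, hc3, hc4⟩ := h4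
  have hKU : K0 ⊆ Gf '' HH := o1.trans o2
  have hMM : MM = ⋃ n : ℕ, (Gf^[n]) '' HH := rfl
  have hit : ∀ n, (⇑(it G n)) = Gf^[n] := fun n => by rw [it_apply, hG]
  have hit0 : ∀ n, it G n 0 = 0 := by
    intro n
    rw [hit]
    induction n with
    | zero => rfl
    | succ n ih => rw [Function.iterate_succ_apply, o4, ih]
  have hsucc : ∀ (n : ℕ) (S : Set E), Gf^[n] '' (Gf '' S) = Gf^[n+1] '' S := by
    intro n S
    rw [← image_comp, ← Function.iterate_succ]
  have hUK : ∀ n : ℕ, (Gf^[n]) '' HH ⊆ (Gf^[n]) '' K0 := fun n => image_mono o5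
  have hKU' : ∀ n : ℕ, (Gf^[n]) '' K0 ⊆ (Gf^[n+1]) '' HH := fun n => by
    rw [← hsucc]; exact image_mono hKU
  have hUo : ∀ n : ℕ, IsOpen ((Gf^[n]) '' HH) := fun n => by
    rw [← hit]; exact (it G n).isOpenMap _ o8
  have hKc : ∀ n : ℕ, IsClosed ((Gf^[n]) '' K0) := fun n => by
    rw [← hit]; exact (it G n).isClosedMap _ o7.isClosed
  have hU1 : Gf '' HH ⊆ MM := by
    rw [hMM]
    exact subset_iUnion (fun n : ℕ => (Gf^[n]) '' HH) 1
  have hmemMM : ∀ n : ℕ, (Gf^[n]) '' HH ⊆ MM := by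
    intro n
    rw [hMM]
    exact subset_iUnion (fun n : ℕ => (Gf^[n]) '' HH) n
  have h0MM : (0 : E) ∈ MM := hmemMM 0 ⟨0, o6, rfl⟩
  refine ⟨?_, ?_, ?_, o2.trans hU1, o3.trans hU1⟩
  · -- contractible
    have key : ∀ (n : ℕ) (x : ↥MM), (x : E) ∈ (Gf^[n]) '' K0 → ∀ t ∈ Icc (0 : ℝ) 1,
        it G n (c ((it G n).symm x, t)) ∈ (Gf^[n+1]) '' HH := by
      intro n x hx t ht
      obtain ⟨y, hy, hyx⟩ := hx
      have hy' : (it G n).symm x = y := by
        rw [← hyx, ← hit, Homeomorph.symm_apply_apply]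
      rw [hy', ← hsucc, ← hit]
      exact ⟨_, hc4 y hy t ht, rfl⟩
    refine h5 ↥MM ⟨0, h0MM⟩ (fun n => Subtype.val ⁻¹' ((Gf^[n]) '' HH))
      (fun n => Subtype.val ⁻¹' ((Gf^[n]) '' K0)) (fun n => cc c G ⟨0, h0MM⟩ n)
      (fun n => (hUo n).preimage continuous_subtype_val)
      (fun n => (hKc n).preimage continuous_subtype_val)
      (fun n => preimage_mono (hUK n)) (fun n => preimage_mono (hKU' n)) ?_ ?_ ?_ ?_ ?_ ?_
    · rw [← preimage_iUnion, ← hMM]
      exact Subtype.coe_preimage_self MM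
    · exact ⟨0, o6, rfl⟩
    · intro n
      rw [Topology.IsInducing.subtypeVal.continuousOn_iff]
      have hcont : ContinuousOn (fun x : ↥MM × ℝ => it G n (c ((it G n).symm x.1, x.2)))
          ((Subtype.val ⁻¹' ((Gf^[n]) '' K0)) ×ˢ Icc 0 1) := by
        refine (it G n).continuous.comp_continuousOn ?_
        refine hc1.comp ?_ ?_
        · apply Continuous.continuousOn
          exact ((it G n).symm.continuous.comp (continuous_subtype_val.comp continuous_fst)).prodMk
            continuous_snd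
        · rintro ⟨x, t⟩ ⟨hx, ht⟩
          refine ⟨?_, ht⟩
          obtain ⟨y, hy, hyx⟩ := hx
          show (it G n).symm x ∈ K0
          rw [← hyx, ← hit, Homeomorph.symm_apply_apply]
          exact hy
      refine hcont.congr ?_
      rintro ⟨x, t⟩ ⟨hx, ht⟩
      exact cc_val c G _ n (x, t) (hmemMM (n+1) (key n x hx t ht))
    · intro n x hx
      have hx' : (it G n).symm x ∈ K0 := by
        obtain ⟨y, hy, hyx⟩ := hx
        rw [← hyx, ← hit, Homeomorph.symm_apply_apply]
        exact hy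
      constructor
      · apply Subtype.ext
        rw [cc_val c G _ n (x, 0) (hmemMM (n+1) (key n x hx 0 ⟨le_refl _, zero_le_one⟩))]
        show it G n (c ((it G n).symm x, 0)) = x
        rw [(hc2 _ hx').1, Homeomorph.apply_symm_apply]
      · apply Subtype.ext
        rw [cc_val c G _ n (x, 1) (hmemMM (n+1) (key n x hx 1 ⟨zero_le_one, le_refl _⟩))]
        show it G n (c ((it G n).symm x, 1)) = 0
        rw [(hc2 _ hx').2, hit0]
    · intro n t ht
      have e0 : (it G n).symm 0 = 0 := by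
        rw [Homeomorph.symm_apply_eq, hit0]
      have hv : it G n (c ((it G n).symm ((⟨0, h0MM⟩ : ↥MM) : E), t)) = 0 := by
        show it G n (c ((it G n).symm 0, t)) = 0
        rw [e0, hc3 t ht, hit0]
      apply Subtype.ext
      rw [cc_val c G _ n (⟨0, h0MM⟩, t) (by show it G n (c ((it G n).symm _, t)) ∈ MM; rw [hv]; exact h0MM)]
      exact hv
    · intro n x hx t ht
      show ((cc c G _ n (x, t) : ↥MM) : E) ∈ (Gf^[n+1]) '' HH
      have hk := key n x hx t ht
      rw [cc_val c G _ n (x, t) (hmemMM (n+1) hk)]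
      exact hk
  · rw [hMM]; exact isOpen_iUnion hUo
  · apply Subset.antisymm
    · rw [hMM, image_iUnion]
      apply iUnion_subset
      intro n
      rw [← image_comp, ← Function.iterate_succ']
      exact hmemMM (n+1)
    · rw [hMM, image_iUnion]
      apply iUnion_subset
      intro n
      refine (hUK n).trans ((hKU' n).trans ?_)
      rw [Function.iterate_succ', image_comp]
      exact subset_iUnion (fun n : ℕ => Gf '' ((Gf^[n]) '' HH)) n

end CM
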