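import Pool.Agent.Helper59.CM.StPF

/-!
Project CM, module CONV (helper33): subspace versus ambient space.
-/

set_option autoImplicit false

namespace CM

open Set Topology unitInterval

namespace CONV

variable {E : Type} [TopologicalSpace E] {M : Set E}

theorem src {a b : E} (p : Path a b) (h : ∀ t, p t ∈ M) : a ∈ M := by
  have := h 0; rwa [p.source] at this

theorem tgt {a b : E} (p : Path a b) (h : ∀ t, p t ∈ M) : b ∈ M := by
  have := h 1; rwa [p.target] at this

/-- lift of a path -/
def lf {a b : E} (p : Path a b) (h : ∀ t, p t ∈ M) :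
    Path (⟨a, src p h⟩ : ↥M) (⟨b, tgt p h⟩ : ↥M) where
  toFun t := ⟨p t, h t⟩
  continuous_toFun := p.continuous.subtype_mk h
  source' := Subtype.ext p.source
  target' := Subtype.ext p.target

theorem lf_apply {a b : E} (p : Path a b) (h : ∀ t, p t ∈ M) (t : I) :
    ((lf p h) t : E) = p t := rfl

theorem lf_trans {a b c : E} (p : Path a b) (q : Path b c) (hp : ∀ t, p t ∈ M)
    (hq : ∀ t, q t ∈ M) (h : ∀ t, (p.trans q) t ∈ M) :
    lf (p.trans q) h = (lf p hp).trans (lf q hq) := by
  ext t
  rw [lf_apply, Path.trans_apply, Path.trans_apply]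
  split_ifs <;> rfl

omit [TopologicalSpace E] in
theorem mem_of {S : Set ↥M} {x : E} (h : x ∈ Subtype.val '' S) : ∃ hx : x ∈ M, (⟨x, hx⟩ : ↥M) ∈ S := by
  obtain ⟨y, hy, rfl⟩ := h
  exact ⟨y.2, hy⟩

end CONV

open CONV in
theorem pConv : StConv := by
  intro E Γ _ _ M S F hF
  classical
  refine ⟨fun a b p => if h : ∀ t, p t ∈ M then F _ _ (lf p h) else 1, ⟨?_, ?_⟩, ?_⟩
  · intro a b p q H hH
    have hp : ∀ t, p t ∈ M := fun t => by
      have e : H (0, t) = p t := H.apply_zero t
      have := hH (0, t)
      rw [e] at this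
      exact (mem_of this).1
    have hq : ∀ t, q t ∈ M := fun t => by
      have e : H (1, t) = q t := H.apply_one t
      have := hH (1, t)
      rw [e] at this
      exact (mem_of this).1
    show (if h : ∀ t, p t ∈ M then F _ _ (lf p h) else 1) =
      (if h : ∀ t, q t ∈ M then F _ _ (lf q h) else 1)
    rw [dif_pos hp, dif_pos hq]
    have hM : ∀ x, H x ∈ M := fun x => (mem_of (hH x)).1
    let H' : (lf p hp).Homotopy (lf q hq) :=
      { toFun := fun x => ⟨H x, hM x⟩
        continuous_toFun := H.continuous.subtype_mk hM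
        map_zero_left := fun t => Subtype.ext (H.apply_zero t)
        map_one_left := fun t => Subtype.ext (H.apply_one t)
        prop' := fun s t ht => Subtype.ext (H.eq_fst s ht) }
    exact hF.hom _ _ _ _ H' (fun x => (mem_of (hH x)).2)
  · intro a b c p q hp hq
    have hp' : ∀ t, p t ∈ M := fun t => (mem_of (hp t)).1
    have hq' : ∀ t, q t ∈ M := fun t => (mem_of (hq t)).1
    have hpq : ∀ t, (p.trans q) t ∈ M := trans_mem hp' hq'
    show (if h : ∀ t, (p.trans q) t ∈ M then F _ _ (lf (p.trans q) h) else 1) =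
      (if h : ∀ t, p t ∈ M then F _ _ (lf p h) else 1) *
      (if h : ∀ t, q t ∈ M then F _ _ (lf q h) else 1)
    rw [dif_pos hp', dif_pos hq', dif_pos hpq, lf_trans p q hp' hq' hpq]
    exact hF.trans _ _ _ _ _ (fun t => (mem_of (hp t)).2) (fun t => (mem_of (hq t)).2)
  · intro a b p hp
    have h : ∀ t, (p.map continuous_subtype_val) t ∈ M := fun t => (p t).2
    show (if h : ∀ t, (p.map continuous_subtype_val) t ∈ M then F _ _ (lf _ h) else 1) = _
    rw [dif_pos h]
    have : lf (p.map continuous_subtype_val) h = p := by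
      ext t; rfl
    rw [this]

end CM
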