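import Pool.Agent.Helper59.CM.StAlg

/-! Project CM, module DD: noncommuting pair with commuting leading words. -/

set_option autoImplicit false

namespace CM

open NS

namespace DD

theorem rep_zero (r : List Bool) : rep 0 r = [] := rfl

theorem rep_add (i j : ℕ) (r : List Bool) : rep (i + j) r = rep i r ++ rep j r := by
  unfold rep
  rw [List.replicate_add, List.flatten_append]

theorem rep_comm_of {d r : List Bool} (h : d ++ r = r ++ d) (k : ℕ) :
    d ++ rep k r = rep k r ++ d := by
  induction k with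
  | zero => simp [rep_zero]
  | succ k ih =>
    have h1 : rep 1 r = r := by simp [rep]
    rw [rep_add, h1, ← List.append_assoc, ih, List.append_assoc, h, List.append_assoc]

theorem ne_one_of_ne {a b : UU} (h : a * b ≠ b * a) : a ≠ 1 ∧ b ≠ 1 := by
  constructor
  · rintro rfl
    exact h (by rw [one_mul, mul_one])
  · rintro rfl
    exact h (by rw [one_mul, mul_one])

theorem cm_ne_one {a b : UU} (h : a * b ≠ b * a) : cm a b ≠ 1 := by
  intro h1
  apply h
  unfold cm at h1
  have h2 : a * b * a⁻¹ = b := mul_inv_eq_one.1 h1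
  exact mul_inv_eq_iff_eq_mul.1 h2

end DD

open DD in
theorem pD (h1 : StWord) (h2 : StComm) (h3 : StLS) (h4 : StRoot) (h5 : StDrop) (_h6 : StLeadEx)
    (_h7 : StLead) : StD := by
  obtain ⟨hirr, -, htri, happ⟩ := h1
  obtain ⟨hcm, -, -, hcmL, hex, huniq⟩ := h2
  intro a b m n α β hab ha hb hmn
  obtain ⟨ha1, hb1⟩ := ne_one_of_ne hab
  have hm : m ≠ [] := by
    obtain ⟨w, c, hw, hne⟩ := hex a ha1
    rw [(huniq a m w α c ha hw).1]
    exact hne
  have hn : n ≠ [] := by
    obtain ⟨w, c, hw, hne⟩ := hex b hb1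
    rw [(huniq b n w β c hb hw).1]
    exact hne
  obtain ⟨d, γ, hd, -⟩ := hex (cm a b) (cm_ne_one hab)
  have hd' := (hcmL a b d γ).1 hd
  obtain ⟨hdm, hdn⟩ := h5 _ _ m n d α β γ ha hb hm hn hmn hd'
  obtain ⟨r, i, j, rfl, rfl⟩ := h3 m n hmn
  have hi : 1 ≤ i := by
    rcases Nat.eq_zero_or_pos i with h | h
    · subst h
      exact absurd (rep_zero r) hm
    · exact h
  have hj : 1 ≤ j := by
    rcases Nat.eq_zero_or_pos j with h | h
    · subst h
      exact absurd (rep_zero r) hn
    · exact h
  have hdr : d ++ r ≠ r ++ d := fun h => hdm (rep_comm_of h i)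
  have hlen : (d ++ r).length = (r ++ d).length := by
    rw [List.length_append, List.length_append, Nat.add_comm]
  have hpre : ∀ u v w : List Bool, wlt v w → wlt (u ++ v) (u ++ w) := fun u v w h =>
    (happ u u v w rfl).2 (Or.inr ⟨rfl, h⟩)
  have hsuf : ∀ u v w : List Bool, v.length = w.length → wlt v w → wlt (v ++ u) (w ++ u) :=
    fun u v w hl h => (happ v w u u hl).2 (Or.inl h)
  have hcl : ∀ u v : List Bool, (u ++ v).length = (v ++ u).length := fun u v => by
    rw [List.length_append, List.length_append, Nat.add_comm]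
  have hij := rep_add i j r
  rcases htri (d ++ r) (r ++ d) hlen hdr with hlt | hlt
  · -- `d r < r d`
    have hrt : ∀ k, 1 ≤ k → wlt (d ++ rep k r) (rep k r ++ d) := fun k hk =>
      (h4 d r k hk).2.1 hlt
    have hbu := (hcm b (cm a b) (rep j r) d β γ hb hd).1 (hrt j hj)
    have habu := (hcm a (cm b (cm a b)) (rep i r) (rep j r ++ d) α (β * γ) ha hbu).1 (by
      rw [List.append_assoc, ← List.append_assoc (rep i r), hmn, List.append_assoc]
      exact hpre _ _ _ (hrt i hi))
    have hlt2 : wlt (d ++ (rep i r ++ (rep j r ++ d))) (rep i r ++ (rep j r ++ d) ++ d) := by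
      have e1 : d ++ (rep i r ++ (rep j r ++ d)) = (d ++ rep (i + j) r) ++ d := by
        rw [hij]
        simp only [List.append_assoc]
      have e2 : rep i r ++ (rep j r ++ d) ++ d = (rep (i + j) r ++ d) ++ d := by
        rw [hij]
        simp only [List.append_assoc]
      rw [e1, e2]
      exact hsuf _ _ _ (hcl _ _) (hrt (i + j) (by omega))
    have hw2 := (hcm (cm a b) (cm a (cm b (cm a b))) d (rep i r ++ (rep j r ++ d)) γ
      (α * (β * γ)) hd habu).2 hlt2
    refine ⟨d, _, γ, _, hd, hw2, ?_⟩
    intro h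
    rw [← List.append_assoc] at h
    have h8 := List.append_cancel_right h
    rw [← h8] at hlt2
    exact hirr _ hlt2
  · -- `r d < d r`
    have hrt : ∀ k, 1 ≤ k → wlt (rep k r ++ d) (d ++ rep k r) := fun k hk =>
      (h4 d r k hk).2.2 hlt
    have hbu := (hcm b (cm a b) (rep j r) d β γ hb hd).2 (hrt j hj)
    have habu := (hcm a (cm b (cm a b)) (rep i r) (d ++ rep j r) α (-(β * γ)) ha hbu).2 (by
      rw [List.append_assoc, ← hmn, ← List.append_assoc, ← List.append_assoc]
      exact hsuf _ _ _ (hcl _ _) (hrt i hi))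
    have hlt2 : wlt ((d ++ rep j r ++ rep i r) ++ d) (d ++ (d ++ rep j r ++ rep i r)) := by
      have e1 : (d ++ rep j r ++ rep i r) ++ d = d ++ (rep (i + j) r ++ d) := by
        rw [hij, hmn]
        simp only [List.append_assoc]
      have e2 : d ++ (d ++ rep j r ++ rep i r) = d ++ (d ++ rep (i + j) r) := by
        rw [hij, hmn]
        simp only [List.append_assoc]
      rw [e1, e2]
      exact hpre _ _ _ (hrt (i + j) (by omega))
    have hw2 := (hcm (cm a b) (cm a (cm b (cm a b))) d (d ++ rep j r ++ rep i r) γ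
      (-(α * (-(β * γ)))) hd habu).1 hlt2
    refine ⟨d, _, γ, _, hd, hw2, ?_⟩
    intro h
    have h8 : d ++ (d ++ (d ++ rep j r ++ rep i r)) = d ++ ((d ++ rep j r ++ rep i r) ++ d) := by
      rw [h]
      simp only [List.append_assoc]
    have h9 := List.append_cancel_left h8
    rw [h9] at hlt2
    exact hirr _ hlt2

end CM
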