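import Pool.Agent.Helper59.CM.M_UNIQ

/-!
Project CM (MP_e9500f_gt): DECKU.
-/

set_option autoImplicit false

namespace CM

open Set Topology unitInterval NS

theorem pDeckU (hF : StFilt) (hD : StDeck) : StDeckU := by
  intro X Y _ _ _ f τ V p h hfold hloc hV hPFE hJ hp hτ hh hsp
  have h1 : IsPF (f ⁻¹' V) (fun _ _ _ => 1 : PFun X UU) :=
    ⟨fun a b p q H hH => rfl, fun a b c p q hp hq => (mul_one _).symm⟩
  refine UNIQ.key hF hp hJ hh h1
    (fun z => (∀ t, z t ∈ f ⁻¹' V) ∧ (∀ t, τ (z t) = z (σ t))) ?_ ?_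
  · rintro z ⟨hz1, hz2⟩
    exact hsp z hz1 hz2
  · intro A hA hz
    exact hD X Y f τ V p A hfold hloc hV hPFE hJ hp hτ hA fun z hz1 hz2 => hz z ⟨hz1, hz2⟩

end CM
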