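import Pool.Agent.Helper59.CM.StAlg

/-!
Project CM (MP_e9500f_gt), module DROP: the drop lemma.
-/

set_option autoImplicit false

namespace CM

namespace DROP

open NS

theorem rep_zero (r : List Bool) : rep 0 r = [] := rfl

theorem rep_succ (k : ℕ) (r : List Bool) : rep (k + 1) r = r ++ rep k r := by
  simp [rep, List.replicate_succ]

theorem rep_add (a b : ℕ) (r : List Bool) : rep (a + b) r = rep a r ++ rep b r := by
  induction a with
  | zero => simp [rep_zero]
  | succ a ih => rw [Nat.succ_add, rep_succ, rep_succ, ih, List.append_assoc]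

theorem rep_succ' (k : ℕ) (r : List Bool) : rep (k + 1) r = rep k r ++ r := by
  rw [rep_add, rep_succ, rep_zero, List.append_nil]

theorem rep_mul (a b : ℕ) (r : List Bool) : rep (a * b) r = rep a (rep b r) := by
  induction a with
  | zero => simp [rep_zero]
  | succ a ih => rw [Nat.succ_mul, Nat.add_comm, rep_add, rep_succ, ih]

theorem length_rep (k : ℕ) (r : List Bool) : (rep k r).length = k * r.length := by
  induction k with
  | zero => simp [rep_zero]
  | succ k ih => rw [rep_succ, List.length_append, ih]; ring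

/-- a word commuting with `r` commutes with the powers of `r` -/
theorem comm_rep {d r : List Bool} (h : d ++ r = r ++ d) (k : ℕ) :
    d ++ rep k r = rep k r ++ d := by
  induction k with
  | zero => simp [rep_zero]
  | succ k ih =>
    rw [rep_succ, ← List.append_assoc, h, List.append_assoc, ih, List.append_assoc]

theorem isLead_one : IsLead (1 : NS) [] 1 := by
  refine ⟨rfl, one_ne_zero, ?_⟩
  intro v hv
  rcases hv with hv | ⟨hv, hw⟩
  · simp at hv
  · have : v = [] := List.length_eq_zero_iff.1 (by simpa using hv)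
    subst this
    exact absurd hw (by simp [wlt])

theorem isLead_pow (h3 : StLead) {g : NS} {n : List Bool} {β : ℚ} (hg : IsLead g n β) (k : ℕ) :
    IsLead (g ^ k) (rep k n) (β ^ k) := by
  induction k with
  | zero => simpa [rep_zero] using isLead_one
  | succ k ih =>
    rw [pow_succ, pow_succ, rep_succ']
    exact h3.2.1 _ _ _ _ _ _ ih hg

/-- the commutator of `f` with a power of `g` -/
theorem isLead_comm_pow (h3 : StLead) {f g : NS} {n d : List Bool} {β γ : ℚ}
    (hg : IsLead g n β) (hd : IsLead (f * g - g * f) d γ) (hc : d ++ n = n ++ d) (i : ℕ) :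
    IsLead (f * g ^ (i + 1) - g ^ (i + 1) * f) (rep i n ++ d) ((i + 1 : ℕ) * β ^ i * γ) := by
  induction i with
  | zero => simpa [rep_zero] using hd
  | succ i ih =>
    have hβ : β ≠ 0 := hg.2.1
    have hγ : γ ≠ 0 := hd.2.1
    have e : f * g ^ (i + 1 + 1) - g ^ (i + 1 + 1) * f
        = (f * g ^ (i + 1) - g ^ (i + 1) * f) * g + g ^ (i + 1) * (f * g - g * f) := by
      rw [pow_succ g (i + 1)]
      noncomm_ring
    have l1 : IsLead ((f * g ^ (i + 1) - g ^ (i + 1) * f) * g) (rep (i + 1) n ++ d)
        ((i + 1 : ℕ) * β ^ i * γ * β) := by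
      have := h3.2.1 _ _ _ _ _ _ ih hg
      rwa [List.append_assoc, hc, ← List.append_assoc, ← rep_succ'] at this
    have l2 : IsLead (g ^ (i + 1) * (f * g - g * f)) (rep (i + 1) n ++ d)
        (β ^ (i + 1) * γ) :=
      h3.2.1 _ _ _ _ _ _ (isLead_pow h3 hg (i + 1)) hd
    have es : ((i + 1 : ℕ) : ℚ) * β ^ i * γ * β + β ^ (i + 1) * γ
        = ((i + 1 + 1 : ℕ) : ℚ) * β ^ (i + 1) * γ := by
      push_cast
      ring
    have hne : ((i + 1 : ℕ) : ℚ) * β ^ i * γ * β + β ^ (i + 1) * γ ≠ 0 := by
      rw [es]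
      exact mul_ne_zero (mul_ne_zero (Nat.cast_ne_zero.2 (Nat.succ_ne_zero _))
        (pow_ne_zero _ hβ)) hγ
    have := h3.2.2.2.1 _ _ _ _ _ l1 l2 hne
    rw [e, ← es]
    exact this

/-- trichotomy for `Before` -/
theorem tri (h1 : StWord) (v w : List Bool) : Before v w ∨ v = w ∨ Before w v := by
  rcases lt_trichotomy v.length w.length with h | h | h
  · exact Or.inl (Or.inl h)
  · by_cases hvw : v = w
    · exact Or.inr (Or.inl hvw)
    · rcases h1.2.2.1 v w h hvw with h' | h'
      · exact Or.inr (Or.inr (Or.inr ⟨h.symm, h'⟩))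
      · exact Or.inl (Or.inr ⟨h, h'⟩)
  · exact Or.inr (Or.inr (Or.inl h))

theorem before_trans (h1 : StWord) {u v w : List Bool} (a : Before u v) (b : Before v w) :
    Before u w := by
  rcases a with a | ⟨a, a'⟩ <;> rcases b with b | ⟨b, b'⟩
  · exact Or.inl (a.trans b)
  · exact Or.inl (b ▸ a)
  · exact Or.inl (a ▸ b)
  · exact Or.inr ⟨a.trans b, h1.2.1 _ _ _ b' a'⟩

/-- difference of two series with different leading words -/
theorem isLead_sub (h1 : StWord) (h3 : StLead) {f g : NS} {m n : List Bool} {α β : ℚ}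
    (hf : IsLead f m α) (hg : IsLead g n β) (hmn : m ≠ n) :
    ∃ (w : List Bool) (c : ℚ), (w = m ∨ w = n) ∧ IsLead (f - g) w c := by
  rcases tri h1 m n with h | h | h
  · refine ⟨m, α, Or.inl rfl, ?_⟩
    rw [sub_eq_add_neg]
    refine h3.2.2.1 f (-g) m α hf ?_
    intro v hv
    have : Before v n := by
      rcases tri h1 m v with h' | h' | h'
      · exact absurd h' hv
      · exact h' ▸ h
      · exact before_trans h1 h' h
    rw [co_neg, hg.2.2 v this, neg_zero]
  · exact absurd h hmn
  · refine ⟨n, -β, Or.inr rfl, ?_⟩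
    rw [sub_eq_add_neg, add_comm]
    have hg' : IsLead (-g) n (-β) := by
      refine ⟨by rw [co_neg, hg.1], neg_ne_zero.2 hg.2.1, ?_⟩
      intro v hv
      rw [co_neg, hg.2.2 v hv, neg_zero]
    refine h3.2.2.1 (-g) f n (-β) hg' ?_
    intro v hv
    have : Before v m := by
      rcases tri h1 n v with h' | h' | h'
      · exact absurd h' hv
      · exact h' ▸ h
      · exact before_trans h1 h' h
    exact hf.2.2 v this

theorem before_irrefl (h1 : StWord) (v : List Bool) : ¬ Before v v := by
  rintro (h | ⟨_, h⟩)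
  · exact lt_irrefl _ h
  · exact h1.1 v h

/-- two words commuting with a nonempty word, of equal length, are equal -/
theorem eq_of_comm (h4 : StLS) {q r : List Bool} {k : ℕ} (hr : r ≠ [])
    (hq : q ++ r = r ++ q) (hl : q.length = (rep k r).length) : q = rep k r := by
  obtain ⟨s, a, b, e1, e2⟩ := h4 q r hq
  have hs : 0 < s.length := by
    rcases Nat.eq_zero_or_pos s.length with h | h
    · exfalso
      apply hr
      apply List.length_eq_zero_iff.1
      rw [e2, length_rep, h, Nat.mul_zero]
    · exact h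
  have e3 : rep k r = rep (k * b) s := by rw [rep_mul, ← e2]
  have : a = k * b := by
    rw [e3, e1, length_rep, length_rep] at hl
    exact Nat.eq_of_mul_eq_mul_right hs hl
  rw [e3, e1, this]

/-- the commutator starts in degree at least the sum of the degrees -/
theorem lower (h3 : StLead) {f g : NS} {m n d : List Bool} {α β γ : ℚ}
    (hf : IsLead f m α) (hg : IsLead g n β) (hd : IsLead (f * g - g * f) d γ) :
    m.length + n.length ≤ d.length := by
  by_contra hlt
  have hlt := not_le.1 hlt
  have l1 : IsLead (f * g) (m ++ n) (α * β) := h3.2.1 _ _ _ _ _ _ hf hg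
  have l2 : IsLead (g * f) (n ++ m) (β * α) := h3.2.1 _ _ _ _ _ _ hg hf
  have e1 : (m ++ n).length = m.length + n.length := List.length_append
  have e2 : (n ++ m).length = m.length + n.length := by rw [List.length_append, Nat.add_comm]
  apply hd.2.1
  rw [← hd.1, co_sub, l1.2.2 _ (Or.inl (e1 ▸ hlt)), l2.2.2 _ (Or.inl (e2 ▸ hlt)), sub_zero]

/-- the main induction -/
theorem main (h1 : StWord) (h2 : StLeadEx) (h3 : StLead) (h4 : StLS) (h5 : StRoot) (N : ℕ) :
    ∀ (f g : NS) (m n d : List Bool) (α β γ : ℚ),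
      IsLead f m α → IsLead g n β → m ≠ [] → n ≠ [] → m ++ n = n ++ m →
      IsLead (f * g - g * f) d γ → d.length = m.length + n.length + N →
      d ++ m ≠ m ++ d := by
  induction N using Nat.strong_induction_on with
  | _ N IH =>
  intro f g m n d α β γ hf hg hm hn hmn hd hN hdm
  obtain ⟨r, i, j, em, en⟩ := h4 m n hmn
  have hr : r ≠ [] := by
    rintro rfl
    apply hm
    rw [em]
    apply List.length_eq_zero_iff.1
    rw [length_rep]; simp
  have hrl : 0 < r.length := List.length_pos_iff.2 hr
  have hi : 1 ≤ i := by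
    rcases Nat.eq_zero_or_pos i with h | h
    · exact absurd (by rw [em, h, rep_zero]) hm
    · exact h
  have hj : 1 ≤ j := by
    rcases Nat.eq_zero_or_pos j with h | h
    · exact absurd (by rw [en, h, rep_zero]) hn
    · exact h
  have hdr : d ++ r = r ++ d := (h5 d r i hi).1 (by rw [← em]; exact hdm)
  have hdn : d ++ n = n ++ d := by rw [en]; exact comm_rep hdr j
  -- the series `T`
  have lf : IsLead (f ^ j) (rep (j * i) r) (α ^ j) := by
    have := isLead_pow h3 hf j
    rwa [em, ← rep_mul] at this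
  have lg : IsLead (g ^ i) (rep (j * i) r) (β ^ i) := by
    have := isLead_pow h3 hg i
    rwa [en, ← rep_mul, Nat.mul_comm i j] at this
  have hα : α ≠ 0 := hf.2.1
  have hβ : β ≠ 0 := hg.2.1
  have hγ : γ ≠ 0 := hd.2.1
  obtain ⟨c, hc⟩ : ∃ c : ℚ, c = α ^ j / β ^ i := ⟨_, rfl⟩
  have hc0 : c ≠ 0 := by
    rw [hc]; exact div_ne_zero (pow_ne_zero _ hα) (pow_ne_zero _ hβ)
  obtain ⟨T, hT⟩ : ∃ T : NS, T = f ^ j - c • g ^ i := ⟨_, rfl⟩
  have T0 : ∀ v, Before v (rep (j * i) r) ∨ v = rep (j * i) r → co T v = 0 := by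
    intro v hv
    rcases hv with hv | hv
    · rw [hT, co_sub, co_smul, lf.2.2 v hv, lg.2.2 v hv]; ring
    · rw [hT, hv, co_sub, co_smul, lf.1, lg.1, hc]
      field_simp
      ring
  -- the commutator of `f` and `T`
  have eT : f * T - T * f = (-c) • (f * g ^ i - g ^ i * f) := by
    rw [hT]
    rw [mul_sub, sub_mul, mul_smul_comm, smul_mul_assoc, neg_smul, smul_sub, ← pow_succ,
      ← pow_succ']
    abel
  obtain ⟨i', rfl⟩ : ∃ i', i = i' + 1 := ⟨i - 1, by omega⟩
  have lT : IsLead (f * T - T * f) (rep i' n ++ d) (-c * ((i' + 1 : ℕ) * β ^ i' * γ)) := by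
    rw [eT]
    exact h3.2.2.2.2 _ _ _ _ (isLead_comm_pow h3 hg hd hdn i') (neg_ne_zero.2 hc0)
  have hTne : T ≠ 0 := by
    intro h
    have := lT.1
    rw [h, mul_zero, zero_mul, sub_zero, co_zero] at this
    exact lT.2.1 this.symm
  obtain ⟨q, δ, hq⟩ := h2 T hTne
  have hq1 : Before (rep (j * (i' + 1)) r) q := by
    rcases tri h1 (rep (j * (i' + 1)) r) q with h | h | h
    · exact h
    · exact absurd (hq.1.symm.trans (T0 q (Or.inr h.symm))) hq.2.1
    · exact absurd (hq.1.symm.trans (T0 q (Or.inl h))) hq.2.1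
  -- `rep i' n ++ d` commutes with `m`
  have hmr : m ++ r = r ++ m := by rw [em]; exact (comm_rep rfl (i' + 1)).symm
  have hcm : (rep i' n ++ d) ++ m = m ++ (rep i' n ++ d) := by
    rw [List.append_assoc, hdm, ← List.append_assoc, ← List.append_assoc,
      comm_rep (d := m) hmn i']
  -- `q` commutes with `m`
  have hqm : m ++ q = q ++ m := by
    by_contra hne
    have l1 : IsLead (f * T) (m ++ q) (α * δ) := h3.2.1 _ _ _ _ _ _ hf hq
    have l2 : IsLead (T * f) (q ++ m) (δ * α) := h3.2.1 _ _ _ _ _ _ hq hf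
    obtain ⟨w, c', hw, hl⟩ := isLead_sub h1 h3 l1 l2 hne
    have hww : w = rep i' n ++ d := (h3.1 _ _ _ _ _ hl lT).1
    rw [← hww] at hcm
    rcases hw with rfl | rfl
    · apply hne
      rw [List.append_assoc] at hcm
      exact (List.append_cancel_left hcm).symm
    · apply hne
      rw [← List.append_assoc] at hcm
      exact (List.append_cancel_right hcm).symm
  have hqr : q ++ r = r ++ q := (h5 q r (i' + 1) hi).1 (by rw [← em]; exact hqm.symm)
  -- lengths
  have hql : (rep (j * (i' + 1)) r).length < q.length := by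
    rcases hq1 with h | ⟨h, h'⟩
    · exact h
    · exfalso
      have := eq_of_comm h4 hr hqr h.symm
      rw [this] at h'
      exact h1.1 _ h'
  have hqne : q ≠ [] := by
    rintro rfl
    simp at hql
  have hm1 : m.length = (i' + 1) * r.length := by rw [em, length_rep]
  have hn1 : n.length = j * r.length := by rw [en, length_rep]
  rw [length_rep] at hql
  have hdl : (rep i' n ++ d).length = i' * (j * r.length) + d.length := by
    rw [List.length_append, length_rep, hn1]
  -- lower bound for the length of the leading word of `fT - Tf`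
  have hlow : m.length + q.length ≤ (rep i' n ++ d).length := lower h3 hf hq lT
  obtain ⟨N', hN'⟩ : ∃ N', (rep i' n ++ d).length = m.length + q.length + N' :=
    ⟨_, (Nat.add_sub_cancel' hlow).symm⟩
  have hlt : N' < N := by
    have e1 : i' * (j * r.length) + j * r.length = j * (i' + 1) * r.length := by ring
    rw [hdl, hN, hn1] at hN'
    omega
  exact IH N' hlt f T m q (rep i' n ++ d) α δ _ hf hq hm hqne hqm lT hN' hcm

end DROP

theorem pDrop (h1 : StWord) (h2 : StLeadEx) (h3 : StLead) (h4 : StLS) (h5 : StRoot) : StDrop := by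
  intro f g m n d α β γ hf hg hm hn hmn hd
  constructor
  · have hlow := DROP.lower h3 hf hg hd
    exact DROP.main h1 h2 h3 h4 h5 (d.length - (m.length + n.length)) f g m n d α β γ hf hg hm hn
      hmn hd (by omega)
  · have hd' : IsLead (g * f - f * g) d (-γ) := by
      have := h3.2.2.2.2 _ _ _ (-1) hd (by norm_num)
      have e : (-1 : ℚ) • (f * g - g * f) = g * f - f * g := by
        rw [neg_smul, one_smul, neg_sub]
      rw [e] at this
      simpa using this
    have hlow := DROP.lower h3 hg hf hd'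
    exact DROP.main h1 h2 h3 h4 h5 (d.length - (n.length + m.length)) g f n m d β α (-γ) hg hf hn hm
      hmn.symm hd' (by omega)

end CM
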