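import Pool.Agent.Helper59.CM.StGeo

/-!
Project CM (MP_e9500f_gt): module F1, extension of a path functor over the two slices.
-/

set_option autoImplicit false

namespace CM

open Set Topology unitInterval

namespace F1

/-- boxes -/
def Bx (k a b c d : ℝ) : Set E :=
  {p | |p.1| < 1 ∧ a < k * p.2.re ∧ k * p.2.re < b ∧ c < p.2.im ∧ p.2.im < d}

theorem Bx_open (k a b c d : ℝ) : IsOpen (Bx k a b c d) := by
  unfold Bx
  have h1 : Continuous fun p : E => |p.1| := by fun_prop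
  have h2 : Continuous fun p : E => k * p.2.re := by fun_prop
  have h3 : Continuous fun p : E => p.2.im := by fun_prop
  exact (isOpen_lt h1 continuous_const).inter ((isOpen_lt continuous_const h2).inter
    ((isOpen_lt h2 continuous_const).inter ((isOpen_lt continuous_const h3).inter
      (isOpen_lt h3 continuous_const))))

theorem comb_lt {a b x y c : ℝ} (ha : 0 ≤ a) (hb : 0 ≤ b) (hab : a + b = 1) (hx : x < c)
    (hy : y < c) : a * x + b * y < c := by
  rcases ha.eq_or_lt with h | h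
  · rw [← h] at hab ⊢
    have : b = 1 := by linarith
    rw [this]; linarith
  · have h1 := mul_lt_mul_of_pos_left hx h
    have h2 := mul_le_mul_of_nonneg_left hy.le hb
    have h3 : a * c + b * c = c := by rw [← add_mul, hab, one_mul]
    linarith

theorem Bx_convex (k a b c d : ℝ) : Convex ℝ (Bx k a b c d) := by
  intro x hx y hy u v hu hv huv
  obtain ⟨x1, x2, x3, x4, x5⟩ := hx
  obtain ⟨y1, y2, y3, y4, y5⟩ := hy
  rw [abs_lt] at x1 y1
  refine ⟨abs_lt.mpr ⟨?_, ?_⟩, ?_, ?_, ?_, ?_⟩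
  · have := comb_lt hu hv huv (neg_lt_neg x1.1) (neg_lt_neg y1.1)
    simp only [Prod.fst_add, Prod.smul_fst, smul_eq_mul]
    linarith
  · have := comb_lt hu hv huv x1.2 y1.2
    simp only [Prod.fst_add, Prod.smul_fst, smul_eq_mul]
    linarith
  · have := comb_lt hu hv huv (neg_lt_neg x2) (neg_lt_neg y2)
    simp only [Prod.snd_add, Prod.smul_snd, Complex.add_re, Complex.real_smul,
      Complex.re_ofReal_mul]
    linarith
  · have := comb_lt hu hv huv x3 y3
    simp only [Prod.snd_add, Prod.smul_snd, Complex.add_re, Complex.real_smul,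
      Complex.re_ofReal_mul]
    linarith
  · have := comb_lt hu hv huv (neg_lt_neg x4) (neg_lt_neg y4)
    simp only [Prod.snd_add, Prod.smul_snd, Complex.add_im, Complex.real_smul,
      Complex.im_ofReal_mul]
    linarith
  · have := comb_lt hu hv huv x5 y5
    simp only [Prod.snd_add, Prod.smul_snd, Complex.add_im, Complex.real_smul,
      Complex.im_ofReal_mul]
    linarith

theorem seg_mem {S : Set E} (hS : Convex ℝ S) {a b : E} (ha : a ∈ S) (hb : b ∈ S) :
    ∀ t, Path.segment a b t ∈ S := by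
  intro t
  have : Path.segment a b t ∈ Set.range (Path.segment a b) := ⟨t, rfl⟩
  rw [Path.range_segment] at this
  exact hS.segment_subset ha hb this

theorem map_segment (a b : ℂ) :
    (Path.segment a b).map (emb 0).continuous = Path.segment (((0 : ℝ), a) : E) ((0 : ℝ), b) := by
  apply Path.ext
  funext t
  show (((0 : ℝ), Path.segment a b t) : E) = Path.segment (((0 : ℝ), a) : E) ((0 : ℝ), b) t
  rw [Path.segment_apply, Path.segment_apply, AffineMap.lineMap_apply, AffineMap.lineMap_apply]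
  ext <;> simp

theorem K0_closed : IsClosed K0 := by
  unfold K0
  have h1 : Continuous fun p : E => |p.1| := by fun_prop
  have h2 : Continuous fun p : E => |p.2.re| := by fun_prop
  have h3 : Continuous fun p : E => |p.2.im| := by fun_prop
  exact (isClosed_le h1 continuous_const).inter ((isClosed_le h2 continuous_const).inter
    ((isClosed_le h3 continuous_const).inter ((isClosed_le continuous_const h1).union
      ((isClosed_le h2 continuous_const).union (isClosed_le continuous_const h2)))))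

/-- the slab -/
def SB : Set E := {p : E | |p.1| < 1 ∧ |p.2.re| < 5 ∧ |p.2.im| < 5}

/-- the ring -/
def U (k : ℝ) : Fin 4 → Set E :=
  ![Bx k 1 2 (-5) 5, Bx k 1 5 (-5) (-1), Bx k 3 5 (-5) 5, Bx k 1 5 1 5]

theorem sabs {k : ℝ} (hk : k = 1 ∨ k = -1) (y : ℝ) : |y| = |k * y| := by
  rw [abs_mul]; rcases hk with rfl | rfl <;> simp

theorem inter_eq {k : ℝ} (hk : k = 1 ∨ k = -1) {M : Set E} (hM : SB ⊆ M) :
    (M \ K0) ∩ Bx k 1 5 (-5) 5 = ⋃ i, U k i := by
  ext ⟨s, y, z⟩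
  have hy := sabs hk y
  have hU : ((s, (⟨y, z⟩ : ℂ)) : E) ∈ ⋃ i, U k i ↔ (|s| < 1 ∧ 1 < k * y ∧ k * y < 5 ∧ -5 < z ∧ z < 5
      ∧ (k * y < 2 ∨ z < -1 ∨ 3 < k * y ∨ 1 < z)) := by
    rw [mem_iUnion]
    constructor
    · rintro ⟨i, hi⟩
      fin_cases i
      · obtain ⟨h1, h2, h3, h4, h5⟩ : |s| < 1 ∧ 1 < k * y ∧ k * y < 2 ∧ -5 < z ∧ z < 5 := hi
        exact ⟨h1, h2, by linarith, h4, h5, Or.inl h3⟩
      · obtain ⟨h1, h2, h3, h4, h5⟩ : |s| < 1 ∧ 1 < k * y ∧ k * y < 5 ∧ -5 < z ∧ z < -1 := hi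
        exact ⟨h1, h2, h3, h4, by linarith, Or.inr (Or.inl h5)⟩
      · obtain ⟨h1, h2, h3, h4, h5⟩ : |s| < 1 ∧ 3 < k * y ∧ k * y < 5 ∧ -5 < z ∧ z < 5 := hi
        exact ⟨h1, by linarith, h3, h4, h5, Or.inr (Or.inr (Or.inl h2))⟩
      · obtain ⟨h1, h2, h3, h4, h5⟩ : |s| < 1 ∧ 1 < k * y ∧ k * y < 5 ∧ 1 < z ∧ z < 5 := hi
        exact ⟨h1, h2, h3, by linarith, h5, Or.inr (Or.inr (Or.inr h4))⟩
    · rintro ⟨h1, h2, h3, h4, h5, h | h | h | h⟩
      · exact ⟨0, h1, h2, h, h4, h5⟩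
      · exact ⟨1, h1, h2, h3, h4, h⟩
      · exact ⟨2, h1, h, h3, h4, h5⟩
      · exact ⟨3, h1, h2, h3, h, h5⟩
  rw [hU]
  constructor
  · rintro ⟨⟨-, hK⟩, h1, h2, h3, h4, h5⟩
    have h1' : |s| < 1 := h1
    have h2' : 1 < k * y := h2
    have h3' : k * y < 5 := h3
    have h4' : -5 < z := h4
    have h5' : z < 5 := h5
    refine ⟨h1', h2', h3', h4', h5', ?_⟩
    by_contra hn
    simp only [not_or, not_lt] at hn
    obtain ⟨n1, n2, n3, n4⟩ := hn
    apply hK
    show |s| ≤ 4 ∧ |y| ≤ 3 ∧ |z| ≤ 1 ∧ (3 ≤ |s| ∨ |y| ≤ 1 ∨ 2 ≤ |y|)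
    rw [hy, abs_of_pos (by linarith : 0 < k * y)]
    exact ⟨by linarith, n3, abs_le.mpr ⟨n2, n4⟩, Or.inr (Or.inr n1)⟩
  · rintro ⟨h1, h2, h3, h4, h5, h⟩
    have hy' : |y| = k * y := by rw [hy, abs_of_pos (by linarith : 0 < k * y)]
    refine ⟨⟨hM ⟨h1, ?_, abs_lt.mpr ⟨h4, h5⟩⟩, ?_⟩, h1, h2, h3, h4, h5⟩
    · show |y| < 5
      rw [hy']; exact h3
    · rintro ⟨g1, g2, g3, g4⟩
      have g1' : |s| ≤ 4 := g1
      have g2' : |y| ≤ 3 := g2
      have g3' : |z| ≤ 1 := g3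
      have g4' : 3 ≤ |s| ∨ |y| ≤ 1 ∨ 2 ≤ |y| := g4
      rw [hy'] at g2' g4'
      rw [abs_le] at g3'
      rcases g4' with g | g | g
      · linarith
      · linarith
      · rcases h with h | h | h | h <;> linarith

theorem trans_congr {X : Type} [TopologicalSpace X] {a b c : X} {p p' : Path a b} {q q' : Path b c}
    (h : p = p') (h' : q = q') : p.trans q = p'.trans q' := by rw [h, h']

theorem exact_inter (h1 : StRing) (h3 : StCvx) {Γ : Type} [Group Γ] {k : ℝ} (hk : k = 1 ∨ k = -1)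
    {M : Set E} (hM : SB ⊆ M) {F : PFun E Γ} (hF : IsPF (M \ K0) F)
    (hL : F pt pt ((ploop (k * (3 / 2)) (k * 4)).map (emb 0).continuous) = 1) :
    IsExact ((M \ K0) ∩ Bx k 1 5 (-5) 5) F := by
  have hkk : k * k = 1 := by rcases hk with rfl | rfl <;> norm_num
  -- the four corners
  set g : ℂ := ((k * (3 / 2) : ℝ) : ℂ) with hg
  set c : ℂ := ((k * 4 : ℝ) : ℂ) with hc
  have hgr : g.re = k * (3 / 2) := Complex.ofReal_re _
  have hgi : g.im = 0 := Complex.ofReal_im _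
  have hcr : c.re = k * 4 := Complex.ofReal_re _
  have hci : c.im = 0 := Complex.ofReal_im _
  have hg1 : k * (g + up).re = 3 / 2 := by
    rw [Complex.add_re, hgr]; simp only [up]; linear_combination (3 / 2) * hkk
  have hg2 : k * (g - up).re = 3 / 2 := by
    rw [Complex.sub_re, hgr]; simp only [up]; linear_combination (3 / 2) * hkk
  have hc1 : k * (c + up).re = 4 := by
    rw [Complex.add_re, hcr]; simp only [up]; linear_combination 4 * hkk
  have hc2 : k * (c - up).re = 4 := by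
    rw [Complex.sub_re, hcr]; simp only [up]; linear_combination 4 * hkk
  have hg3 : (g + up).im = 2 := by rw [Complex.add_im, hgi]; simp [up]
  have hg4 : (g - up).im = -2 := by rw [Complex.sub_im, hgi]; simp [up]
  have hc3 : (c + up).im = 2 := by rw [Complex.add_im, hci]; simp [up]
  have hc4 : (c - up).im = -2 := by rw [Complex.sub_im, hci]; simp [up]
  have key : ∀ (w : ℂ) (a b c' d r t : ℝ), k * w.re = r → w.im = t → a < r → r < b → c' < t →
      t < d → (((0 : ℝ), w) : E) ∈ Bx k a b c' d := by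
    intro w a b c' d r t hr ht e1 e2 e3 e4
    subst hr ht
    exact ⟨by simp, e1, e2, e3, e4⟩
  set a1 : E := ((0 : ℝ), g + up) with ha1
  set a2 : E := ((0 : ℝ), g - up) with ha2
  set a3 : E := ((0 : ℝ), c - up) with ha3
  set a4 : E := ((0 : ℝ), c + up) with ha4
  have m30 : a1 ∈ U k 3 := key _ _ _ _ _ _ _ hg1 hg3 (by norm_num) (by norm_num) (by norm_num) (by norm_num)
  have m00 : a1 ∈ U k 0 := key _ _ _ _ _ _ _ hg1 hg3 (by norm_num) (by norm_num) (by norm_num) (by norm_num)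
  have m01 : a2 ∈ U k 0 := key _ _ _ _ _ _ _ hg2 hg4 (by norm_num) (by norm_num) (by norm_num) (by norm_num)
  have m11 : a2 ∈ U k 1 := key _ _ _ _ _ _ _ hg2 hg4 (by norm_num) (by norm_num) (by norm_num) (by norm_num)
  have m12 : a3 ∈ U k 1 := key _ _ _ _ _ _ _ hc2 hc4 (by norm_num) (by norm_num) (by norm_num) (by norm_num)
  have m22 : a3 ∈ U k 2 := key _ _ _ _ _ _ _ hc2 hc4 (by norm_num) (by norm_num) (by norm_num) (by norm_num)
  have m23 : a4 ∈ U k 2 := key _ _ _ _ _ _ _ hc1 hc3 (by norm_num) (by norm_num) (by norm_num) (by norm_num)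
  have m33 : a4 ∈ U k 3 := key _ _ _ _ _ _ _ hc1 hc3 (by norm_num) (by norm_num) (by norm_num) (by norm_num)
  have q0 : pt ∈ Bx k (-5) 5 1 5 :=
    key up _ _ _ _ 0 2 (by simp [up]) (by simp [up]) (by norm_num) (by norm_num) (by norm_num)
      (by norm_num)
  have q1' : a1 ∈ Bx k (-5) 5 1 5 := key _ _ _ _ _ _ _ hg1 hg3 (by norm_num) (by norm_num) (by norm_num) (by norm_num)
  have q4' : a4 ∈ Bx k (-5) 5 1 5 := key _ _ _ _ _ _ _ hc1 hc3 (by norm_num) (by norm_num) (by norm_num) (by norm_num)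
  have hUo : ∀ i, IsOpen (U k i) := by
    intro i; fin_cases i <;> exact Bx_open _ _ _ _ _
  have hUc : ∀ i, Convex ℝ (U k i) := by
    intro i; fin_cases i <;> exact Bx_convex _ _ _ _ _
  have hUS : ∀ i, U k i ⊆ M \ K0 := fun i x hx =>
    ((inter_eq hk hM).symm ▸ mem_iUnion.mpr ⟨i, hx⟩ :
      x ∈ (M \ K0) ∩ Bx k 1 5 (-5) 5).1
  have hPS : Bx k (-5) 5 1 5 ⊆ M \ K0 := by
    rintro ⟨s, y, z⟩ ⟨e1, e2, e3, e4, e5⟩
    have e1' : |s| < 1 := e1
    have e2' : -5 < k * y := e2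
    have e3' : k * y < 5 := e3
    have e4' : 1 < z := e4
    have e5' : z < 5 := e5
    refine ⟨hM ⟨e1', ?_, ?_⟩, ?_⟩
    · show |y| < 5
      rw [sabs hk y]; exact abs_lt.mpr ⟨e2', e3'⟩
    · show |z| < 5
      exact abs_lt.mpr ⟨by linarith, e5'⟩
    · rintro ⟨-, -, h, -⟩
      have h' : |z| ≤ 1 := h
      rw [abs_le] at h'
      linarith
  have e : (ploop (k * (3 / 2)) (k * 4)).map (emb 0).continuous =
      (Path.segment pt a1).trans ((Path.segment a1 a2).trans ((Path.segment a2 a3).trans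
        ((Path.segment a3 a4).trans (Path.segment a4 pt)))) := by
    unfold ploop
    rw [Path.map_trans]
    refine trans_congr (map_segment _ _) ?_
    rw [Path.map_trans]
    refine trans_congr (map_segment _ _) ?_
    rw [Path.map_trans]
    refine trans_congr (map_segment _ _) ?_
    rw [Path.map_trans]
    exact trans_congr (map_segment _ _) (map_segment _ _)
  have s1 : ∀ t, Path.segment pt a1 t ∈ M \ K0 := fun t =>
    hPS (seg_mem (Bx_convex _ _ _ _ _) q0 q1' t)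
  have s2 : ∀ t, Path.segment a1 a2 t ∈ M \ K0 := fun t => hUS 0 (seg_mem (hUc 0) m00 m01 t)
  have s3 : ∀ t, Path.segment a2 a3 t ∈ M \ K0 := fun t => hUS 1 (seg_mem (hUc 1) m11 m12 t)
  have s4 : ∀ t, Path.segment a3 a4 t ∈ M \ K0 := fun t => hUS 2 (seg_mem (hUc 2) m22 m23 t)
  have s5 : ∀ t, Path.segment a4 pt t ∈ M \ K0 := fun t =>
    hPS (seg_mem (Bx_convex _ _ _ _ _) q4' q0 t)
  replace hL : F pt pt ((Path.segment pt a1).trans ((Path.segment a1 a2).trans
      ((Path.segment a2 a3).trans ((Path.segment a3 a4).trans (Path.segment a4 pt))))) = 1 :=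
    (congrArg (F pt pt) e).symm.trans hL
  rw [hF.trans _ _ _ _ _ s1 (trans_mem s2 (trans_mem s3 (trans_mem s4 s5))),
    hF.trans _ _ _ _ _ s2 (trans_mem s3 (trans_mem s4 s5)),
    hF.trans _ _ _ _ _ s3 (trans_mem s4 s5), hF.trans _ _ _ _ _ s4 s5] at hL
  obtain ⟨φ, hφ⟩ := h3 E Γ _ F (Bx_convex k (-5) 5 1 5) (hF.mono hPS)
  rw [inter_eq hk hM]
  refine h1 E Γ (U k) F hUo hUc ?_ ?_ ?_ a1 a2 a3 a4 ⟨m30, m00⟩ ⟨m01, m11⟩ ⟨m12, m22⟩ ⟨m23, m33⟩ ?_
  · apply eq_empty_of_forall_notMem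
    rintro x ⟨⟨-, -, x3, -, -⟩, -, x2, -, -, -⟩
    linarith
  · apply eq_empty_of_forall_notMem
    rintro x ⟨⟨-, -, -, -, x5⟩, -, -, -, x4, -⟩
    linarith
  · exact hF.mono (iUnion_subset hUS)
  · rw [hφ pt a1 _ (seg_mem (Bx_convex _ _ _ _ _) q0 q1'),
      hφ a4 pt _ (seg_mem (Bx_convex _ _ _ _ _) q4' q0)] at hL
    rw [hφ a4 a1 _ (seg_mem (Bx_convex _ _ _ _ _) q4' q1')]
    set A := F a1 a2 (Path.segment a1 a2)
    set B := F a2 a3 (Path.segment a2 a3)
    set C := F a3 a4 (Path.segment a3 a4)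
    have : A * B * C = (φ a1)⁻¹ * φ a4 := by
      have h2 := congrArg (fun x => (φ a1)⁻¹ * φ pt * x * (φ pt)⁻¹ * φ a4) hL
      simp only [mul_one] at h2
      group at h2 ⊢
      exact h2
    rw [this]; group

end F1

theorem pF1 (h1 : StRing) (h2 : StExt) (h3 : StCvx) : StF1 := by
  intro Γ _ M F hMo hM hF hX hY
  have hSo : IsOpen (M \ K0) := hMo.sdiff F1.K0_closed
  have hM' : F1.SB ⊆ M := hM
  have eX := F1.exact_inter h1 h3 (k := -1) (Or.inr rfl) hM' hF (by
    have e1 : (-1 : ℝ) * (3 / 2) = -3 / 2 := by norm_num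
    have e2 : (-1 : ℝ) * 4 = -4 := by norm_num
    rw [e1, e2]; exact hX)
  have eY := F1.exact_inter h1 h3 (k := 1) (Or.inl rfl) hM' hF (by
    have e1 : (1 : ℝ) * (3 / 2) = 3 / 2 := by norm_num
    have e2 : (1 : ℝ) * 4 = 4 := by norm_num
    rw [e1, e2]; exact hY)
  obtain ⟨F', hF', hF'e⟩ := h2 E Γ _ _ F hSo (F1.Bx_open (-1) 1 5 (-5) 5) hF eX
  have hint : ((M \ K0) ∪ F1.Bx (-1) 1 5 (-5) 5) ∩ F1.Bx 1 1 5 (-5) 5 =
      (M \ K0) ∩ F1.Bx 1 1 5 (-5) 5 := by
    ext x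
    constructor
    · rintro ⟨h | h, h'⟩
      · exact ⟨h, h'⟩
      · exfalso
        obtain ⟨-, a2, -⟩ := h
        obtain ⟨-, b2, -⟩ := h'
        linarith
    · rintro ⟨h, h'⟩; exact ⟨Or.inl h, h'⟩
  have eY' : IsExact (((M \ K0) ∪ F1.Bx (-1) 1 5 (-5) 5) ∩ F1.Bx 1 1 5 (-5) 5) F' := by
    rw [hint]
    obtain ⟨φ, hφ⟩ := eY
    exact ⟨φ, fun a b p hp => by rw [hF'e a b p fun t => (hp t).1]; exact hφ a b p hp⟩
  obtain ⟨F'', hF'', hF''e⟩ := h2 E Γ _ _ F' (hSo.union (F1.Bx_open (-1) 1 5 (-5) 5))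
    (F1.Bx_open 1 1 5 (-5) 5) hF' eY'
  refine ⟨F'', hF''.mono ?_, fun a b p hp => ?_⟩
  · rintro ⟨s, y, z⟩ ⟨hxM, hxK⟩
    by_cases hK : ((s, (⟨y, z⟩ : ℂ)) : E) ∈ K0
    · have hn : ¬ (1 ≤ |s| ∨ |y| ≤ 1) := fun h => hxK ⟨hK, h⟩
      obtain ⟨c1, c2, c3, c4⟩ := hK
      have c2' : |y| ≤ 3 := c2
      have c3' : |z| ≤ 1 := c3
      rw [abs_le] at c3'
      simp only [not_or, not_le] at hn
      obtain ⟨n1, n2⟩ := hn
      rcases lt_abs.mp n2 with h | h
      · right
        refine ⟨n1, ?_, ?_, ?_, ?_⟩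
        · show 1 < 1 * y
          linarith
        · show 1 * y < 5
          linarith [le_abs_self y]
        · show -5 < z
          linarith
        · show z < 5
          linarith
      · left; right
        refine ⟨n1, ?_, ?_, ?_, ?_⟩
        · show 1 < -1 * y
          linarith
        · show -1 * y < 5
          linarith [neg_abs_le y]
        · show -5 < z
          linarith
        · show z < 5
          linarith
    · left; left
      exact ⟨hxM, hK⟩
  · rw [hF''e a b p fun t => Or.inl (hp t), hF'e a b p hp]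

end CM
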