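import Pool.Agent.Helper59.CM.StGeo

/-!
CM F2: extension over the four stubs.
-/

set_option autoImplicit false

namespace CM

open Set Topology unitInterval

namespace F2

/-- open box with signs -/
def Bx (ς τ a₁ b₁ a₂ b₂ a₃ b₃ : ℝ) : Set E :=
  {p | a₁ < ς * p.1 ∧ ς * p.1 < b₁ ∧ a₂ < τ * p.2.re ∧ τ * p.2.re < b₂ ∧ a₃ < p.2.im ∧ p.2.im < b₃}

theorem isOpen_Bx (ς τ a₁ b₁ a₂ b₂ a₃ b₃ : ℝ) : IsOpen (Bx ς τ a₁ b₁ a₂ b₂ a₃ b₃) := by
  have h1 : Continuous fun p : E => ς * p.1 := by fun_prop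
  have h2 : Continuous fun p : E => τ * p.2.re :=
    continuous_const.mul (Complex.continuous_re.comp continuous_snd)
  have h3 : Continuous fun p : E => p.2.im := Complex.continuous_im.comp continuous_snd
  exact (isOpen_lt continuous_const h1).inter ((isOpen_lt h1 continuous_const).inter
    ((isOpen_lt continuous_const h2).inter ((isOpen_lt h2 continuous_const).inter
      ((isOpen_lt continuous_const h3).inter (isOpen_lt h3 continuous_const)))))

theorem convex_Bx (ς τ a₁ b₁ a₂ b₂ a₃ b₃ : ℝ) : Convex ℝ (Bx ς τ a₁ b₁ a₂ b₂ a₃ b₃) := by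
  have h1 : IsLinearMap ℝ fun p : E => ς * p.1 :=
    ⟨fun x y => by simp [mul_add], fun c x => by simp; ring⟩
  have h2 : IsLinearMap ℝ fun p : E => τ * p.2.re :=
    ⟨fun x y => by simp [mul_add], fun c x => by simp; ring⟩
  have h3 : IsLinearMap ℝ fun p : E => p.2.im :=
    ⟨fun x y => by simp, fun c x => by simp⟩
  exact (convex_halfSpace_gt h1 _).inter ((convex_halfSpace_lt h1 _).inter
    ((convex_halfSpace_gt h2 _).inter ((convex_halfSpace_lt h2 _).inter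
      ((convex_halfSpace_gt h3 _).inter (convex_halfSpace_lt h3 _)))))

theorem step (hStar : StStar) (hExt : StExt) {Γ : Type} [Group Γ] (S N : Set E) (F : PFun E Γ)
    (hS : IsOpen S) (hN : IsOpen N) (hF : IsPF S F) (U : Fin 5 → Set E)
    (hUo : ∀ i, IsOpen (U i)) (hUc : ∀ i, Convex ℝ (U i)) (g : E → E)
    (hg0 : ∀ i, ∀ x ∈ U i, g x ∈ U 0) (hgi : ∀ i, i ≠ 0 → ∀ x ∈ U i, g x ∈ U i)
    (hU : ⋃ i, U i = S ∩ N) :
    ∃ F' : PFun E Γ, IsPF (S ∪ N) F' ∧ ∀ (a b : E) (p : Path a b), (∀ t, p t ∈ S) →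
      F' a b p = F a b p := by
  refine hExt E Γ S N F hS hN hF ?_
  rw [← hU]
  refine hStar E Γ (Fin 5) U 0 F hUo hUc ?_ (hF.mono (by rw [hU]; exact inter_subset_left))
  rintro i j ⟨x, hx, hx'⟩
  by_cases hi : i = 0
  · subst hi; exact ⟨x, ⟨hx, hx'⟩, hx⟩
  · by_cases hj : j = 0
    · subst hj; exact ⟨x, ⟨hx, hx'⟩, hx'⟩
    · exact ⟨g x, ⟨hgi i hi x hx, hgi j hj x hx'⟩, hg0 i x hx⟩

end F2

namespace F2a

open F2

/-- the neighbourhood of a stub -/
def NN (ς τ : ℝ) : Set E := Bx ς τ (1/2) 3 (-7/2) (-7/4) (-3/2) (3/2)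

def UU (ς τ : ℝ) : Fin 5 → Set E :=
  ![Bx ς τ (1/2) 1 (-7/2) (-7/4) (-3/2) (3/2), Bx ς τ (1/2) 3 (-7/2) (-7/4) 1 (3/2),
    Bx ς τ (1/2) 3 (-7/2) (-7/4) (-3/2) (-1), Bx ς τ (1/2) 3 (-7/2) (-3) (-3/2) (3/2),
    Bx ς τ (1/2) 3 (-2) (-7/4) (-3/2) (3/2)]

theorem abs_sg {ς x : ℝ} (hsg : ς = 1 ∨ ς = -1) : |x| = |ς * x| := by
  rcases hsg with rfl | rfl <;> simp

theorem mem_U {ς τ : ℝ} (hsg : ς = 1 ∨ ς = -1) (hτ : τ = 1 ∨ τ = -1) {p : E} (hp : p ∈ NN ς τ) :
    p ∉ K2 ↔ p ∈ ⋃ i, UU ς τ i := by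
  obtain ⟨h1, h2, h3, h4, h5, h6⟩ := hp
  have hs : |p.1| = ς * p.1 := by rw [abs_sg hsg, abs_of_pos (by linarith)]
  have hy : |p.2.re| = -(τ * p.2.re) := by rw [abs_sg hτ, abs_of_neg (by linarith)]
  constructor
  · intro h
    rw [mem_iUnion]
    by_contra hc
    push Not at hc
    have c0 := hc 0
    have c1 := hc 1
    have c2 := hc 2
    have c3 := hc 3
    have c4 := hc 4
    simp only [UU, Bx, mem_ofPred_eq, Matrix.cons_val] at c0 c1 c2 c3 c4
    apply h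
    have d0 : 1 ≤ ς * p.1 := by
      by_contra hd; push Not at hd; exact c0 ⟨h1, hd, h3, h4, h5, h6⟩
    have d1 : p.2.im ≤ 1 := by
      by_contra hd; push Not at hd; exact c1 ⟨h1, h2, h3, h4, hd, h6⟩
    have d2 : -1 ≤ p.2.im := by
      by_contra hd; push Not at hd; exact c2 ⟨h1, h2, h3, h4, h5, hd⟩
    have d3 : -3 ≤ τ * p.2.re := by
      by_contra hd; push Not at hd; exact c3 ⟨h1, h2, h3, hd, h5, h6⟩
    have d4 : τ * p.2.re ≤ -2 := by
      by_contra hd; push Not at hd; exact c4 ⟨h1, h2, hd, h4, h5, h6⟩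
    refine ⟨⟨?_, ?_, abs_le.2 ⟨d2, d1⟩, ?_⟩, ?_⟩
    · rw [hs]; linarith
    · rw [hy]; linarith
    · right; right; rw [hy]; linarith
    · left; rw [hs]; exact d0
  · intro h hK
    obtain ⟨⟨k1, k2, k3, k4⟩, k5⟩ := hK
    rw [hs] at k1 k4 k5
    rw [hy] at k2 k4 k5
    rw [abs_le] at k3
    have k5' : 1 ≤ ς * p.1 := by
      rcases k5 with k5 | k5
      · exact k5
      · linarith
    have k4' : τ * p.2.re ≤ -2 := by
      rcases k4 with k4 | k4 | k4 <;> linarith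
    rw [mem_iUnion] at h
    obtain ⟨i, hi⟩ := h
    fin_cases i <;> simp only [UU, Bx, mem_ofPred_eq, Matrix.cons_val, Fin.zero_eta, Fin.mk_one,
      Fin.reduceFinMk] at hi <;> obtain ⟨u1, u2, u3, u4, u5, u6⟩ := hi <;> linarith

theorem NN_OO {ς τ : ℝ} (hsg : ς = 1 ∨ ς = -1) (hτ : τ = 1 ∨ τ = -1) : NN ς τ ⊆ OO := by
  rintro p ⟨h1, h2, h3, h4, h5, h6⟩
  have hs : |p.1| = ς * p.1 := by rw [abs_sg hsg, abs_of_pos (by linarith)]
  have hy : |p.2.re| = -(τ * p.2.re) := by rw [abs_sg hτ, abs_of_neg (by linarith)]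
  refine ⟨?_, ?_, abs_lt.2 ⟨by linarith, h6⟩, ?_⟩
  · rw [hs]; linarith
  · rw [hy]; linarith
  · right; right; rw [hy]; linarith

theorem NN_disj {ς τ ς' τ' : ℝ} {p : E} (h : p ∈ NN ς τ) (h' : p ∈ NN ς' τ')
    (hne : ς' = -ς ∨ τ' = -τ) : False := by
  obtain ⟨h1, h2, h3, h4, h5, h6⟩ := h
  obtain ⟨k1, k2, k3, k4, k5, k6⟩ := h'
  rcases hne with rfl | rfl
  · linarith
  · linarith

theorem one_step (hStar : StStar) (hExt : StExt) {Γ : Type} [Group Γ] (M S : Set E)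
    (F : PFun E Γ) (hS : IsOpen S) (hO : OO ⊆ M) (hF : IsPF S F)
    {ς τ : ℝ} (hsg : ς = 1 ∨ ς = -1) (hτ : τ = 1 ∨ τ = -1)
    (hSN : ∀ p ∈ NN ς τ, (p ∈ S ↔ p ∈ M \ K2)) :
    ∃ F' : PFun E Γ, IsPF (S ∪ NN ς τ) F' ∧ ∀ (a b : E) (p : Path a b), (∀ t, p t ∈ S) →
      F' a b p = F a b p := by
  have hs2 : ς * ς = 1 := by rcases hsg with rfl | rfl <;> norm_num
  refine step hStar hExt S (NN ς τ) F hS (isOpen_Bx _ _ _ _ _ _ _ _) hF (UU ς τ) ?_ ?_
    (fun p => (ς * (3/4), p.2)) ?_ ?_ ?_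
  · intro i; fin_cases i <;> exact isOpen_Bx _ _ _ _ _ _ _ _
  · intro i; fin_cases i <;> exact convex_Bx _ _ _ _ _ _ _ _
  · intro i x hx
    have e : ς * (ς * (3/4)) = 3/4 := by rw [← mul_assoc, hs2, one_mul]
    fin_cases i <;> simp only [UU, Bx, mem_ofPred_eq, Matrix.cons_val, Fin.zero_eta, Fin.mk_one,
      Fin.reduceFinMk, e] at hx ⊢ <;> obtain ⟨u1, u2, u3, u4, u5, u6⟩ := hx <;>
      refine ⟨by norm_num, by norm_num, ?_, ?_, ?_, ?_⟩ <;> linarith
  · intro i hi x hx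
    have e : ς * (ς * (3/4)) = 3/4 := by rw [← mul_assoc, hs2, one_mul]
    fin_cases i
    · exact absurd rfl hi
    all_goals
      simp only [UU, Bx, mem_ofPred_eq, Matrix.cons_val, Fin.zero_eta, Fin.mk_one,
        Fin.reduceFinMk, e] at hx ⊢
      obtain ⟨u1, u2, u3, u4, u5, u6⟩ := hx
      refine ⟨by norm_num, by norm_num, ?_, ?_, ?_, ?_⟩ <;> linarith
  · ext p
    constructor
    · intro hp
      have hpN : p ∈ NN ς τ := by
        rw [mem_iUnion] at hp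
        obtain ⟨i, hi⟩ := hp
        fin_cases i <;> simp only [UU, NN, Bx, mem_ofPred_eq, Matrix.cons_val, Fin.zero_eta,
          Fin.mk_one, Fin.reduceFinMk] at hi ⊢ <;> obtain ⟨u1, u2, u3, u4, u5, u6⟩ := hi <;>
          refine ⟨?_, ?_, ?_, ?_, ?_, ?_⟩ <;> linarith
      exact ⟨(hSN p hpN).2 ⟨hO (NN_OO hsg hτ hpN), (mem_U hsg hτ hpN).2 hp⟩, hpN⟩
    · rintro ⟨hpS, hpN⟩
      exact (mem_U hsg hτ hpN).1 ((hSN p hpN).1 hpS).2

end F2a

open F2 F2a in
theorem pF2 (hStar : StStar) (hExt : StExt) : StF2 := by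
  intro Γ _ M F hM hO hF
  have hK0 : IsClosed K0 := by
    have h1 : Continuous fun p : E => |p.1| := continuous_fst.abs
    have h2 : Continuous fun p : E => |p.2.re| := (Complex.continuous_re.comp continuous_snd).abs
    have h3 : Continuous fun p : E => |p.2.im| := (Complex.continuous_im.comp continuous_snd).abs
    exact (isClosed_le h1 continuous_const).inter ((isClosed_le h2 continuous_const).inter
      ((isClosed_le h3 continuous_const).inter ((isClosed_le continuous_const h1).union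
        ((isClosed_le h2 continuous_const).union (isClosed_le continuous_const h2)))))
  have hK2 : IsClosed K2 := by
    have h1 : Continuous fun p : E => |p.1| := continuous_fst.abs
    have h2 : Continuous fun p : E => |p.2.re| := (Complex.continuous_re.comp continuous_snd).abs
    exact hK0.inter ((isClosed_le continuous_const h1).union (isClosed_le h2 continuous_const))
  have hS0 : IsOpen (M \ K2) := hM.sdiff hK2
  have nO : ∀ ς τ, IsOpen (NN ς τ) := fun ς τ => isOpen_Bx _ _ _ _ _ _ _ _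
  obtain ⟨F1, hF1, e1⟩ := one_step hStar hExt M (M \ K2) F hS0 hO hF (ς := 1) (τ := 1)
    (Or.inl rfl) (Or.inl rfl) (fun p _ => Iff.rfl)
  obtain ⟨F2, hF2, e2⟩ := one_step hStar hExt M _ F1 (hS0.union (nO 1 1)) hO hF1
    (ς := 1) (τ := -1) (Or.inl rfl) (Or.inr rfl) (fun p hp => by
      constructor
      · rintro (h | h)
        · exact h
        · exact (NN_disj h hp (Or.inr rfl)).elim
      · exact fun h => Or.inl h)
  obtain ⟨F3, hF3, e3⟩ := one_step hStar hExt M _ F2 ((hS0.union (nO 1 1)).union (nO 1 (-1))) hO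
    hF2 (ς := -1) (τ := 1) (Or.inr rfl) (Or.inl rfl) (fun p hp => by
      constructor
      · rintro ((h | h) | h)
        · exact h
        · exact (NN_disj h hp (Or.inl rfl)).elim
        · exact (NN_disj h hp (Or.inl rfl)).elim
      · exact fun h => Or.inl (Or.inl h))
  obtain ⟨F4, hF4, e4⟩ := one_step hStar hExt M _ F3
    (((hS0.union (nO 1 1)).union (nO 1 (-1))).union (nO (-1) 1)) hO
    hF3 (ς := -1) (τ := -1) (Or.inr rfl) (Or.inr rfl) (fun p hp => by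
      constructor
      · rintro (((h | h) | h) | h)
        · exact h
        · exact (NN_disj h hp (Or.inl rfl)).elim
        · exact (NN_disj h hp (Or.inl rfl)).elim
        · exact (NN_disj h hp (Or.inr rfl)).elim
      · exact fun h => Or.inl (Or.inl (Or.inl h)))
  refine ⟨F4, hF4.mono ?_, ?_⟩
  · rintro p ⟨hpM, hpK⟩
    by_cases hp2 : p ∈ K2
    · have hp2' := hp2
      obtain ⟨⟨k1, k2, k3, k4⟩, k5⟩ := hp2
      have n1 : |p.1| < 3 := by
        by_contra hc; push Not at hc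
        exact hpK ⟨hp2'.1, Or.inl hc⟩
      have n2 : 1 < |p.2.re| := by
        by_contra hc; push Not at hc
        exact hpK ⟨hp2'.1, Or.inr hc⟩
      have n3 : 1 ≤ |p.1| := by
        rcases k5 with k5 | k5
        · exact k5
        · linarith
      have n4 : 2 ≤ |p.2.re| := by
        rcases k4 with k4 | k4 | k4 <;> linarith
      rw [abs_le] at k3
      rcases le_total 0 p.1 with hs | hs <;> rcases le_total 0 p.2.re with hy | hy
      · rw [abs_of_nonneg hs] at n1 n3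
        rw [abs_of_nonneg hy] at k2 n4
        refine Or.inl (Or.inl (Or.inr ⟨?_, ?_, ?_, ?_, ?_, ?_⟩)) <;> linarith
      · rw [abs_of_nonneg hs] at n1 n3
        rw [abs_of_nonpos hy] at k2 n4
        refine Or.inl (Or.inl (Or.inl (Or.inr ⟨?_, ?_, ?_, ?_, ?_, ?_⟩))) <;> linarith
      · rw [abs_of_nonpos hs] at n1 n3
        rw [abs_of_nonneg hy] at k2 n4
        refine Or.inr ⟨?_, ?_, ?_, ?_, ?_, ?_⟩ <;> linarith
      · rw [abs_of_nonpos hs] at n1 n3
        rw [abs_of_nonpos hy] at k2 n4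
        refine Or.inl (Or.inr ⟨?_, ?_, ?_, ?_, ?_, ?_⟩) <;> linarith
    · exact Or.inl (Or.inl (Or.inl (Or.inl ⟨hpM, hp2⟩)))
  · intro a b p hp
    rw [e4 a b p (fun t => Or.inl (Or.inl (Or.inl (hp t)))),
      e3 a b p (fun t => Or.inl (Or.inl (hp t))), e2 a b p (fun t => Or.inl (hp t)), e1 a b p hp]

end CM
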