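import Pool.Agent.Helper59.CM.StGeo

set_option autoImplicit false

namespace CM

namespace F4

open Set Topology unitInterval

theorem convex_box (I1 I2 I3 : Set ℝ) (h1 : Convex ℝ I1) (h2 : Convex ℝ I2) (h3 : Convex ℝ I3) :
    Convex ℝ {p : E | p.1 ∈ I1 ∧ p.2.re ∈ I2 ∧ p.2.im ∈ I3} := by
  intro x hx y hy a b ha hb hab
  refine ⟨?_, ?_, ?_⟩
  · have := h1 hx.1 hy.1 ha hb hab
    simpa using this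
  · have := h2 hx.2.1 hy.2.1 ha hb hab
    simpa using this
  · have := h3 hx.2.2 hy.2.2 ha hb hab
    simpa using this

theorem open_box (I1 I2 I3 : Set ℝ) (h1 : IsOpen I1) (h2 : IsOpen I2) (h3 : IsOpen I3) :
    IsOpen {p : E | p.1 ∈ I1 ∧ p.2.re ∈ I2 ∧ p.2.im ∈ I3} := by
  refine (h1.preimage continuous_fst).inter ((h2.preimage ?_).inter (h3.preimage ?_))
  · exact Complex.continuous_re.comp continuous_snd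
  · exact Complex.continuous_im.comp continuous_snd

/-- the box -/
def N : Set E := {p | p.1 ∈ Ioo (-(9 / 2) : ℝ) (9 / 2) ∧ p.2.re ∈ Ioo (-(5 / 4) : ℝ) (5 / 4) ∧
  p.2.im ∈ Ioo (-(3 / 2) : ℝ) (3 / 2)}

def Aset : Fin 2 → Set E := ![
  {p | p.1 ∈ Ioo (-(9 / 2) : ℝ) (9 / 2) ∧ p.2.re ∈ Ioo (-(5 / 4) : ℝ) (5 / 4) ∧
    p.2.im ∈ Ioo (1 : ℝ) (3 / 2)},
  {p | p.1 ∈ Ioo (-(9 / 2) : ℝ) (9 / 2) ∧ p.2.re ∈ Ioo (-(5 / 4) : ℝ) (5 / 4) ∧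
    p.2.im ∈ Ioo (-(3 / 2) : ℝ) (-1)}]

def Cset : Fin 4 → Set E := ![
  {p | p.1 ∈ Ioo (4 : ℝ) (9 / 2) ∧ p.2.re ∈ Ioo (-(5 / 4) : ℝ) (5 / 4) ∧
    p.2.im ∈ Ioo (-(3 / 2) : ℝ) (3 / 2)},
  {p | p.1 ∈ Ioo (-(9 / 2) : ℝ) (9 / 2) ∧ p.2.re ∈ Ioo (1 : ℝ) (5 / 4) ∧
    p.2.im ∈ Ioo (-(3 / 2) : ℝ) (3 / 2)},
  {p | p.1 ∈ Ioo (-(9 / 2) : ℝ) (-4) ∧ p.2.re ∈ Ioo (-(5 / 4) : ℝ) (5 / 4) ∧
    p.2.im ∈ Ioo (-(3 / 2) : ℝ) (3 / 2)},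
  {p | p.1 ∈ Ioo (-(9 / 2) : ℝ) (9 / 2) ∧ p.2.re ∈ Ioo (-(5 / 4) : ℝ) (-1) ∧
    p.2.im ∈ Ioo (-(3 / 2) : ℝ) (3 / 2)}]

theorem A_open : ∀ i, IsOpen (Aset i) := by
  intro i
  fin_cases i <;> exact open_box _ _ _ isOpen_Ioo isOpen_Ioo isOpen_Ioo

theorem A_convex : ∀ i, Convex ℝ (Aset i) := by
  intro i
  fin_cases i <;> exact convex_box _ _ _ (convex_Ioo _ _) (convex_Ioo _ _) (convex_Ioo _ _)

theorem C_open : ∀ i, IsOpen (Cset i) := by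
  intro i
  fin_cases i <;> exact open_box _ _ _ isOpen_Ioo isOpen_Ioo isOpen_Ioo

theorem C_convex : ∀ i, Convex ℝ (Cset i) := by
  intro i
  fin_cases i <;> exact convex_box _ _ _ (convex_Ioo _ _) (convex_Ioo _ _) (convex_Ioo _ _)

theorem K10_eq : K10 = {p : E | |p.1| ≤ 4 ∧ |p.2.re| ≤ 1 ∧ |p.2.im| ≤ 1} := by
  ext p
  constructor
  · rintro ⟨⟨h1, h2, h3, h4⟩, h5⟩
    exact ⟨h1, h5, h3⟩
  · rintro ⟨h1, h2, h3⟩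
    exact ⟨⟨h1, h2.trans (by norm_num), h3, Or.inr (Or.inl h2)⟩, h2⟩

theorem K10_closed : IsClosed K10 := by
  rw [K10_eq]
  have c1 : Continuous (fun p : E => |p.1|) := continuous_fst.abs
  have c2 : Continuous (fun p : E => |p.2.re|) := (Complex.continuous_re.comp continuous_snd).abs
  have c3 : Continuous (fun p : E => |p.2.im|) := (Complex.continuous_im.comp continuous_snd).abs
  exact (isClosed_le c1 continuous_const).inter ((isClosed_le c2 continuous_const).inter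
    (isClosed_le c3 continuous_const))

theorem union_eq (M : Set E) (hM : N ⊆ M) :
    (M \ K10) ∩ N = Aset 0 ∪ Aset 1 ∪ ⋃ i, Cset i := by
  ext p
  rw [K10_eq]
  simp only [mem_inter_iff, mem_union, mem_iUnion, Fin.exists_fin_succ, Fin.exists_fin_zero,
    IsEmpty.exists_iff, or_false, mem_sdiff]
  constructor
  · rintro ⟨⟨_, h⟩, ⟨⟨h1, h1'⟩, ⟨h2, h2'⟩, ⟨h3, h3'⟩⟩⟩
    by_cases k1 : 1 < p.2.im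
    · left; left; exact ⟨⟨h1, h1'⟩, ⟨h2, h2'⟩, ⟨k1, h3'⟩⟩
    by_cases k2 : p.2.im < -1
    · left; right; exact ⟨⟨h1, h1'⟩, ⟨h2, h2'⟩, ⟨h3, k2⟩⟩
    right
    by_cases k3 : 4 < p.1
    · left; exact ⟨⟨k3, h1'⟩, ⟨h2, h2'⟩, ⟨h3, h3'⟩⟩
    by_cases k4 : 1 < p.2.re
    · right; left; exact ⟨⟨h1, h1'⟩, ⟨k4, h2'⟩, ⟨h3, h3'⟩⟩
    by_cases k5 : p.1 < -4
    · right; right; left; exact ⟨⟨h1, k5⟩, ⟨h2, h2'⟩, ⟨h3, h3'⟩⟩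
    by_cases k6 : p.2.re < -1
    · right; right; right; exact ⟨⟨h1, h1'⟩, ⟨h2, k6⟩, ⟨h3, h3'⟩⟩
    exfalso
    push Not at k1 k2 k3 k4 k5 k6
    exact h ⟨abs_le.2 ⟨k5, k3⟩, abs_le.2 ⟨k6, k4⟩, abs_le.2 ⟨k2, k1⟩⟩
  · have key : p ∈ N → ¬ (|p.1| ≤ 4 ∧ |p.2.re| ≤ 1 ∧ |p.2.im| ≤ 1) →
      (p ∈ M ∧ p ∉ {p : E | |p.1| ≤ 4 ∧ |p.2.re| ≤ 1 ∧ |p.2.im| ≤ 1}) ∧ p ∈ N :=
      fun h1 h2 => ⟨⟨hM h1, h2⟩, h1⟩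
    rintro ((⟨⟨h1, h1'⟩, ⟨h2, h2'⟩, ⟨h3, h3'⟩⟩ | ⟨⟨h1, h1'⟩, ⟨h2, h2'⟩, ⟨h3, h3'⟩⟩) |
      (⟨⟨h1, h1'⟩, ⟨h2, h2'⟩, ⟨h3, h3'⟩⟩ | ⟨⟨h1, h1'⟩, ⟨h2, h2'⟩, ⟨h3, h3'⟩⟩ |
        ⟨⟨h1, h1'⟩, ⟨h2, h2'⟩, ⟨h3, h3'⟩⟩ | ⟨⟨h1, h1'⟩, ⟨h2, h2'⟩, ⟨h3, h3'⟩⟩)) <;>
    · apply key
      · refine ⟨⟨?_, ?_⟩, ⟨?_, ?_⟩, ⟨?_, ?_⟩⟩ <;> linarith
      · rintro ⟨g1, g2, g3⟩
        rw [abs_le] at g1 g2 g3
        linarith [g1.1, g1.2, g2.1, g2.2, g3.1, g3.2]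

end F4

open F4 Set Topology unitInterval in
theorem pF4 (h1 : StShell) (h2 : StExt) : StF4 := by
  intro Γ _ M F hM hOM hF
  have hNM : N ⊆ M := by
    rintro p ⟨⟨a1, a2⟩, ⟨b1, b2⟩, ⟨c1, c2⟩⟩
    apply hOM
    exact ⟨abs_lt.2 ⟨a1, a2⟩, abs_lt.2 ⟨by linarith, by linarith⟩, abs_lt.2 ⟨c1, c2⟩,
      Or.inr (Or.inl (abs_lt.2 ⟨b1, b2⟩))⟩
  have hN : IsOpen N := open_box _ _ _ isOpen_Ioo isOpen_Ioo isOpen_Ioo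
  have hex : IsExact ((M \ K10) ∩ N) F := by
    have hu := union_eq M hNM
    rw [hu]
    apply h1 E Γ Aset Cset F A_open A_convex C_open C_convex
    · ext p
      simp only [mem_inter_iff, mem_empty_iff_false, iff_false, not_and]
      rintro ⟨_, _, ⟨h, _⟩⟩ ⟨_, _, ⟨_, h'⟩⟩
      linarith
    · ext p
      simp only [mem_inter_iff, mem_empty_iff_false, iff_false, not_and]
      rintro ⟨⟨h, _⟩, _, _⟩ ⟨⟨_, h'⟩, _, _⟩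
      linarith
    · ext p
      simp only [mem_inter_iff, mem_empty_iff_false, iff_false, not_and]
      rintro ⟨_, ⟨h, _⟩, _⟩ ⟨_, ⟨_, h'⟩, _⟩
      linarith
    · intro i j
      fin_cases i <;> fin_cases j
      · refine ⟨(17 / 4, ⟨0, 5 / 4⟩), ?_, ?_⟩ <;> constructor <;> norm_num
      · refine ⟨(0, ⟨9 / 8, 5 / 4⟩), ?_, ?_⟩ <;> constructor <;> norm_num
      · refine ⟨(-(17 / 4), ⟨0, 5 / 4⟩), ?_, ?_⟩ <;> constructor <;> norm_num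
      · refine ⟨(0, ⟨-(9 / 8), 5 / 4⟩), ?_, ?_⟩ <;> constructor <;> norm_num
      · refine ⟨(17 / 4, ⟨0, -(5 / 4)⟩), ?_, ?_⟩ <;> constructor <;> norm_num
      · refine ⟨(0, ⟨9 / 8, -(5 / 4)⟩), ?_, ?_⟩ <;> constructor <;> norm_num
      · refine ⟨(-(17 / 4), ⟨0, -(5 / 4)⟩), ?_, ?_⟩ <;> constructor <;> norm_num
      · refine ⟨(0, ⟨-(9 / 8), -(5 / 4)⟩), ?_, ?_⟩ <;> constructor <;> norm_num
    · intro i j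
      fin_cases i <;> fin_cases j
      · refine ⟨(17 / 4, ⟨9 / 8, 5 / 4⟩), ⟨?_, ?_⟩, ?_⟩ <;> constructor <;> norm_num
      · refine ⟨(-(17 / 4), ⟨9 / 8, 5 / 4⟩), ⟨?_, ?_⟩, ?_⟩ <;> constructor <;> norm_num
      · refine ⟨(-(17 / 4), ⟨-(9 / 8), 5 / 4⟩), ⟨?_, ?_⟩, ?_⟩ <;> constructor <;> norm_num
      · refine ⟨(17 / 4, ⟨-(9 / 8), 5 / 4⟩), ⟨?_, ?_⟩, ?_⟩ <;> constructor <;> norm_num
      · refine ⟨(17 / 4, ⟨9 / 8, -(5 / 4)⟩), ⟨?_, ?_⟩, ?_⟩ <;> constructor <;> norm_num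
      · refine ⟨(-(17 / 4), ⟨9 / 8, -(5 / 4)⟩), ⟨?_, ?_⟩, ?_⟩ <;> constructor <;> norm_num
      · refine ⟨(-(17 / 4), ⟨-(9 / 8), -(5 / 4)⟩), ⟨?_, ?_⟩, ?_⟩ <;> constructor <;> norm_num
      · refine ⟨(17 / 4, ⟨-(9 / 8), -(5 / 4)⟩), ⟨?_, ?_⟩, ?_⟩ <;> constructor <;> norm_num
    · rw [← hu]
      exact hF.mono inter_subset_left
  obtain ⟨F', hF', hagr⟩ := h2 E Γ (M \ K10) N F (hM.sdiff K10_closed) hN hF hex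
  refine ⟨F', ?_, hagr⟩
  refine hF'.mono ?_
  intro p hp
  by_cases hK : p ∈ K10
  · right
    rw [K10_eq] at hK
    obtain ⟨g1, g2, g3⟩ := hK
    rw [abs_le] at g1 g2 g3
    refine ⟨⟨?_, ?_⟩, ⟨?_, ?_⟩, ⟨?_, ?_⟩⟩ <;> linarith [g1.1, g1.2, g2.1, g2.2, g3.1, g3.2]
  · exact Or.inl ⟨hp, hK⟩

open F4 Set Topology unitInterval in
theorem pFill (h1 : StF1) (h2 : StF2) (h3 : StF3) (h4 : StF4) (h5 : StContr) (h6 : StSC) :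
    StFill := by
  intro Γ _ F hF hx hy
  obtain ⟨hC, hMo, _, hOM, hslab⟩ := h5
  have s0 : K2 ⊆ K0 := fun p hp => hp.1
  have s1 : K6 ⊆ K2 := by
    rintro p ⟨hp, h | h⟩
    · exact ⟨hp, Or.inl (le_trans (by norm_num) h)⟩
    · exact ⟨hp, Or.inr h⟩
  have s2 : K10 ⊆ K6 := by
    rintro p ⟨hp, h⟩
    exact ⟨hp, Or.inr h⟩
  obtain ⟨F1, hF1, a1⟩ := h1 Γ MM F hMo hslab hF hx hy
  obtain ⟨F2, hF2, a2⟩ := h2 Γ MM F1 hMo hOM hF1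
  obtain ⟨F3, hF3, a3⟩ := h3 Γ MM F2 hMo hOM hF2
  obtain ⟨F4, hF4, a4⟩ := h4 Γ MM F3 hMo hOM hF3
  have : SimplyConnectedSpace ↥MM := inferInstance
  obtain ⟨g, hg⟩ := h6 E Γ MM F4 hF4
  refine ⟨g, fun a b p hp => ?_⟩
  have hp0 : ∀ t, p t ∈ MM \ K2 := fun t => ⟨(hp t).1, fun h => (hp t).2 (s0 h)⟩
  have hp1 : ∀ t, p t ∈ MM \ K6 := fun t => ⟨(hp t).1, fun h => (hp0 t).2 (s1 h)⟩
  have hp2 : ∀ t, p t ∈ MM \ K10 := fun t => ⟨(hp t).1, fun h => (hp1 t).2 (s2 h)⟩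
  rw [← a1 a b p hp, ← a2 a b p hp0, ← a3 a b p hp1, ← a4 a b p hp2]
  exact hg a b p (fun t => (hp t).1)

end CM
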