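import Pool.Agent.Helper59.CM.StAlg

/-!
Project CM, module FILT (helper33): filtration of `UU` by the order.
-/

set_option autoImplicit false

namespace CM

open NS

namespace FILT

theorem ord_add {k : ℕ} {f g : NS} (hf : Ord k f) (hg : Ord k g) : Ord k (f + g) := by
  intro w hw
  rw [co_add, hf w hw, hg w hw, add_zero]

theorem ord_mul_left {k : ℕ} {f g : NS} (hf : Ord k f) : Ord k (f * g) := by
  intro w hw
  rw [co_mul]
  refine Finset.sum_eq_zero fun i _ => ?_
  rw [hf _ (lt_of_le_of_lt (by rw [List.length_take]; exact min_le_right _ _) hw), zero_mul]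

theorem ord_mul_right {k : ℕ} {f g : NS} (hg : Ord k g) : Ord k (f * g) := by
  intro w hw
  rw [co_mul]
  refine Finset.sum_eq_zero fun i _ => ?_
  rw [hg _ (lt_of_le_of_lt (by rw [List.length_drop]; omega) hw), mul_zero]

/-- coefficient in degree `k` of `f * g`, `f` of order `k` -/
theorem co_mul_left {k : ℕ} {f g : NS} (hf : Ord k f) (w : List Bool) (hw : w.length = k) :
    co (f * g) w = co f w * co g [] := by
  rw [co_mul, Finset.sum_eq_single w.length]
  · rw [List.take_length, List.drop_length]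
  · intro i hi hi2
    have hi' := Finset.mem_range.mp hi
    rw [hf _ (by rw [List.length_take]; omega), zero_mul]
  · intro h
    exact absurd (Finset.mem_range.mpr (Nat.lt_succ_self _)) h

theorem co_mul_right {k : ℕ} {f g : NS} (hg : Ord k g) (w : List Bool) (hw : w.length = k) :
    co (f * g) w = co f [] * co g w := by
  rw [co_mul, Finset.sum_eq_single 0]
  · rw [List.take_zero, List.drop_zero]
  · intro i hi hi2
    have hi' := Finset.mem_range.mp hi
    rw [hg _ (by rw [List.length_drop]; omega), mul_zero]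
  · intro h
    exact absurd (Finset.mem_range.mpr (Nat.succ_pos _)) h

theorem fmul {k : ℕ} (u v : UU) (hu : Ord k (sr u - 1)) (hv : Ord k (sr v - 1)) :
    Ord k (sr (u * v) - 1) ∧
      ∀ w : List Bool, w.length = k → co (sr (u * v) - 1) w = co (sr u - 1) w + co (sr v - 1) w := by
  have e : sr (u * v) - 1 = (sr u - 1) * sr v + (sr v - 1) := by
    rw [sr_mul, sub_mul, one_mul]; abel
  rw [e]
  refine ⟨ord_add (ord_mul_left hu) hv, ?_⟩
  intro w hw
  rw [co_add, co_mul_left hu w hw, sr_nil, mul_one]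

theorem finv {k : ℕ} (u : UU) (hu : Ord k (sr u - 1)) :
    Ord k (sr u⁻¹ - 1) ∧
      ∀ w : List Bool, w.length = k → co (sr u⁻¹ - 1) w = - co (sr u - 1) w := by
  have e : sr u⁻¹ - 1 = (sr u - 1) * (- sr u⁻¹) := by
    rw [mul_neg, sub_mul, one_mul, sr_mul_inv, neg_sub]
  rw [e]
  refine ⟨ord_mul_left hu, ?_⟩
  intro w hw
  rw [co_mul_left hu w hw, co_neg, sr_nil]
  ring

theorem fconj {k : ℕ} (u g : UU) (hu : Ord k (sr u - 1)) :
    Ord k (sr (g * u * g⁻¹) - 1) ∧
      ∀ w : List Bool, w.length = k → co (sr (g * u * g⁻¹) - 1) w = co (sr u - 1) w := by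
  have e : sr (g * u * g⁻¹) - 1 = sr g * ((sr u - 1) * sr g⁻¹) := by
    rw [sr_mul, sr_mul, sub_mul, one_mul, mul_sub, sr_mul_inv, mul_assoc]
  rw [e]
  refine ⟨ord_mul_right (ord_mul_left hu), ?_⟩
  intro w hw
  rw [co_mul_right (ord_mul_left hu) w hw, co_mul_left hu w hw, sr_nil, sr_nil]
  ring

end FILT

theorem pFilt : StFilt := by
  intro k _
  exact ⟨fun u v hu hv => FILT.fmul u v hu hv, fun u hu => FILT.finv u hu,
    fun u g hu => FILT.fconj u g hu⟩

end CM
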