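import Pool.Agent.Helper59.CM.PF

/-!
Project CM (MP_e9500f_gt): statements about path functors, with written proofs.
-/

set_option autoImplicit false

namespace CM

open Set Topology unitInterval

/-- PF1 (agreement). Two path functors on `S` which agree on all paths inside the members of an
open cover agree.  Proof: Lebesgue number, `Path.Homotopy.concatSubpath`, multiplicativity. -/
def StAG : Prop := ∀ (X Γ : Type) [TopologicalSpace X] [Group Γ] (ι : Type) (S : Set X)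
  (O : ι → Set X) (F F' : PFun X Γ), IsPF S F → IsPF S F' → (∀ i, IsOpen (O i)) → S ⊆ ⋃ i, O i →
  (∀ (i : ι) (a b : X) (p : Path a b), (∀ t, p t ∈ S ∩ O i) → F a b p = F' a b p) →
  ∀ (a b : X) (p : Path a b), (∀ t, p t ∈ S) → F a b p = F' a b p

/-- PF2 (square lemma). For a continuous square in `S`: bottom * right = left * top. -/
def StSq : Prop := ∀ (X Γ : Type) [TopologicalSpace X] [Group Γ] (S : Set X) (F : PFun X Γ),
  IsPF S F → ∀ (Q : C(I × I, X)), (∀ x, Q x ∈ S) →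
  ∀ (a b c d : X) (p₁ : Path a b) (p₂ : Path b d) (p₃ : Path a c) (p₄ : Path c d),
  (∀ t, p₁ t = Q (t, 0)) → (∀ t, p₂ t = Q (1, t)) → (∀ t, p₃ t = Q (0, t)) →
  (∀ t, p₄ t = Q (t, 1)) → F a b p₁ * F b d p₂ = F a c p₃ * F c d p₄

/-- PF3 (gluing of path functors, van Kampen).  Path functors `F i` on open sets `O i`, equal on paths
inside `O i ∩ O j`, come from one path functor on the union.  Proof: for a path in `⋃ O i` take a
subdivision with pieces in members of the cover and multiply; independent of the choices (common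
refinement); homotopy invariance by a grid and the square lemma. -/
def StGL : Prop := ∀ (X Γ : Type) [TopologicalSpace X] [Group Γ] (ι : Type)
  (O : ι → Set X) (F : ι → PFun X Γ), (∀ i, IsOpen (O i)) → (∀ i, IsPF (O i) (F i)) →
  (∀ (i j : ι) (a b : X) (p : Path a b), (∀ t, p t ∈ O i ∩ O j) → F i a b p = F j a b p) →
  ∃ F' : PFun X Γ, IsPF (⋃ i, O i) F' ∧
    ∀ (i : ι) (a b : X) (p : Path a b), (∀ t, p t ∈ O i) → F' a b p = F i a b p

/-- PF4 (gluing of potentials). -/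
def StPot : Prop := ∀ (X Γ : Type) [TopologicalSpace X] [Group Γ] (ι : Type)
  (O : ι → Set X) (φ : ι → X → Γ), (∀ i, IsOpen (O i)) →
  (∀ (i j : ι), ∀ x ∈ O i ∩ O j, ∀ᶠ y in 𝓝 x, φ j y * (φ i y)⁻¹ = φ j x * (φ i x)⁻¹) →
  ∃ F : PFun X Γ, IsPF (⋃ i, O i) F ∧
    ∀ (i : ι) (a b : X) (p : Path a b), (∀ t, p t ∈ O i) → F a b p = (φ i a)⁻¹ * φ i b

/-- PF5. Exact on a union of two open sets with joined intersection. -/
def StCI : Prop := ∀ (X Γ : Type) [TopologicalSpace X] [Group Γ] (S₁ S₂ : Set X) (F : PFun X Γ),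
  IsOpen S₁ → IsOpen S₂ → IsPF (S₁ ∪ S₂) F → IsExact S₁ F → IsExact S₂ F → Jn (S₁ ∩ S₂) →
  IsExact (S₁ ∪ S₂) F

/-- PF6. Convex sets: `F p = F (segment)`, potential `F (segment from a base point)`. -/
def StCvx : Prop := ∀ (V Γ : Type) [NormedAddCommGroup V] [NormedSpace ℝ V] [Group Γ] (S : Set V)
  (F : PFun V Γ), Convex ℝ S → IsPF S F → IsExact S F

/-- PF7 (star lemma). Convex open sets `U i` such that whenever `U i ∩ U j` is nonempty it
meets `U i₀`: path functors on the union are exact. -/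
def StStar : Prop := ∀ (V Γ : Type) [NormedAddCommGroup V] [NormedSpace ℝ V] [Group Γ] (ι : Type)
  (U : ι → Set V) (i₀ : ι) (F : PFun V Γ), (∀ i, IsOpen (U i)) → (∀ i, Convex ℝ (U i)) →
  (∀ i j, (U i ∩ U j).Nonempty → (U i ∩ U j ∩ U i₀).Nonempty) →
  IsPF (⋃ i, U i) F → IsExact (⋃ i, U i) F

/-- PF8 (ring lemma). Four convex open sets in a ring; `F` of one loop around the ring is one. -/
def StRing : Prop := ∀ (V Γ : Type) [NormedAddCommGroup V] [NormedSpace ℝ V] [Group Γ]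
  (U : Fin 4 → Set V) (F : PFun V Γ), (∀ i, IsOpen (U i)) → (∀ i, Convex ℝ (U i)) →
  U 0 ∩ U 2 = ∅ → U 1 ∩ U 3 = ∅ → IsPF (⋃ i, U i) F →
  ∀ (v₀ v₁ v₂ v₃ : V), v₀ ∈ U 3 ∩ U 0 → v₁ ∈ U 0 ∩ U 1 → v₂ ∈ U 1 ∩ U 2 → v₃ ∈ U 2 ∩ U 3 →
  F v₀ v₁ (Path.segment v₀ v₁) * F v₁ v₂ (Path.segment v₁ v₂) * F v₂ v₃ (Path.segment v₂ v₃) *
    F v₃ v₀ (Path.segment v₃ v₀) = 1 → IsExact (⋃ i, U i) F

/-- PF9 (extension over an open set). Proof: on `N` take the exact functor with the potential of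
`F` on `S ∩ N` (any values elsewhere), glue by `StGL`. -/
def StExt : Prop := ∀ (X Γ : Type) [TopologicalSpace X] [Group Γ] (S N : Set X) (F : PFun X Γ),
  IsOpen S → IsOpen N → IsPF S F → IsExact (S ∩ N) F →
  ∃ F' : PFun X Γ, IsPF (S ∪ N) F' ∧ ∀ (a b : X) (p : Path a b), (∀ t, p t ∈ S) →
    F' a b p = F a b p

/-- PF10 (shell). Two poles `A 0`, `A 1` and a ring `C 0, C 1, C 2, C 3` of convex open sets.
Proof: `StStar` on `A 0 ∪ ⋃ C i` (centre `A 0`), then `StCI` with `A 1` (its intersection with the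
rest is the ring `C i ∩ A 1`, which is joined). -/
def StShell : Prop := ∀ (V Γ : Type) [NormedAddCommGroup V] [NormedSpace ℝ V] [Group Γ]
  (A : Fin 2 → Set V) (C : Fin 4 → Set V) (F : PFun V Γ),
  (∀ i, IsOpen (A i)) → (∀ i, Convex ℝ (A i)) → (∀ i, IsOpen (C i)) → (∀ i, Convex ℝ (C i)) →
  A 0 ∩ A 1 = ∅ → C 0 ∩ C 2 = ∅ → C 1 ∩ C 3 = ∅ →
  (∀ i j, (A i ∩ C j).Nonempty) → (∀ i j, (A i ∩ C j ∩ C (j + 1)).Nonempty) →
  IsPF (A 0 ∪ A 1 ∪ ⋃ i, C i) F → IsExact (A 0 ∪ A 1 ∪ ⋃ i, C i) F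

/-- PF11 (subspace versus ambient space). Proof: a path in `E` which stays in `M` is a path in
`↥M`. -/
def StConv : Prop := ∀ (E Γ : Type) [TopologicalSpace E] [Group Γ] (M : Set E) (S : Set ↥M)
  (F : PFun ↥M Γ), IsPF S F → ∃ F' : PFun E Γ, IsPF (Subtype.val '' S) F' ∧
    ∀ (a b : ↥M) (p : Path a b), (∀ t, p t ∈ S) →
      F' (a : E) (b : E) (p.map continuous_subtype_val) = F a b p

/-- PF12. On a simply connected subset every path functor is exact. -/
def StSC : Prop := ∀ (E Γ : Type) [TopologicalSpace E] [Group Γ] (M : Set E)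
  [SimplyConnectedSpace ↥M] (F : PFun E Γ), IsPF M F → IsExact M F

end CM
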