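import Pool.Agent.Helper59.CM.StMain
import Pool.Agent.Helper59.CM.StPF

/-! Project CM, module FIX: the involution has a fixed point. -/

set_option autoImplicit false

namespace CM

open Set Topology unitInterval

namespace FIX

/-- the two values -/
private def zr : Multiplicative (ZMod 2) := Multiplicative.ofAdd 0
private def on : Multiplicative (ZMod 2) := Multiplicative.ofAdd 1

private theorem zr_ne : zr⁻¹ * on ≠ 1 := by
  unfold zr on
  decide

private theorem on_ne : on⁻¹ * zr ≠ 1 := by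
  unfold zr on
  decide

private theorem swap_eq : on * zr⁻¹ = zr * on⁻¹ := by
  unfold zr on
  decide

open Classical in
/-- indicator with values in the group of order two -/
private noncomputable def lab (P : Prop) : Multiplicative (ZMod 2) := if P then zr else on

private theorem lab_pos {P : Prop} (h : P) : lab P = zr := if_pos h
private theorem lab_neg {P : Prop} (h : ¬ P) : lab P = on := if_neg h
private theorem lab_congr {P Q : Prop} (h : P ↔ Q) : lab P = lab Q := by
  rw [propext h]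

theorem main (h1 : StPot) (h2 : StAG) {X Y : Type} [TopologicalSpace X] [TopologicalSpace Y]
    [T2Space X] (f : X → Y) (τ : X → X) (V : Set Y) (hf : Fold f τ) (hV : IsOpen V)
    (hne : V.Nonempty) (hE : PFE (Multiplicative (ZMod 2)) V) (hJ : Jn (f ⁻¹' V)) :
    ∃ p ∈ f ⁻¹' V, τ p = p := by
  by_contra hcon
  push Not at hcon
  have hfτ : ∀ x, f (τ x) = f x := fun x => ((hf.fib x (τ x)).2 (Or.inr rfl)).symm
  have hUτ : ∀ x, x ∈ f ⁻¹' V → τ x ∈ f ⁻¹' V := by
    intro x hx
    show f (τ x) ∈ V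
    rw [hfτ]
    exact hx
  -- the neighbourhoods
  have hW : ∀ x : ↥(f ⁻¹' V), ∃ W : Set X, IsOpen W ∧ (x : X) ∈ W ∧ W ⊆ f ⁻¹' V ∧
      ∀ y ∈ W, τ y ∉ W := by
    intro x
    obtain ⟨A, B, hA, hB, hxA, hxB, hAB⟩ := t2_separation (hcon x x.2).symm
    refine ⟨A ∩ τ ⁻¹' B ∩ f ⁻¹' V, (hA.inter (hB.preimage hf.tcont)).inter
      (hV.preimage hf.cont), ⟨⟨hxA, hxB⟩, x.2⟩, inter_subset_right, ?_⟩
    rintro y ⟨⟨-, hyB⟩, -⟩ ⟨⟨hyA, -⟩, -⟩
    exact (Set.disjoint_left.1 hAB) hyA hyB
  choose W hWo hWx hWV hWτ using hW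
  -- section
  obtain ⟨s, hs⟩ := hf.surj.hasRightInverse
  have hsf : ∀ x, s (f x) = x ∨ s (f x) = τ x := by
    intro x
    exact (hf.fib x (s (f x))).1 (hs (f x)).symm
  have hOU : (⋃ i : ↥(f ⁻¹' V), f '' W i) = V := by
    ext y
    rw [mem_iUnion]
    constructor
    · rintro ⟨i, w, hw, rfl⟩
      exact hWV i hw
    · intro hy
      obtain ⟨x, rfl⟩ := hf.surj y
      exact ⟨⟨x, hy⟩, x, hWx ⟨x, hy⟩, rfl⟩
  -- membership of the section in `W`
  have hmem : ∀ (i : ↥(f ⁻¹' V)) (u : X), u ∈ W i → (s (f u) ∈ W i ↔ s (f u) = u) := by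
    intro i u hu
    constructor
    · intro h
      rcases hsf u with h' | h'
      · exact h'
      · rw [h'] at h
        exact absurd h (hWτ i u hu)
    · intro h
      rw [h]
      exact hu
  have hττ : ∀ (j : ↥(f ⁻¹' V)) (u : X), τ u ∈ W j → u ∉ W j := by
    intro j u hu hu'
    exact hWτ j u hu' hu
  obtain ⟨F, hF, hFφ⟩ := h1 Y (Multiplicative (ZMod 2)) ↥(f ⁻¹' V) (fun i => f '' W i)
    (fun i y => lab (s y ∈ W i)) (fun i => hf.opn _ (hWo i)) (by
      rintro i j y ⟨⟨w, hw, rfl⟩, ⟨w', hw', hww⟩⟩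
      rcases (hf.fib w w').1 hww.symm with rfl | rfl
      · -- same point
        have hN : f '' (W i ∩ W j) ∈ 𝓝 (f w') :=
          (hf.opn _ ((hWo i).inter (hWo j))).mem_nhds ⟨w', ⟨hw, hw'⟩, rfl⟩
        have key : ∀ z ∈ f '' (W i ∩ W j), lab (s z ∈ W j) * (lab (s z ∈ W i))⁻¹ = 1 := by
          rintro z ⟨u, ⟨hui, huj⟩, rfl⟩
          have : lab (s (f u) ∈ W j) = lab (s (f u) ∈ W i) :=
            lab_congr ((hmem j u huj).trans (hmem i u hui).symm)
          rw [this, mul_inv_cancel]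
        filter_upwards [hN] with z hz
        rw [key z hz, key (f w') ⟨w', ⟨hw, hw'⟩, rfl⟩]
      · -- the other point
        have hN : f '' (W i ∩ τ ⁻¹' W j) ∈ 𝓝 (f w) :=
          (hf.opn _ ((hWo i).inter ((hWo j).preimage hf.tcont))).mem_nhds ⟨w, ⟨hw, hw'⟩, rfl⟩
        have key : ∀ z ∈ f '' (W i ∩ τ ⁻¹' W j),
            lab (s z ∈ W j) * (lab (s z ∈ W i))⁻¹ = on * zr⁻¹ := by
          rintro z ⟨u, ⟨hui, huj⟩, rfl⟩
          rcases hsf u with h | h
          · have hj : ¬ s (f u) ∈ W j := by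
              rw [h]
              exact hττ j u huj
            have hi : s (f u) ∈ W i := by
              rw [h]
              exact hui
            rw [lab_neg hj, lab_pos hi]
          · have hj : s (f u) ∈ W j := by
              rw [h]
              exact huj
            have hi : ¬ s (f u) ∈ W i := by
              rw [h]
              exact hWτ i u hui
            rw [lab_pos hj, lab_neg hi, swap_eq]
        filter_upwards [hN] with z hz
        rw [key z hz, key (f w) ⟨w, ⟨hw, hw'⟩, rfl⟩])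
  rw [hOU] at hF
  obtain ⟨g, hg⟩ := hE F hF
  -- the two functors upstairs
  have hP1 : IsPF (f ⁻¹' V) (pull ⟨f, hf.cont⟩ F) := hF.pull ⟨f, hf.cont⟩
  have hEx : IsExact (f ⁻¹' V)
      (fun a b (_ : Path a b) => (lab (s (f a) = a))⁻¹ * lab (s (f b) = b)) :=
    ⟨fun x => lab (s (f x) = x), fun a b p _ => rfl⟩
  have hagree := h2 X (Multiplicative (ZMod 2)) ↥(f ⁻¹' V) (f ⁻¹' V) W
    (pull ⟨f, hf.cont⟩ F)
    (fun a b (_ : Path a b) => (lab (s (f a) = a))⁻¹ * lab (s (f b) = b)) hP1 hEx.isPF hWo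
    (fun x hx => mem_iUnion.2 ⟨⟨x, hx⟩, hWx ⟨x, hx⟩⟩) (by
      intro i a b p hp
      have ha : a ∈ W i := by
        have := (hp 0).2
        rwa [p.source] at this
      have hb : b ∈ W i := by
        have := (hp 1).2
        rwa [p.target] at this
      have h3 := hFφ i (f a) (f b) (p.map hf.cont) (fun t => ⟨p t, (hp t).2, rfl⟩)
      show F (f a) (f b) (p.map hf.cont) = _
      rw [h3]
      show (lab (s (f a) ∈ W i))⁻¹ * lab (s (f b) ∈ W i) = _
      rw [lab_congr (hmem i a ha), lab_congr (hmem i b hb)])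
  obtain ⟨y, hy⟩ := hne
  obtain ⟨x, rfl⟩ := hf.surj y
  obtain ⟨γ, hγ⟩ := hJ x hy (τ x) (hUτ x hy)
  have e1 := hagree x (τ x) γ hγ
  have e2 : pull ⟨f, hf.cont⟩ F x (τ x) γ = 1 := by
    show F (f x) (f (τ x)) (γ.map hf.cont) = 1
    rw [hg (f x) (f (τ x)) (γ.map hf.cont) (fun t => hγ t), hfτ, inv_mul_cancel]
  rw [e2] at e1
  have hxne : τ x ≠ x := hcon x hy
  rcases hsf x with h | h
  · have h' : ¬ s (f (τ x)) = τ x := by
      rw [hfτ, h]
      exact fun hh => hxne hh.symm
    rw [lab_pos h, lab_neg h'] at e1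
    exact zr_ne e1.symm
  · have h' : s (f (τ x)) = τ x := by
      rw [hfτ, h]
    have h'' : ¬ s (f x) = x := by
      rw [h]
      exact hxne
    rw [lab_neg h'', lab_pos h'] at e1
    exact on_ne e1.symm

end FIX

theorem pFix (h1 : StPot) (h2 : StAG) : StFix := by
  intro X Y _ _ _ f τ V hf hV hne hE hJ
  exact FIX.main h1 h2 f τ V hf hV hne hE hJ

end CM
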