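import Pool.Agent.Helper59.CM.StMain

set_option autoImplicit false

namespace CM

open Set Topology unitInterval

namespace FOLD

variable {X : Type} [TopologicalSpace X] [T2Space X]

/-- at most two points in every fibre -/
theorem two {f : X → E3} {B : Set E3} (hf : Continuous f) (hopen : IsOpenMap f)
    (hint : interior (f ⁻¹' B) = ∅) (hc : ∀ y ∉ B, (f ⁻¹' {y}).ncard = 2) {x₁ x₂ x₃ : X}
    (h12 : f x₁ = f x₂) (h13 : f x₁ = f x₃) (n12 : x₁ ≠ x₂) (n13 : x₁ ≠ x₃) (n23 : x₂ ≠ x₃) :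
    False := by
  obtain ⟨U1, U2, hU1, hU2, h1, h2, hd12⟩ := t2_separation n12
  obtain ⟨V1, V3, hV1, hV3, k1, k3, hd13⟩ := t2_separation n13
  obtain ⟨Z2, Z3, hZ2, hZ3, l2, l3, hd23⟩ := t2_separation n23
  have o1 : IsOpen (U1 ∩ V1) := hU1.inter hV1
  have o2 : IsOpen (U2 ∩ Z2) := hU2.inter hZ2
  have o3 : IsOpen (V3 ∩ Z3) := hV3.inter hZ3
  set O := f '' (U1 ∩ V1) ∩ (f '' (U2 ∩ Z2) ∩ f '' (V3 ∩ Z3)) with hO
  have hOo : IsOpen O := (hopen _ o1).inter ((hopen _ o2).inter (hopen _ o3))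
  have hb : f x₁ ∈ O :=
    ⟨⟨x₁, ⟨h1, k1⟩, rfl⟩, ⟨x₂, ⟨h2, l2⟩, h12.symm⟩, ⟨x₃, ⟨k3, l3⟩, h13.symm⟩⟩
  obtain ⟨x', hx'O, hx'B⟩ : ∃ x', f x' ∈ O ∧ f x' ∉ B := by
    by_contra hne
    push Not at hne
    have : x₁ ∈ interior (f ⁻¹' B) :=
      mem_interior.mpr ⟨f ⁻¹' O, fun z hz => hne z hz, hOo.preimage hf, hb⟩
    rw [hint] at this
    exact this
  obtain ⟨⟨a1, ha1, e1⟩, ⟨a2, ha2, e2⟩, ⟨a3, ha3, e3⟩⟩ := hx'O
  have m12 : a1 ≠ a2 := fun h => disjoint_left.mp hd12 ha1.1 (h ▸ ha2.1)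
  have m13 : a1 ≠ a3 := fun h => disjoint_left.mp hd13 ha1.2 (h ▸ ha3.1)
  have m23 : a2 ≠ a3 := fun h => disjoint_left.mp hd23 ha2.2 (h ▸ ha3.2)
  have hcard := hc _ hx'B
  have hfin : (f ⁻¹' {f x'}).Finite := by
    apply Set.finite_of_ncard_ne_zero
    rw [hcard]; decide
  have hsub : ({a1, a2, a3} : Set X) ⊆ f ⁻¹' {f x'} := by
    intro z hz
    rcases hz with rfl | rfl | rfl
    · exact e1
    · exact e2
    · exact e3
  have h3 : ({a1, a2, a3} : Set X).ncard = 3 := by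
    rw [Set.ncard_eq_three]
    exact ⟨a1, a2, a3, m12, m13, m23, rfl⟩
  have := Set.ncard_le_ncard hsub hfin
  rw [h3, hcard] at this
  omega

open Classical in
/-- the other point of the fibre -/
noncomputable def tau (f : X → E3) (x : X) : X :=
  if h : ∃ x', x' ≠ x ∧ f x' = f x then h.choose else x

omit [TopologicalSpace X] [T2Space X] in
theorem tau_fib (f : X → E3) (x : X) : f (tau f x) = f x := by
  unfold tau
  split_ifs with h
  · exact h.choose_spec.2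
  · rfl

omit [TopologicalSpace X] [T2Space X] in
theorem fib {f : X → E3} (h2 : ∀ x₁ x₂ x₃, f x₁ = f x₂ → f x₁ = f x₃ → x₁ ≠ x₂ → x₁ ≠ x₃ →
    x₂ ≠ x₃ → False) (x x' : X) : f x = f x' ↔ x' = x ∨ x' = tau f x := by
  constructor
  · intro h
    by_contra hne
    push Not at hne
    have hex : ∃ x', x' ≠ x ∧ f x' = f x := ⟨x', hne.1, h.symm⟩
    have h3 : tau f x ≠ x := by
      unfold tau
      rw [dif_pos hex]
      exact hex.choose_spec.1
    exact h2 x x' (tau f x) h (tau_fib f x).symm (Ne.symm hne.1) (Ne.symm h3) hne.2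
  · rintro (h | h)
    · rw [h]
    · rw [h]; exact (tau_fib f x).symm

end FOLD

theorem pFold (_h1 : StBall) (h2 : StOpen) : StFold := by
  intro X _ _ _ f hf hint
  obtain ⟨B, hB, hL, hcov, hcard⟩ := hf.branch
  have hint' := hint B hB hL
  have hopen : IsOpenMap f := h2 X f B hf.cont hf.disc hB hL hcov hint'
  have htwo : ∀ x₁ x₂ x₃, f x₁ = f x₂ → f x₁ = f x₃ → x₁ ≠ x₂ → x₁ ≠ x₃ →
      x₂ ≠ x₃ → False := fun x₁ x₂ x₃ => FOLD.two hf.cont hopen hint' hcard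
  have hfib := FOLD.fib htwo
  have hinv : ∀ x, FOLD.tau f (FOLD.tau f x) = x := by
    intro x
    have h3 : f (FOLD.tau f x) = f x := FOLD.tau_fib f x
    rcases (hfib _ _).mp h3 with h | h
    · rw [← h]; exact h.symm
    · exact h.symm
  refine ⟨FOLD.tau f, ⟨hf.cont, hf.surj, hopen, hf.proper, ?_, hinv, hfib⟩⟩
  rw [continuous_iff_continuousAt]
  intro x
  show Filter.Tendsto _ _ _
  intro N hN
  rw [Filter.mem_map]
  obtain ⟨N', hN'N, hN'o, hxN'⟩ := mem_nhds_iff.mp hN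
  by_cases hx : FOLD.tau f x = x
  · -- fixed point
    set O := (f '' N'ᶜ)ᶜ with hO
    have hOo : IsOpen O := (hf.proper.isClosedMap _ hN'o.isClosed_compl).isOpen_compl
    have hxO : x ∈ f ⁻¹' O := by
      rintro ⟨z, hz, hfz⟩
      rcases (hfib _ _).mp hfz with h | h
      · apply hz
        have : z = x := by
          have h4 : FOLD.tau f z = z := by rw [← h]; exact hx
          exact h.symm
        rw [this, ← hx]; exact hxN'
      · apply hz
        have h4 : FOLD.tau f x = z := by rw [h, hinv]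
        rw [← h4]; exact hxN'
    refine Filter.mem_of_superset ((hOo.preimage hf.cont).mem_nhds hxO) ?_
    intro x' hx'
    apply hN'N
    by_contra hne
    exact hx' ⟨_, hne, FOLD.tau_fib f x'⟩
  · obtain ⟨W1, W2, hW1, hW2, h1, h3, hd⟩ := t2_separation (Ne.symm hx)
    have ho : IsOpen (W1 ∩ f ⁻¹' (f '' (W2 ∩ N'))) :=
      hW1.inter ((hopen _ (hW2.inter hN'o)).preimage hf.cont)
    refine Filter.mem_of_superset (ho.mem_nhds ⟨h1, ⟨FOLD.tau f x, ⟨h3, hxN'⟩,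
      FOLD.tau_fib f x⟩⟩) ?_
    rintro x' ⟨hx'1, ⟨z, ⟨hz2, hzN⟩, hfz⟩⟩
    apply hN'N
    rcases (hfib _ _).mp hfz.symm with h | h
    · exact absurd hx'1 (fun h5 => disjoint_left.mp hd h5 (h ▸ hz2))
    · show FOLD.tau f x' ∈ N'
      rw [← h]; exact hzN

end CM
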