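import Pool.Agent.Helper59.CM.StGeo

/-!
Project CM (MP_e9500f_gt): module GAM, ranges of the polygonal paths, the map `rho`.
-/

set_option autoImplicit false

namespace CM

open Set Topology unitInterval

namespace GAM

theorem seg_apply (a b : ℂ) (t : I) :
    Path.segment a b t = ⟨a.re + (t : ℝ) * (b.re - a.re), a.im + (t : ℝ) * (b.im - a.im)⟩ := by
  rw [Path.segment_apply, AffineMap.lineMap_apply]
  apply Complex.ext
  · simp; ring
  · simp; ring

theorem norm_le_eight {z : ℂ} (h : z.re * z.re + z.im * z.im ≤ 64) : ‖z‖ ≤ 8 := by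
  have h1 : ‖z‖ ^ 2 = z.re * z.re + z.im * z.im := by
    rw [← Complex.normSq_eq_norm_sq, Complex.normSq_apply]
  nlinarith [norm_nonneg z]

/-- a segment stays in `TT c` -/
theorem seg_mem {c a b : ℂ} (h : ∀ t : ℝ, 0 ≤ t → t ≤ 1 →
    (⟨a.re + t * (b.re - a.re), a.im + t * (b.im - a.im)⟩ : ℂ) ∈ TT c) (t : I) :
    Path.segment a b t ∈ TT c := by
  rw [seg_apply]; exact h t t.2.1 t.2.2

theorem letter_mem {q : ℂ} (g : ℝ) (hq : q = q1 ∨ q = q2) (hg : g = -3/2 ∨ g = 3/2) :
    ∀ t, letter q g t ∈ TT q := by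
  have hqr : (q.re = -6 ∨ q.re = 6) ∧ q.im = 0 := by
    rcases hq with rfl | rfl
    · simp [q1]
    · simp [q2]
  obtain ⟨hqr, hqi⟩ := hqr
  refine trans_mem (seg_mem ?_) (trans_mem (seg_mem ?_) (trans_mem (seg_mem ?_)
    (trans_mem (seg_mem ?_) (seg_mem ?_))))
  all_goals
    intro t ht0 ht1
    refine ⟨norm_le_eight ?_, ?_, ?_, ?_⟩
    · simp only [Complex.sub_re, Complex.sub_im, Complex.add_re, Complex.add_im, up, hqi,
        Complex.ofReal_re, Complex.ofReal_im]
      rcases hqr with h | h <;> rcases hg with h' | h' <;> rw [h] <;> (try rw [h']) <;>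
        nlinarith [mul_nonneg ht0 (sub_nonneg.mpr ht1)]
    · simp only [Complex.sub_re, Complex.sub_im, Complex.add_re, Complex.add_im, up, hqi,
        Complex.ofReal_re, Complex.ofReal_im]
      rcases hqr with h | h <;> rcases hg with h' | h' <;> (try rw [h]) <;> (try rw [h']) <;>
        rw [abs_le] <;> constructor <;> linarith
    · simp only [Complex.sub_re, Complex.sub_im, Complex.add_re, Complex.add_im, up, hqi,
        Complex.ofReal_re, Complex.ofReal_im]
      rw [abs_le]; constructor <;> linarith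
    · simp only [Complex.sub_re, Complex.sub_im, Complex.add_re, Complex.add_im, up, hqi,
        Complex.ofReal_re, Complex.ofReal_im]
      first
        | (left; norm_num; done)
        | (right; left; rcases hg with h' | h' <;> rw [h'] <;> norm_num; done)
        | (right; right; rcases hqr with h | h <;> rw [h] <;> norm_num; done)

theorem cp_mem {S : Set ℂ} {a : ℂ} {p q : Path a a} (hp : ∀ t, p t ∈ S) (hq : ∀ t, q t ∈ S) :
    ∀ t, cp p q t ∈ S :=
  trans_mem (trans_mem (trans_mem hp hq) (symm_mem hp)) (symm_mem hq)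

end GAM

theorem pGam : StGam := by
  have h1 := GAM.letter_mem (q := q1) (-3/2) (Or.inl rfl) (Or.inl rfl)
  have h2 := GAM.letter_mem (q := q1) (3/2) (Or.inl rfl) (Or.inr rfl)
  have h3 := GAM.letter_mem (q := q2) (-3/2) (Or.inr rfl) (Or.inl rfl)
  have h4 := GAM.letter_mem (q := q2) (3/2) (Or.inr rfl) (Or.inr rfl)
  refine ⟨h1, h2, h3, h4, GAM.cp_mem h1 h2, ?_⟩
  exact GAM.cp_mem (GAM.cp_mem h3 h4) (GAM.cp_mem h3 (GAM.cp_mem h4 (GAM.cp_mem h3 h4)))

namespace GAM

theorem f1_sub {s t : ℝ} (h : s ≤ t) : ep / 3 * (t - s) ≤ f1 t - f1 s := by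
  have h1 : max (s - 3) 0 ≤ max (t - 3) 0 := max_le_max (by linarith) le_rfl
  have h2 : min (s + 3) 0 ≤ min (t + 3) 0 := min_le_min (by linarith) le_rfl
  unfold f1 ep
  linarith

theorem f2_sub {s t : ℝ} (h : s ≤ t) : 2 * ep * (t - s) ≤ f2 t - f2 s := by
  have h1 : s - (max (s - 1) 0 + min (s + 1) 0) ≤ t - (max (t - 1) 0 + min (t + 1) 0) := by
    rcases max_cases (s - 1) 0 with ⟨a1, a2⟩ | ⟨a1, a2⟩ <;>
    rcases max_cases (t - 1) 0 with ⟨b1, b2⟩ | ⟨b1, b2⟩ <;>
    rcases min_cases (s + 1) 0 with ⟨c1, c2⟩ | ⟨c1, c2⟩ <;>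
    rcases min_cases (t + 1) 0 with ⟨d1, d2⟩ | ⟨d1, d2⟩ <;>
    rw [a1, b1, c1, d1] <;> linarith
  have h3 : max (s - 2) 0 ≤ max (t - 2) 0 := max_le_max (by linarith) le_rfl
  have h4 : min (s + 2) 0 ≤ min (t + 2) 0 := min_le_min (by linarith) le_rfl
  unfold f2 ep
  linarith

theorem f1_mono : StrictMono f1 := fun s t h => by
  have := f1_sub h.le
  unfold ep at this
  linarith

theorem f2_mono : StrictMono f2 := fun s t h => by
  have := f2_sub h.le
  unfold ep at this
  linarith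

theorem f1_cont : Continuous f1 := by unfold f1; fun_prop

theorem f2_cont : Continuous f2 := by unfold f2; fun_prop

theorem f1_zero : f1 0 = 0 := by simp [f1]

theorem f2_zero : f2 0 = 0 := by simp [f2]

theorem max_neg_aux (t a : ℝ) : max (-t - a) 0 = - min (t + a) 0 := by
  rw [min_def, max_def]; split_ifs <;> linarith

theorem min_neg_aux (t a : ℝ) : min (-t + a) 0 = - max (t - a) 0 := by
  rw [min_def, max_def]; split_ifs <;> linarith

theorem f1_neg (t : ℝ) : f1 (-t) = - f1 t := by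
  unfold f1
  rw [max_neg_aux, min_neg_aux]; ring

theorem f2_neg (t : ℝ) : f2 (-t) = - f2 t := by
  unfold f2
  rw [max_neg_aux, min_neg_aux, max_neg_aux, min_neg_aux]; ring

theorem f1_abs (t : ℝ) : |f1 t| = f1 |t| := by
  rcases le_total 0 t with h | h
  · rw [abs_of_nonneg h, abs_of_nonneg]
    rw [← f1_zero]; exact f1_mono.monotone h
  · rw [abs_of_nonpos h, f1_neg, abs_of_nonpos]
    rw [← f1_zero]; exact f1_mono.monotone h

theorem f2_abs (t : ℝ) : |f2 t| = f2 |t| := by
  rcases le_total 0 t with h | h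
  · rw [abs_of_nonneg h, abs_of_nonneg]
    rw [← f2_zero]; exact f2_mono.monotone h
  · rw [abs_of_nonpos h, f2_neg, abs_of_nonpos]
    rw [← f2_zero]; exact f2_mono.monotone h

theorem f1_3 : f1 3 = ep := by unfold f1 ep; norm_num

theorem f1_4 : f1 4 = 20 := by unfold f1 ep; norm_num

theorem f2_1 : f2 1 = 6 - ep := by unfold f2 ep; norm_num

theorem f2_2 : f2 2 = 6 + ep := by unfold f2 ep; norm_num

theorem f2_3 : f2 3 = 20 := by unfold f2 ep; norm_num

theorem f2_4 : f2 4 = 20 + (14 - ep) := by unfold f2 ep; norm_num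

theorem f2_32 : f2 (3/2) = 6 := by unfold f2 ep; norm_num

theorem f1_surj : Function.Surjective f1 := by
  intro y
  refine mem_range_of_exists_le_of_exists_ge f1_cont ⟨-(60 * |y|), ?_⟩ ⟨60 * |y|, ?_⟩
  · have := f1_sub (s := -(60 * |y|)) (t := 0) (by have := abs_nonneg y; linarith)
    rw [f1_zero] at this
    unfold ep at this
    have := neg_abs_le y
    linarith
  · have := f1_sub (s := 0) (t := 60 * |y|) (by have := abs_nonneg y; linarith)
    rw [f1_zero] at this
    unfold ep at this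
    have := le_abs_self y
    linarith

theorem f2_surj : Function.Surjective f2 := by
  intro y
  refine mem_range_of_exists_le_of_exists_ge f2_cont ⟨-(60 * |y|), ?_⟩ ⟨60 * |y|, ?_⟩
  · have := f2_sub (s := -(60 * |y|)) (t := 0) (by have := abs_nonneg y; linarith)
    rw [f2_zero] at this
    unfold ep at this
    have := neg_abs_le y
    have := abs_nonneg y
    linarith
  · have := f2_sub (s := 0) (t := 60 * |y|) (by have := abs_nonneg y; linarith)
    rw [f2_zero] at this
    unfold ep at this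
    have := le_abs_self y
    have := abs_nonneg y
    linarith

noncomputable def F1 : ℝ ≃ₜ ℝ := (f1_mono.orderIsoOfSurjective f1 f1_surj).toHomeomorph
noncomputable def F2 : ℝ ≃ₜ ℝ := (f2_mono.orderIsoOfSurjective f2 f2_surj).toHomeomorph

theorem F1_apply (t : ℝ) : F1 t = f1 t := rfl
theorem F2_apply (t : ℝ) : F2 t = f2 t := rfl

theorem cont_mk {X : Type} [TopologicalSpace X] {a b : X → ℝ} (ha : Continuous a)
    (hb : Continuous b) : Continuous fun x => (⟨a x, b x⟩ : ℂ) := by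
  have : (fun x => (⟨a x, b x⟩ : ℂ)) = fun x => (a x : ℂ) + (b x : ℂ) * Complex.I := by
    funext x; exact Complex.mk_eq_add_mul_I _ _
  rw [this]
  fun_prop

noncomputable def RH : E ≃ₜ E where
  toFun := rho
  invFun p := (F1.symm p.2.im, ⟨F2.symm p.2.re, -p.1 / 5⟩)
  left_inv p := by
    obtain ⟨s, y, z⟩ := p
    show (F1.symm (F1 s), (⟨F2.symm (F2 y), -(-5 * z) / 5⟩ : ℂ)) = _
    rw [F1.symm_apply_apply, F2.symm_apply_apply]
    congr 2; ring
  right_inv p := by
    obtain ⟨s, y, z⟩ := p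
    show (-5 * (-s / 5), (⟨F2 (F2.symm y), F1 (F1.symm z)⟩ : ℂ)) = _
    rw [F1.apply_symm_apply, F2.apply_symm_apply]
    congr 1; ring
  continuous_toFun := by
    unfold rho
    refine Continuous.prodMk (by fun_prop) ?_
    exact cont_mk (f2_cont.comp (by fun_prop)) (f1_cont.comp (by fun_prop))
  continuous_invFun := by
    refine Continuous.prodMk (F1.symm.continuous.comp (by fun_prop)) ?_
    exact cont_mk (F2.symm.continuous.comp (by fun_prop)) (by fun_prop)

end GAM

open GAM in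
theorem pRho : StRho := by
  refine ⟨RH, rfl, ?_, f1_zero, f2_zero, f2_32, ?_, f2_4, ?_, f2_mono⟩
  · ext w
    obtain ⟨p, rfl⟩ := RH.surjective w
    have h1 : RH p ∈ rho '' HH ↔ p ∈ HH := RH.injective.mem_set_image
    rw [h1]
    obtain ⟨s, y, z⟩ := p
    show (|s| < 4 ∧ |y| < 3 ∧ |z| < 1 ∧ (3 < |s| ∨ |y| < 1 ∨ 2 < |y|)) ↔
      (|-5 * z| < 5 ∧ |f2 y| < 20 ∧ |f1 s| < 20 ∧ ¬ (|f1 s| ≤ ep ∧ 6 - ep ≤ |f2 y| ∧
        |f2 y| ≤ 6 + ep))
    have e1 : |-5 * z| = 5 * |z| := by rw [abs_mul]; norm_num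
    rw [e1, f2_abs, f1_abs, ← f2_3, ← f2_2, ← f1_3]
    have e2 : f2 3 = f1 4 := by rw [f2_3, f1_4]
    have e3 : f2 1 = 6 - f1 3 := by rw [f2_1, f1_3]
    rw [← e3, f2_mono.lt_iff_lt, f2_mono.le_iff_le, f2_mono.le_iff_le, f1_mono.le_iff_le, e2,
      f1_mono.lt_iff_lt]
    constructor
    · rintro ⟨a, b, c, d⟩
      refine ⟨by linarith, b, a, ?_⟩
      rintro ⟨e, f, g⟩
      rcases d with d | d | d <;> linarith
    · rintro ⟨a, b, c, d⟩
      refine ⟨c, b, by linarith, ?_⟩
      by_contra hn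
      push_neg at hn
      exact d ⟨hn.1, hn.2.1, hn.2.2⟩
  · rw [neg_div, f2_neg, f2_32]
  · rw [f2_neg, f2_4]

end CM
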