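import Pool.Agent.Helper59.CM.StMain

/-!
Project CM (MP_e9500f_gt): maps with discrete fibres into finitely many segments.
-/

set_option autoImplicit false

namespace CM

open Set Topology unitInterval

namespace INT

/-- a nonempty open set covered by finitely many closed sets: one of them contains a nonempty open
subset -/
theorem exists_piece {X ι : Type} [TopologicalSpace X] (C : ι → Set X) (hC : ∀ i, IsClosed (C i))
    (L : Finset ι) : ∀ W : Set X, IsOpen W → W.Nonempty → W ⊆ ⋃ i ∈ L, C i →
    ∃ i ∈ L, ∃ W' : Set X, IsOpen W' ∧ W'.Nonempty ∧ W' ⊆ W ∧ W' ⊆ C i := by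
  classical
  induction L using Finset.induction_on with
  | empty =>
    intro W _ hne hW
    obtain ⟨x, hx⟩ := hne
    simpa using hW hx
  | insert a s ha ih =>
    intro W hWo hne hW
    by_cases h : (W \ C a).Nonempty
    · obtain ⟨i, hi, W', h1, h2, h3, h4⟩ := ih (W \ C a) (hWo.sdiff (hC a)) h (by
        intro x hx
        have := hW hx.1
        simp only [mem_iUnion, Finset.mem_insert] at this ⊢
        obtain ⟨i, hi, hxi⟩ := this
        rcases hi with rfl | hi
        · exact absurd hxi hx.2
        · exact ⟨i, hi, hxi⟩)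
      exact ⟨i, Finset.mem_insert_of_mem hi, W', h1, h2, h3.trans sdiff_subset, h4⟩
    · refine ⟨a, Finset.mem_insert_self _ _, W, hWo, hne, Subset.rfl, ?_⟩
      rwa [Set.not_nonempty_iff_eq_empty, sdiff_eq_empty] at h

theorem isCompact_seg (a b : E3) : IsCompact (segment ℝ a b) := by
  rw [segment_eq_image_lineMap]
  exact isCompact_Icc.image AffineMap.lineMap_continuous

/-- a continuous real function on `E` has a fibre which is not countable -/
theorem exists_uncountable (h : E → ℝ) (hc : Continuous h) : ∃ c : ℝ, ¬ (h ⁻¹' {c}).Countable := by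
  have hrank : 1 < Module.rank ℝ E := by
    have h1 : Module.finrank ℝ E = 3 := by
      rw [Module.finrank_prod]
      simp [Complex.finrank_real_complex]
    rw [← Module.finrank_eq_rank, h1]
    norm_num
  by_contra hcon
  push Not at hcon
  by_cases hconst : ∀ x, h x = h 0
  · have h1 := hcon (h 0)
    have h2 : h ⁻¹' {h 0} = univ := by
      ext x
      simp [hconst x]
    rw [h2] at h1
    have h3 := (h1.isConnected_compl_of_one_lt_rank hrank).nonempty
    simp at h3
  · push Not at hconst
    obtain ⟨x, hx⟩ := hconst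
    have h1 := ((hcon ((h x + h 0) / 2)).isConnected_compl_of_one_lt_rank hrank).isPreconnected
    have h2 := h1.image h hc.continuousOn
    have hx1 : h x ∈ h '' (h ⁻¹' {(h x + h 0) / 2})ᶜ := by
      refine mem_image_of_mem h ?_
      simp only [mem_compl_iff, mem_preimage, mem_singleton_iff]
      intro h3
      exact hx (by linarith)
    have hx2 : h 0 ∈ h '' (h ⁻¹' {(h x + h 0) / 2})ᶜ := by
      refine mem_image_of_mem h ?_
      simp only [mem_compl_iff, mem_preimage, mem_singleton_iff]
      intro h3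
      exact hx (by linarith)
    have h3 : (h x + h 0) / 2 ∈ h '' (h ⁻¹' {(h x + h 0) / 2})ᶜ := by
      rcases le_total (h x) (h 0) with hle | hle
      · exact h2.ordConnected.out hx1 hx2 ⟨by linarith, by linarith⟩
      · exact h2.ordConnected.out hx2 hx1 ⟨by linarith, by linarith⟩
    obtain ⟨y, hy, hy2⟩ := h3
    exact hy hy2

end INT

open INT in
theorem pInt : StInt := by
  intro M f B hM hf hdisc hB
  rw [← not_nonempty_iff_eq_empty]
  rintro ⟨x, hx⟩
  -- restrict to a ball in the target
  obtain ⟨L, hL⟩ := hB (‖f x‖ + 1)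
  have hW : IsOpen (interior (f ⁻¹' B) ∩ f ⁻¹' (Metric.ball 0 (‖f x‖ + 1))) :=
    isOpen_interior.inter (Metric.isOpen_ball.preimage hf)
  obtain ⟨l, -, W, hWo, hWne, -, hWl⟩ := exists_piece
    (fun l : E3 × E3 => f ⁻¹' (segment ℝ l.1 l.2))
    (fun l => (isCompact_seg l.1 l.2).isClosed.preimage hf) L _ hW
    ⟨x, hx, by simp⟩ (by
      intro y hy
      have hyB : y ∈ f ⁻¹' B := interior_subset hy.1
      have h1 := hL ⟨hyB, Metric.ball_subset_closedBall hy.2⟩
      simpa using h1)
  -- the real function
  let φ : E3 → ℝ := fun y => inner ℝ (y - l.1) (l.2 - l.1)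
  have hφc : Continuous φ := by fun_prop
  have hφinj : ∀ y ∈ segment ℝ l.1 l.2, ∀ z ∈ segment ℝ l.1 l.2, φ y = φ z → y = z := by
    intro y hy z hz hyz
    rw [segment_eq_image'] at hy hz
    obtain ⟨s, -, rfl⟩ := hy
    obtain ⟨t, -, rfl⟩ := hz
    by_cases h0 : l.2 - l.1 = 0
    · simp [h0]
    · have h1 : (inner ℝ (l.2 - l.1) (l.2 - l.1) : ℝ) ≠ 0 := inner_self_ne_zero.2 h0
      simp only [φ, add_sub_cancel_left, real_inner_smul_left] at hyz
      rw [mul_right_cancel₀ h1 hyz]
  -- a ball in the source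
  obtain ⟨O, hO, rfl⟩ := isOpen_induced_iff.1 hWo
  obtain ⟨w, hw⟩ := hWne
  have hOM : IsOpen (O ∩ M) := hO.inter hM
  obtain ⟨ρ, hρ, hball⟩ := Metric.isOpen_iff.1 hOM (w : E) ⟨hw, w.2⟩
  let u := OpenPartialHomeomorph.univBall (w : E) ρ
  have hu : ∀ y, u y ∈ O ∩ M := by
    intro y
    apply hball
    have h1 := u.map_source (x := y) (by simp [u])
    rwa [OpenPartialHomeomorph.univBall_target _ hρ] at h1
  have huinj : Function.Injective u := by
    intro y z hyz
    exact u.injOn (by simp [u]) (by simp [u]) hyz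
  have huc : Continuous u := OpenPartialHomeomorph.continuous_univBall _ _
  let v : E → ↥M := fun y => ⟨u y, (hu y).2⟩
  have hvc : Continuous v := huc.subtype_mk _
  have hvinj : Function.Injective v := fun y z hyz => huinj (congrArg Subtype.val hyz)
  obtain ⟨c, hc⟩ := exists_uncountable (fun y => φ (f (v y))) (hφc.comp (hf.comp hvc))
  apply hc
  -- the fibre is countable
  by_cases hne : ((fun y => φ (f (v y))) ⁻¹' {c}).Nonempty
  · obtain ⟨y₀, hy₀⟩ := hne
    have h1 : (fun y => φ (f (v y))) ⁻¹' {c} ⊆ v ⁻¹' (f ⁻¹' {f (v y₀)}) := by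
      intro y hy
      simp only [mem_preimage, mem_singleton_iff] at hy hy₀ ⊢
      exact hφinj _ (hWl (hu y).1) _ (hWl (hu y₀).1) (by rw [hy, hy₀])
    have := hdisc (f (v y₀))
    have h2 : (f ⁻¹' {f (v y₀)}).Countable := by
      have : Countable ↥(f ⁻¹' {f (v y₀)}) := countable_of_Lindelof_of_discrete
      exact this
    exact (h2.preimage hvinj).mono h1
  · rw [not_nonempty_iff_eq_empty.1 hne]
    exact countable_empty

end CM
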