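import Pool.Agent.Helper59.CM.StAlg

/-!
Project CM (MP_e9500f_gt), module LEAD: leading words.
-/

set_option autoImplicit false

namespace CM

namespace LEAD

theorem before_irrefl (h : StWord) (w : List Bool) : ¬ Before w w := by
  rintro (h1 | ⟨_, h1⟩)
  · exact lt_irrefl _ h1
  · exact h.1 w h1

theorem before_asymm (h : StWord) {v w : List Bool} (h1 : Before v w) : ¬ Before w v := by
  rintro (h2 | ⟨h2, h3⟩)
  · rcases h1 with h1 | ⟨h1, _⟩
    · omega
    · omega
  · rcases h1 with h1 | ⟨_, h4⟩
    · omega
    · exact h.1 v (h.2.1 v w v h3 h4)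

theorem before_total (h : StWord) {v w : List Bool} (hne : v ≠ w) : Before v w ∨ Before w v := by
  rcases lt_trichotomy v.length w.length with h1 | h1 | h1
  · exact Or.inl (Or.inl h1)
  · rcases h.2.2.1 v w h1 hne with h2 | h2
    · exact Or.inr (Or.inr ⟨h1.symm, h2⟩)
    · exact Or.inl (Or.inr ⟨h1, h2⟩)
  · exact Or.inr (Or.inl h1)

theorem unique (h : StWord) {f : NS} {w w' : List Bool} {c c' : ℚ} (h1 : IsLead f w c)
    (h2 : IsLead f w' c') : w = w' ∧ c = c' := by
  have hw : w = w' := by
    by_contra hne
    rcases before_total h hne with hb | hb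
    · have := h2.2.2 w hb
      rw [h1.1] at this
      exact h1.2.1 this
    · have := h1.2.2 w' hb
      rw [h2.1] at this
      exact h2.2.1 this
  refine ⟨hw, ?_⟩
  rw [← h1.1, ← h2.1, hw]

theorem mul (h : StWord) {f g : NS} {m n : List Bool} {α β : ℚ} (h1 : IsLead f m α)
    (h2 : IsLead g n β) : IsLead (f * g) (m ++ n) (α * β) := by
  -- the terms away from the cut at `|m|` vanish
  have key : ∀ w : List Bool, w.length ≤ m.length + n.length → ∀ i ∈ Finset.range (w.length + 1),
      i ≠ m.length → NS.co f (w.take i) * NS.co g (w.drop i) = 0 := by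
    intro w hw i hi hne
    have hi' : i ≤ w.length := by
      have := Finset.mem_range.mp hi
      omega
    rcases lt_or_gt_of_ne hne with h3 | h3
    · have : NS.co f (w.take i) = 0 := by
        apply h1.2.2
        left
        rw [List.length_take]
        omega
      rw [this, zero_mul]
    · have : NS.co g (w.drop i) = 0 := by
        apply h2.2.2
        left
        rw [List.length_drop]
        omega
      rw [this, mul_zero]
  refine ⟨?_, mul_ne_zero h1.2.1 h2.2.1, ?_⟩
  · rw [NS.co_mul, Finset.sum_eq_single m.length]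
    · rw [List.take_left', List.drop_left', h1.1, h2.1]
      · rfl
      · rfl
    · intro i hi hne
      exact key (m ++ n) (by rw [List.length_append]) i hi hne
    · intro hc
      exact absurd (Finset.mem_range.mpr (by rw [List.length_append]; omega)) hc
  · intro w hw
    rw [NS.co_mul]
    apply Finset.sum_eq_zero
    intro i hi
    have hwl : w.length ≤ m.length + n.length := by
      rcases hw with h3 | ⟨h3, _⟩
      · rw [List.length_append] at h3
        omega
      · rw [h3, List.length_append]
    by_cases hne : i = m.length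
    · rcases hw with h3 | ⟨h3, h4⟩
      · rw [List.length_append] at h3
        have : NS.co g (w.drop i) = 0 := by
          apply h2.2.2
          left
          have := Finset.mem_range.mp hi
          rw [List.length_drop]
          omega
        rw [this, mul_zero]
      · rw [List.length_append] at h3
        have e1 : (w.take i).length = m.length := by
          rw [List.length_take]
          omega
        have e2 : (w.drop i).length = n.length := by
          rw [List.length_drop]
          omega
        have h5 : wlt (m ++ n) (w.take i ++ w.drop i) := by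
          rw [List.take_append_drop]
          exact h4
        rcases (h.2.2.2 m (w.take i) n (w.drop i) e1.symm).mp h5 with h6 | ⟨_, h6⟩
        · have : NS.co f (w.take i) = 0 := h1.2.2 _ (Or.inr ⟨e1, h6⟩)
          rw [this, zero_mul]
        · have : NS.co g (w.drop i) = 0 := h2.2.2 _ (Or.inr ⟨e2, h6⟩)
          rw [this, mul_zero]
    · exact key w hwl i hi hne

theorem exists_lead (h : StWord) (f : NS) (hf : f ≠ 0) :
    ∃ (w : List Bool) (c : ℚ), IsLead f w c := by
  classical
  have h0 : ∃ n : ℕ, ∃ w : List Bool, w.length = n ∧ NS.co f w ≠ 0 := by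
    by_contra hc
    push Not at hc
    exact hf (NS.ext fun w => by rw [hc w.length w rfl]; rfl)
  obtain ⟨w₀, hw₀, hw₀'⟩ := Nat.find_spec h0
  set n := Nat.find h0 with hn
  have hmin : ∀ w : List Bool, w.length < n → NS.co f w = 0 := by
    intro w hw
    by_contra hc
    exact Nat.find_min h0 hw ⟨w, rfl, hc⟩
  let r : List.Vector Bool n → List.Vector Bool n → Prop := fun a b => wlt b.1 a.1
  haveI : IsTrans (List.Vector Bool n) r := ⟨fun a b c hab hbc => h.2.1 _ _ _ hbc hab⟩
  haveI : Std.Irrefl r := ⟨fun a ha => h.1 _ ha⟩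
  have hwf : WellFounded r := Finite.wellFounded_of_trans_of_irrefl r
  obtain ⟨a, ha, hmax⟩ := hwf.has_min {a : List.Vector Bool n | NS.co f a.1 ≠ 0}
    ⟨⟨w₀, hw₀⟩, hw₀'⟩
  refine ⟨a.1, NS.co f a.1, rfl, ha, ?_⟩
  rintro v (hv | ⟨hv, hv'⟩)
  · exact hmin v (by rw [a.2] at hv; exact hv)
  · by_contra hc
    exact hmax ⟨v, by rw [hv, a.2]⟩ hc hv'

end LEAD

theorem pLeadEx (h : StWord) : StLeadEx := fun f hf => LEAD.exists_lead h f hf

theorem pLead (h : StWord) : StLead := by
  refine ⟨fun f w w' c c' h1 h2 => LEAD.unique h h1 h2,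
    fun f g m n α β h1 h2 => LEAD.mul h h1 h2, ?_, ?_, ?_⟩
  · intro f g m α h1 h2
    refine ⟨?_, h1.2.1, ?_⟩
    · rw [NS.co_add, h1.1, h2 m (LEAD.before_irrefl h m), add_zero]
    · intro v hv
      rw [NS.co_add, h1.2.2 v hv, h2 v (LEAD.before_asymm h hv), add_zero]
  · intro f g m α β h1 h2 h3
    refine ⟨?_, h3, ?_⟩
    · rw [NS.co_add, h1.1, h2.1]
    · intro v hv
      rw [NS.co_add, h1.2.2 v hv, h2.2.2 v hv, add_zero]
  · intro f m α r h1 hr
    refine ⟨?_, mul_ne_zero hr h1.2.1, ?_⟩
    · rw [NS.co_smul, h1.1]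
    · intro v hv
      rw [NS.co_smul, h1.2.2 v hv, mul_zero]

end CM
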