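import Pool.Agent.Helper59.CM.StMain
import Pool.Agent.Helper59.CM.StPF

/-! Project CM, module LOCPF: small balls of an open set. -/

set_option autoImplicit false

namespace CM

open Set Topology unitInterval

theorem pLocPF (h1 : StConv) (h2 : StCvx) : StLocPF := by
  intro M hM x W hW
  obtain ⟨U, hU, hUW⟩ := mem_nhds_subtype M x W |>.1 hW
  have hUM : U ∩ M ∈ 𝓝 (x : E) := Filter.inter_mem hU (hM.mem_nhds x.2)
  obtain ⟨r, hr, hball⟩ := Metric.mem_nhds_iff.1 hUM
  have hBM : Metric.ball (x : E) r ⊆ M := fun y hy => (hball hy).2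
  have hcv : Convex ℝ (Metric.ball (x : E) r) := convex_ball _ _
  refine ⟨Subtype.val ⁻¹' Metric.ball (x : E) r, ?_, ?_, ?_, ?_, ?_⟩
  · intro y hy
    exact hUW (hball hy).1
  · exact Metric.isOpen_ball.preimage continuous_subtype_val
  · exact Metric.mem_ball_self hr
  · intro y hy z hz
    obtain ⟨γ, hγ⟩ := (hcv.isPathConnected ⟨_, hy⟩).joinedIn _ hy _ hz
    refine ⟨⟨⟨fun t => ⟨γ t, hBM (hγ t)⟩, ?_⟩, ?_, ?_⟩, fun t => hγ t⟩
    · exact Continuous.subtype_mk γ.continuous _
    · exact Subtype.ext γ.source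
    · exact Subtype.ext γ.target
  · intro F hF
    obtain ⟨F', hF', hFF⟩ := h1 E (Multiplicative ℝ) M _ F hF
    have himg : (Subtype.val '' (Subtype.val ⁻¹' Metric.ball (x : E) r : Set ↥M) : Set E) =
        Metric.ball (x : E) r := by
      rw [Subtype.image_preimage_coe]
      exact inter_eq_right.2 hBM
    rw [himg] at hF'
    obtain ⟨g, hg⟩ := h2 E (Multiplicative ℝ) _ F' hcv hF'
    refine ⟨fun y => g y, fun a b p hp => ?_⟩
    rw [← hFF a b p hp]
    exact hg _ _ _ fun t => hp t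

end CM
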