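import Pool.Agent.Helper59.CM.StGeo

/-!
Project CM (MP_e9500f_gt): module LOG, the continuous logarithm along a commutator path.
-/

set_option autoImplicit false

namespace CM

open Set Topology unitInterval

namespace LOG

/-- the covering `exp` onto the nonzero complex numbers -/
noncomputable def ex (z : ℂ) : {z : ℂ // z ≠ 0} := ⟨_, z.exp_ne_zero⟩

theorem cov : IsCoveringMap ex := Complex.isCoveringMap_exp

/-- `z` is the increment of a continuous logarithm of `g` along the path `π` -/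
def Inc (g : ℂ → ℂ) {a b : ℂ} (π : Path a b) (z : ℂ) : Prop :=
  ∃ (x y : ℂ) (P : Path x y), (∀ t, Complex.exp (P t) = g (π t)) ∧ y - x = z

theorem Inc.exists (g : ℂ → ℂ) {a b : ℂ} (π : Path a b) (hc : Continuous fun t => g (π t))
    (h0 : ∀ t, g (π t) ≠ 0) : ∃ z, Inc g π z := by
  obtain ⟨Γ, h1, -⟩ := cov.exists_path_lifts ⟨fun t => ⟨g (π t), h0 t⟩, hc.subtype_mk _⟩
    (Complex.log (g (π 0))) (by
      apply Subtype.ext
      show g (π 0) = Complex.exp (Complex.log (g (π 0)))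
      rw [Complex.exp_log (h0 0)])
  refine ⟨Γ 1 - Γ 0, Γ 0, Γ 1, ⟨Γ, rfl, rfl⟩, fun t => ?_, rfl⟩
  have := congrArg Subtype.val (congrFun h1 t)
  exact this

theorem Inc.unique {g : ℂ → ℂ} {a b : ℂ} {π : Path a b} {z w : ℂ} (hz : Inc g π z)
    (hw : Inc g π w) : z = w := by
  obtain ⟨x, y, P, hP, rfl⟩ := hz
  obtain ⟨x', y', P', hP', rfl⟩ := hw
  have hx : Complex.exp (x - x') = 1 := by
    rw [Complex.exp_sub]
    have h1 := hP 0
    have h2 := hP' 0
    rw [P.source] at h1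
    rw [P'.source] at h2
    rw [h1, h2, div_self]
    rw [← h1]; exact Complex.exp_ne_zero _
  have key : (fun t => P t) = fun t => P' t + (x - x') := by
    refine cov.eq_of_comp_eq P.continuous (P'.continuous.add continuous_const) ?_ 0 ?_
    · funext t
      apply Subtype.ext
      show Complex.exp (P t) = Complex.exp (P' t + (x - x'))
      rw [Complex.exp_add, hx, mul_one, hP, hP']
    · simp
  have h1 := congrFun key 1
  simp only [P.target, P'.target] at h1
  rw [h1]; ring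

theorem Inc.trans {g : ℂ → ℂ} {a b c : ℂ} {π : Path a b} {π' : Path b c} {z w : ℂ}
    (hz : Inc g π z) (hw : Inc g π' w) : Inc g (π.trans π') (z + w) := by
  obtain ⟨x, y, P, hP, rfl⟩ := hz
  obtain ⟨x', y', P', hP', rfl⟩ := hw
  have hx : Complex.exp (y - x') = 1 := by
    rw [Complex.exp_sub]
    have h1 := hP 1
    have h2 := hP' 0
    rw [P.target, π.target] at h1
    rw [P'.source, π'.source] at h2
    rw [h1, h2, div_self]
    rw [← h1]; exact Complex.exp_ne_zero _
  refine ⟨x, y' + (y - x'), P.trans ((P'.map (continuous_add_const (y - x'))).cast (by ring)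
    rfl), fun t => ?_, by ring⟩
  rw [Path.trans_apply, Path.trans_apply]
  split_ifs with h
  · exact hP _
  · show Complex.exp (P' _ + (y - x')) = _
    rw [Complex.exp_add, hx, mul_one, hP']

theorem Inc.symm {g : ℂ → ℂ} {a b : ℂ} {π : Path a b} {z : ℂ}
    (hz : Inc g π z) : Inc g π.symm (-z) := by
  obtain ⟨x, y, P, hP, rfl⟩ := hz
  exact ⟨y, x, P.symm, fun t => hP _, by ring⟩

theorem Inc.cp {g : ℂ → ℂ} {c : ℂ} {p p' : Path c c} {z w : ℂ}
    (hz : Inc g p z) (hw : Inc g p' w) : Inc g (cp p p') 0 := by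
  have := ((hz.trans hw).trans hz.symm).trans hw.symm
  have e : z + w + -z + -w = 0 := by ring
  rw [e] at this
  exact this

end LOG

theorem pLog : StLog := by
  intro c p p' Q e hcQ hp hp' he hb
  set γ : Path c c := cp p p' with hγ
  let S : Set ℂ := {r | ‖r - c‖ ≤ 8 ∧ r ∉ Q}
  have hpS : ∀ t, p t ∈ S := hp
  have hpS' : ∀ t, p' t ∈ S := hp'
  have hγS : ∀ t, γ t ∈ S :=
    trans_mem (trans_mem (trans_mem hpS hpS') (symm_mem hpS)) (symm_mem hpS')
  have hball : ∀ r ∈ S, r ∈ Metric.closedBall c 8 := fun r hr => by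
    rw [Metric.mem_closedBall, dist_eq_norm]; exact hr.1
  have hcc : ∀ q : ℂ, e (c, q) = q := by
    intro q
    have h1 := (hb c (by simp) q).2.1
    have h2 : bb c c q = q := by simp [bb]
    rwa [h2] at h1
  have hne : ∀ r ∈ S, ∀ q ∈ Q, e (r, q) - c ≠ 0 := fun r hr q hq =>
    (hb r (hball r hr) q).2.2.2 fun h => hr.2 (h ▸ hq)
  have hqc : ∀ q ∈ Q, q - c ≠ 0 := fun q hq h => hcQ (by
    have : q = c := sub_eq_zero.mp h
    exact this ▸ hq)
  have hcont : Continuous fun x : I × Q => e (γ x.1, (x.2 : ℂ)) := by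
    refine he.comp_continuous (f := fun x : I × Q => (γ x.1, (x.2 : ℂ))) (by fun_prop) fun x => ?_
    exact ⟨hball _ (hγS x.1), mem_univ _⟩
  let H : C(I × Q, {z : ℂ // z ≠ 0}) := ⟨fun x => ⟨(e (γ x.1, (x.2 : ℂ)) - c) / ((x.2 : ℂ) - c),
    div_ne_zero (hne _ (hγS x.1) _ x.2.2) (hqc _ x.2.2)⟩, by
      refine Continuous.subtype_mk ?_ _
      refine Continuous.div (hcont.sub continuous_const) (by fun_prop) fun x => hqc _ x.2.2⟩
  have H0 : ∀ a : Q, H (0, a) = LOG.ex ((ContinuousMap.const Q (0 : ℂ)) a) := by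
    intro a
    apply Subtype.ext
    show (e (γ 0, (a : ℂ)) - c) / ((a : ℂ) - c) = Complex.exp 0
    rw [γ.source, hcc, div_self (hqc _ a.2), Complex.exp_zero]
  let L : C(I × Q, ℂ) := LOG.cov.liftHomotopy H (ContinuousMap.const Q (0 : ℂ)) H0
  have hL : ∀ x : I × Q, Complex.exp (L x) = (e (γ x.1, (x.2 : ℂ)) - c) / ((x.2 : ℂ) - c) := by
    intro x
    exact congrArg Subtype.val (congrFun (LOG.cov.liftHomotopy_lifts H
      (ContinuousMap.const Q (0 : ℂ)) H0) x)
  have hL0 : ∀ a : Q, L (0, a) = 0 := fun a => LOG.cov.liftHomotopy_zero H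
      (ContinuousMap.const Q (0 : ℂ)) H0 a
  have hL1 : ∀ a : Q, L (1, a) = 0 := by
    intro a
    have hcg : ∀ π : Path c c, (∀ t, π t ∈ S) → ∃ z, LOG.Inc (fun r => e (r, (a : ℂ)) - c) π z := by
      intro π hπ
      refine LOG.Inc.exists _ π ?_ fun t => hne _ (hπ t) _ a.2
      refine Continuous.sub ?_ continuous_const
      refine he.comp_continuous (f := fun t : I => (π t, (a : ℂ))) (by fun_prop) fun t => ?_
      exact ⟨hball _ (hπ t), mem_univ _⟩
    obtain ⟨z, hz⟩ := hcg p hpS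
    obtain ⟨w, hw⟩ := hcg p' hpS'
    have h0 : LOG.Inc (fun r => e (r, (a : ℂ)) - c) γ 0 := hz.cp hw
    have h1 : LOG.Inc (fun r => e (r, (a : ℂ)) - c) γ (L (1, a)) := by
      refine ⟨L (0, a) + Complex.log ((a : ℂ) - c), L (1, a) + Complex.log ((a : ℂ) - c),
        ⟨⟨fun t => L (t, a) + Complex.log ((a : ℂ) - c), by fun_prop⟩, rfl, rfl⟩, fun t => ?_, ?_⟩
      · show Complex.exp (L (t, a) + Complex.log ((a : ℂ) - c)) = _
        rw [Complex.exp_add, hL, Complex.exp_log (hqc _ a.2), div_mul_cancel₀ _ (hqc _ a.2)]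
      · rw [hL0]; ring
    exact h1.unique h0
  classical
  refine ⟨fun x => if h : x.2 ∈ Q then L (projIcc 0 1 zero_le_one x.1, ⟨x.2, h⟩) else 0, ?_, ?_⟩
  · rw [continuousOn_iff_continuous_domRestrict]
    have : (Icc (0 : ℝ) 1 ×ˢ Q).domRestrict (fun x : ℝ × ℂ => if h : x.2 ∈ Q then
        L (projIcc 0 1 zero_le_one x.1, ⟨x.2, h⟩) else 0) =
        fun x => L (projIcc 0 1 zero_le_one x.1.1, ⟨x.1.2, x.2.2⟩) := by
      funext x
      show (if h : x.1.2 ∈ Q then L (projIcc 0 1 zero_le_one x.1.1, ⟨x.1.2, h⟩) else 0) = _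
      rw [dif_pos x.2.2]
    rw [this]
    refine L.continuous.comp ?_
    refine Continuous.prodMk (continuous_projIcc.comp (by fun_prop)) ?_
    exact Continuous.subtype_mk (by fun_prop) _
  · intro q hq
    refine ⟨?_, ?_, fun t ht => ?_⟩
    · show (if h : q ∈ Q then L (projIcc 0 1 zero_le_one 0, ⟨q, h⟩) else 0) = 0
      rw [dif_pos hq, projIcc_left]; exact hL0 _
    · show (if h : q ∈ Q then L (projIcc 0 1 zero_le_one 1, ⟨q, h⟩) else 0) = 0
      rw [dif_pos hq, projIcc_right]; exact hL1 _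
    · show e (γ.extend t, q) = c + (q - c) * Complex.exp (if h : q ∈ Q then
        L (projIcc 0 1 zero_le_one t, ⟨q, h⟩) else 0)
      rw [dif_pos hq, projIcc_of_mem zero_le_one ht, hL, Path.extend_apply _ ht]
      rw [mul_div_cancel₀ _ (hqc q hq)]
      ring

end CM
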