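import Pool.Agent.Helper59.CM.StAlg
import Pool.Agent.Helper14.DL.MAG

/-!
Project CM, module MAGNUS (helper33): Magnus embedding of the free group of rank two in `UU`.
-/

set_option autoImplicit false

namespace CM

open NS

namespace MAGNUS

/-- letters to letters -/
def io (t : Bool) : Fin 2 := if t = true then 0 else 1

/-- back -/
def oi (i : Fin 2) : Bool := if i = 0 then true else false

theorem oi_io (t : Bool) : oi (io t) = t := by cases t <;> rfl

theorem io_oi (i : Fin 2) : io (oi i) = i := by fin_cases i <;> rfl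

theorem io_inj : Function.Injective io := by
  intro a b h
  rw [← oi_io a, h, oi_io]

/-- the groups -/
def fm : F2 →* DL.F 2 := FreeGroup.map io

theorem fm_of (t : Bool) : fm (FreeGroup.of t) = DL.gen (io t) := by
  unfold fm
  rw [FreeGroup.map.of]

theorem fm_inj (W : F2) (h : fm W = 1) : W = 1 := by
  have key : ∀ V : F2, FreeGroup.map oi (fm V) = V := by
    intro V
    have h1 : (FreeGroup.map oi).comp fm = MonoidHom.id F2 := by
      ext t
      rw [MonoidHom.comp_apply, fm_of, DL.gen, FreeGroup.map.of, oi_io]
      rfl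
    exact DFunLike.congr_fun h1 V
  rw [← key W, h, map_one]

theorem mag_one (w : List (Fin 2)) : DL.MAG.mag w (1 : DL.F 2) = if w = [] then 1 else 0 := by
  unfold DL.MAG.mag
  rw [map_one]
  show DL.MAG.dl w = _
  unfold DL.MAG.dl
  by_cases h : w = []
  · simp [h]
  · simp [h]

/-- The homomorphism to series. -/
noncomputable def ph : F2 →* NS where
  toFun W := mk fun w => (DL.MAG.mag (w.map io) (fm W) : ℚ)
  map_one' := by
    ext w
    rw [co_mk, co_one, map_one, mag_one]
    cases w <;> simp
  map_mul' U V := by
    ext w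
    rw [co_mul, co_mk, map_mul, DL.MAG.mag_mul]
    push_cast
    rw [List.length_map]
    refine Finset.sum_congr rfl fun i _ => ?_
    rw [co_mk, co_mk, List.map_take, List.map_drop]

theorem co_ph (W : F2) (w : List Bool) : co (ph W) w = (DL.MAG.mag (w.map io) (fm W) : ℚ) := rfl

/-- The homomorphism to `UU`. -/
noncomputable def pu : F2 →* UU := ph.toHomUnits.codRestrict UU (by
  intro W
  show co (ph W) [] = 1
  rw [co_ph, List.map_nil, DL.MAG.mag_nil]
  norm_num)

theorem sr_pu (W : F2) : sr (pu W) = ph W := rfl

theorem ph_of (t : Bool) : ph (FreeGroup.of t) = 1 + var t := by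
  ext w
  rw [co_ph, fm_of, ← mul_one (DL.gen (io t)), DL.MAG.mag_gen_mul, co_add, co_one]
  unfold var
  rw [co_mk]
  cases w with
  | nil => simp [DL.MAG.tf_nil, mag_one]
  | cons b w =>
    rw [List.map_cons, DL.MAG.tf_cons, mag_one, mag_one]
    by_cases hb : b = t
    · subst hb
      by_cases hw : w = []
      · subst hw; simp
      · simp [hw]
    · have h2 : io b ≠ io t := fun h => hb (io_inj h)
      simp [hb, h2]

theorem pu_inj (W : F2) (h : pu W = 1) : W = 1 := by
  apply fm_inj
  have h1 : ph W = 1 := by rw [← sr_pu, h, sr_one]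
  have h2 : ∀ u : List (Fin 2), u ≠ [] → DL.MAG.mag u (fm W) = 0 := by
    intro u hu
    have h3 : co (ph W) (u.map oi) = 0 := by
      rw [h1, co_one, if_neg (by simpa using hu)]
    rw [co_ph, List.map_map] at h3
    have h4 : u.map (io ∘ oi) = u := by
      have : io ∘ oi = id := funext io_oi
      rw [this, List.map_id]
    rw [h4] at h3
    exact_mod_cast h3
  obtain ⟨v, hv⟩ := DL.MAG.exists_syl (fm W)
  have h5 := (DL.MAG.syl_mag _ v hv).2.1
  generalize fm W = g at *
  cases hv with
  | one => rfl
  | cons a e h v he hh hv => exact absurd (h2 _ (by simp)) h5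

end MAGNUS

open MAGNUS in
theorem pMagnus : StMagnus := by
  refine ⟨pu xx, pu yy, ?_, ?_, ?_, ?_⟩
  · rw [sr_pu]; exact ph_of true
  · rw [sr_pu]; exact ph_of false
  · intro h
    have h1 : sr (pu xx * pu yy) = sr (pu yy * pu xx) := by rw [h]
    rw [sr_mul, sr_mul, sr_pu, sr_pu] at h1
    have e1 : ph xx = 1 + var true := ph_of true
    have e2 : ph yy = 1 + var false := ph_of false
    rw [e1, e2] at h1
    have h2 : co ((1 + var true) * (1 + var false)) [true, false] =
        co ((1 + var false) * (1 + var true)) [true, false] := by rw [h1]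
    rw [co_mul, co_mul] at h2
    simp [Finset.sum_range_succ, var, co_one] at h2
  · intro W hW h
    apply hW
    apply pu_inj
    have h1 : hom2 (pu xx) (pu yy) = pu := by
      refine FreeGroup.ext_hom _ _ (fun t => ?_)
      cases t
      · exact hom2_yy (pu xx) (pu yy)
      · exact hom2_xx (pu xx) (pu yy)
    rw [← h1, h]

end CM
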