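import Pool.Agent.Helper59.CM.StMain

/-!
Project CM (MP_e9500f_gt): the main argument.
-/

set_option autoImplicit false

namespace CM

open Set Topology unitInterval

namespace MAIN

theorem hom2_one (W : F2) : hom2 (1 : UU) (1 : UU) W = 1 := by
  have h : hom2 (1 : UU) (1 : UU) = 1 := by
    apply FreeGroup.ext_hom
    intro t
    simp [hom2]
  rw [h]; rfl

theorem conj_one {a b : UU} (h : Conj (1 : UU) (1 : UU) a b) : a = 1 ∧ b = 1 := by
  obtain ⟨g, h1, h2⟩ := h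
  constructor
  · rw [h1]; group
  · rw [h2]; group

theorem W1_comm {a b : UU} (h : a * b = b * a) : W1 a b = 1 := by
  unfold W1 cm; rw [h]; group

theorem W2_comm {a b : UU} (h : a * b = b * a) : W2 a b = 1 := by
  have h1 : cm a b = 1 := W1_comm h
  unfold W2; rw [h1]; unfold cm; group

end MAIN

open MAIN

theorem pMain (hLev : StLev) (hPair : StPair) (hSeq : StSeq) (hRho : StRho1) (hBox : StBox)
    (hDeck : StDeckU) (hFix : StFix) (hU2 : StU2) (hSign : StSign) : StMain := by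
  intro X _ _ _ T f τ hloc hf
  obtain ⟨hbox1, hbox2, hbox3⟩ := hBox
  obtain ⟨A, B, hAB, hρ, hnc⟩ := hRho X T
  set ρ : PFun X UU := fun a b p => hom2 A B (T.Φ a b p) with hρdef
  obtain ⟨hG, hint, hmono, hcpt⟩ := hLev X T
  have hfτ : ∀ x, f (τ x) = f x := fun x => ((hf.fib x (τ x)).2 (Or.inr rfl)).symm
  -- first box
  obtain ⟨R1, hR1, hK1⟩ := hbox2 (f '' T.K) (T.compact.image hf.cont)
  obtain ⟨N1, hN1⟩ := hcpt (f ⁻¹' (box R1)) (hf.proper.isCompact_preimage (hbox1 R1 hR1).2.1)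
  set S := T.lev N1 with hS
  have hTS : T.K ⊆ S.K := hmono 0 N1 (Nat.zero_le _)
  have hSK : f ⁻¹' (box R1) ⊆ S.K := hN1 N1 le_rfl
  have hSρ : IsPF S.Kᶜ ρ := hρ.mono (compl_subset_compl.2 hTS)
  set ρτ : PFun X UU := pull ⟨τ, hf.tcont⟩ ρ with hρτdef
  have hSρτ : IsPF S.Kᶜ ρτ := by
    refine (hρ.pull ⟨τ, hf.tcont⟩).mono ?_
    intro w hw h
    apply hw
    apply hSK
    have : f (τ w) ∈ box R1 := hK1 ⟨τ w, h, rfl⟩
    rw [hfτ] at this
    exact this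
  have hncS : ρ S.p S.p S.lx * ρ S.p S.p S.ly ≠ ρ S.p S.p S.ly * ρ S.p S.p S.lx := hnc N1
  have hncSτ : ρτ S.p S.p S.lx * ρτ S.p S.p S.ly ≠ ρτ S.p S.p S.ly * ρτ S.p S.p S.lx := by
    intro hcomm
    have h1 := (hPair X S ρτ hSρτ).2
    rw [W1_comm hcomm, W2_comm hcomm] at h1
    obtain ⟨hx, hy⟩ := conj_one h1
    have hSS : S.K ⊆ S.shift.K := S.mono.trans interior_subset
    have hS'ρτ : IsPF S.shift.Kᶜ ρτ := hSρτ.mono (compl_subset_compl.2 hSS)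
    obtain ⟨g, hg⟩ := (hPair X S.shift ρτ hS'ρτ).1
    obtain ⟨N, hN⟩ := hcpt (τ '' S.shift.K) (S.shift.compact.image hf.tcont)
    have hNN := hN N le_rfl
    set L := T.lev N with hL
    have hγ : ∀ t, (L.lx.map hf.tcont) t ∈ S.shift.Kᶜ := by
      intro t h
      have h2 : τ (τ (L.lx t)) ∈ τ '' S.shift.K := ⟨_, h, rfl⟩
      rw [hf.invol] at h2
      exact L.lx_mem t (hNN h2)
    have h3 := hg _ _ _ hγ
    rw [hx, hy, hom2_one, mul_one, inv_mul_cancel] at h3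
    have h4 : ρτ _ _ (L.lx.map hf.tcont) = ρ L.p L.p L.lx := by
      show ρ _ _ ((L.lx.map hf.tcont).map _) = _
      have : (L.lx.map hf.tcont).map hf.tcont = L.lx.cast (hf.invol L.p) (hf.invol L.p) := by
        ext t; exact hf.invol _
      rw [this, F_cast ρ]
    rw [h4] at h3
    apply hnc N
    show ρ L.p L.p L.lx * ρ L.p L.p L.ly = ρ L.p L.p L.ly * ρ L.p L.p L.lx
    rw [h3]; group
  -- level N1 + 4
  set S4 := S.lev 4 with hS4
  have hgood : Good (ρ _ _ S4.lx) (ρ _ _ S4.ly) := (hSeq X S ρ hSρ hncS).2 4 le_rfl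
  have hgoodτ : Good (ρτ _ _ S4.lx) (ρτ _ _ S4.ly) := (hSeq X S ρτ hSρτ hncSτ).2 4 le_rfl
  have hS4' : S4 = T.lev (N1 + 4) := T.lev_add N1 4
  have hSS4 : S.K ⊆ S4.K := by
    rw [hS4']; exact hmono N1 (N1 + 4) (Nat.le_add_right _ _)
  have hS4ρ : IsPF S4.Kᶜ ρ := hSρ.mono (compl_subset_compl.2 hSS4)
  have hS4ρτ : IsPF S4.Kᶜ ρτ := hSρτ.mono (compl_subset_compl.2 hSS4)
  -- second box
  obtain ⟨R2, hR2, hK2⟩ := hbox2 (f '' S4.K) (S4.compact.image hf.cont)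
  have hU2S : f ⁻¹' (VV R2) ⊆ S4.Kᶜ := by
    intro w hw h
    exact hw (hK2 ⟨w, h, rfl⟩)
  obtain ⟨N2, hN2⟩ := hcpt (f ⁻¹' (box R2)) (hf.proper.isCompact_preimage (hbox1 R2 hR2).2.1)
  obtain ⟨hVo, -, hVJ, hVne, hVE⟩ := hbox1 R2 hR2
  have hUJ : Jn (f ⁻¹' (VV R2)) :=
    hU2 X f τ R2 (T.lev N2).K hf hR2 (T.lev N2).compact (T.lev N2).conn (hN2 N2 le_rfl)
  obtain ⟨p, hpU, hpτ⟩ := hFix X E3 f τ (VV R2) hf hVo hVne (hVE _) hUJ
  obtain ⟨A', B', hAB', hρ', hnc'⟩ := hRho X S4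
  set h' : PFun X UU := fun a b p => hom2 A' B' (S4.Φ a b p) with hh'def
  obtain ⟨g1, hg1⟩ := (hPair X S4 ρ hS4ρ).1
  obtain ⟨g2, hg2⟩ := (hPair X S4 ρτ hS4ρτ).1
  have key : ∀ z : Path p p, (∀ t, z t ∈ f ⁻¹' (VV R2)) → (∀ t, τ (z t) = z (σ t)) →
      h' p p z = 1 := by
    intro z hz hzτ
    have hzS : ∀ t, z t ∈ S4.Kᶜ := fun t => hU2S (hz t)
    by_contra hne
    have hW : S4.Φ p p z ≠ 1 := by
      intro h; apply hne; show hom2 A' B' (S4.Φ p p z) = 1; rw [h, map_one]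
    have e1 := hg1 p p z hzS
    have e2 := hg2 p p z hzS
    have e3 : ρτ p p z = (ρ p p z)⁻¹ := by
      show ρ _ _ (z.map _) = _
      have : z.map hf.tcont = z.symm.cast hpτ hpτ := by
        ext t; exact hzτ t
      rw [this, F_cast ρ]
      exact hS4ρ.symm z hzS
    rw [e1] at e3
    rw [e2] at e3
    apply hSign _ _ _ _ hgood hgoodτ _ hW (g2 p * (g1 p)⁻¹)
    have e4 : hom2 (ρτ S4.p S4.p S4.lx) (ρτ S4.p S4.p S4.ly) (S4.Φ p p z) =
        g2 p * ((g2 p)⁻¹ * hom2 (ρτ S4.p S4.p S4.lx) (ρτ S4.p S4.p S4.ly) (S4.Φ p p z) * g2 p) *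
          (g2 p)⁻¹ := by group
    rw [e4, e3]; group
  have htriv := hDeck X E3 f τ (VV R2) p h' hf hloc hVo (hVE _) hUJ hpU hpτ
    (hρ'.mono hU2S) key
  -- a loop at a high level
  set L := S4.lev N2 with hL
  have hL' : L = T.lev (N1 + 4 + N2) := by
    rw [hL, hS4', T.lev_add]
  have hLU : L.Kᶜ ⊆ f ⁻¹' (VV R2) := by
    intro w hw h
    apply hw
    rw [hL']
    exact hN2 _ (by omega) h
  have hLp : L.p ∈ f ⁻¹' (VV R2) := by
    have := hLU (L.lx_mem 0); simpa using this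
  obtain ⟨c, hc⟩ := hUJ p hpU L.p hLp
  have hPF' : IsPF (f ⁻¹' (VV R2)) h' := hρ'.mono hU2S
  have hlx : ∀ t, L.lx t ∈ f ⁻¹' (VV R2) := fun t => hLU (L.lx_mem t)
  have hz := htriv ((c.trans L.lx).trans c.symm)
    (trans_mem (trans_mem hc hlx) (symm_mem hc))
  rw [hPF'.trans _ _ _ _ _ (trans_mem hc hlx) (symm_mem hc), hPF'.trans _ _ _ _ _ hc hlx,
    hPF'.symm c hc] at hz
  have hone : h' L.p L.p L.lx = 1 := by
    have h5 : h' p L.p c * h' L.p L.p L.lx = h' p L.p c := by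
      rw [mul_inv_eq_one] at hz; exact hz
    exact mul_eq_left.mp h5
  apply hnc' N2
  show h' L.p L.p L.lx * h' L.p L.p L.ly = h' L.p L.p L.ly * h' L.p L.p L.lx
  rw [hone]; group

end CM
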