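import Pool.Agent.Helper59.CM.StAlg

/-!
Project CM (MP_e9500f_gt), module ND: leading words of `W1`, `W2` when the leading words do not
commute; commuting words are powers of a common word.
-/

set_option autoImplicit false

namespace CM

open NS

namespace ND

theorem left (h : StWord) {u v : List Bool} (u' v' : List Bool) (hl : u.length = v.length)
    (huv : wlt u v) : wlt (u ++ u') (v ++ v') :=
  (h.2.2.2 u v u' v' hl).2 (Or.inl huv)

theorem right (h : StWord) (u : List Bool) {u' v' : List Bool}
    (huv : wlt u' v') : wlt (u ++ u') (u ++ v') :=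
  (h.2.2.2 u u u' v' rfl).2 (Or.inr ⟨rfl, huv⟩)

theorem rep_add (i j : ℕ) (r : List Bool) : rep (i + j) r = rep i r ++ rep j r := by
  unfold rep
  rw [List.replicate_add, List.flatten_append]

theorem ls_aux : ∀ (k : ℕ) (m n : List Bool), m.length + n.length ≤ k → m ++ n = n ++ m →
    ∃ (r : List Bool) (i j : ℕ), m = rep i r ∧ n = rep j r := by
  intro k
  induction k with
  | zero =>
    intro m n hk _
    have hm : m = [] := List.length_eq_zero_iff.1 (by omega)
    have hn : n = [] := List.length_eq_zero_iff.1 (by omega)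
    exact ⟨[], 0, 0, by simp [rep, hm], by simp [rep, hn]⟩
  | succ k ih =>
    intro m n hk h
    rcases List.eq_nil_or_concat' m with rfl | ⟨m₀, x, hm⟩
    · exact ⟨n, 0, 1, by simp [rep], by simp [rep]⟩
    rcases List.eq_nil_or_concat' n with rfl | ⟨n₀, y, hn⟩
    · exact ⟨m, 1, 0, by simp [rep], by simp [rep]⟩
    have hm0 : 0 < m.length := by rw [hm]; simp
    have hn0 : 0 < n.length := by rw [hn]; simp
    rcases Nat.le_total m.length n.length with hle | hle
    · have hpre : m <+: n := by
        apply List.prefix_of_prefix_length_le (l₃ := n ++ m) _ (List.prefix_append n m) hle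
        rw [← h]
        exact List.prefix_append m n
      obtain ⟨t, rfl⟩ := hpre
      have h' : m ++ t = t ++ m := by
        have : m ++ (m ++ t) = m ++ (t ++ m) := by rw [h, List.append_assoc]
        exact List.append_cancel_left this
      have hlen : m.length + t.length ≤ k := by
        rw [List.length_append] at hk; omega
      obtain ⟨r, i, j, h1, h2⟩ := ih m t hlen h'
      exact ⟨r, i, i + j, h1, by rw [rep_add, ← h1, ← h2]⟩
    · have hpre : n <+: m := by
        apply List.prefix_of_prefix_length_le (l₃ := m ++ n) _ (List.prefix_append m n) hle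
        rw [h]
        exact List.prefix_append n m
      obtain ⟨t, rfl⟩ := hpre
      have h' : n ++ t = t ++ n := by
        have : n ++ (n ++ t) = n ++ (t ++ n) := by rw [← h, List.append_assoc]
        exact List.append_cancel_left this
      have hlen : t.length + n.length ≤ k := by
        rw [List.length_append] at hk; omega
      obtain ⟨r, i, j, h1, h2⟩ := ih t n hlen h'.symm
      exact ⟨r, j + i, j, by rw [rep_add, ← h1, ← h2], h2⟩

end ND

theorem pLS : StLS := by
  intro m n h
  exact ND.ls_aux _ m n le_rfl h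

theorem pND (h1 : StWord) (h2 : StComm) : StND := by
  intro a b m n α β ha hb
  constructor
  · intro hlt
    have hmn : (n ++ m).length = (m ++ n).length := by simp [Nat.add_comm]
    have hu : LG (cm a b) (m ++ n) (α * β) := (h2.1 a b m n α β ha hb).1 hlt
    have hv : LG (cm b (cm a b)) ((m ++ n) ++ n) (-(β * (α * β))) := by
      refine (h2.1 b (cm a b) n (m ++ n) β (α * β) hb hu).2 ?_
      have := ND.left h1 n n hmn hlt
      simpa only [List.append_assoc] using this
    have hw : LG (cm a (cm b (cm a b))) (m ++ ((m ++ n) ++ n)) (α * (-(β * (α * β)))) := by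
      refine (h2.1 a (cm b (cm a b)) m ((m ++ n) ++ n) α _ ha hv).1 ?_
      have e1 : wlt (n ++ (n ++ m)) (n ++ (m ++ n)) := ND.right h1 n hlt
      have e2 : wlt ((n ++ m) ++ n) ((m ++ n) ++ n) := ND.left h1 n n hmn hlt
      have e3 : wlt (n ++ (n ++ m)) ((m ++ n) ++ n) := by
        refine h1.2.1 _ _ _ e1 ?_
        simpa only [List.append_assoc] using e2
      have e4 := ND.right h1 m e3
      simpa only [List.append_assoc] using e4
    have hz : LG (W2 a b) ((m ++ ((m ++ n) ++ n)) ++ (m ++ n))
        (-((α * β) * (α * (-(β * (α * β)))))) := by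
      refine (h2.1 (cm a b) (cm a (cm b (cm a b))) (m ++ n) (m ++ ((m ++ n) ++ n)) _ _ hu hw).2 ?_
      have e1 : wlt ((n ++ m) ++ (m ++ n ++ n)) ((m ++ n) ++ (n ++ m ++ n)) :=
        ND.left h1 _ _ hmn hlt
      have e2 := ND.right h1 m e1
      simpa only [List.append_assoc] using e2
    refine ⟨hu, ?_, ?_⟩
    · have hc : (-((α * β) * (α * (-(β * (α * β)))))) = (α * β) ^ 3 := by ring
      rw [hc] at hz
      simpa only [List.append_assoc] using hz
    · have e1 : wlt ((n ++ m) ++ (m ++ n ++ n ++ m ++ n)) ((m ++ n) ++ (n ++ m ++ n ++ m ++ n)) :=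
        ND.left h1 _ _ hmn hlt
      have e2 := ND.right h1 m e1
      simpa only [List.append_assoc] using e2
  · intro hlt
    have hmn : (m ++ n).length = (n ++ m).length := by simp [Nat.add_comm]
    have hu : LG (cm a b) (n ++ m) (-(α * β)) := (h2.1 a b m n α β ha hb).2 hlt
    have hv : LG (cm b (cm a b)) (n ++ (n ++ m)) (β * (-(α * β))) := by
      refine (h2.1 b (cm a b) n (n ++ m) β _ hb hu).1 ?_
      have := ND.right h1 n hlt
      simpa only [List.append_assoc] using this
    have hw : LG (cm a (cm b (cm a b))) ((n ++ (n ++ m)) ++ m) (-(α * (β * (-(α * β))))) := by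
      refine (h2.1 a (cm b (cm a b)) m (n ++ (n ++ m)) α _ ha hv).2 ?_
      have e1 : wlt ((m ++ n) ++ (n ++ m)) ((n ++ m) ++ (n ++ m)) := ND.left h1 _ _ hmn hlt
      have e2 : wlt ((m ++ n) ++ m) ((n ++ m) ++ m) := ND.left h1 m m hmn hlt
      have e3 := ND.right h1 n e2
      have e4 : wlt ((m ++ n) ++ (n ++ m)) (n ++ ((n ++ m) ++ m)) := by
        refine h1.2.1 _ _ _ e1 ?_
        simpa only [List.append_assoc] using e3
      simpa only [List.append_assoc] using e4
    have hz : LG (W2 a b) (((n ++ (n ++ m)) ++ m) ++ (n ++ m))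
        (-((-(α * β)) * (-(α * (β * (-(α * β))))))) := by
      refine (h2.1 (cm a b) (cm a (cm b (cm a b))) (n ++ m) ((n ++ (n ++ m)) ++ m) _ _ hu hw).2 ?_
      have e1 : wlt ((m ++ n) ++ (n ++ m ++ m)) ((n ++ m) ++ (m ++ n ++ m)) :=
        ND.left h1 _ _ hmn hlt
      have e2 := ND.right h1 n e1
      simpa only [List.append_assoc] using e2
    refine ⟨hu, ?_, ?_⟩
    · have hc : (-((-(α * β)) * (-(α * (β * (-(α * β))))))) = (α * β) ^ 3 := by ring
      rw [hc] at hz
      simpa only [List.append_assoc] using hz
    · have e1 : wlt ((m ++ n) ++ (n ++ m ++ m ++ n ++ m)) ((n ++ m) ++ (m ++ n ++ m ++ n ++ m)) :=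
        ND.left h1 _ _ hmn hlt
      have e2 := ND.right h1 n e1
      simpa only [List.append_assoc] using e2

end CM
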