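import Pool.Agent.Helper59.CM.StGeo

set_option autoImplicit false

namespace CM
namespace NULL

open Set Topology unitInterval

private def Q3 : Set ℂ := {q | |q.re| ≤ 3 ∧ |q.im| ≤ 1 ∧ (|q.re| ≤ 1 ∨ 2 ≤ |q.re|)}

private lemma cp_mem {X : Type} [TopologicalSpace X] {a : X} (p q : Path a a) (S : Set X)
    (hp : ∀ t, p t ∈ S) (hq : ∀ t, q t ∈ S) : ∀ t, cp p q t ∈ S := by
  have hr : range (cp p q) ⊆ S := by
    unfold cp
    rw [Path.trans_range, Path.trans_range, Path.trans_range, Path.symm_range, Path.symm_range]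
    rintro x (((h|h)|h)|h)
    · obtain ⟨t, rfl⟩ := h; exact hp t
    · obtain ⟨t, rfl⟩ := h; exact hq t
    · obtain ⟨t, rfl⟩ := h; exact hp t
    · obtain ⟨t, rfl⟩ := h; exact hq t
  intro t
  exact hr ⟨t, rfl⟩

private lemma ext_mem {X : Type} [TopologicalSpace X] {a : X} (p : Path a a) (S : Set X)
    (hp : ∀ t, p t ∈ S) (t : ℝ) : p.extend t ∈ S := by
  have : p.extend t ∈ range p := by
    rw [← Path.extend_range]; exact ⟨t, rfl⟩
  obtain ⟨s, hs⟩ := this
  rw [← hs]; exact hp s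

private lemma TT_notQ (c r : ℂ) (h : r ∈ TT c) : r ∉ Q3 := by
  rintro ⟨h1, h2, h3⟩
  obtain ⟨_, _, _, h | h | h⟩ := h
  · rw [h] at h2; norm_num at h2
  · rw [h] at h1 h3; norm_num at h3
  · rw [h] at h1; norm_num at h1

private lemma TT_dist (c r q : ℂ) (h : r ∈ TT c) (hq : q ∈ Q3) : 1/2 ≤ ‖q - r‖ := by
  obtain ⟨h1, h2, h3⟩ := hq
  obtain ⟨_, _, _, h | h | h⟩ := h
  · have e := Complex.abs_im_le_norm (q - r)
    have e2 := abs_sub_abs_le_abs_sub r.im q.im
    rw [Complex.sub_im, abs_sub_comm] at e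
    linarith
  · have e := Complex.abs_re_le_norm (q - r)
    rw [Complex.sub_re] at e
    rcases h3 with h3 | h3
    · have e2 := abs_sub_abs_le_abs_sub r.re q.re
      rw [abs_sub_comm] at e
      linarith
    · have e2 := abs_sub_abs_le_abs_sub q.re r.re
      linarith
  · have e := Complex.abs_re_le_norm (q - r)
    have e2 := abs_sub_abs_le_abs_sub r.re q.re
    rw [Complex.sub_re, abs_sub_comm] at e
    linarith

private lemma q_dist (c q : ℂ) (hc : c = q1 ∨ c = q2) (hq : q ∈ Q3) :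
    3 ≤ ‖q - c‖ ∧ ‖q - c‖ < 11 := by
  obtain ⟨h1, h2, h3⟩ := hq
  have hcim : c.im = 0 := by
    rcases hc with h | h <;> rw [h] <;> simp [q1, q2]
  have hcre : |c.re| = 6 := by
    rcases hc with h | h <;> rw [h] <;> simp [q1, q2]
  constructor
  · have e := Complex.abs_re_le_norm (q - c)
    have e2 := abs_sub_abs_le_abs_sub c.re q.re
    rw [Complex.sub_re, abs_sub_comm] at e
    linarith
  · have e := Complex.norm_le_abs_re_add_abs_im (q - c)
    rw [Complex.sub_re, Complex.sub_im, hcim, sub_zero] at e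
    have e2 := abs_sub q.re c.re
    linarith

private noncomputable def cl (t : ℝ) : ℝ := max 0 (min 1 t)

private lemma cl_mem (t : ℝ) : cl t ∈ Icc (0:ℝ) 1 := by
  unfold cl
  exact ⟨le_max_left _ _, max_le zero_le_one (min_le_left _ _)⟩

private lemma cl_le (t : ℝ) (h : t ≤ 0) : cl t = 0 := by
  unfold cl
  exact max_eq_left ((min_le_right _ _).trans h)

private lemma cl_ge (t : ℝ) (h : 1 ≤ t) : cl t = 1 := by
  unfold cl
  rw [min_eq_left h]; norm_num

private lemma cl_of (t : ℝ) (h : t ∈ Icc (0:ℝ) 1) : cl t = t := by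
  unfold cl
  rw [min_eq_right h.2, max_eq_right h.1]

private lemma cl_cont : Continuous cl := by
  unfold cl; fun_prop

private lemma ext_cl {c : ℂ} (g : Path c c) (t : ℝ) : g.extend t = g.extend (cl t) := by
  rcases le_total t 0 with h | h
  · rw [cl_le t h, Path.extend_of_le_zero g h, Path.extend_zero]
  · rcases le_total 1 t with h' | h'
    · rw [cl_ge t h', Path.extend_of_one_le g h', Path.extend_one]
    · rw [cl_of t ⟨h, h'⟩]

private lemma core (h1 : StBB) (h6 : StLog) (c : ℂ) (hc : c = q1 ∨ c = q2) (p p' : Path c c)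
    (hp : ∀ t, p t ∈ TT c) (hp' : ∀ t, p' t ∈ TT c) :
    ∃ P : ℝ × ℂ × ℝ → ℂ, ContinuousOn P (univ ×ˢ (Q3 ×ˢ univ)) ∧
      (∀ t q u, t ≤ 0 → P (t, q, u) = 0) ∧ (∀ t q u, 1 ≤ t → P (t, q, u) = 0) ∧
      (∀ t q, P (t, q, 1) = 0) ∧
      (∀ t q, q ∈ Q3 → bb c ((cp p p').extend t) (q + P (t, q, 0)) = q) ∧
      (∀ t q u, q ∈ Q3 → u ∈ Icc (0:ℝ) 1 →
        1/4 ≤ ‖q + P (t, q, u) - c‖ ∧ ‖q + P (t, q, u) - c‖ < 11) := by
  classical
  obtain ⟨e, he, hE⟩ := h1 c
  have hcQ : c ∉ Q3 := by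
    intro h
    have := (q_dist c c hc h).1
    rw [sub_self, norm_zero] at this
    norm_num at this
  obtain ⟨lam, hl, hL⟩ := h6 c p p' Q3 e hcQ (fun t => ⟨(hp t).1, TT_notQ c _ (hp t)⟩)
    (fun t => ⟨(hp' t).1, TT_notQ c _ (hp' t)⟩) he
    (fun r hr q => ⟨(hE r hr q).1, (hE r hr q).2.1, (hE r hr q).2.2.2.2.2⟩)
  have hg : ∀ t, (cp p p').extend t ∈ TT c := ext_mem _ _ (cp_mem p p' _ hp hp')
  have hball : ∀ t, (cp p p').extend t ∈ Metric.closedBall c 8 := by
    intro t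
    rw [mem_closedBall_iff_norm]
    exact (hg t).1
  refine ⟨fun x => if x.2.1 ∈ Q3 then
    (x.2.1 - c) * (Complex.exp ((1 - (x.2.2 : ℂ)) * lam (cl x.1, x.2.1)) - 1) else 0,
    ?_, ?_, ?_, ?_, ?_, ?_⟩
  · have : ContinuousOn (fun x : ℝ × ℂ × ℝ => (x.2.1 - c) *
        (Complex.exp ((1 - (x.2.2 : ℂ)) * lam (cl x.1, x.2.1)) - 1)) (univ ×ˢ (Q3 ×ˢ univ)) := by
      have hlam : ContinuousOn (fun x : ℝ × ℂ × ℝ => lam (cl x.1, x.2.1))
          (univ ×ˢ (Q3 ×ˢ univ)) := by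
        refine hl.comp (f := fun x : ℝ × ℂ × ℝ => (cl x.1, x.2.1)) ?_ ?_
        · have := cl_cont
          fun_prop
        · rintro ⟨t, q, u⟩ ⟨_, hq, _⟩
          exact ⟨cl_mem t, hq⟩
      have hu : Continuous (fun x : ℝ × ℂ × ℝ => (1 - (x.2.2 : ℂ))) := by fun_prop
      have hq : Continuous (fun x : ℝ × ℂ × ℝ => (x.2.1 - c)) := by fun_prop
      exact hq.continuousOn.mul (((hu.continuousOn.mul hlam).cexp).sub continuousOn_const)
    refine this.congr ?_
    rintro ⟨t, q, u⟩ ⟨_, hq, _⟩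
    exact if_pos hq
  · intro t q u ht
    by_cases hq : q ∈ Q3
    · simp only [hq, if_true, cl_le t ht, (hL q hq).1, mul_zero, Complex.exp_zero, sub_self]
    · simp only [hq, if_false]
  · intro t q u ht
    by_cases hq : q ∈ Q3
    · simp only [hq, if_true, cl_ge t ht, (hL q hq).2.1, mul_zero, Complex.exp_zero, sub_self]
    · simp only [hq, if_false]
  · intro t q
    by_cases hq : q ∈ Q3
    · simp only [hq, if_true, Complex.ofReal_one, sub_self, zero_mul, Complex.exp_zero, mul_zero]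
    · simp only [hq, if_false]
  · intro t q hq
    have h := (hL q hq).2.2 (cl t) (cl_mem t)
    simp only [hq, if_true, Complex.ofReal_zero, sub_zero, one_mul]
    have h2 : q + (q - c) * (Complex.exp (lam (cl t, q)) - 1) = e ((cp p p').extend (cl t), q) := by
      rw [h]; ring
    rw [h2, ext_cl (cp p p') t]
    exact (hE _ (hball _) q).1
  · intro t q u hq hu
    have h := (hL q hq).2.2 (cl t) (cl_mem t)
    simp only [hq, if_true]
    have h2 : q + (q - c) * (Complex.exp ((1 - (u:ℂ)) * lam (cl t, q)) - 1) - c =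
      (q - c) * Complex.exp ((1 - (u:ℂ)) * lam (cl t, q)) := by ring
    rw [h2, norm_mul, Complex.norm_exp]
    have h3 : ((1 - (u:ℂ)) * lam (cl t, q)).re = (1 - u) * (lam (cl t, q)).re := by
      have : (1 - (u:ℂ)) = ((1 - u : ℝ) : ℂ) := by push_cast; ring
      rw [this, Complex.re_ofReal_mul]
    rw [h3]
    have hE' := hE _ (hball (cl t)) q
    have h4 : ‖e ((cp p p').extend (cl t), q) - c‖ = ‖q - c‖ * Real.exp (lam (cl t, q)).re := by
      rw [h, add_sub_cancel_left, norm_mul, Complex.norm_exp]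
    have hqd := q_dist c q hc hq
    have h5 := hE'.2.2.2.1 hqd.2
    have h6' := hE'.2.2.2.2.1
    have h7 := TT_dist c _ q (hg (cl t)) hq
    rw [h4] at h5 h6'
    set x := (lam (cl t, q)).re
    set a := ‖q - c‖
    have ha : 0 ≤ a := norm_nonneg _
    rcases le_total 0 x with hx | hx
    · have e1 : Real.exp ((1 - u) * x) ≤ Real.exp x := by
        apply Real.exp_le_exp.2
        nlinarith [hu.1, hu.2]
      have e2 : 1 ≤ Real.exp ((1 - u) * x) := by
        apply Real.one_le_exp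
        exact mul_nonneg (by linarith [hu.2]) hx
      have e3 := mul_le_mul_of_nonneg_left e1 ha
      have e4 := mul_le_mul_of_nonneg_left e2 ha
      constructor <;> linarith [hqd.1]
    · have e1 : Real.exp x ≤ Real.exp ((1 - u) * x) := by
        apply Real.exp_le_exp.2
        nlinarith [hu.1, hu.2]
      have e2 : Real.exp ((1 - u) * x) ≤ 1 := by
        apply Real.exp_le_one_iff.2
        exact mul_nonpos_of_nonneg_of_nonpos (by linarith [hu.2]) hx
      have e3 := mul_le_mul_of_nonneg_left e1 ha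
      have e4 := mul_le_mul_of_nonneg_left e2 ha
      constructor <;> linarith [hqd.2]

/-- points around the centres are in the image of the handlebody -/
private lemma inR (h3 : StRho) (c : ℂ) (hc : c = q1 ∨ c = q2) (s : ℝ) (w : ℂ) (hs : |s| < 5)
    (hw1 : 1/4 ≤ ‖w - c‖) (hw2 : ‖w - c‖ < 11) : (s, w) ∈ rho '' HH := by
  obtain ⟨_, _, hR, _⟩ := h3
  rw [hR]
  have hcim : c.im = 0 := by
    rcases hc with h | h <;> rw [h] <;> simp [q1, q2]
  have e1 := Complex.abs_re_le_norm (w - c)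
  have e2 := Complex.abs_im_le_norm (w - c)
  have e3 := Complex.norm_le_abs_re_add_abs_im (w - c)
  rw [Complex.sub_re] at e1 e3
  rw [Complex.sub_im, hcim, sub_zero] at e2 e3
  have hcre : c.re = -6 ∨ c.re = 6 := by
    rcases hc with h | h
    · left; rw [h]; simp [q1]
    · right; rw [h]; simp [q2]
  refine ⟨hs, ?_, ?_, ?_⟩
  · show |w.re| < 20
    rcases hcre with h | h <;> rw [h] at e1 <;> rw [abs_lt] <;> have := abs_le.1 e1 <;>
      constructor <;> linarith
  · show |w.im| < 20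
    linarith
  · rintro ⟨k1, k2, k3⟩
    simp only [ep] at k1 k2 k3
    rcases hcre with h | h
    · rw [h] at e1 e3
      have e1' := abs_le.1 (e1.trans hw2.le)
      have hn : w.re < 0 ∨ 0 ≤ w.re := lt_or_ge _ _
      rcases hn with hn | hn
      · rw [abs_of_neg hn] at k2 k3
        have : |w.re - -6| ≤ 1/20 := by rw [abs_le]; constructor <;> linarith
        linarith
      · rw [abs_of_nonneg hn] at k2 k3
        linarith [e1'.2]
    · rw [h] at e1 e3
      have e1' := abs_le.1 (e1.trans hw2.le)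
      have hn : w.re < 0 ∨ 0 ≤ w.re := lt_or_ge _ _
      rcases hn with hn | hn
      · rw [abs_of_neg hn] at k2 k3
        linarith [e1'.1]
      · rw [abs_of_nonneg hn] at k2 k3
        have : |w.re - 6| ≤ 1/20 := by rw [abs_le]; constructor <;> linarith
        linarith

private lemma inR2 (h3 : StRho) (p : E) (hp : p ∈ K0) (k : ℝ) (hk0 : 0 ≤ k) (hk1 : k ≤ 1) :
    k • p ∈ rho '' HH := by
  obtain ⟨_, _, hR, _⟩ := h3
  rw [hR]
  obtain ⟨a1, a2, a3, _⟩ := hp
  have key : ∀ x : ℝ, |k * x| ≤ |x| := by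
    intro x
    rw [abs_mul, abs_of_nonneg hk0]
    exact mul_le_of_le_one_left (abs_nonneg _) hk1
  have b1 : (k • p).1 = k * p.1 := rfl
  have b2 : (k • p).2.re = k * p.2.re := by simp
  have b3 : (k • p).2.im = k * p.2.im := by simp
  refine ⟨?_, ?_, ?_, ?_⟩
  · rw [b1]; linarith [key p.1]
  · rw [b2]; linarith [key p.2.re]
  · rw [b3]; linarith [key p.2.im]
  · rintro ⟨_, k2, _⟩
    rw [b2] at k2
    simp only [ep] at k2
    linarith [key p.2.re]

end NULL

open NULL Set Topology unitInterval in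
theorem pNull (h1 : StBB) (h2 : StGam) (h3 : StRho) (h4 : StBf) (h5 : StOO) (h6 : StLog) :
    StNull := by
  obtain ⟨g1, g2, g3, g4, _, _⟩ := h2
  obtain ⟨P1, c1, z1, z1', o1, b1, d1⟩ := core h1 h6 q1 (Or.inl rfl) _ _ g1 g2
  obtain ⟨P2, c2, z2, z2', o2, b2, d2⟩ := core h1 h6 q2 (Or.inr rfl)
    (cp (letter q2 (-3/2)) (letter q2 (3/2)))
    (cp (letter q2 (-3/2)) (cp (letter q2 (3/2)) (cp (letter q2 (-3/2)) (letter q2 (3/2)))))
    (cp_mem _ _ _ g3 g4) (cp_mem _ _ _ g3 (cp_mem _ _ _ g4 (cp_mem _ _ _ g3 g4)))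
  obtain ⟨⟨B, hB⟩, hBm, hBp, hBi⟩ := h4
  have hBc : Continuous Bf := hB ▸ B.continuous
  have hQ : ∀ p : E, p ∈ K0 → |p.1| < 3 → p.2 ∈ Q3 := by
    rintro p ⟨_, a2, a3, a4⟩ hs
    refine ⟨a2, a3, ?_⟩
    rcases a4 with h | h | h
    · exact absurd h (not_le.2 hs)
    · exact Or.inl h
    · exact Or.inr h
  let H : E × ℝ → E := fun x => (x.1.1, x.1.2 + P1 (x.1.1 + 2, x.1.2, x.2) +
    P2 (x.1.1 - 1, x.1.2, x.2))
  -- values
  have Hfar : ∀ (p : E) (u : ℝ), (|p.1| ≤ 1 ∨ 2 ≤ |p.1|) → H (p, u) = p := by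
    intro p u h
    have e1 : P1 (p.1 + 2, p.2, u) = 0 := by
      rcases h with h | h
      · exact z1' _ _ _ (by linarith [(abs_le.1 h).1])
      · rcases le_abs.1 h with h | h
        · exact z1' _ _ _ (by linarith)
        · exact z1 _ _ _ (by linarith)
    have e2 : P2 (p.1 - 1, p.2, u) = 0 := by
      rcases h with h | h
      · exact z2 _ _ _ (by linarith [(abs_le.1 h).2])
      · rcases le_abs.1 h with h | h
        · exact z2' _ _ _ (by linarith)
        · exact z2 _ _ _ (by linarith)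
    show (p.1, p.2 + P1 (p.1 + 2, p.2, u) + P2 (p.1 - 1, p.2, u)) = p
    rw [e1, e2, add_zero, add_zero]
  have Hneg : ∀ (p : E) (u : ℝ), p.1 ≤ 1 → H (p, u) = (p.1, p.2 + P1 (p.1 + 2, p.2, u)) := by
    intro p u h
    have e2 : P2 (p.1 - 1, p.2, u) = 0 := z2 _ _ _ (by linarith)
    show (p.1, p.2 + P1 (p.1 + 2, p.2, u) + P2 (p.1 - 1, p.2, u)) = _
    rw [e2, add_zero]
  have Hpos : ∀ (p : E) (u : ℝ), -1 ≤ p.1 → H (p, u) = (p.1, p.2 + P2 (p.1 - 1, p.2, u)) := by
    intro p u h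
    have e2 : P1 (p.1 + 2, p.2, u) = 0 := z1' _ _ _ (by linarith)
    show (p.1, p.2 + P1 (p.1 + 2, p.2, u) + P2 (p.1 - 1, p.2, u)) = _
    rw [e2, add_zero]
  have Hone : ∀ p : E, H (p, 1) = p := by
    intro p
    show (p.1, p.2 + P1 (p.1 + 2, p.2, 1) + P2 (p.1 - 1, p.2, 1)) = p
    rw [o1, o2, add_zero, add_zero]
  have HB : ∀ p : E, p ∈ K0 → Bf (H (p, 0)) = p := by
    intro p hp
    by_cases hs : |p.1| ≤ 1 ∨ 2 ≤ |p.1|
    · rw [Hfar p 0 hs]
      exact hBi p.1 p.2 hs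
    · push Not at hs
      have hq : p.2 ∈ Q3 := hQ p hp (by linarith [hs.2])
      rcases le_total p.1 0 with h | h
      · rw [Hneg p 0 (by linarith), hBm _ _ h]
        have := b1 (p.1 + 2) p.2 hq
        exact Prod.ext rfl this
      · rw [Hpos p 0 (by linarith), hBp _ _ h]
        have := b2 (p.1 - 1) p.2 hq
        exact Prod.ext rfl this
  have HR : ∀ p : E, p ∈ K0 → ∀ u ∈ Icc (0:ℝ) 1, H (p, u) ∈ rho '' HH := by
    intro p hp u hu
    by_cases hs : |p.1| ≤ 1 ∨ 2 ≤ |p.1|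
    · rw [Hfar p u hs]
      have := inR2 h3 p hp 1 zero_le_one le_rfl
      rwa [one_smul] at this
    · push Not at hs
      have hq : p.2 ∈ Q3 := hQ p hp (by linarith [hs.2])
      rcases le_total p.1 0 with h | h
      · rw [Hneg p u (by linarith)]
        obtain ⟨k1, k2⟩ := d1 (p.1 + 2) p.2 u hq hu
        exact inR h3 q1 (Or.inl rfl) _ _ (by linarith [hs.2]) k1 k2
      · rw [Hpos p u (by linarith)]
        obtain ⟨k1, k2⟩ := d2 (p.1 - 1) p.2 u hq hu
        exact inR h3 q2 (Or.inr rfl) _ _ (by linarith [hs.2]) k1 k2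
  have hK0 : IsClosed K0 := h5.2.2.2.2.2.2.1.isClosed
  have Hcont : ContinuousOn H (K0 ×ˢ univ) := by
    have hA : ContinuousOn H ((K0 ∩ {p | |p.1| ≤ 5/2}) ×ˢ univ) := by
      have e1 : ContinuousOn (fun x : E × ℝ => P1 (x.1.1 + 2, x.1.2, x.2))
          ((K0 ∩ {p | |p.1| ≤ 5/2}) ×ˢ univ) := by
        refine c1.comp (f := fun x : E × ℝ => (x.1.1 + 2, x.1.2, x.2)) (by fun_prop) ?_
        rintro ⟨p, u⟩ ⟨⟨hp, hs⟩, _⟩
        exact ⟨trivial, hQ p hp (lt_of_le_of_lt hs (by norm_num)), trivial⟩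
      have e2 : ContinuousOn (fun x : E × ℝ => P2 (x.1.1 - 1, x.1.2, x.2))
          ((K0 ∩ {p | |p.1| ≤ 5/2}) ×ˢ univ) := by
        refine c2.comp (f := fun x : E × ℝ => (x.1.1 - 1, x.1.2, x.2)) (by fun_prop) ?_
        rintro ⟨p, u⟩ ⟨⟨hp, hs⟩, _⟩
        exact ⟨trivial, hQ p hp (lt_of_le_of_lt hs (by norm_num)), trivial⟩
      have e3 : Continuous (fun x : E × ℝ => x.1.1) := by fun_prop
      have e4 : Continuous (fun x : E × ℝ => x.1.2) := by fun_prop
      exact e3.continuousOn.prodMk ((e4.continuousOn.add e1).add e2)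
    have hBB : ContinuousOn H ((K0 ∩ {p | 2 ≤ |p.1|}) ×ˢ univ) := by
      refine (continuous_fst.continuousOn).congr ?_
      rintro ⟨p, u⟩ ⟨⟨hp, hs⟩, _⟩
      exact Hfar p u (Or.inr hs)
    have hu := hA.union_of_isClosed hBB
      ((hK0.inter (isClosed_le (by fun_prop) continuous_const)).prod isClosed_univ)
      ((hK0.inter (isClosed_le continuous_const (by fun_prop))).prod isClosed_univ)
    refine hu.mono ?_
    rintro ⟨p, u⟩ ⟨hp, _⟩
    rcases le_total (|p.1|) (5/2) with h | h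
    · exact Or.inl ⟨⟨hp, h⟩, trivial⟩
    · exact Or.inr ⟨⟨hp, le_trans (by norm_num) h⟩, trivial⟩
  have H0 : ∀ u, H (0, u) = 0 := fun u => Hfar 0 u (Or.inl (by simp))
  have hB0 : Bf 0 = 0 := hBi 0 0 (Or.inl (by simp))
  have hGim : ∀ x : E, x ∈ rho '' HH → Bf x ∈ Gf '' HH := by
    rintro x ⟨y, hy, rfl⟩
    exact ⟨y, hy, rfl⟩
  refine ⟨fun x => Bf ((1 - max 0 (2 * x.2 - 1)) • H (x.1, min 1 (2 * x.2))), ?_, ?_, ?_, ?_⟩
  · refine hBc.comp_continuousOn ?_
    have e1 : Continuous (fun x : E × ℝ => (1 - max 0 (2 * x.2 - 1))) := by fun_prop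
    refine e1.continuousOn.smul ?_
    refine Hcont.comp (f := fun x : E × ℝ => (x.1, min 1 (2 * x.2))) (by fun_prop) ?_
    rintro ⟨p, t⟩ ⟨hp, _⟩
    exact ⟨hp, trivial⟩
  · intro p hp
    constructor
    · have e1 : (1 - max 0 (2 * (0:ℝ) - 1)) = 1 := by norm_num
      have e2 : min 1 (2 * (0:ℝ)) = 0 := by norm_num
      show Bf ((1 - max 0 (2 * (0:ℝ) - 1)) • H (p, min 1 (2 * (0:ℝ)))) = p
      rw [e1, e2, one_smul]
      exact HB p hp
    · have e1 : (1 - max 0 (2 * (1:ℝ) - 1)) = 0 := by norm_num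
      show Bf ((1 - max 0 (2 * (1:ℝ) - 1)) • H (p, min 1 (2 * (1:ℝ)))) = 0
      rw [e1, zero_smul, hB0]
  · intro t _
    show Bf ((1 - max 0 (2 * t - 1)) • H (0, min 1 (2 * t))) = 0
    rw [H0, smul_zero, hB0]
  · intro p hp t ht
    show Bf ((1 - max 0 (2 * t - 1)) • H (p, min 1 (2 * t))) ∈ Gf '' HH
    apply hGim
    rcases le_total (2 * t) 1 with h | h
    · have e1 : (1 - max 0 (2 * t - 1)) = 1 := by
        rw [max_eq_left (by linarith)]; ring
      rw [e1, one_smul, min_eq_right h]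
      exact HR p hp _ ⟨by linarith [ht.1], h⟩
    · rw [min_eq_left h, Hone, max_eq_right (by linarith)]
      exact inR2 h3 p hp _ (by linarith [ht.2]) (by linarith)

end CM
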