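import Pool.Agent.Helper59.CM.StGeo

/-!
Project CM (MP_e9500f_gt): module OO (helper76).  Position of `K0` and its neighbourhood.
-/

set_option autoImplicit false

namespace CM

open Set Topology unitInterval

namespace OO

theorem dist_TT {c r q : ℂ} (hr : r ∈ TT c) (h1 : |q.re| < 7/2) (h2 : |q.im| < 3/2)
    (h3 : |q.re| < 5/4 ∨ 7/4 < |q.re|) : 1/4 ≤ ‖q - r‖ := by
  obtain ⟨-, -, -, h⟩ := hr
  have ha : |q.re - r.re| ≤ ‖q - r‖ := by
    have := Complex.abs_re_le_norm (q - r)
    rwa [Complex.sub_re] at this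
  have hb : |q.im - r.im| ≤ ‖q - r‖ := by
    have := Complex.abs_im_le_norm (q - r)
    rwa [Complex.sub_im] at this
  rcases h with h | h | h
  · have : |r.im| ≤ |q.im| + |q.im - r.im| := by
      have := abs_sub_abs_le_abs_sub r.im q.im
      rw [abs_sub_comm r.im q.im] at this
      linarith
    linarith
  · rcases h3 with h3 | h3
    · have : |r.re| ≤ |q.re| + |q.re - r.re| := by
        have := abs_sub_abs_le_abs_sub r.re q.re
        rw [abs_sub_comm r.re q.re] at this
        linarith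
      linarith
    · have := abs_sub_abs_le_abs_sub q.re r.re
      linarith
  · have : |r.re| ≤ |q.re| + |q.re - r.re| := by
      have := abs_sub_abs_le_abs_sub r.re q.re
      rw [abs_sub_comm r.re q.re] at this
      linarith
    linarith

theorem core (h1 : StBB) (c : ℂ) (hc : c = 6 ∨ c = -6) (r : ℂ) (hr : r ∈ TT c) (q : ℂ)
    (q1 : |q.re| < 7/2) (q2 : |q.im| < 3/2) (q3 : |q.re| < 5/4 ∨ 7/4 < |q.re|) :
    ∃ q' : ℂ, bb c r q' = q ∧ |q'.re| < 20 ∧ |q'.im| < 20 ∧
      ¬ (|q'.im| ≤ ep ∧ 6 - ep ≤ |q'.re| ∧ |q'.re| ≤ 6 + ep) := by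
  obtain ⟨e, -, he⟩ := h1 c
  have hrb : r ∈ Metric.closedBall c 8 := by
    rw [Metric.mem_closedBall, dist_eq_norm]; exact hr.1
  obtain ⟨e1, -, -, e4, e5, -⟩ := he r hrb q
  have hcre : |c.re| = 6 ∧ c.im = 0 := by
    rcases hc with rfl | rfl
    · norm_num
    · norm_num
  have hqc : ‖q - c‖ < 11 := by
    have := Complex.norm_le_abs_re_add_abs_im (q - c)
    rw [Complex.sub_re, Complex.sub_im, hcre.2, sub_zero] at this
    have h' := abs_sub q.re c.re
    rw [hcre.1] at h'
    linarith
  have hlow := dist_TT hr q1 q2 q3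
  have hq' := e4 hqc
  set q' := e (r, q) with hq'def
  have ha : |q'.re - c.re| ≤ ‖q' - c‖ := by
    have := Complex.abs_re_le_norm (q' - c)
    rwa [Complex.sub_re] at this
  have hb : |q'.im| ≤ ‖q' - c‖ := by
    have := Complex.abs_im_le_norm (q' - c)
    rwa [Complex.sub_im, hcre.2, sub_zero] at this
  refine ⟨q', e1, ?_, ?_, ?_⟩
  · have h' := abs_sub_abs_le_abs_sub q'.re c.re
    rw [hcre.1] at h'
    linarith
  · linarith
  · rintro ⟨k1, k2, k3⟩
    have hep : ep = 1 / 20 := rfl
    rw [hep] at k1 k2 k3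
    have hn := Complex.norm_le_abs_re_add_abs_im (q' - c)
    rw [Complex.sub_re, Complex.sub_im, hcre.2, sub_zero] at hn
    rcases hc with hc | hc
    · have hcr : c.re = 6 := by rw [hc]; norm_num
      rw [hcr] at ha hn
      rcases abs_cases q'.re with ⟨k, -⟩ | ⟨k, -⟩
      · have : |q'.re - 6| ≤ 1/20 := by rw [abs_le]; constructor <;> linarith
        linarith
      · have := neg_abs_le (q'.re - 6)
        linarith
    · have hcr : c.re = -6 := by rw [hc]; norm_num
      rw [hcr] at ha hn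
      rcases abs_cases q'.re with ⟨k, -⟩ | ⟨k, -⟩
      · have := le_abs_self (q'.re - -6)
        linarith
      · have : |q'.re - -6| ≤ 1/20 := by rw [abs_le]; constructor <;> linarith
        linarith

theorem isOpen_HH : IsOpen HH := by
  have c1 : Continuous fun p : E => |p.1| := by fun_prop
  have c2 : Continuous fun p : E => |p.2.re| :=
    (Complex.continuous_re.comp continuous_snd).abs
  have c3 : Continuous fun p : E => |p.2.im| :=
    (Complex.continuous_im.comp continuous_snd).abs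
  exact (isOpen_lt c1 continuous_const).inter ((isOpen_lt c2 continuous_const).inter
    ((isOpen_lt c3 continuous_const).inter ((isOpen_lt continuous_const c1).union
      ((isOpen_lt c2 continuous_const).union (isOpen_lt continuous_const c2)))))

theorem isOpen_OO : IsOpen CM.OO := by
  have c1 : Continuous fun p : E => |p.1| := by fun_prop
  have c2 : Continuous fun p : E => |p.2.re| :=
    (Complex.continuous_re.comp continuous_snd).abs
  have c3 : Continuous fun p : E => |p.2.im| :=
    (Complex.continuous_im.comp continuous_snd).abs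
  exact (isOpen_lt c1 continuous_const).inter ((isOpen_lt c2 continuous_const).inter
    ((isOpen_lt c3 continuous_const).inter ((isOpen_lt continuous_const c1).union
      ((isOpen_lt c2 continuous_const).union (isOpen_lt continuous_const c2)))))

theorem isClosed_K0 : IsClosed K0 := by
  have c1 : Continuous fun p : E => |p.1| := by fun_prop
  have c2 : Continuous fun p : E => |p.2.re| :=
    (Complex.continuous_re.comp continuous_snd).abs
  have c3 : Continuous fun p : E => |p.2.im| :=
    (Complex.continuous_im.comp continuous_snd).abs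
  exact (isClosed_le c1 continuous_const).inter ((isClosed_le c2 continuous_const).inter
    ((isClosed_le c3 continuous_const).inter ((isClosed_le continuous_const c1).union
      ((isClosed_le c2 continuous_const).union (isClosed_le continuous_const c2)))))

theorem isCompact_K0 : IsCompact K0 := by
  apply Metric.isCompact_of_isClosed_isBounded isClosed_K0
  apply (Metric.isBounded_closedBall (x := (0 : E)) (r := 4)).subset
  rintro ⟨s, q⟩ ⟨h1, h2, h3, -⟩
  have h1' : |s| ≤ 4 := h1
  have h2' : |q.re| ≤ 3 := h2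
  have h3' : |q.im| ≤ 1 := h3
  rw [mem_closedBall_zero_iff, Prod.norm_mk, max_le_iff, Real.norm_eq_abs]
  refine ⟨h1', ?_⟩
  have := Complex.norm_le_abs_re_add_abs_im q
  linarith

theorem HH_K0 : HH ⊆ K0 := by
  rintro p ⟨h1, h2, h3, h4⟩
  refine ⟨h1.le, h2.le, h3.le, ?_⟩
  rcases h4 with h | h | h
  · exact Or.inl h.le
  · exact Or.inr (Or.inl h.le)
  · exact Or.inr (Or.inr h.le)

theorem K0_OO : K0 ⊆ CM.OO := by
  rintro p ⟨h1, h2, h3, h4⟩
  refine ⟨by linarith, by linarith, by linarith, ?_⟩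
  rcases h4 with h | h | h
  · exact Or.inl (by linarith)
  · exact Or.inr (Or.inl (by linarith))
  · exact Or.inr (Or.inr (by linarith))

theorem zero_HH : (0 : E) ∈ HH := by
  refine ⟨?_, ?_, ?_, ?_⟩
  · show |(0 : ℝ)| < 4
    norm_num
  · show |(0 : ℂ).re| < 3
    norm_num
  · show |(0 : ℂ).im| < 1
    norm_num
  · right; left
    show |(0 : ℂ).re| < 1
    norm_num

end OO

open OO in
/-- GEO5. -/
theorem pOO (h1 : StBB) (h2 : StGam) (h3 : StRho) (h4 : StBf) : StOO := by
  obtain ⟨R, hR, hRH, hf1, hf2, -⟩ := h3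
  obtain ⟨-, b2, b3, b4⟩ := h4
  obtain ⟨-, -, -, -, g1, g2⟩ := h2
  have hGB : Gf '' HH = Bf '' (rho '' HH) := by
    rw [← image_comp]; rfl
  have hid : ∀ (s : ℝ) (q : ℂ), (|s| ≤ 1 ∨ 2 ≤ |s|) → |s| < 5 → |q.re| < 5 → |q.im| < 20 →
      ((s, q) : E) ∈ Gf '' HH := by
    intro s q hs hs5 hq1 hq2
    rw [hGB]
    refine ⟨(s, q), ?_, b4 s q hs⟩
    rw [hRH]
    refine ⟨hs5, by show |q.re| < 20; linarith, hq2, ?_⟩
    rintro ⟨-, k, -⟩
    have k' : 6 - ep ≤ |q.re| := k
    have hep : ep = 1 / 20 := rfl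
    rw [hep] at k'
    linarith
  refine ⟨K0_OO, ?_, ?_, ?_, HH_K0, zero_HH, isCompact_K0, isOpen_HH, isOpen_OO⟩
  · rintro ⟨s, q⟩ ⟨k1, k2, k3, k4⟩
    have k1' : |s| < 9/2 := k1
    have k2' : |q.re| < 7/2 := k2
    have k3' : |q.im| < 3/2 := k3
    have k4' : 5/2 < |s| ∨ |q.re| < 5/4 ∨ 7/4 < |q.re| := k4
    by_cases hs : |s| ≤ 1 ∨ 2 ≤ |s|
    · exact hid s q hs (by linarith) (by linarith) (by linarith)
    · rw [not_or, not_le, not_le] at hs
      obtain ⟨hs1, hs2⟩ := hs
      have k5 : |q.re| < 5/4 ∨ 7/4 < |q.re| := by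
        rcases k4' with h | h
        · exfalso; linarith
        · exact h
      rw [hGB]
      rcases le_total s 0 with h0 | h0
      · have hr : gam1.extend (s + 2) ∈ TT q1 := by
          rw [Path.extend]
          exact g1 _
        obtain ⟨q', e1, e2, e3, e4⟩ := core h1 q1 (Or.inr rfl) _ hr q k2' k3' k5
        refine ⟨(s, q'), ?_, ?_⟩
        · rw [hRH]
          exact ⟨by show |s| < 5; linarith, e2, e3, e4⟩
        · rw [b2 s q' h0, e1]
      · have hr : gam2.extend (s - 1) ∈ TT q2 := by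
          rw [Path.extend]
          exact g2 _
        obtain ⟨q', e1, e2, e3, e4⟩ := core h1 q2 (Or.inl rfl) _ hr q k2' k3' k5
        refine ⟨(s, q'), ?_, ?_⟩
        · rw [hRH]
          exact ⟨by show |s| < 5; linarith, e2, e3, e4⟩
        · rw [b3 s q' h0, e1]
  · rintro ⟨s, q⟩ ⟨k1, k2, k3⟩
    have k1' : |s| < 1 := k1
    have k2' : |q.re| < 5 := k2
    have k3' : |q.im| < 5 := k3
    exact hid s q (Or.inl k1'.le) (by linarith) k2' (by linarith)
  · show Bf (rho 0) = 0
    have hr0 : rho 0 = (0, 0) := by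
      show ((-5 * (0 : ℂ).im, ⟨f2 (0 : ℂ).re, f1 (0 : ℝ)⟩) : E) = (0, 0)
      have e1 : (0 : ℂ).im = 0 := rfl
      have e2 : (0 : ℂ).re = 0 := rfl
      rw [e1, e2, hf1, hf2, mul_zero]
      rfl
    rw [hr0, b4 0 0 (Or.inl (by norm_num))]
    rfl

end CM
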