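import Pool.Agent.Helper59.CM.StMain

set_option autoImplicit false

namespace CM

open Set Topology unitInterval

namespace OPEN

theorem jn_preconnected {X : Type} [TopologicalSpace X] {S : Set X} (h : Jn S) :
    IsPreconnected S := by
  rcases S.eq_empty_or_nonempty with h0 | ⟨x, hx⟩
  · rw [h0]; exact isPreconnected_empty
  · have : IsPathConnected S := ⟨x, hx, fun {y} hy => h x hx y hy⟩
    exact this.isConnected.isPreconnected

/-- isolated points of the fibre -/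
theorem isolate {X : Type} [TopologicalSpace X] {f : X → E3} {x : X}
    (h : DiscreteTopology ↥(f ⁻¹' {f x})) : ∃ U : Set X, IsOpen U ∧ x ∈ U ∧
      ∀ z ∈ U, f z = f x → z = x := by
  have h1 : IsOpen ({⟨x, rfl⟩} : Set ↥(f ⁻¹' {f x})) := isOpen_discrete _
  obtain ⟨U, hU, hU'⟩ := isOpen_induced_iff.mp h1
  refine ⟨U, hU, ?_, fun z hz hfz => ?_⟩
  · have : (⟨x, rfl⟩ : ↥(f ⁻¹' {f x})) ∈ Subtype.val ⁻¹' U := by rw [hU']; rfl
    exact this
  · have : (⟨z, hfz⟩ : ↥(f ⁻¹' {f x})) ∈ Subtype.val ⁻¹' U := hz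
    rw [hU'] at this
    exact congrArg Subtype.val this

end OPEN

theorem pOpen (h : StBall) : StOpen := by
  intro X _ _ _ f B hf hd hB hL hcov hint
  rw [isOpenMap_iff_nhds_le]
  intro x
  rw [Filter.le_map_iff]
  intro N hN
  obtain ⟨U, hU, hxU, hUx⟩ := OPEN.isolate (hd (f x))
  obtain ⟨K, hK, hKN, hKc⟩ := local_compact_nhds (Filter.inter_mem hN (hU.mem_nhds hxU))
  set W := interior K with hW
  have hxW : x ∈ W := mem_interior_iff_mem_nhds.mpr hK
  have hWK : W ⊆ K := interior_subset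
  have hWo : IsOpen W := isOpen_interior
  -- compact boundary
  have hD : IsCompact (K \ W) := hKc.diff hWo
  have hfD : IsClosed (f '' (K \ W)) := (hD.image hf).isClosed
  have hb : f x ∉ f '' (K \ W) := by
    rintro ⟨z, hz, hfz⟩
    have := hUx z (hKN hz.1).2 hfz
    exact hz.2 (this ▸ hxW)
  obtain ⟨r, hr, hrV⟩ := Metric.isOpen_iff.mp hfD.isOpen_compl (f x) hb
  obtain ⟨L, hL'⟩ := hL (‖f x‖ + r)
  have hcover : B ∩ Metric.ball (f x) r ⊆ ⋃ l ∈ L, segment ℝ l.1 l.2 := by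
    intro y hy
    apply hL'
    refine ⟨hy.1, ?_⟩
    rw [mem_closedBall_zero_iff]
    have h1 : ‖y - f x‖ < r := by rw [← dist_eq_norm]; exact hy.2
    have h2 : ‖y‖ ≤ ‖y - f x‖ + ‖f x‖ := by simpa using norm_add_le (y - f x) (f x)
    linarith
  obtain ⟨hJ, hcl⟩ := h B L (f x) r hB hcover
  set V := Metric.ball (f x) r with hV
  have hVo : IsOpen V := Metric.isOpen_ball
  have hxV : f x ∈ V := Metric.mem_ball_self hr
  set S := f '' (W ∩ f ⁻¹' (V \ B)) with hS
  have hSo : IsOpen S := by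
    rw [isOpen_iff_mem_nhds]
    rintro y ⟨z, ⟨hzW, hzV⟩, rfl⟩
    have hloc := hcov.isLocalHomeomorphOn
    have hz : z ∈ f ⁻¹' Bᶜ := hzV.2
    rw [← hloc.map_nhds_eq hz]
    refine Filter.image_mem_map ?_
    exact (hWo.inter ((hVo.sdiff hB).preimage hf)).mem_nhds ⟨hzW, hzV⟩
  have hSsub : S ⊆ V \ B := by
    rintro y ⟨z, ⟨_, hzV⟩, rfl⟩; exact hzV
  have hSne : ((V \ B) ∩ S).Nonempty := by
    by_contra hne
    have hsub : W ∩ f ⁻¹' V ⊆ f ⁻¹' B := by
      intro z hz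
      by_contra hzB
      apply hne
      have hz' : f z ∈ S := ⟨z, ⟨hz.1, ⟨hz.2, hzB⟩⟩, rfl⟩
      exact ⟨f z, hSsub hz', hz'⟩
    have : x ∈ interior (f ⁻¹' B) :=
      mem_interior.mpr ⟨_, hsub, hWo.inter (hVo.preimage hf), hxW, hxV⟩
    rw [hint] at this
    exact this
  have hfK : IsClosed (f '' K) := (hKc.image hf).isClosed
  have hScl : closure S ∩ (V \ B) ⊆ S := by
    rintro y ⟨hy, hyV⟩
    have h1 : y ∈ f '' K :=
      hfK.closure_subset_iff.mpr (image_mono (inter_subset_left.trans hWK)) hy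
    obtain ⟨z, hz, rfl⟩ := h1
    by_cases hzW : z ∈ W
    · exact ⟨z, ⟨hzW, hyV⟩, rfl⟩
    · exact absurd ⟨z, ⟨hz, hzW⟩, rfl⟩ (hrV hyV.1)
  have hVS : V \ B ⊆ S :=
    (OPEN.jn_preconnected hJ).subset_of_closure_inter_subset hSo hSne hScl
  have hVK : V ⊆ f '' K := by
    refine hcl.trans (hfK.closure_subset_iff.mpr (hVS.trans ?_))
    exact image_mono (inter_subset_left.trans hWK)
  refine Filter.mem_of_superset (hVo.mem_nhds hxV) (hVK.trans (image_mono ?_))
  exact fun z hz => (hKN hz).1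

end CM
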