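import Pool.Agent.Helper59.CM.StGeo

set_option autoImplicit false

namespace CM

namespace PHI0

open Set Topology unitInterval

theorem K0_closed : IsClosed K0 := by
  have c1 : Continuous (fun p : E => |p.1|) := continuous_fst.abs
  have c2 : Continuous (fun p : E => |p.2.re|) := (Complex.continuous_re.comp continuous_snd).abs
  have c3 : Continuous (fun p : E => |p.2.im|) := (Complex.continuous_im.comp continuous_snd).abs
  exact (isClosed_le c1 continuous_const).inter ((isClosed_le c2 continuous_const).inter
    ((isClosed_le c3 continuous_const).inter ((isClosed_le continuous_const c1).union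
      ((isClosed_le c2 continuous_const).union (isClosed_le continuous_const c2)))))

def R1 : Set E := {p | |p.1| < 3 ∧ |p.2.im| < 1 ∧ -2 < p.2.re ∧ p.2.re < -1}
def R2 : Set E := {p | |p.1| < 3 ∧ |p.2.im| < 1 ∧ 1 < p.2.re ∧ p.2.re < 2}

theorem R1_open : IsOpen R1 := by
  have c1 : Continuous (fun p : E => |p.1|) := continuous_fst.abs
  have c2 : Continuous (fun p : E => p.2.re) := Complex.continuous_re.comp continuous_snd
  have c3 : Continuous (fun p : E => |p.2.im|) := (Complex.continuous_im.comp continuous_snd).abs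
  exact (isOpen_lt c1 continuous_const).inter ((isOpen_lt c3 continuous_const).inter
    ((isOpen_lt continuous_const c2).inter (isOpen_lt c2 continuous_const)))

theorem R2_open : IsOpen R2 := by
  have c1 : Continuous (fun p : E => |p.1|) := continuous_fst.abs
  have c2 : Continuous (fun p : E => p.2.re) := Complex.continuous_re.comp continuous_snd
  have c3 : Continuous (fun p : E => |p.2.im|) := (Complex.continuous_im.comp continuous_snd).abs
  exact (isOpen_lt c1 continuous_const).inter ((isOpen_lt c3 continuous_const).inter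
    ((isOpen_lt continuous_const c2).inter (isOpen_lt c2 continuous_const)))

theorem phim1 {p : E} (h : p ∈ R1) : phim p = xx⁻¹ := by
  unfold phim; exact if_pos h

theorem phim2 {p : E} (h : p ∈ R2) : phim p = yy⁻¹ := by
  unfold phim
  rw [if_neg, if_pos]
  · exact h
  · rintro ⟨_, _, _, h'⟩
    linarith [h.2.2.1]

theorem phim3 {p : E} (h1 : p ∉ R1) (h2 : p ∉ R2) : phim p = 1 := by
  unfold phim
  rw [if_neg, if_neg]
  · exact h2
  · exact h1

theorem phim_loc {x : E} (hx : x ∉ K0) (hz : |x.2.im| < 1) : ∀ᶠ y in 𝓝 x, phim y = phim x := by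
  by_cases h1 : x ∈ R1
  · filter_upwards [R1_open.mem_nhds h1] with y hy
    rw [phim1 hy, phim1 h1]
  by_cases h2 : x ∈ R2
  · filter_upwards [R2_open.mem_nhds h2] with y hy
    rw [phim2 hy, phim2 h2]
  have c1 : Continuous (fun p : E => |p.1|) := continuous_fst.abs
  have c2 : Continuous (fun p : E => |p.2.re|) := (Complex.continuous_re.comp continuous_snd).abs
  have h3 : 4 < |x.1| ∨ 3 < |x.2.re| := by
    by_contra hcon
    push Not at hcon
    apply hx
    refine ⟨hcon.1, hcon.2, hz.le, ?_⟩
    by_contra hc
    push Not at hc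
    obtain ⟨k1, k2, k3⟩ := hc
    rcases lt_abs.1 k2 with k | k
    · apply h2
      exact ⟨k1, hz, k, (abs_lt.1 k3).2⟩
    · apply h1
      exact ⟨k1, hz, (abs_lt.1 k3).1, by linarith⟩
  have h4 : ∀ᶠ y in 𝓝 x, 4 < |y.1| ∨ 3 < |y.2.re| := by
    rcases h3 with h3 | h3
    · filter_upwards [(isOpen_lt continuous_const c1).mem_nhds h3] with y hy
      exact Or.inl hy
    · filter_upwards [(isOpen_lt continuous_const c2).mem_nhds h3] with y hy
      exact Or.inr hy
  filter_upwards [h4] with y hy
  rw [phim3 h1 h2]
  apply phim3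
  · rintro ⟨k1, _, k2, k3⟩
    rcases hy with h | h
    · linarith
    · rcases lt_abs.1 h with h | h <;> linarith
  · rintro ⟨k1, _, k2, k3⟩
    rcases hy with h | h
    · linarith
    · rcases lt_abs.1 h with h | h <;> linarith

end PHI0

open PHI0 Set Topology unitInterval in
theorem pPhi0 (h : StPot) : StPhi0 := by
  have c3 : Continuous (fun p : E => p.2.im) := Complex.continuous_im.comp continuous_snd
  set O : Bool → Set E := fun b => if b then K0ᶜ ∩ {p : E | -1 < p.2.im} else
    K0ᶜ ∩ {p : E | p.2.im < 1} with hO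
  set φ : Bool → E → F2 := fun b => if b then fun _ => 1 else phim with hφ
  have hOt : O true = K0ᶜ ∩ {p : E | -1 < p.2.im} := rfl
  have hOf : O false = K0ᶜ ∩ {p : E | p.2.im < 1} := rfl
  have hφt : φ true = fun _ => 1 := rfl
  have hφf : φ false = phim := rfl
  obtain ⟨F, hF, hFp⟩ := h E F2 Bool O φ (by
    intro i
    cases i
    · rw [hOf]
      exact K0_closed.isOpen_compl.inter (isOpen_lt c3 continuous_const)
    · rw [hOt]
      exact K0_closed.isOpen_compl.inter (isOpen_lt continuous_const c3)) (by
    intro i j x hx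
    cases i <;> cases j
    · exact Filter.Eventually.of_forall (fun y => by simp)
    · rw [hOt, hOf] at hx
      have := phim_loc hx.1.1 (abs_lt.2 ⟨hx.2.2, hx.1.2⟩)
      filter_upwards [this] with y hy
      rw [hφt, hφf, hy]
    · rw [hOt, hOf] at hx
      have := phim_loc hx.1.1 (abs_lt.2 ⟨hx.1.2, hx.2.2⟩)
      filter_upwards [this] with y hy
      rw [hφt, hφf, hy]
    · exact Filter.Eventually.of_forall (fun y => by simp))
  refine ⟨F, ?_, ?_, ?_⟩
  · refine hF.mono ?_
    intro p hp
    by_cases hz : p.2.im < 1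
    · exact mem_iUnion.2 ⟨false, hp, hz⟩
    · exact mem_iUnion.2 ⟨true, hp, by simp only [mem_setOf_eq]; push Not at hz; linarith⟩
  · intro a b p hp
    have := hFp true a b p (fun t => ⟨(hp t).1, (hp t).2⟩)
    rw [this, hφt]
    simp
  · intro a b p hp
    exact hFp false a b p (fun t => ⟨(hp t).1, (hp t).2⟩)

end CM
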