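import Pool.Agent.Helper59.CM.StGeo

/-!
Project CM (MP_e9500f_gt), module PHI1: in the slab `|s| < 3` the functor is planar.
-/

set_option autoImplicit false

namespace CM

open Set Topology unitInterval Complex

namespace PHI1

theorem mem_SL_im {q : ℂ} (h : 1 < |q.im|) : q ∈ SL := fun h' => absurd h'.1 (not_le.mpr h)

theorem mem_SL_re {q : ℂ} (h : 3 < |q.re|) : q ∈ SL := by
  rintro ⟨_, h' | h'⟩ <;> linarith [h']
  
theorem mem_SL_gap {q : ℂ} (h : 1 < |q.re|) (h2 : |q.re| < 2) : q ∈ SL := by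
  rintro ⟨_, h' | h'⟩
  · linarith
  · linarith [h'.1]

theorem seg_re (a b : ℂ) (t : I) : (Path.segment a b t).re = a.re + t * (b.re - a.re) := by
  rw [Path.segment_apply, AffineMap.lineMap_apply]
  simp
  ring

theorem seg_im (a b : ℂ) (t : I) : (Path.segment a b t).im = a.im + t * (b.im - a.im) := by
  rw [Path.segment_apply, AffineMap.lineMap_apply]
  simp
  ring

/-- the embedded point avoids `K0` -/
theorem emb_mem {s : ℝ} {q : ℂ} (hs : |s| < 3) (hq : q ∈ SL) : ((s, q) : E) ∈ K0ᶜ := by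
  rintro ⟨_, h2, h3, h4⟩
  apply hq
  refine ⟨h3, ?_⟩
  rcases h4 with h4 | h4 | h4
  · exact absurd h4 (not_le.mpr hs)
  · exact Or.inl h4
  · right
    exact ⟨h4, h2⟩

theorem phim_slab {s : ℝ} (q : ℂ) (hs : |s| < 3) : phim (s, q) = phim (0, q) := by
  have h0 : |(0:ℝ)| < 3 := by norm_num
  simp only [phim, hs, h0]

theorem phim_far {q : ℂ} (h : 3 < |q.re|) : phim (0, q) = 1 := by
  have h1 : ¬ (-2 < q.re ∧ q.re < -1) := by
    rintro ⟨h1, h2⟩; rw [abs_of_neg (by linarith)] at h; linarith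
  have h2 : ¬ (1 < q.re ∧ q.re < 2) := by
    rintro ⟨h1, h2⟩; rw [abs_of_pos (by linarith)] at h; linarith
  simp only [phim]
  rw [if_neg (fun h => h1 h.2.2), if_neg (fun h => h2 h.2.2)]

theorem phim_im {q : ℂ} (h : 1 ≤ |q.im|) : phim (0, q) = 1 := by
  have h1 : ¬ (|q.im| < 1) := not_lt.mpr h
  simp only [phim]
  rw [if_neg (fun h => h1 h.2.1), if_neg (fun h => h1 h.2.1)]

variable {Φ' : PFun ℂ F2}

theorem vert (hag : StAG) (hPF : IsPF SL Φ')
    (hU : ∀ (a b : ℂ) (p : Path a b), (∀ t, p t ∈ SL ∧ -1 < (p t).im) → Φ' a b p = 1)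
    (hL : ∀ (a b : ℂ) (p : Path a b), (∀ t, p t ∈ SL ∧ (p t).im < 1) →
      Φ' a b p = (phim (0, a))⁻¹ * phim (0, b))
    (g : ℝ) (w : F2) (hg : |g| = 3 / 2)
    (hw : ∀ q : ℂ, q.re = g → |q.im| < 1 → phim (0, q) = w⁻¹) :
    Φ' ((g : ℂ) + up) ((g : ℂ) - up) (Path.segment ((g : ℂ) + up) ((g : ℂ) - up)) = w := by
  classical
  let ψ : ℂ → F2 := fun q => if -1 < q.im then 1 else w
  have hS : {q : ℂ | q.re = g} ⊆ SL := by
    intro q hq
    rw [mem_ofPred_eq] at hq
    apply mem_SL_gap <;> rw [hq, hg] <;> norm_num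
  have hex : IsExact {q : ℂ | q.re = g} (fun a b _ => (ψ a)⁻¹ * ψ b : PFun ℂ F2) :=
    ⟨ψ, fun a b p _ => rfl⟩
  have key := hag ℂ F2 Bool {q : ℂ | q.re = g}
    (fun b => if b = true then {q : ℂ | -1 < q.im} else {q : ℂ | q.im < 1})
    Φ' (fun a b _ => (ψ a)⁻¹ * ψ b) (hPF.mono hS) hex.isPF ?_ ?_ ?_ ((g : ℂ) + up) ((g : ℂ) - up)
    (Path.segment ((g : ℂ) + up) ((g : ℂ) - up)) ?_
  · rw [key]
    have h1 : ψ ((g : ℂ) + up) = 1 := by
      simp only [ψ]; rw [if_pos]; simp [up]; norm_num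
    have h2 : ψ ((g : ℂ) - up) = w := by
      simp only [ψ]; rw [if_neg]; simp [up]
    rw [h1, h2]; simp
  · intro b
    cases b
    · simp only [Bool.false_eq_true, if_false]
      exact isOpen_lt Complex.continuous_im continuous_const
    · simp only [if_true]
      exact isOpen_lt continuous_const Complex.continuous_im
  · intro q _
    rw [mem_iUnion]
    rcases lt_or_ge (-1) q.im with h | h
    · exact ⟨true, by simpa using h⟩
    · exact ⟨false, by simp; linarith⟩
  · intro b a c p hp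
    cases b
    · simp only [Bool.false_eq_true, if_false] at hp
      rw [hL a c p fun t => ⟨hS (hp t).1, (hp t).2⟩]
      have hψ : ∀ t, ψ (p t) = w * phim (0, p t) := by
        intro t
        simp only [ψ]
        have h1 : (p t).im < 1 := (hp t).2
        split_ifs with h
        · rw [hw (p t) (hp t).1 (abs_lt.mpr ⟨h, h1⟩)]; simp
        · rw [phim_im]; · simp
          rw [le_abs]; right; linarith [not_lt.mp h]
      have ha := hψ 0
      have hc := hψ 1
      rw [p.source] at ha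
      rw [p.target] at hc
      rw [ha, hc]; group
    · simp only [if_true] at hp
      rw [hU a c p fun t => ⟨hS (hp t).1, (hp t).2⟩]
      have h1 : ψ a = 1 := by
        have := (hp 0).2
        rw [p.source] at this
        exact if_pos this
      have h2 : ψ c = 1 := by
        have := (hp 1).2
        rw [p.target] at this
        exact if_pos this
      rw [h1, h2]; simp
  · intro t
    rw [mem_ofPred_eq, seg_re]
    simp [up]

theorem letter_val (hag : StAG) (hPF : IsPF SL Φ')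
    (hU : ∀ (a b : ℂ) (p : Path a b), (∀ t, p t ∈ SL ∧ -1 < (p t).im) → Φ' a b p = 1)
    (hL : ∀ (a b : ℂ) (p : Path a b), (∀ t, p t ∈ SL ∧ (p t).im < 1) →
      Φ' a b p = (phim (0, a))⁻¹ * phim (0, b))
    (g : ℝ) (w : F2) (hg : |g| = 3 / 2)
    (hw : ∀ q : ℂ, q.re = g → |q.im| < 1 → phim (0, q) = w⁻¹)
    (q : ℂ) (hq : q.im = 0) (hq6 : |q.re| = 6) :
    Φ' q q (letter q g) = w := by
  have m1 : ∀ t, Path.segment q (q + up) t ∈ SL := fun t => by
    apply mem_SL_re; rw [seg_re]; simp [up]; rw [hq6]; norm_num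
  have m2 : ∀ t, Path.segment (q + up) ((g : ℂ) + up) t ∈ SL := fun t => by
    apply mem_SL_im; rw [seg_im]; simp [up, hq]
  have m3 : ∀ t, Path.segment ((g : ℂ) + up) ((g : ℂ) - up) t ∈ SL := fun t => by
    apply mem_SL_gap <;> rw [seg_re] <;> simp [up] <;> rw [hg] <;> norm_num
  have m4 : ∀ t, Path.segment ((g : ℂ) - up) (q - up) t ∈ SL := fun t => by
    apply mem_SL_im; rw [seg_im]; simp [up, hq]
  have m5 : ∀ t, Path.segment (q - up) q t ∈ SL := fun t => by
    apply mem_SL_re; rw [seg_re]; simp [up]; rw [hq6]; norm_num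
  have m45 := trans_mem m4 m5
  have m345 := trans_mem m3 m45
  have m2345 := trans_mem m2 m345
  unfold letter
  rw [hPF.trans _ _ _ _ _ m1 m2345, hPF.trans _ _ _ _ _ m2 m345, hPF.trans _ _ _ _ _ m3 m45,
    hPF.trans _ _ _ _ _ m4 m5]
  rw [hU _ _ _ fun t => ⟨m1 t, ?_⟩, hU _ _ _ fun t => ⟨m2 t, ?_⟩, vert hag hPF hU hL g w hg hw,
    hL _ _ _ fun t => ⟨m4 t, ?_⟩, hL _ _ _ fun t => ⟨m5 t, ?_⟩]
  · rw [phim_im (q := (g : ℂ) - up) (by simp [up]), phim_im (q := q - up) (by simp [up, hq]),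
      phim_far (q := q) (by rw [hq6]; norm_num)]
    simp
  · rw [seg_im]; simp [up, hq]; have := t.2.1; have := t.2.2; linarith
  · rw [seg_im]; simp [up, hq]; norm_num
  · rw [seg_im]; simp [up, hq]
    norm_num
  · rw [seg_im]; simp [up, hq]; have := t.2.1; have := t.2.2; linarith

end PHI1

open PHI1 in
theorem pPhi1 (h1 : StAG) : StPhi1 := by
  intro Φ hΦ hU hL
  have hcont : Continuous (Prod.snd : E → ℂ) := continuous_snd
  refine ⟨pull (emb 0) Φ, ?_, ?_, ?_⟩
  · exact (hΦ.pull (emb 0)).mono fun q hq => emb_mem (by norm_num) hq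
  · have hS : {p : E | |p.1| < 3 ∧ p.2 ∈ SL} ⊆ K0ᶜ := fun p hp => emb_mem (s := p.1) (q := p.2) hp.1 hp.2
    have hPF' : IsPF {p : E | |p.1| < 3 ∧ p.2 ∈ SL}
        (pull (⟨Prod.snd, hcont⟩ : C(E, ℂ)) (pull (emb 0) Φ)) := by
      refine ((hΦ.pull (emb 0)).pull (⟨Prod.snd, hcont⟩ : C(E, ℂ))).mono ?_
      intro p hp
      exact emb_mem (s := 0) (q := p.2) (by norm_num) hp.2
    have key := h1 E F2 Bool {p : E | |p.1| < 3 ∧ p.2 ∈ SL}
      (fun b => if b = true then {p : E | -1 < p.2.im} else {p : E | p.2.im < 1})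
      Φ (pull (⟨Prod.snd, hcont⟩ : C(E, ℂ)) (pull (emb 0) Φ)) (hΦ.mono hS) hPF' ?_ ?_ ?_
    · intro a b p hp
      exact key a b p hp
    · intro b
      cases b
      · simp only [Bool.false_eq_true, if_false]
        exact isOpen_lt (Complex.continuous_im.comp continuous_snd) continuous_const
      · simp only [if_true]
        exact isOpen_lt continuous_const (Complex.continuous_im.comp continuous_snd)
    · intro q _
      rw [mem_iUnion]
      rcases lt_or_ge (-1) q.2.im with h | h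
      · exact ⟨true, by simpa using h⟩
      · exact ⟨false, by simp; linarith⟩
    · intro i a b p hp
      cases i
      · simp only [Bool.false_eq_true, if_false] at hp
        rw [hL a b p fun t => ⟨hS (hp t).1, (hp t).2⟩]
        refine Eq.trans ?_ (hL _ _ ((p.map hcont).map (emb 0).continuous) fun t =>
          ⟨emb_mem (s := 0) (q := (p t).2) (by norm_num) (hp t).1.2, (hp t).2⟩).symm
        have ha : |a.1| < 3 := by have := (hp 0).1.1; rwa [p.source] at this
        have hb : |b.1| < 3 := by have := (hp 1).1.1; rwa [p.target] at this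
        have e1 : phim a = phim (0, a.2) := phim_slab (s := a.1) a.2 ha
        have e2 : phim b = phim (0, b.2) := phim_slab (s := b.1) b.2 hb
        rw [e1, e2]; rfl
      · simp only [if_true] at hp
        rw [hU a b p fun t => ⟨hS (hp t).1, (hp t).2⟩]
        exact (hU _ _ ((p.map hcont).map (emb 0).continuous) fun t =>
          ⟨emb_mem (s := 0) (q := (p t).2) (by norm_num) (hp t).1.2, (hp t).2⟩).symm
  · have hPF : IsPF SL (pull (emb 0) Φ) :=
      (hΦ.pull (emb 0)).mono fun q hq => emb_mem (by norm_num) hq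
    have hU' : ∀ (a b : ℂ) (p : Path a b), (∀ t, p t ∈ SL ∧ -1 < (p t).im) →
        pull (emb 0) Φ a b p = 1 := fun a b p hp =>
      hU _ _ _ fun t => ⟨emb_mem (by norm_num) (hp t).1, (hp t).2⟩
    have hL' : ∀ (a b : ℂ) (p : Path a b), (∀ t, p t ∈ SL ∧ (p t).im < 1) →
        pull (emb 0) Φ a b p = (phim (0, a))⁻¹ * phim (0, b) := fun a b p hp =>
      hL _ _ _ fun t => ⟨emb_mem (by norm_num) (hp t).1, (hp t).2⟩
    have hx : ∀ q : ℂ, q.re = (-3/2 : ℝ) → |q.im| < 1 → phim (0, q) = xx⁻¹ := by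
      intro q h h'
      simp only [phim]
      rw [if_pos]
      refine ⟨by norm_num, h', ?_, ?_⟩ <;> rw [h] <;> norm_num
    have hy : ∀ q : ℂ, q.re = (3/2 : ℝ) → |q.im| < 1 → phim (0, q) = yy⁻¹ := by
      intro q h h'
      simp only [phim]
      rw [if_neg, if_pos]
      · refine ⟨by norm_num, h', ?_, ?_⟩ <;> rw [h] <;> norm_num
      · rintro ⟨_, _, _, h3⟩
        rw [h] at h3; norm_num at h3
    have i1 : q1.im = 0 := by simp [q1]
    have i2 : q2.im = 0 := by simp [q2]
    have r1 : |q1.re| = 6 := by simp [q1]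
    have r2 : |q2.re| = 6 := by simp [q2]
    have gx : |(-3/2 : ℝ)| = 3 / 2 := by rw [abs_of_neg] <;> norm_num
    have gy : |(3/2 : ℝ)| = 3 / 2 := by rw [abs_of_pos]; norm_num
    exact ⟨letter_val h1 hPF hU' hL' _ _ gx hx _ i1 r1, letter_val h1 hPF hU' hL' _ _ gy hy _ i1 r1,
      letter_val h1 hPF hU' hL' _ _ gx hx _ i2 r2, letter_val h1 hPF hU' hL' _ _ gy hy _ i2 r2⟩

end CM
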