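import Pool.Agent.Helper59.CM.StGeo

/-!
Project CM (MP_e9500f_gt), module PHI2 (helper40): values of the functor `Φ` on the loops
`LX`, `LY` and on their images under `Gf`.
-/

set_option autoImplicit false

namespace CM

open Set Topology unitInterval

namespace PHI2

/-- paths with the same points have the same value -/
theorem F_eq {X Γ : Type} [TopologicalSpace X] (F : PFun X Γ) {a b a' b' : X} (p : Path a b)
    (p' : Path a' b') (h : ∀ t, p t = p' t) : F a b p = F a' b' p' := by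
  have ha : a = a' := by rw [← p.source, ← p'.source]; exact h 0
  have hb : b = b' := by rw [← p.target, ← p'.target]; exact h 1
  subst ha hb
  congr 1
  ext t
  exact h t

/-- two paths in a convex subset of `S` have the same value -/
theorem lin {V Γ : Type} [NormedAddCommGroup V] [NormedSpace ℝ V] [Group Γ] {S : Set V}
    {F : PFun V Γ} (hF : IsPF S F) {C : Set V} (hC : Convex ℝ C) (hCS : C ⊆ S) {a b : V}
    (p q : Path a b) (hp : ∀ t, p t ∈ C) (hq : ∀ t, q t ∈ C) : F a b p = F a b q := by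
  refine hF.hom a b p q
    { toHomotopy := ContinuousMap.Homotopy.affine p.toContinuousMap q.toContinuousMap
      prop' := ?_ } ?_
  · intro t x hx
    rcases hx with rfl | rfl
    · simp
    · simp
  · intro x
    apply hCS
    show (Path.segment (p x.2) (q x.2)) x.1 ∈ C
    rw [Path.segment_apply]
    exact hC.lineMap_mem (hp _) (hq _) ⟨x.1.2.1, x.1.2.2⟩

theorem seg_re (a b : ℂ) (t : I) :
    ((Path.segment a b) t).re = (1 - (t : ℝ)) * a.re + (t : ℝ) * b.re := by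
  rw [Path.segment_apply, AffineMap.lineMap_apply_module]
  simp

theorem seg_im (a b : ℂ) (t : I) :
    ((Path.segment a b) t).im = (1 - (t : ℝ)) * a.im + (t : ℝ) * b.im := by
  rw [Path.segment_apply, AffineMap.lineMap_apply_module]
  simp

theorem seg_real (a b : ℝ) (t : I) :
    (Path.segment a b) t = (1 - (t : ℝ)) * a + (t : ℝ) * b := by
  rw [Path.segment_apply, AffineMap.lineMap_apply_module]
  simp

/-- values and range of a commutator path -/
theorem cp_val {X Γ : Type} [TopologicalSpace X] [Group Γ] {S : Set X} {F : PFun X Γ}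
    (hF : IsPF S F) {a : X} (p q : Path a a) (hp : ∀ t, p t ∈ S) (hq : ∀ t, q t ∈ S) :
    F a a (cp p q) = cm (F a a p) (F a a q) ∧ ∀ t, cp p q t ∈ S := by
  have h1 := trans_mem hp hq
  have h2 := trans_mem h1 (symm_mem hp)
  have h3 := trans_mem h2 (symm_mem hq)
  refine ⟨?_, h3⟩
  unfold cp cm
  rw [hF.trans _ _ _ _ _ h2 (symm_mem hq), hF.trans _ _ _ _ _ h1 (symm_mem hp),
    hF.trans _ _ _ _ _ hp hq, hF.symm p hp, hF.symm q hq]

/-- value on the image of a planar loop -/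
theorem five {X Γ : Type} [TopologicalSpace X] [Group Γ] {S : Set X} {F : PFun X Γ}
    (hF : IsPF S F) (ψ : C(ℂ, X)) (g c : ℝ)
    (h1 : ∀ t, ψ (Path.segment up ((g : ℂ) + up) t) ∈ S)
    (h2 : ∀ t, ψ (Path.segment ((g : ℂ) + up) ((g : ℂ) - up) t) ∈ S)
    (h3 : ∀ t, ψ (Path.segment ((g : ℂ) - up) ((c : ℂ) - up) t) ∈ S)
    (h4 : ∀ t, ψ (Path.segment ((c : ℂ) - up) ((c : ℂ) + up) t) ∈ S)
    (h5 : ∀ t, ψ (Path.segment ((c : ℂ) + up) up t) ∈ S) :
    F _ _ ((ploop g c).map ψ.continuous) =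
      F _ _ ((Path.segment up ((g : ℂ) + up)).map ψ.continuous) *
      (F _ _ ((Path.segment ((g : ℂ) + up) ((g : ℂ) - up)).map ψ.continuous) *
      (F _ _ ((Path.segment ((g : ℂ) - up) ((c : ℂ) - up)).map ψ.continuous) *
      (F _ _ ((Path.segment ((c : ℂ) - up) ((c : ℂ) + up)).map ψ.continuous) *
        F _ _ ((Path.segment ((c : ℂ) + up) up).map ψ.continuous)))) := by
  unfold ploop
  rw [Path.map_trans, Path.map_trans, Path.map_trans, Path.map_trans]
  have k5 : ∀ t, ((Path.segment ((c : ℂ) + up) up).map ψ.continuous) t ∈ S := h5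
  have k4 : ∀ t, ((Path.segment ((c : ℂ) - up) ((c : ℂ) + up)).map ψ.continuous) t ∈ S := h4
  have k3 : ∀ t, ((Path.segment ((g : ℂ) - up) ((c : ℂ) - up)).map ψ.continuous) t ∈ S := h3
  have k2 : ∀ t, ((Path.segment ((g : ℂ) + up) ((g : ℂ) - up)).map ψ.continuous) t ∈ S := h2
  have k1 : ∀ t, ((Path.segment up ((g : ℂ) + up)).map ψ.continuous) t ∈ S := h1
  have m4 := trans_mem k4 k5
  have m3 := trans_mem k3 m4
  have m2 := trans_mem k2 m3
  rw [hF.trans _ _ _ _ _ k1 m2, hF.trans _ _ _ _ _ k2 m3, hF.trans _ _ _ _ _ k3 m4,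
    hF.trans _ _ _ _ _ k4 k5]

/-- `phim` is one outside the holes -/
theorem phim_one {p : E} (h : 3 ≤ |p.1| ∨ 1 ≤ |p.2.im| ∨ 2 ≤ |p.2.re|) : phim p = 1 := by
  unfold phim
  have hA : ¬ (|p.1| < 3 ∧ |p.2.im| < 1 ∧ -2 < p.2.re ∧ p.2.re < -1) := by
    rintro ⟨a1, a2, a3, a4⟩
    rcases h with h | h | h
    · linarith
    · linarith
    · rcases le_abs.1 h with h | h <;> linarith
  have hB : ¬ (|p.1| < 3 ∧ |p.2.im| < 1 ∧ 1 < p.2.re ∧ p.2.re < 2) := by
    rintro ⟨a1, a2, a3, a4⟩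
    rcases h with h | h | h
    · linarith
    · linarith
    · rcases le_abs.1 h with h | h <;> linarith
  rw [if_neg hA, if_neg hB]

theorem not_K0 {p : E} (h : 4 < |p.1| ∨ 3 < |p.2.re| ∨ 1 < |p.2.im| ∨
    (|p.1| < 3 ∧ 1 < |p.2.re| ∧ |p.2.re| < 2)) : p ∈ K0ᶜ := by
  rintro ⟨a1, a2, a3, a4⟩
  rcases h with h | h | h | ⟨h1, h2, h3⟩
  · linarith
  · linarith
  · linarith
  · rcases a4 with a | a | a <;> linarith

theorem up_re : up.re = 0 := rfl
theorem up_im : up.im = 2 := rfl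

theorem abs_two_im {x : ℂ} (h : x.im = 2 ∨ x.im = -2) : |x.im| = 2 := by
  rcases h with h | h <;> rw [h] <;> norm_num

section functor

variable {Φ : PFun E F2} (hΦ : IsPF K0ᶜ Φ)
  (hU : ∀ (a b : E) (p : Path a b), (∀ t, p t ∈ K0ᶜ ∧ -1 < (p t).2.im) → Φ a b p = 1)
  (hL : ∀ (a b : E) (p : Path a b), (∀ t, p t ∈ K0ᶜ ∧ (p t).2.im < 1) →
    Φ a b p = (phim a)⁻¹ * phim b)

include hΦ hU hL

/-- downward vertical segment in the plane `s = 0` -/
theorem vert (g : ℝ) (hg : {p : E | p.1 = 0 ∧ p.2.re = g} ⊆ K0ᶜ) :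
    Φ _ _ ((Path.segment ((g : ℂ) + up) ((g : ℂ) - up)).map (emb 0).continuous) =
      (phim (0, (g : ℂ)))⁻¹ := by
  have hC : Convex ℝ {p : E | p.1 = 0 ∧ p.2.re = g} := by
    rintro x ⟨x1, x2⟩ y ⟨y1, y2⟩ a b ha hb hab
    refine ⟨?_, ?_⟩
    · simp [x1, y1]
    · show (a • x.2 + b • y.2).re = g
      simp only [Complex.add_re, Complex.real_smul, Complex.mul_re, Complex.ofReal_re,
        Complex.ofReal_im, zero_mul, sub_zero, x2, y2]
      rw [← add_mul, hab, one_mul]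
  let A : Path (emb 0 ((g : ℂ) + up)) (emb 0 (g : ℂ)) :=
    (Path.segment ((g : ℂ) + up) (g : ℂ)).map (emb 0).continuous
  let B : Path (emb 0 (g : ℂ)) (emb 0 ((g : ℂ) - up)) :=
    (Path.segment (g : ℂ) ((g : ℂ) - up)).map (emb 0).continuous
  have hA : ∀ t, A t ∈ {p : E | p.1 = 0 ∧ p.2.re = g} := by
    intro t
    refine ⟨rfl, ?_⟩
    show ((Path.segment ((g : ℂ) + up) (g : ℂ)) t).re = g
    rw [seg_re, Complex.add_re, up_re, Complex.ofReal_re]; ring
  have hB : ∀ t, B t ∈ {p : E | p.1 = 0 ∧ p.2.re = g} := by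
    intro t
    refine ⟨rfl, ?_⟩
    show ((Path.segment (g : ℂ) ((g : ℂ) - up)) t).re = g
    rw [seg_re, Complex.sub_re, up_re, Complex.ofReal_re]; ring
  have h0 : Φ _ _ ((Path.segment ((g : ℂ) + up) ((g : ℂ) - up)).map (emb 0).continuous) =
      Φ _ _ (A.trans B) := by
    refine lin hΦ hC hg _ _ ?_ (trans_mem hA hB)
    intro t
    refine ⟨rfl, ?_⟩
    show ((Path.segment ((g : ℂ) + up) ((g : ℂ) - up)) t).re = g
    rw [seg_re, Complex.add_re, Complex.sub_re, up_re, Complex.ofReal_re]; ring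
  rw [h0, hΦ.trans _ _ _ _ _ (fun t => hg (hA t)) (fun t => hg (hB t))]
  have e1 : Φ _ _ A = 1 := by
    apply hU
    intro t
    refine ⟨hg (hA t), ?_⟩
    show -1 < ((Path.segment ((g : ℂ) + up) (g : ℂ)) t).im
    rw [seg_im, Complex.add_im, up_im, Complex.ofReal_im]
    have := t.2.2
    linarith
  have e2 : Φ _ _ B = (phim (0, (g : ℂ)))⁻¹ * phim (0, (g : ℂ) - up) := by
    apply hL
    intro t
    refine ⟨hg (hB t), ?_⟩
    show ((Path.segment (g : ℂ) ((g : ℂ) - up)) t).im < 1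
    rw [seg_im, Complex.sub_im, up_im, Complex.ofReal_im]
    have := t.2.1
    linarith
  have e3 : phim (0, (g : ℂ) - up) = 1 := by
    apply phim_one
    right; left
    show 1 ≤ |((g : ℂ) - up).im|
    rw [Complex.sub_im, up_im, Complex.ofReal_im]; norm_num
  rw [e1, e2, e3]; group

/-- upward vertical segment in the plane `s = 0`, outside -/
theorem vert' (c : ℝ) (hc : 3 < |c|) :
    Φ _ _ ((Path.segment ((c : ℂ) - up) ((c : ℂ) + up)).map (emb 0).continuous) = 1 := by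
  have hg : {p : E | p.1 = 0 ∧ p.2.re = c} ⊆ K0ᶜ := by
    rintro p ⟨p1, p2⟩
    exact not_K0 (Or.inr (Or.inl (by rw [p2]; exact hc)))
  have h1 := vert hΦ hU hL c hg
  have h2 : phim (0, (c : ℂ)) = 1 := by
    apply phim_one
    right; right
    show 2 ≤ |(c : ℂ).re|
    rw [Complex.ofReal_re]; linarith
  rw [h2, inv_one] at h1
  have h3 := hΦ.symm ((Path.segment ((c : ℂ) + up) ((c : ℂ) - up)).map (emb 0).continuous) (by
    intro t
    apply hg
    refine ⟨rfl, ?_⟩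
    show ((Path.segment ((c : ℂ) + up) ((c : ℂ) - up)) t).re = c
    rw [seg_re, Complex.add_re, Complex.sub_re, up_re, Complex.ofReal_re]; ring)
  rw [h1, inv_one] at h3
  rw [← h3, Path.map_symm, Path.segment_symm]

/-- value on a loop in the plane `s = 0` -/
theorem plane_val (g c : ℝ) (hg : 1 < |g| ∧ |g| < 2) (hc : 3 < |c|) :
    Φ _ _ ((ploop g c).map (emb 0).continuous) = (phim (0, (g : ℂ)))⁻¹ := by
  have hgs : {p : E | p.1 = 0 ∧ p.2.re = g} ⊆ K0ᶜ := by
    rintro p ⟨p1, p2⟩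
    refine not_K0 (Or.inr (Or.inr (Or.inr ⟨?_, ?_, ?_⟩)))
    · rw [p1]; norm_num
    · rw [p2]; exact hg.1
    · rw [p2]; exact hg.2
  have hcs : {p : E | p.1 = 0 ∧ p.2.re = c} ⊆ K0ᶜ := by
    rintro p ⟨p1, p2⟩
    exact not_K0 (Or.inr (Or.inl (by rw [p2]; exact hc)))
  have i1 : ∀ t, ((Path.segment up ((g : ℂ) + up)) t).im = 2 := by
    intro t; rw [seg_im, Complex.add_im, up_im, Complex.ofReal_im]; ring
  have i3 : ∀ t, ((Path.segment ((g : ℂ) - up) ((c : ℂ) - up)) t).im = -2 := by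
    intro t; rw [seg_im, Complex.sub_im, Complex.sub_im, up_im, Complex.ofReal_im]
    rw [Complex.ofReal_im]; ring
  have i5 : ∀ t, ((Path.segment ((c : ℂ) + up) up) t).im = 2 := by
    intro t; rw [seg_im, Complex.add_im, up_im, Complex.ofReal_im]; ring
  have k1 : ∀ t, emb 0 (Path.segment up ((g : ℂ) + up) t) ∈ K0ᶜ := fun t =>
    not_K0 (Or.inr (Or.inr (Or.inl (by
      show 1 < |((Path.segment up ((g : ℂ) + up)) t).im|
      rw [i1]; norm_num))))
  have k3 : ∀ t, emb 0 (Path.segment ((g : ℂ) - up) ((c : ℂ) - up) t) ∈ K0ᶜ := fun t =>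
    not_K0 (Or.inr (Or.inr (Or.inl (by
      show 1 < |((Path.segment ((g : ℂ) - up) ((c : ℂ) - up)) t).im|
      rw [i3]; norm_num))))
  have k5 : ∀ t, emb 0 (Path.segment ((c : ℂ) + up) up t) ∈ K0ᶜ := fun t =>
    not_K0 (Or.inr (Or.inr (Or.inl (by
      show 1 < |((Path.segment ((c : ℂ) + up) up) t).im|
      rw [i5]; norm_num))))
  have k2 : ∀ t, emb 0 (Path.segment ((g : ℂ) + up) ((g : ℂ) - up) t) ∈ K0ᶜ := fun t =>
    hgs ⟨rfl, by
      show ((Path.segment ((g : ℂ) + up) ((g : ℂ) - up)) t).re = g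
      rw [seg_re, Complex.add_re, Complex.sub_re, up_re, Complex.ofReal_re]; ring⟩
  have k4 : ∀ t, emb 0 (Path.segment ((c : ℂ) - up) ((c : ℂ) + up) t) ∈ K0ᶜ := fun t =>
    hcs ⟨rfl, by
      show ((Path.segment ((c : ℂ) - up) ((c : ℂ) + up)) t).re = c
      rw [seg_re, Complex.add_re, Complex.sub_re, up_re, Complex.ofReal_re]; ring⟩
  rw [five hΦ (emb 0) g c k1 k2 k3 k4 k5, vert hΦ hU hL g hgs, vert' hΦ hU hL c hc]
  have e1 : Φ _ _ ((Path.segment up ((g : ℂ) + up)).map (emb 0).continuous) = 1 :=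
    hU _ _ _ fun t => ⟨k1 t, by
      show -1 < ((Path.segment up ((g : ℂ) + up)) t).im
      rw [i1]; norm_num⟩
  have e5 : Φ _ _ ((Path.segment ((c : ℂ) + up) up).map (emb 0).continuous) = 1 :=
    hU _ _ _ fun t => ⟨k5 t, by
      show -1 < ((Path.segment ((c : ℂ) + up) up) t).im
      rw [i5]; norm_num⟩
  have e3 : Φ _ _ ((Path.segment ((g : ℂ) - up) ((c : ℂ) - up)).map (emb 0).continuous) = 1 := by
    rw [hL _ _ _ fun t => ⟨k3 t, by
      show ((Path.segment ((g : ℂ) - up) ((c : ℂ) - up)) t).im < 1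
      rw [i3]; norm_num⟩]
    have a1 : phim (emb 0 ((g : ℂ) - up)) = 1 := phim_one (Or.inr (Or.inl (by
      show 1 ≤ |((g : ℂ) - up).im|
      rw [Complex.sub_im, up_im, Complex.ofReal_im]; norm_num)))
    have a2 : phim (emb 0 ((c : ℂ) - up)) = 1 := phim_one (Or.inr (Or.inl (by
      show 1 ≤ |((c : ℂ) - up).im|
      rw [Complex.sub_im, up_im, Complex.ofReal_im]; norm_num)))
    rw [a1, a2]; group
  rw [e1, e3, e5]; group

/-! ### the images under `Gf` -/

/-- paths inside the outer region have value one -/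
theorem out_val (a b : E) (p : Path a b)
    (h : ∀ t, p t ∈ K0ᶜ ∧ (p t).2.im < 1 ∧ (3 ≤ |(p t).1| ∨ 2 ≤ |(p t).2.re|)) :
    Φ a b p = 1 := by
  rw [hL a b p fun t => ⟨(h t).1, (h t).2.1⟩]
  have h0 := (h 0).2.2
  have h1 := (h 1).2.2
  rw [p.source] at h0
  rw [p.target] at h1
  have e0 : phim a = 1 := by
    apply phim_one
    rcases h0 with h | h
    · exact Or.inl h
    · exact Or.inr (Or.inr h)
  have e1 : phim b = 1 := by
    apply phim_one
    rcases h1 with h | h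
    · exact Or.inl h
    · exact Or.inr (Or.inr h)
  rw [e0, e1]; group

/-- the curve `s ↦ (s, γ.extend (s + o))` -/
noncomputable def crv {q : ℂ} (γ : Path q q) (o : ℝ) : C(ℝ, E) :=
  ⟨fun s => (s, γ.extend (s + o)), by fun_prop⟩

theorem crv_val {Φ' : PFun ℂ F2}
    (hP : ∀ (a b : E) (p : Path a b), (∀ t, |(p t).1| < 3 ∧ (p t).2 ∈ SL) →
      Φ a b p = Φ' a.2 b.2 (p.map continuous_snd)) {q : ℂ} (hq : |q.re| = 6) (hqi : q.im = 0)
    (γ : Path q q) (hγ : ∀ t, γ t ∈ SL) (o : ℝ) (ho : o = 2 ∨ o = -1) :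
    (∀ s, crv γ o s ∈ K0ᶜ) ∧
    Φ _ _ ((Path.segment (-10 : ℝ) 10).map (crv γ o).continuous) = Φ' q q γ := by
  have hout : ∀ s : ℝ, (s + o ≤ 0 ∨ 1 ≤ s + o) → crv γ o s = (s, q) := by
    intro s hs
    show (s, γ.extend (s + o)) = (s, q)
    rcases hs with hs | hs
    · rw [γ.extend_of_le_zero hs]
    · rw [γ.extend_of_one_le hs]
  have hqo : ∀ s : ℝ, ((s, q) : E) ∈ K0ᶜ := fun s =>
    not_K0 (Or.inr (Or.inl (by show 3 < |q.re|; rw [hq]; norm_num)))
  have hmem : ∀ s, crv γ o s ∈ K0ᶜ := by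
    intro s
    by_cases hs : s + o ≤ 0 ∨ 1 ≤ s + o
    · rw [hout s hs]; exact hqo s
    · rw [not_or, not_le, not_le] at hs
      have h1 : |s| < 3 := by
        rw [abs_lt]
        rcases ho with rfl | rfl <;> constructor <;> linarith [hs.1, hs.2]
      have h2 : γ.extend (s + o) = γ ⟨s + o, hs.1.le, hs.2.le⟩ :=
        γ.extend_apply ⟨hs.1.le, hs.2.le⟩
      have h3 : (crv γ o s).2 ∈ SL := by
        show γ.extend (s + o) ∈ SL
        rw [h2]; exact hγ _
      rintro ⟨_, a2, a3, a4⟩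
      apply h3
      refine ⟨a3, ?_⟩
      rcases a4 with a | a | a
      · exfalso
        have : (crv γ o s).1 = s := rfl
        rw [this] at a; linarith
      · exact Or.inl a
      · exact Or.inr ⟨a, a2⟩
  refine ⟨hmem, ?_⟩
  have hF : IsPF ((crv γ o) ⁻¹' K0ᶜ) (pull (crv γ o) Φ) := hΦ.pull (crv γ o)
  have hm : ∀ s, s ∈ (crv γ o) ⁻¹' K0ᶜ := hmem
  have e0 : pull (crv γ o) Φ _ _ (Path.segment (-10 : ℝ) 10) = pull (crv γ o) Φ _ _
      ((Path.segment (-10 : ℝ) (-o)).trans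
        ((Path.segment (-o) (1 - o)).trans (Path.segment (1 - o) 10))) :=
    lin hF (C := univ) convex_univ (fun s _ => hm s) _ _ (fun _ => mem_univ _)
      (fun _ => mem_univ _)
  have e1 : Φ _ _ ((Path.segment (-10 : ℝ) 10).map (crv γ o).continuous) =
      pull (crv γ o) Φ _ _ (Path.segment (-10 : ℝ) 10) := rfl
  rw [e1, e0, hF.trans _ _ _ _ _ (fun _ => hm _) (fun _ => hm _),
    hF.trans _ _ _ _ _ (fun _ => hm _) (fun _ => hm _)]
  have ho' : -10 ≤ -o ∧ 1 - o ≤ 10 := by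
    rcases ho with rfl | rfl <;> constructor <;> norm_num
  have v1 : pull (crv γ o) Φ _ _ (Path.segment (-10 : ℝ) (-o)) = 1 := by
    apply out_val hΦ hU hL
    intro t
    have hs : (Path.segment (-10 : ℝ) (-o)) t + o ≤ 0 := by
      rw [seg_real]
      have h1 := t.2.1; have h2 := t.2.2
      nlinarith [ho'.1]
    have e : ((Path.segment (-10 : ℝ) (-o)).map (crv γ o).continuous) t =
        ((Path.segment (-10 : ℝ) (-o)) t, q) := hout _ (Or.inl hs)
    rw [e]
    refine ⟨hqo _, ?_, Or.inr ?_⟩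
    · show q.im < 1; rw [hqi]; norm_num
    · show 2 ≤ |q.re|; rw [hq]; norm_num
  have v3 : pull (crv γ o) Φ _ _ (Path.segment (1 - o) (10 : ℝ)) = 1 := by
    apply out_val hΦ hU hL
    intro t
    have hs : 1 ≤ (Path.segment (1 - o) (10 : ℝ)) t + o := by
      rw [seg_real]
      have h1 := t.2.1; have h2 := t.2.2
      nlinarith [ho'.2]
    have e : ((Path.segment (1 - o) (10 : ℝ)).map (crv γ o).continuous) t =
        ((Path.segment (1 - o) (10 : ℝ)) t, q) := hout _ (Or.inr hs)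
    rw [e]
    refine ⟨hqo _, ?_, Or.inr ?_⟩
    · show q.im < 1; rw [hqi]; norm_num
    · show 2 ≤ |q.re|; rw [hq]; norm_num
  have v2 : pull (crv γ o) Φ _ _ (Path.segment (-o) (1 - o)) = Φ' q q γ := by
    have hs : ∀ t : I, (Path.segment (-o) (1 - o)) t = -o + (t : ℝ) := by
      intro t; rw [seg_real]; ring
    have hsnd : ∀ t : I, (((Path.segment (-o) (1 - o)).map (crv γ o).continuous) t).2 = γ t := by
      intro t
      show γ.extend ((Path.segment (-o) (1 - o)) t + o) = γ t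
      rw [hs t]
      have : -o + (t : ℝ) + o = (t : ℝ) := by ring
      rw [this]
      exact γ.extend_extends' t
    have h1 := hP _ _ ((Path.segment (-o) (1 - o)).map (crv γ o).continuous) (by
      intro t
      refine ⟨?_, ?_⟩
      · show |(Path.segment (-o) (1 - o)) t| < 3
        rw [hs t, abs_lt]
        have h1 := t.2.1; have h2 := t.2.2
        rcases ho with rfl | rfl <;> constructor <;> linarith
      · rw [hsnd t]; exact hγ t)
    have h2 : pull (crv γ o) Φ _ _ (Path.segment (-o) (1 - o)) =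
        Φ _ _ ((Path.segment (-o) (1 - o)).map (crv γ o).continuous) := rfl
    rw [h2, h1]
    exact F_eq Φ' _ _ hsnd
  rw [v1, v2, v3]; group

/-- value on the image of a loop under a map which is a curve on the near vertical segment and
lies outside on the others -/
theorem img_val (ψ : C(ℂ, E)) {Φ' : PFun ℂ F2}
    (hP : ∀ (a b : E) (p : Path a b), (∀ t, |(p t).1| < 3 ∧ (p t).2 ∈ SL) →
      Φ a b p = Φ' a.2 b.2 (p.map continuous_snd)) (g c : ℝ)
    (hh : ∀ q : ℂ, (q.im = 2 ∨ q.im = -2) → |(ψ q).1| = 10 ∧ (ψ q).2.im = 0)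
    (hc : ∀ q : ℂ, q.re = c → 3 < |(ψ q).2.re| ∧ (ψ q).2.im = 0) {q : ℂ} (hq : |q.re| = 6)
    (hqi : q.im = 0) (γ : Path q q) (hγ : ∀ t, γ t ∈ SL) (o : ℝ) (ho : o = 2 ∨ o = -1)
    (hg : ∀ z : ℂ, z.re = g → ψ z = crv γ o (-5 * z.im)) :
    Φ _ _ ((ploop g c).map ψ.continuous) = Φ' q q γ := by
  obtain ⟨cm, cv⟩ := crv_val hΦ hU hL hP hq hqi γ hγ o ho
  have o1 : ∀ w : ℂ, (w.im = 2 ∨ w.im = -2) →
      ψ w ∈ K0ᶜ ∧ (ψ w).2.im < 1 ∧ (3 ≤ |(ψ w).1| ∨ 2 ≤ |(ψ w).2.re|) := by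
    intro w hw
    obtain ⟨h1, h2⟩ := hh w hw
    exact ⟨not_K0 (Or.inl (by rw [h1]; norm_num)), by rw [h2]; norm_num,
      Or.inl (by rw [h1]; norm_num)⟩
  have o2 : ∀ w : ℂ, w.re = c →
      ψ w ∈ K0ᶜ ∧ (ψ w).2.im < 1 ∧ (3 ≤ |(ψ w).1| ∨ 2 ≤ |(ψ w).2.re|) := by
    intro w hw
    obtain ⟨h1, h2⟩ := hc w hw
    exact ⟨not_K0 (Or.inr (Or.inl h1)), by rw [h2]; norm_num, Or.inr (by linarith)⟩
  have i1 : ∀ t, ((Path.segment up ((g : ℂ) + up)) t).im = 2 := by
    intro t; rw [seg_im, Complex.add_im, up_im, Complex.ofReal_im]; ring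
  have i3 : ∀ t, ((Path.segment ((g : ℂ) - up) ((c : ℂ) - up)) t).im = -2 := by
    intro t; rw [seg_im, Complex.sub_im, Complex.sub_im, up_im, Complex.ofReal_im]
    rw [Complex.ofReal_im]; ring
  have i5 : ∀ t, ((Path.segment ((c : ℂ) + up) up) t).im = 2 := by
    intro t; rw [seg_im, Complex.add_im, up_im, Complex.ofReal_im]; ring
  have i2 : ∀ t, ((Path.segment ((g : ℂ) + up) ((g : ℂ) - up)) t).re = g := by
    intro t; rw [seg_re, Complex.add_re, Complex.sub_re, up_re, Complex.ofReal_re]; ring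
  have i2' : ∀ t : I, ((Path.segment ((g : ℂ) + up) ((g : ℂ) - up)) t).im =
      2 - 4 * (t : ℝ) := by
    intro t; rw [seg_im, Complex.add_im, Complex.sub_im, up_im, Complex.ofReal_im]; ring
  have i4 : ∀ t, ((Path.segment ((c : ℂ) - up) ((c : ℂ) + up)) t).re = c := by
    intro t; rw [seg_re, Complex.add_re, Complex.sub_re, up_re, Complex.ofReal_re]; ring
  have k1 : ∀ t, ψ (Path.segment up ((g : ℂ) + up) t) ∈ K0ᶜ := fun t =>
    (o1 _ (Or.inl (i1 t))).1
  have k3 : ∀ t, ψ (Path.segment ((g : ℂ) - up) ((c : ℂ) - up) t) ∈ K0ᶜ := fun t =>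
    (o1 _ (Or.inr (i3 t))).1
  have k5 : ∀ t, ψ (Path.segment ((c : ℂ) + up) up t) ∈ K0ᶜ := fun t =>
    (o1 _ (Or.inl (i5 t))).1
  have k2 : ∀ t, ψ (Path.segment ((g : ℂ) + up) ((g : ℂ) - up) t) ∈ K0ᶜ := fun t => by
    rw [hg _ (i2 t)]; exact cm _
  have k4 : ∀ t, ψ (Path.segment ((c : ℂ) - up) ((c : ℂ) + up) t) ∈ K0ᶜ := fun t =>
    (o2 _ (i4 t)).1
  rw [five hΦ ψ g c k1 k2 k3 k4 k5]
  have e1 : Φ _ _ ((Path.segment up ((g : ℂ) + up)).map ψ.continuous) = 1 :=
    out_val hΦ hU hL _ _ _ fun t => o1 _ (Or.inl (i1 t))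
  have e3 : Φ _ _ ((Path.segment ((g : ℂ) - up) ((c : ℂ) - up)).map ψ.continuous) = 1 :=
    out_val hΦ hU hL _ _ _ fun t => o1 _ (Or.inr (i3 t))
  have e4 : Φ _ _ ((Path.segment ((c : ℂ) - up) ((c : ℂ) + up)).map ψ.continuous) = 1 :=
    out_val hΦ hU hL _ _ _ fun t => o2 _ (i4 t)
  have e5 : Φ _ _ ((Path.segment ((c : ℂ) + up) up).map ψ.continuous) = 1 :=
    out_val hΦ hU hL _ _ _ fun t => o1 _ (Or.inl (i5 t))
  have e2 : Φ _ _ ((Path.segment ((g : ℂ) + up) ((g : ℂ) - up)).map ψ.continuous) =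
      Φ' q q γ := by
    rw [← cv]
    apply F_eq
    intro t
    show ψ ((Path.segment ((g : ℂ) + up) ((g : ℂ) - up)) t) =
      crv γ o ((Path.segment (-10 : ℝ) 10) t)
    rw [hg _ (i2 t), i2' t, seg_real]
    congr 1; ring
  rw [e1, e2, e3, e4, e5]; group

end functor

theorem TT_SL {c r : ℂ} (h : r ∈ TT c) : r ∈ SL := by
  obtain ⟨_, _, _, h4⟩ := h
  rintro ⟨h5, h6⟩
  rcases h4 with h | h | h
  · linarith
  · rcases h6 with h6 | h6 <;> linarith [h6]
  · rcases h6 with h6 | h6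
    · linarith
    · linarith [h6.2]

theorem bump_self (c : ℂ) : bump c c = 1 := by
  unfold bump; simp

theorem bump_far {c q : ℂ} (h : 11 ≤ |q.re - c.re|) : bump c q = 0 := by
  unfold bump
  have h1 : |q.re - c.re| ≤ ‖q - c‖ := by
    rw [← Complex.sub_re]; exact Complex.abs_re_le_norm _
  apply max_eq_left
  have : 1 ≤ ‖q - c‖ / 11 := by rw [le_div_iff₀ (by norm_num)]; linarith
  linarith

theorem bb_self (c r : ℂ) : bb c r c = r := by
  unfold bb; rw [bump_self]; simp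

theorem bb_far {c q : ℂ} (r : ℂ) (h : 11 ≤ |q.re - c.re|) : bb c r q = q := by
  unfold bb; rw [bump_far h]; simp

theorem q1_re : q1.re = -6 := by unfold q1; simp
theorem q1_im : q1.im = 0 := by unfold q1; simp
theorem q2_re : q2.re = 6 := by unfold q2; simp
theorem q2_im : q2.im = 0 := by unfold q2; simp

end PHI2

open PHI2 in
/-- PHI3: values of `Φ` -/
theorem pPhi (h1 : StPhi0) (h2 : StPhi1) (h3 : StGam) (h4 : StRho) (h5 : StBf) (_h6 : StSq)
    (_h7 : StAG) : StPhi := by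
  obtain ⟨Φ, hΦ, hU, hL⟩ := h1
  obtain ⟨Φ', hΦ', hP, x1, y1, x2, y2⟩ := h2 Φ hΦ hU hL
  obtain ⟨g1, g2, g3, g4, g5, g6⟩ := h3
  obtain ⟨R, _, _, f10, f20, f2a, f2b, f24, f24', _⟩ := h4
  obtain ⟨_, b1, b2, b3⟩ := h5
  have hep : ep = 1 / 20 := rfl
  refine ⟨Φ, hΦ, ?_, ?_, ?_⟩
  · have h := plane_val hΦ hU hL (-3/2) (-4) (by constructor <;> norm_num [abs_of_neg])
      (by norm_num [abs_of_neg])
    have hv : phim (0, ((-3/2 : ℝ) : ℂ)) = xx⁻¹ := by
      unfold phim
      rw [if_pos]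
      refine ⟨?_, ?_, ?_, ?_⟩
      · show |(0 : ℝ)| < 3; norm_num
      · show |((-3/2 : ℝ) : ℂ).im| < 1; rw [Complex.ofReal_im]; norm_num
      · show -2 < ((-3/2 : ℝ) : ℂ).re; rw [Complex.ofReal_re]; norm_num
      · show ((-3/2 : ℝ) : ℂ).re < -1; rw [Complex.ofReal_re]; norm_num
    rw [hv, inv_inv] at h
    exact h
  · have h := plane_val hΦ hU hL (3/2) 4 (by constructor <;> norm_num [abs_of_pos])
      (by norm_num [abs_of_pos])
    have hv : phim (0, ((3/2 : ℝ) : ℂ)) = yy⁻¹ := by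
      unfold phim
      rw [if_neg, if_pos]
      · refine ⟨?_, ?_, ?_, ?_⟩
        · show |(0 : ℝ)| < 3; norm_num
        · show |((3/2 : ℝ) : ℂ).im| < 1; rw [Complex.ofReal_im]; norm_num
        · show 1 < ((3/2 : ℝ) : ℂ).re; rw [Complex.ofReal_re]; norm_num
        · show ((3/2 : ℝ) : ℂ).re < 2; rw [Complex.ofReal_re]; norm_num
      · rintro ⟨_, _, _, h⟩
        have h' : ((3/2 : ℝ) : ℂ).re < -1 := h
        rw [Complex.ofReal_re] at h'; norm_num at h'
    rw [hv, inv_inv] at h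
    exact h
  · intro G hG
    let ψ : C(ℂ, E) := G.comp (emb 0)
    have hψ : ∀ q : ℂ, ψ q = Bf (-5 * q.im, ⟨f2 q.re, 0⟩) := by
      intro q
      show G (emb 0 q) = _
      rw [hG]
      show Bf (-5 * q.im, ⟨f2 q.re, f1 0⟩) = _
      rw [f10]
    have hh : ∀ q : ℂ, (q.im = 2 ∨ q.im = -2) → |(ψ q).1| = 10 ∧ (ψ q).2.im = 0 := by
      intro q hq
      have habs : |(-5 * q.im)| = 10 := by
        rcases hq with h | h <;> rw [h] <;> norm_num
      rw [hψ, b3 _ _ (Or.inr (by rw [habs]; norm_num))]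
      exact ⟨habs, rfl⟩
    have hfar : ∀ q : ℂ, (f2 q.re = 20 + (14 - ep) ∨ f2 q.re = -(20 + (14 - ep))) →
        3 < |(ψ q).2.re| ∧ (ψ q).2.im = 0 := by
      intro q hq
      have e : ψ q = (-5 * q.im, ⟨f2 q.re, 0⟩) := by
        rw [hψ]
        rcases le_total (-5 * q.im) 0 with hs | hs
        · rw [b1 _ _ hs, bb_far]
          show 11 ≤ |f2 q.re - q1.re|
          rw [q1_re]
          rcases hq with h | h
          · rw [h, hep]; apply le_abs.2; left; norm_num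
          · rw [h, hep]; apply le_abs.2; right; norm_num
        · rw [b2 _ _ hs, bb_far]
          show 11 ≤ |f2 q.re - q2.re|
          rw [q2_re]
          rcases hq with h | h
          · rw [h, hep]; apply le_abs.2; left; norm_num
          · rw [h, hep]; apply le_abs.2; right; norm_num
      rw [e]
      refine ⟨?_, rfl⟩
      show 3 < |f2 q.re|
      rcases hq with h | h
      · rw [h, hep]; apply lt_abs.2; left; norm_num
      · rw [h, hep]; apply lt_abs.2; right; norm_num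
    have v1 : Φ _ _ ((ploop (-3/2) (-4)).map ψ.continuous) = Φ' q1 q1 gam1 := by
      refine img_val hΦ hU hL ψ hP (-3/2) (-4) hh ?_ (q := q1) ?_ q1_im gam1
        (fun t => TT_SL (g5 t)) 2 (Or.inl rfl) ?_
      · intro q hq
        apply hfar
        right
        rw [hq]; exact f24'
      · rw [q1_re]; norm_num
      · intro z hz
        rw [hψ, hz, show (-3/2 : ℝ) = -3/2 from rfl, f2b]
        have hq1 : (⟨-6, 0⟩ : ℂ) = q1 := by
          apply Complex.ext
          · rw [q1_re]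
          · rw [q1_im]
        rw [hq1]
        rcases le_total (-5 * z.im) 0 with hs | hs
        · rw [b1 _ _ hs, bb_self]; rfl
        · rw [b2 _ _ hs, bb_far]
          · show (-5 * z.im, q1) = (-5 * z.im, gam1.extend (-5 * z.im + 2))
            rw [gam1.extend_of_one_le (by linarith)]
          · rw [q1_re, q2_re]; norm_num [abs_of_neg]
    have v2 : Φ _ _ ((ploop (3/2) 4).map ψ.continuous) = Φ' q2 q2 gam2 := by
      refine img_val hΦ hU hL ψ hP (3/2) 4 hh ?_ (q := q2) ?_ q2_im gam2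
        (fun t => TT_SL (g6 t)) (-1) (Or.inr rfl) ?_
      · intro q hq
        apply hfar
        left
        rw [hq]; exact f24
      · rw [q2_re]; norm_num
      · intro z hz
        rw [hψ, hz, f2a]
        have hq2 : (⟨6, 0⟩ : ℂ) = q2 := by
          apply Complex.ext
          · rw [q2_re]
          · rw [q2_im]
        rw [hq2]
        rcases le_total (-5 * z.im) 0 with hs | hs
        · rw [b1 _ _ hs, bb_far]
          · show (-5 * z.im, q2) = (-5 * z.im, gam2.extend (-5 * z.im + -1))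
            rw [gam2.extend_of_le_zero (by linarith)]
          · rw [q1_re, q2_re]; norm_num [abs_of_pos]
        · rw [b2 _ _ hs, bb_self]; rfl
    have w1 : Φ' q1 q1 gam1 = W1 xx yy := by
      have := (cp_val hΦ' (letter q1 (-3/2)) (letter q1 (3/2)) (fun t => TT_SL (g1 t))
        (fun t => TT_SL (g2 t))).1
      rw [x1, y1] at this
      exact this
    have w2 : Φ' q2 q2 gam2 = W2 xx yy := by
      have m3 : ∀ t, letter q2 (-3/2) t ∈ SL := fun t => TT_SL (g3 t)
      have m4 : ∀ t, letter q2 (3/2) t ∈ SL := fun t => TT_SL (g4 t)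
      obtain ⟨a1, a2⟩ := cp_val hΦ' (letter q2 (-3/2)) (letter q2 (3/2)) m3 m4
      obtain ⟨c1, c2⟩ := cp_val hΦ' (letter q2 (3/2)) _ m4 a2
      obtain ⟨d1, d2⟩ := cp_val hΦ' (letter q2 (-3/2)) _ m3 c2
      obtain ⟨e1, e2⟩ := cp_val hΦ' _ _ a2 d2
      rw [d1, c1, a1, x2, y2] at e1
      exact e1
    constructor
    · rw [← w1, ← v1]
      apply F_eq
      intro t; rfl
    · rw [← w2, ← v2]
      apply F_eq
      intro t; rfl

end CM
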