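import Pool.Agent.Helper59.CM.StPF

/-!
Project CM, module POT (helper33): gluing of potentials.
-/

set_option autoImplicit false

namespace CM

open Set Topology unitInterval

theorem pPot (h : StGL) : StPot := by
  intro X Γ _ _ ι O φ hO hφ
  have h1 : ∀ i, IsPF (O i) (fun a b _ => (φ i a)⁻¹ * φ i b : PFun X Γ) := by
    intro i
    refine ⟨fun a b p q H hH => rfl, fun a b c p q hp hq => ?_⟩
    show (φ i a)⁻¹ * φ i c = (φ i a)⁻¹ * φ i b * ((φ i b)⁻¹ * φ i c)
    group
  have h2 : ∀ (i j : ι) (a b : X) (p : Path a b), (∀ t, p t ∈ O i ∩ O j) →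
      (φ i a)⁻¹ * φ i b = (φ j a)⁻¹ * φ j b := by
    intro i j a b p hp
    have hloc : IsLocallyConstant (fun t : I => φ j (p t) * (φ i (p t))⁻¹) := by
      rw [IsLocallyConstant.iff_eventually_eq]
      intro t
      exact (p.continuous.tendsto t).eventually (hφ i j (p t) (hp t))
    have key := hloc.apply_eq_of_preconnectedSpace 0 1
    simp only [Path.source, Path.target] at key
    have k2 : φ j b = φ j a * (φ i a)⁻¹ * φ i b := by rw [key]; group
    rw [k2]
    group
  exact h X Γ ι O (fun i a b _ => (φ i a)⁻¹ * φ i b) hO h1 h2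

end CM
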