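import Pool.Agent.Helper59.CM.StAlg

/-!
Project CM (MP_e9500f_gt), module ROOT: comparison of `d r^k` and `r^k d`.
-/

set_option autoImplicit false

namespace CM

namespace ROOT

theorem rep_zero (r : List Bool) : rep 0 r = [] := by simp [rep]

theorem rep_succ (k : ℕ) (r : List Bool) : rep (k + 1) r = r ++ rep k r := by
  simp [rep, List.replicate_succ]

theorem len_comm (u v : List Bool) : (u ++ v).length = (v ++ u).length := by
  simp [Nat.add_comm]

/-- `dr < rd` implies `d r^k < r^k d` for `k ≥ 1` -/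
theorem lt_rep (h : StWord) (d r : List Bool) (hlt : wlt (d ++ r) (r ++ d)) (k : ℕ) :
    wlt (d ++ rep (k + 1) r) (rep (k + 1) r ++ d) := by
  obtain ⟨-, htr, -, hcat⟩ := h
  induction k with
  | zero => simpa [rep_succ, rep_zero] using hlt
  | succ k ih =>
    have h1 : wlt ((d ++ r) ++ rep (k + 1) r) ((r ++ d) ++ rep (k + 1) r) :=
      (hcat (d ++ r) (r ++ d) _ _ (len_comm d r)).2 (Or.inl hlt)
    have h2 : wlt (r ++ (d ++ rep (k + 1) r)) (r ++ (rep (k + 1) r ++ d)) :=
      (hcat r r _ _ rfl).2 (Or.inr ⟨rfl, ih⟩)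
    rw [List.append_assoc, List.append_assoc] at h1
    have h3 := htr _ _ _ h1 h2
    rw [rep_succ (k + 1) r]
    rw [List.append_assoc]
    exact h3

/-- `rd < dr` implies `r^k d < d r^k` for `k ≥ 1` -/
theorem rep_lt (h : StWord) (d r : List Bool) (hlt : wlt (r ++ d) (d ++ r)) (k : ℕ) :
    wlt (rep (k + 1) r ++ d) (d ++ rep (k + 1) r) := by
  obtain ⟨-, htr, -, hcat⟩ := h
  induction k with
  | zero => simpa [rep_succ, rep_zero] using hlt
  | succ k ih =>
    have h1 : wlt ((r ++ d) ++ rep (k + 1) r) ((d ++ r) ++ rep (k + 1) r) :=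
      (hcat (r ++ d) (d ++ r) _ _ (len_comm r d)).2 (Or.inl hlt)
    have h2 : wlt (r ++ (rep (k + 1) r ++ d)) (r ++ (d ++ rep (k + 1) r)) :=
      (hcat r r _ _ rfl).2 (Or.inr ⟨rfl, ih⟩)
    rw [List.append_assoc, List.append_assoc] at h1
    have h3 := htr _ _ _ h2 h1
    rw [rep_succ (k + 1) r]
    rw [List.append_assoc]
    exact h3

end ROOT

open ROOT in
/-- ALG4b: comparison of `d r^k` and `r^k d`. -/
theorem pRoot (h : StWord) : StRoot := by
  intro d r k hk
  obtain ⟨j, rfl⟩ : ∃ j, k = j + 1 := ⟨k - 1, by omega⟩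
  refine ⟨?_, fun hlt => lt_rep h d r hlt j, fun hlt => rep_lt h d r hlt j⟩
  intro he
  by_contra hne
  have hir := h.1
  rcases h.2.2.1 (d ++ r) (r ++ d) (len_comm d r) hne with hlt | hlt
  · have := lt_rep h d r hlt j
    rw [he] at this
    exact hir _ this
  · have := rep_lt h d r hlt j
    rw [he] at this
    exact hir _ this

end CM
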