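import Pool.Agent.Helper59.CM.StAlg

/-!
Project CM (MP_e9500f_gt), module SGN: signs of the leading coefficients of `W(a,b) - 1`.
-/

set_option autoImplicit false

namespace CM

namespace SGN

open NS

/-- weight of a word: `true` counts one, `false` counts three -/
def wt : List Bool → ℕ
  | [] => 0
  | x :: s => (if x = true then 1 else 3) + wt s

theorem sw_nil (m n : List Bool) : sw m n [] = [] := rfl

theorem sw_cons (m n : List Bool) (x : Bool) (s : List Bool) :
    sw m n (x :: s) = (if x = true then m else n) ++ sw m n s := by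
  simp [sw]

theorem length_sw {m n : List Bool} (hn : n.length = 3 * m.length) (s : List Bool) :
    (sw m n s).length = wt s * m.length := by
  induction s with
  | nil => simp [sw_nil, wt]
  | cons x s ih =>
    rw [sw_cons, List.length_append, ih, wt, Nat.add_mul]
    cases x
    · simp [hn]
    · simp

theorem wt_zero {s : List Bool} (h : wt s = 0) : s = [] := by
  cases s with
  | nil => rfl
  | cons x s =>
    rw [wt] at h
    cases x <;> simp at h

/-- the order on the words in the letters -/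
def R (s t : List Bool) : Prop := wt s < wt t ∨ (wt s = wt t ∧ wlt s t)

theorem wlt_total (s : List Bool) : ∀ t : List Bool, wt s = wt t → s ≠ t → wlt s t ∨ wlt t s := by
  induction s with
  | nil =>
    intro t h hne
    exact absurd (wt_zero (by rw [← h]; rfl)).symm hne
  | cons x s ih =>
    intro t h hne
    cases t with
    | nil => exact absurd (wt_zero (by rw [h]; rfl)) hne
    | cons y t =>
      cases x <;> cases y
      · have h' : wt s = wt t := by simpa [wt] using h
        have hne' : s ≠ t := fun e => hne (by rw [e])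
        rcases ih t h' hne' with h1 | h1
        · exact Or.inl (Or.inr ⟨rfl, h1⟩)
        · exact Or.inr (Or.inr ⟨rfl, h1⟩)
      · exact Or.inl (Or.inl ⟨rfl, rfl⟩)
      · exact Or.inr (Or.inl ⟨rfl, rfl⟩)
      · have h' : wt s = wt t := by simpa [wt] using h
        have hne' : s ≠ t := fun e => hne (by rw [e])
        rcases ih t h' hne' with h1 | h1
        · exact Or.inl (Or.inr ⟨rfl, h1⟩)
        · exact Or.inr (Or.inr ⟨rfl, h1⟩)

theorem R_total {s t : List Bool} (hne : s ≠ t) : R s t ∨ R t s := by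
  rcases lt_trichotomy (wt s) (wt t) with h | h | h
  · exact Or.inl (Or.inl h)
  · rcases wlt_total s t h hne with h' | h'
    · exact Or.inl (Or.inr ⟨h, h'⟩)
    · exact Or.inr (Or.inr ⟨h.symm, h'⟩)
  · exact Or.inr (Or.inl h)

theorem wlt_sw (h1 : StWord) (h4 : StZ) {m n : List Bool} (hmn : wlt (m ++ n) (n ++ m))
    (hn : n.length = 3 * m.length) (s : List Bool) : ∀ t : List Bool, wt s = wt t → wlt s t →
    wlt (sw m n t) (sw m n s) := by
  induction s with
  | nil => intro t _ h; exact absurd h (by cases t <;> simp [wlt])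
  | cons x s ih =>
    intro t hw h
    cases t with
    | nil => exact absurd h (by simp [wlt])
    | cons y t =>
      rcases h with ⟨hx, hy⟩ | ⟨hxy, h⟩
      · subst hx; subst hy
        have hl : (sw m n (true :: t)).length = (sw m n (false :: s)).length := by
          rw [length_sw hn, length_sw hn, hw]
        rw [sw_cons, sw_cons] at hl ⊢
        simp only [if_true] at hl ⊢
        exact h4 m n hmn t s (by simpa using hl)
      · subst hxy
        have hw' : wt s = wt t := by
          rw [wt, wt] at hw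
          omega
        rw [sw_cons, sw_cons]
        exact (h1.2.2.2 _ _ _ _ rfl).2 (Or.inr ⟨rfl, ih t hw' h⟩)

theorem wlt_nil_left (v : List Bool) : ¬ wlt [] v := by cases v <;> simp [wlt]

theorem ne_nil_of (h1 : StWord) {m n : List Bool} (hmn : wlt (m ++ n) (n ++ m)) : m ≠ [] := by
  rintro rfl
  rw [List.nil_append, List.append_nil] at hmn
  exact h1.1 _ hmn

theorem before_sw (h1 : StWord) (h4 : StZ) {m n : List Bool} (hmn : wlt (m ++ n) (n ++ m))
    (hn : n.length = 3 * m.length) {s t : List Bool} (h : R s t) :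
    Before (sw m n s) (sw m n t) := by
  have hm : 0 < m.length := List.length_pos_iff.2 (ne_nil_of h1 hmn)
  rcases h with h | ⟨h, h'⟩
  · left
    rw [length_sw hn, length_sw hn]
    exact Nat.mul_lt_mul_of_pos_right h hm
  · right
    refine ⟨?_, wlt_sw h1 h4 hmn hn s t h h'⟩
    rw [length_sw hn, length_sw hn, h]

theorem before_irrefl (h1 : StWord) (v : List Bool) : ¬ Before v v := by
  rintro (h | ⟨_, h⟩)
  · exact lt_irrefl _ h
  · exact h1.1 v h

theorem before_trans (h1 : StWord) {u v w : List Bool} (a : Before u v) (b : Before v w) :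
    Before u w := by
  rcases a with a | ⟨a, a'⟩ <;> rcases b with b | ⟨b, b'⟩
  · exact Or.inl (a.trans b)
  · exact Or.inl (b ▸ a)
  · exact Or.inl (a ▸ b)
  · exact Or.inr ⟨a.trans b, h1.2.1 _ _ _ b' a'⟩

theorem sw_inj (h1 : StWord) (h4 : StZ) {m n : List Bool} (hmn : wlt (m ++ n) (n ++ m))
    (hn : n.length = 3 * m.length) {s t : List Bool} (h : sw m n s = sw m n t) : s = t := by
  by_contra hne
  rcases R_total hne with h' | h'
  · have := before_sw h1 h4 hmn hn h'
    rw [h] at this
    exact before_irrefl h1 _ this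
  · have := before_sw h1 h4 hmn hn h'
    rw [h] at this
    exact before_irrefl h1 _ this

/-- coefficient of the leading term of `s(p,q)` -/
def cf (α β : ℚ) : List Bool → ℚ
  | [] => 1
  | x :: s => (if x = true then α else β) * cf α β s

theorem cf_pos {α β α' β' : ℚ} (hα : 0 < α) (hβ : β < 0) (hα' : 0 < α') (hβ' : β' < 0)
    (s : List Bool) : 0 < cf α β s * cf α' β' s := by
  induction s with
  | nil => simp [cf]
  | cons x s ih =>
    rw [cf, cf]
    have e : (if x = true then α else β) * cf α β s * ((if x = true then α' else β') * cf α' β' s)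
        = ((if x = true then α else β) * (if x = true then α' else β')) *
          (cf α β s * cf α' β' s) := by ring
    rw [e]
    refine mul_pos ?_ ih
    cases x
    · simpa using mul_pos_of_neg_of_neg hβ hβ'
    · simpa using mul_pos hα hα'

theorem isLead_one : IsLead (1 : NS) [] 1 := by
  refine ⟨rfl, one_ne_zero, ?_⟩
  intro v hv
  rcases hv with hv | ⟨hv, hw⟩
  · simp at hv
  · have : v = [] := List.length_eq_zero_iff.1 (by simpa using hv)
    subst this
    exact absurd hw (by simp [wlt])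

theorem wp_nil (p q : NS) : wp p q [] = 1 := rfl

theorem wp_cons (p q : NS) (x : Bool) (s : List Bool) :
    wp p q (x :: s) = (if x = true then p else q) * wp p q s := by
  simp [wp]

theorem isLead_wp (h3 : StLead) {p q : NS} {m n : List Bool} {α β : ℚ} (hp : IsLead p m α)
    (hq : IsLead q n β) (s : List Bool) : IsLead (wp p q s) (sw m n s) (cf α β s) := by
  induction s with
  | nil => rw [wp_nil, sw_nil, cf]; exact isLead_one
  | cons x s ih =>
    rw [wp_cons, sw_cons, cf]
    cases x
    · simpa using h3.2.1 _ _ _ _ _ _ hq ih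
    · simpa using h3.2.1 _ _ _ _ _ _ hp ih

/-- the leading term of a substitution -/
theorem isLead_subst (h1 : StWord) (h3 : StLead) (h4 : StZ) {p q : NS} {m n : List Bool}
    {α β : ℚ} (hp : IsLead p m α) (hq : IsLead q n β) (hmn : wlt (m ++ n) (n ++ m))
    (hn : n.length = 3 * m.length) (F G : NS)
    (hG : ∀ w, co G w = ∑ᶠ s : List Bool, co F s * co (wp p q s) w)
    (s₀ : List Bool) (h0 : co F s₀ ≠ 0) (hmin : ∀ t, co F t ≠ 0 → t ≠ s₀ → R s₀ t) :
    IsLead G (sw m n s₀) (co F s₀ * cf α β s₀) := by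
  have hz : ∀ v, v = sw m n s₀ ∨ Before v (sw m n s₀) → ∀ s, s ≠ s₀ →
      co F s * co (wp p q s) v = 0 := by
    intro v hv s hs
    by_cases hF : co F s = 0
    · rw [hF, zero_mul]
    · have hb := before_sw h1 h4 hmn hn (hmin s hF hs)
      have hb' : Before v (sw m n s) := by
        rcases hv with rfl | hv
        · exact hb
        · exact before_trans h1 hv hb
      rw [(isLead_wp h3 hp hq s).2.2 v hb', mul_zero]
  have l0 := isLead_wp h3 hp hq s₀
  refine ⟨?_, mul_ne_zero h0 l0.2.1, ?_⟩
  · rw [hG, finsum_eq_single _ s₀ (hz _ (Or.inl rfl)), l0.1]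
  · intro v hv
    rw [hG]
    apply finsum_eq_zero_of_forall_eq_zero
    intro s
    by_cases hs : s = s₀
    · rw [hs, l0.2.2 v hv, mul_zero]
    · exact hz v (Or.inr hv) s hs

/-- a leading word of `F` with respect to the order `R` exists -/
theorem exists_min (h1 : StWord) (h2 : StLeadEx) (h4 : StZ) {m n : List Bool}
    (hmn : wlt (m ++ n) (n ++ m)) (hn : n.length = 3 * m.length) (F : NS) (hF : F ≠ 0) :
    ∃ s₀ : List Bool, co F s₀ ≠ 0 ∧ ∀ t, co F t ≠ 0 → t ≠ s₀ → R s₀ t := by
  classical
  obtain ⟨G, hG⟩ : ∃ G : NS, G = NS.mk fun w =>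
    if h : ∃ s, sw m n s = w then co F h.choose else 0 := ⟨_, rfl⟩
  have hGs : ∀ s, co G (sw m n s) = co F s := by
    intro s
    have hex : ∃ t, sw m n t = sw m n s := ⟨s, rfl⟩
    rw [hG, co_mk, dif_pos hex, sw_inj h1 h4 hmn hn hex.choose_spec]
  have hG0 : G ≠ 0 := by
    intro h
    apply hF
    ext s
    rw [← hGs s, h, co_zero, co_zero]
  obtain ⟨w, c, hw⟩ := h2 G hG0
  have hwe : ∃ s, sw m n s = w := by
    by_contra hne
    apply hw.2.1
    rw [← hw.1, hG, co_mk, dif_neg hne]
  obtain ⟨s₀, rfl⟩ := hwe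
  refine ⟨s₀, ?_, ?_⟩
  · rw [← hGs, hw.1]; exact hw.2.1
  · intro t ht hne
    rcases R_total hne with h | h
    · exfalso
      apply ht
      rw [← hGs]
      exact hw.2.2 _ (before_sw h1 h4 hmn hn h)
    · exact h

/-- `W(a,b)` is obtained from the Magnus series by substitution -/
theorem subst_hom (a b A B : UU) (θ : NS →+* NS) (ha : θ (sr A) = sr a) (hb : θ (sr B) = sr b)
    (W : F2) : θ (sr (hom2 A B W)) = sr (hom2 a b W) := by
  let S : UU →* NS := (Units.coeHom NS).comp UU.subtype
  have e : ((θ : NS →* NS).comp S).comp (hom2 A B) = S.comp (hom2 a b) := by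
    apply FreeGroup.ext_hom
    intro t
    cases t
    · show θ (sr (hom2 A B yy)) = sr (hom2 a b yy)
      rw [hom2_yy, hom2_yy, hb]
    · show θ (sr (hom2 A B xx)) = sr (hom2 a b xx)
      rw [hom2_xx, hom2_xx, ha]
  exact DFunLike.congr_fun e W

theorem one_side (h1 : StWord) (h3 : StLead) (h4 : StZ) (h5 : StSubst) (A B : UU)
    (hA : sr A = 1 + var true) (hB : sr B = 1 + var false) (a b : UU) (m n : List Bool)
    (α β : ℚ) (ha : LG a m α) (hb : LG b n β) (hmn : wlt (m ++ n) (n ++ m))
    (hn : n.length = 3 * m.length) (W : F2) (s₀ : List Bool)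
    (h0 : co (sr (hom2 A B W) - 1) s₀ ≠ 0)
    (hmin : ∀ t, co (sr (hom2 A B W) - 1) t ≠ 0 → t ≠ s₀ → R s₀ t) :
    LG (hom2 a b W) (sw m n s₀) (co (sr (hom2 A B W) - 1) s₀ * cf α β s₀) := by
  obtain ⟨θ, t1, t2, t3⟩ := h5 (sr a - 1) (sr b - 1)
    (by rw [co_sub, sr_nil, co_one_nil, sub_self]) (by rw [co_sub, sr_nil, co_one_nil, sub_self])
  have e1 : θ (sr A) = sr a := by rw [hA, map_add, map_one, t1]; abel
  have e2 : θ (sr B) = sr b := by rw [hB, map_add, map_one, t2]; abel
  have e3 : sr (hom2 a b W) - 1 = θ (sr (hom2 A B W) - 1) := by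
    rw [map_sub, map_one, subst_hom a b A B θ e1 e2 W]
  unfold LG
  refine isLead_subst h1 h3 h4 ha hb hmn hn _ _ ?_ s₀ h0 hmin
  intro w
  rw [e3]
  exact t3 _ w

end SGN

theorem pSgn (h1 : StWord) (h2 : StLeadEx) (h3 : StLead) (h4 : StZ) (h5 : StSubst)
    (h6 : StMagnus) : StSgn := by
  rintro a b a' b' ⟨m, n, α, β, la, lb, hmn, hn, hα, hβ⟩ ⟨m', n', α', β', la', lb', hmn', hn', hα', hβ'⟩
    W hW
  obtain ⟨A, B, hA, hB, -, hinj⟩ := h6
  have hF : sr (hom2 A B W) - 1 ≠ 0 := by
    intro h
    apply hinj W hW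
    apply sr_inj
    rw [sr_one]
    exact sub_eq_zero.1 h
  obtain ⟨s₀, h0, hmin⟩ := SGN.exists_min h1 h2 h4 hmn hn _ hF
  refine ⟨_, _, _, _, SGN.one_side h1 h3 h4 h5 A B hA hB a b m n α β la lb hmn hn W s₀ h0 hmin,
    SGN.one_side h1 h3 h4 h5 A B hA hB a' b' m' n' α' β' la' lb' hmn' hn' W s₀ h0 hmin, ?_⟩
  have e := SGN.cf_pos hα hβ hα' hβ' s₀
  have e' := mul_self_pos.2 h0
  have := mul_pos e' e
  calc (0 : ℚ) < _ := this
    _ = _ := by ring

theorem pSign (_h1 : StWord) (h2 : StComm) (h3 : StSgn) : StSign := by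
  intro a b a' b' hg hg' W hW g hc
  obtain ⟨w, w', c, c', l, l', hpos⟩ := h3 a b a' b' hg hg' W hW
  have k := h2.2.2.1 _ g _ _ (h2.2.1 _ _ _ l)
  rw [← hc] at k
  have := (h2.2.2.2.2.2 _ _ _ _ _ k l').2
  rw [← this] at hpos
  nlinarith [mul_self_nonneg c]

end CM
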