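import Pool.Agent.Helper59.CM.StAlg

/-!
Project CM (MP_e9500f_gt): module SUBST, substitution of noncommutative power series.
-/

set_option autoImplicit false

namespace CM

open NS

namespace SUBST

/-- truncated substitution -/
private noncomputable def T (p q : NS) : ℕ → NS → NS
  | 0, f => co f [] • 1
  | n + 1, f => co f [] • 1 + p * T p q n (D true f) + q * T p q n (D false f)

private theorem T_succ (p q : NS) (n : ℕ) (f : NS) : T p q (n + 1) f =
    co f [] • 1 + p * T p q n (D true f) + q * T p q n (D false f) := rfl

private theorem T_add (p q : NS) (n : ℕ) : ∀ f g : NS, T p q n (f + g) = T p q n f + T p q n g := by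
  induction n with
  | zero => intro f g; simp only [T, co_add, add_smul]
  | succ n ih =>
    intro f g
    simp only [T, co_add, add_smul, D_add, ih, mul_add]
    abel

private theorem T_smul (p q : NS) (n : ℕ) : ∀ (r : ℚ) (f : NS), T p q n (r • f) = r • T p q n f := by
  induction n with
  | zero => intro r f; simp only [T, co_smul, mul_smul]
  | succ n ih =>
    intro r f
    simp only [T, co_smul, mul_smul, D_smul, ih, mul_smul_comm, smul_add]

private theorem mul_congr {p : NS} (hp : co p [] = 0) {f g : NS} {w : List Bool}
    (h : ∀ v : List Bool, v.length < w.length → co f v = co g v) : co (p * f) w = co (p * g) w := by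
  rw [co_mul, co_mul]
  refine Finset.sum_congr rfl fun i hi => ?_
  rw [Finset.mem_range] at hi
  rcases Nat.eq_zero_or_pos i with h0 | h0
  · subst h0
    rw [List.take_zero, hp, zero_mul, zero_mul]
  · rcases Nat.eq_zero_or_pos w.length with h1 | h1
    · omega
    · rw [h (w.drop i) (by rw [List.length_drop]; omega)]

private theorem T_stable {p q : NS} (hp : co p [] = 0) (hq : co q [] = 0) (n : ℕ) :
    ∀ (f : NS) (w : List Bool), w.length ≤ n → co (T p q (n + 1) f) w = co (T p q n f) w := by
  induction n with
  | zero =>
    intro f w hw
    have hw' : w = [] := List.eq_nil_of_length_eq_zero (by omega)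
    subst hw'
    simp only [T, co_add, co_mul_nil, hp, hq, zero_mul, add_zero]
  | succ n ih =>
    intro f w hw
    rw [T_succ p q (n + 1) f, T_succ p q n f, co_add, co_add, co_add, co_add]
    rw [mul_congr hp (f := T p q (n + 1) (D true f)) (g := T p q n (D true f))
      (fun v hv => ih _ v (by omega)),
      mul_congr hq (f := T p q (n + 1) (D false f)) (g := T p q n (D false f))
      (fun v hv => ih _ v (by omega))]

private theorem T_stable' {p q : NS} (hp : co p [] = 0) (hq : co q [] = 0) (f : NS)
    (w : List Bool) (n : ℕ) (hw : w.length ≤ n) : co (T p q n f) w = co (T p q w.length f) w := by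
  induction n with
  | zero =>
    have h : w.length = 0 := by omega
    rw [h]
  | succ n ih =>
    rcases Nat.lt_or_ge n w.length with h | h
    · have h' : w.length = n + 1 := by omega
      rw [h']
    · rw [T_stable hp hq n f w h, ih h]

/-- the substitution -/
private noncomputable def th (p q : NS) (f : NS) : NS := NS.mk fun w => co (T p q w.length f) w

private theorem th_rec {p q : NS} (hp : co p [] = 0) (hq : co q [] = 0) (f : NS) :
    th p q f = co f [] • 1 + p * th p q (D true f) + q * th p q (D false f) := by
  ext w
  have h1 : co (th p q f) w = co (T p q w.length f) w := rfl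
  rw [h1, ← T_stable hp hq w.length f w le_rfl, T, co_add, co_add, co_add, co_add]
  rw [mul_congr hp (f := T p q w.length (D true f)) (g := th p q (D true f))
      (fun v hv => T_stable' hp hq _ v _ (by omega)),
      mul_congr hq (f := T p q w.length (D false f)) (g := th p q (D false f))
      (fun v hv => T_stable' hp hq _ v _ (by omega))]

private theorem th_add (p q : NS) (f g : NS) : th p q (f + g) = th p q f + th p q g := by
  ext w
  change co (T p q w.length (f + g)) w = co (T p q w.length f) w + co (T p q w.length g) w
  rw [T_add, co_add]

private theorem th_smul (p q : NS) (r : ℚ) (f : NS) : th p q (r • f) = r • th p q f := by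
  ext w
  change co (T p q w.length (r • f)) w = r * co (T p q w.length f) w
  rw [T_smul, co_smul]

private theorem th_zero (p q : NS) : th p q 0 = 0 := by
  have h := th_smul p q 0 0
  rwa [zero_smul, zero_smul] at h

private theorem th_one {p q : NS} (hp : co p [] = 0) (hq : co q [] = 0) : th p q 1 = 1 := by
  rw [th_rec hp hq, D_one, D_one, th_zero, mul_zero, mul_zero, add_zero, add_zero, co_one_nil,
    one_smul]

private theorem th_mul' {p q : NS} (hp : co p [] = 0) (hq : co q [] = 0) (n : ℕ) :
    ∀ (f g : NS) (w : List Bool), w.length = n →
      co (th p q (f * g)) w = co (th p q f * th p q g) w := by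
  induction n using Nat.strong_induction_on with
  | _ n ih =>
    intro f g w hw
    have h1 : co (p * th p q (D true f * g)) w = co (p * (th p q (D true f) * th p q g)) w :=
      mul_congr hp fun v hv => ih v.length (by omega) _ _ v rfl
    have h2 : co (q * th p q (D false f * g)) w = co (q * (th p q (D false f) * th p q g)) w :=
      mul_congr hq fun v hv => ih v.length (by omega) _ _ v rfl
    rw [th_rec hp hq (f * g), D_mul, D_mul, th_add, th_add, th_smul, th_smul, mul_add, mul_add,
      mul_smul_comm, mul_smul_comm, co_add, co_add, co_add, co_add, co_smul, co_smul, co_smul,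
      co_mul_nil, h1, h2]
    have h3 : th p q f * th p q g = co f [] • th p q g + p * (th p q (D true f) * th p q g) +
        q * (th p q (D false f) * th p q g) := by
      conv_lhs => rw [th_rec hp hq f]
      rw [add_mul, add_mul, smul_mul_assoc, one_mul, mul_assoc, mul_assoc]
    have h4 : co (th p q g) w = co g [] * co 1 w + co (p * th p q (D true g)) w +
        co (q * th p q (D false g)) w := by
      conv_lhs => rw [th_rec hp hq g]
      rw [co_add, co_add, co_smul]
    rw [h3, co_add, co_add, co_smul, h4]
    ring

private theorem th_mul {p q : NS} (hp : co p [] = 0) (hq : co q [] = 0) (f g : NS) :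
    th p q (f * g) = th p q f * th p q g := by
  ext w
  exact th_mul' hp hq w.length f g w rfl

private theorem th_var_true {p q : NS} (hp : co p [] = 0) (hq : co q [] = 0) :
    th p q (var true) = p := by
  have h1 : D true (var true) = 1 := by
    ext w
    rw [co_D, co_one]
    change (if true :: w = [true] then (1 : ℚ) else 0) = _
    by_cases h : w = []
    · rw [if_pos h, if_pos (by rw [h])]
    · rw [if_neg h, if_neg (by simpa using h)]
  have h2 : D false (var true) = 0 := by
    ext w
    rw [co_D, co_zero]
    change (if false :: w = [true] then (1 : ℚ) else 0) = _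
    rw [if_neg (by simp)]
  have h3 : co (var true) [] = 0 := by
    change (if ([] : List Bool) = [true] then (1 : ℚ) else 0) = _
    rw [if_neg (by simp)]
  rw [th_rec hp hq, h1, h2, h3, th_one hp hq, th_zero, zero_smul, mul_one, mul_zero, zero_add,
    add_zero]

private theorem th_var_false {p q : NS} (hp : co p [] = 0) (hq : co q [] = 0) :
    th p q (var false) = q := by
  have h1 : D false (var false) = 1 := by
    ext w
    rw [co_D, co_one]
    change (if false :: w = [false] then (1 : ℚ) else 0) = _
    by_cases h : w = []
    · rw [if_pos h, if_pos (by rw [h])]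
    · rw [if_neg h, if_neg (by simpa using h)]
  have h2 : D true (var false) = 0 := by
    ext w
    rw [co_D, co_zero]
    change (if true :: w = [false] then (1 : ℚ) else 0) = _
    rw [if_neg (by simp)]
  have h3 : co (var false) [] = 0 := by
    change (if ([] : List Bool) = [false] then (1 : ℚ) else 0) = _
    rw [if_neg (by simp)]
  rw [th_rec hp hq, h1, h2, h3, th_one hp hq, th_zero, zero_smul, mul_one, mul_zero, zero_add,
    zero_add]

/-- words of length at most `n` -/
private def Wd : ℕ → Finset (List Bool)
  | 0 => {[]}
  | n + 1 => insert [] ((Wd n).map ⟨List.cons true, List.cons_injective⟩ ∪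
      (Wd n).map ⟨List.cons false, List.cons_injective⟩)

private theorem mem_Wd (n : ℕ) : ∀ s : List Bool, s ∈ Wd n ↔ s.length ≤ n := by
  induction n with
  | zero =>
    intro s
    rw [Wd, Finset.mem_singleton, Nat.le_zero, List.length_eq_zero_iff]
  | succ n ih =>
    intro s
    rw [Wd, Finset.mem_insert, Finset.mem_union, Finset.mem_map, Finset.mem_map]
    cases s with
    | nil => simp
    | cons x s =>
      cases x <;> simp [ih]

private theorem T_sum (p q : NS) (n : ℕ) : ∀ (f : NS) (w : List Bool),
    co (T p q n f) w = ∑ s ∈ Wd n, co f s * co (wp p q s) w := by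
  induction n with
  | zero =>
    intro f w
    rw [T, Wd, Finset.sum_singleton, co_smul]
    rfl
  | succ n ih =>
    intro f w
    have hd : Disjoint ((Wd n).map ⟨List.cons true, List.cons_injective⟩)
        ((Wd n).map ⟨List.cons false, List.cons_injective⟩) := by
      rw [Finset.disjoint_left]
      intro s hs hs'
      rw [Finset.mem_map] at hs hs'
      obtain ⟨a, _, rfl⟩ := hs
      obtain ⟨b, _, hb⟩ := hs'
      simp at hb
    have hn : ([] : List Bool) ∉ (Wd n).map ⟨List.cons true, List.cons_injective⟩ ∪
        (Wd n).map ⟨List.cons false, List.cons_injective⟩ := by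
      simp
    have hx : ∀ (r : NS) (x : Bool), co (r * T p q n (D x f)) w =
        ∑ s ∈ Wd n, co f (x :: s) * co (r * wp p q s) w := by
      intro r x
      rw [co_mul]
      have e : ∀ s ∈ Wd n, co f (x :: s) * co (r * wp p q s) w =
          ∑ i ∈ Finset.range (w.length + 1),
            co r (w.take i) * (co (D x f) s * co (wp p q s) (w.drop i)) := by
        intro s _
        rw [co_mul, Finset.mul_sum]
        refine Finset.sum_congr rfl fun i _ => ?_
        rw [co_D]
        ring
      rw [Finset.sum_congr rfl e, Finset.sum_comm]
      refine Finset.sum_congr rfl fun i _ => ?_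
      rw [ih, Finset.mul_sum]
    rw [T, Wd, Finset.sum_insert hn, Finset.sum_union hd, Finset.sum_map, Finset.sum_map, co_add,
      co_add, co_smul, hx p true, hx q false, add_assoc]
    rfl

private theorem co_wp {p q : NS} (hp : co p [] = 0) (hq : co q [] = 0) :
    ∀ (s w : List Bool), w.length < s.length → co (wp p q s) w = 0 := by
  intro s
  induction s with
  | nil => intro w hw; simp at hw
  | cons x s ih =>
    intro w hw
    have e : wp p q (x :: s) = (if x = true then p else q) * wp p q s := by
      rw [wp, List.map_cons, List.prod_cons]
      rfl
    rw [e, mul_congr (g := 0) (by cases x <;> simp [hp, hq])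
      (fun v hv => by
        rw [ih v (by rw [List.length_cons] at hw; omega), co_zero]), mul_zero, co_zero]

end SUBST

open SUBST in
theorem pSubst : StSubst := by
  intro p q hp hq
  refine ⟨{ toFun := th p q
            map_one' := th_one hp hq
            map_mul' := th_mul hp hq
            map_zero' := th_zero p q
            map_add' := th_add p q }, th_var_true hp hq, th_var_false hp hq, ?_⟩
  intro f w
  change co (T p q w.length f) w = _
  rw [T_sum, finsum_eq_sum_of_support_subset]
  intro s hs
  rw [Function.mem_support] at hs
  rw [Finset.mem_coe, mem_Wd]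
  by_contra h
  exact hs (by rw [co_wp hp hq s w (by omega), mul_zero])

end CM
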