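import Pool.Agent.Helper59.CM.StGeo

set_option autoImplicit false

namespace CM

namespace TEL

open Set Topology unitInterval

noncomputable def phi (k : ℕ) (t : ℝ) : ℝ := max 0 (min 1 (((k : ℝ) + 2) * (((k : ℝ) + 1) * t - k)))

theorem phi_mem (k : ℕ) (t : ℝ) : phi k t ∈ Icc (0 : ℝ) 1 :=
  ⟨le_max_left _ _, max_le zero_le_one (min_le_left _ _)⟩

theorem phi_cont (k : ℕ) : Continuous (phi k) := by unfold phi; fun_prop

theorem phi_zero (k : ℕ) : phi k 0 = 0 := by
  unfold phi
  have hk : (0 : ℝ) ≤ k := Nat.cast_nonneg k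
  apply max_eq_left
  refine (min_le_right _ _).trans ?_
  nlinarith

theorem phi_one (k : ℕ) : phi k 1 = 1 := by
  unfold phi
  have hk : (0 : ℝ) ≤ k := Nat.cast_nonneg k
  rw [min_eq_left, max_eq_right zero_le_one]
  nlinarith

theorem phi_step {k n : ℕ} (h : k < n) {t : ℝ} (ht : phi k t < 1) : phi n t = 0 := by
  unfold phi at ht ⊢
  have hk : (0 : ℝ) ≤ k := Nat.cast_nonneg k
  have hn : (k : ℝ) + 1 ≤ n := by exact_mod_cast h
  have h1 : ((k : ℝ) + 2) * (((k : ℝ) + 1) * t - k) < 1 := by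
    by_contra hc
    push Not at hc
    rw [min_eq_left hc, max_eq_right zero_le_one] at ht
    exact lt_irrefl _ ht
  have h2 : ((k : ℝ) + 2) * t < (k : ℝ) + 1 := by
    by_contra hc
    push Not at hc
    nlinarith
  have h3 : ((n : ℝ) + 1) * t ≤ n := by
    by_contra hc
    push Not at hc
    nlinarith
  apply max_eq_left
  refine (min_le_right _ _).trans ?_
  nlinarith

open Classical in
noncomputable def CC {X : Type} (K : ℕ → Set X) (c : ℕ → X × ℝ → X) (u : ℕ → X → ℝ) (k : ℕ)
    (p : X × ℝ) : X :=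
  if p.1 ∈ K (2 * k + 1) then c (2 * k + 1) (p.1, p.2 * u k p.1) else p.1

noncomputable def FF {X : Type} (K : ℕ → Set X) (c : ℕ → X × ℝ → X) (u : ℕ → X → ℝ) :
    ℕ → X × ℝ → X
  | 0, p => p.1
  | n + 1, p => CC K c u n (FF K c u n p, phi n p.2)

end TEL

open TEL Set Topology unitInterval in
theorem pTel : StTel := by
  intro X _ _ x₀ U K c hUo hKc hUK hKU hcov hx₀ hc h01 hfix hmem
  have hUmono : Monotone U := monotone_nat_of_le_succ fun n => (hUK n).trans (hKU n)
  have hx₀U : ∀ n, x₀ ∈ U n := fun n => hUmono (Nat.zero_le n) hx₀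
  have hury : ∀ k : ℕ, ∃ f : C(X, ℝ), EqOn f 0 (U (2 * k + 1))ᶜ ∧ EqOn f 1 (K (2 * k)) ∧
      ∀ x, f x ∈ Icc (0 : ℝ) 1 := by
    intro k
    apply exists_continuous_zero_one_of_isClosed (hUo _).isClosed_compl (hKc _)
    rw [Set.disjoint_left]
    intro x hx hx'
    exact hx (hKU _ hx')
  choose u hu0 hu1 huI using hury
  have hC : ∀ k, ContinuousOn (CC K c (fun k => u k) k) (univ ×ˢ Icc (0 : ℝ) 1) := by
    intro k
    have hA : ContinuousOn (CC K c (fun k => u k) k) (K (2 * k + 1) ×ˢ Icc (0 : ℝ) 1) := by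
      have h1 : ContinuousOn (fun p : X × ℝ => c (2 * k + 1) (p.1, p.2 * u k p.1))
          (K (2 * k + 1) ×ˢ Icc (0 : ℝ) 1) := by
        refine (hc (2 * k + 1)).comp (f := fun p : X × ℝ => (p.1, p.2 * u k p.1)) ?_ ?_
        · exact Continuous.continuousOn (by fun_prop)
        · rintro ⟨x, s⟩ ⟨hx, hs⟩
          exact ⟨hx, mul_nonneg hs.1 (huI k x).1, mul_le_one₀ hs.2 (huI k x).1 (huI k x).2⟩
      refine h1.congr ?_
      rintro ⟨x, s⟩ ⟨hx, hs⟩
      simp only [CC]
      rw [if_pos hx]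
    have hB : ContinuousOn (CC K c (fun k => u k) k) ((U (2 * k + 1))ᶜ ×ˢ Icc (0 : ℝ) 1) := by
      refine (continuous_fst.continuousOn).congr ?_
      rintro ⟨x, s⟩ ⟨hx, hs⟩
      simp only [CC]
      split_ifs with h
      · have : u k x = 0 := hu0 k hx
        rw [this, mul_zero]
        exact (h01 _ x h).1
      · rfl
    have hAc : IsClosed (K (2 * k + 1) ×ˢ Icc (0 : ℝ) 1) := (hKc _).prod isClosed_Icc
    have hBc : IsClosed ((U (2 * k + 1))ᶜ ×ˢ Icc (0 : ℝ) 1) :=
      (hUo _).isClosed_compl.prod isClosed_Icc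
    have := hA.union_of_isClosed hB hAc hBc
    refine this.mono ?_
    rintro ⟨x, s⟩ ⟨_, hs⟩
    by_cases hx : x ∈ K (2 * k + 1)
    · exact Or.inl ⟨hx, hs⟩
    · exact Or.inr ⟨fun h => hx (hUK _ h), hs⟩
  have hF : ∀ n, Continuous (FF K c (fun k => u k) n) := by
    intro n
    induction n with
    | zero => exact continuous_fst
    | succ n ih =>
      have : Continuous (fun p : X × ℝ => ((FF K c (fun k => u k) n p, phi n p.2) : X × ℝ)) :=
        ih.prodMk ((phi_cont n).comp continuous_snd)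
      exact (hC n).comp_continuous this (fun p => ⟨mem_univ _, phi_mem n _⟩)
  -- elementary facts
  have hC0 : ∀ k x, CC K c (fun k => u k) k (x, 0) = x := by
    intro k x
    simp only [CC]
    split_ifs with h
    · rw [zero_mul]; exact (h01 _ x h).1
    · rfl
  have hC1 : ∀ k x, x ∈ U (2 * k) → CC K c (fun k => u k) k (x, 1) = x₀ := by
    intro k x hx
    have hxK : x ∈ K (2 * k) := hUK _ hx
    have hxK' : x ∈ K (2 * k + 1) := hUK _ (hKU _ hxK)
    simp only [CC]
    rw [if_pos hxK', hu1 k hxK]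
    simp only [Pi.one_apply, mul_one]
    exact (h01 _ x hxK').2
  have hCx₀ : ∀ k, ∀ s ∈ Icc (0 : ℝ) 1, CC K c (fun k => u k) k (x₀, s) = x₀ := by
    intro k s hs
    simp only [CC]
    split_ifs with h
    · exact hfix _ _ ⟨mul_nonneg hs.1 (huI k _).1, mul_le_one₀ hs.2 (huI k _).1 (huI k _).2⟩
    · rfl
  have hCU : ∀ k m, k < m → ∀ x ∈ U (2 * m), ∀ s ∈ Icc (0 : ℝ) 1,
      CC K c (fun k => u k) k (x, s) ∈ U (2 * m) := by
    intro k m hkm x hx s hs
    simp only [CC]
    split_ifs with h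
    · exact hUmono (by omega) (hmem (2 * k + 1) x h _
        ⟨mul_nonneg hs.1 (huI k _).1, mul_le_one₀ hs.2 (huI k _).1 (huI k _).2⟩)
    · exact hx
  have hFU : ∀ m x t, x ∈ U (2 * m) → ∀ n ≤ m, FF K c (fun k => u k) n (x, t) ∈ U (2 * m) := by
    intro m x t hx n
    induction n with
    | zero => intro _; exact hx
    | succ n ih =>
      intro hn
      exact hCU n m (by omega) _ (ih (by omega)) _ (phi_mem n _)
  have hFconst : ∀ m x t, x ∈ U (2 * m) → ∀ n, m + 1 ≤ n →
      FF K c (fun k => u k) n (x, t) = FF K c (fun k => u k) (m + 1) (x, t) := by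
    intro m x t hx
    by_cases ht : phi m t < 1
    · intro n hn
      induction n, hn using Nat.le_induction with
      | base => rfl
      | succ n hn ih =>
        have h0 : phi n t = 0 := phi_step (by omega) ht
        rw [← ih]
        simp only [FF]
        rw [h0, hC0]
    · have h1 : phi m t = 1 := le_antisymm (phi_mem m t).2 (not_lt.1 ht)
      have hb : FF K c (fun k => u k) (m + 1) (x, t) = x₀ := by
        simp only [FF]
        rw [h1]
        exact hC1 m _ (hFU m x t hx m le_rfl)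
      intro n hn
      rw [hb]
      induction n, hn using Nat.le_induction with
      | base => exact hb
      | succ n hn ih =>
        simp only [FF]
        rw [ih]
        exact hCx₀ n _ (phi_mem n _)
  have hex : ∀ x, ∃ n, x ∈ U (2 * n) := by
    intro x
    have : x ∈ ⋃ n, U n := by rw [hcov]; trivial
    obtain ⟨n, hn⟩ := mem_iUnion.1 this
    exact ⟨n, hUmono (by omega) hn⟩
  choose N hN using hex
  have hagree : ∀ m x t, x ∈ U (2 * m) →
      FF K c (fun k => u k) (N x + 1) (x, t) = FF K c (fun k => u k) (m + 1) (x, t) := by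
    intro m x t hx
    rw [← hFconst (N x) x t (hN x) (max (N x + 1) (m + 1)) (le_max_left _ _),
      ← hFconst m x t hx (max (N x + 1) (m + 1)) (le_max_right _ _)]
  have hHcont : Continuous (fun p : I × X =>
      FF K c (fun k => u k) (N p.2 + 1) (p.2, (p.1 : ℝ))) := by
    rw [continuous_iff_continuousAt]
    rintro ⟨t, x⟩
    have h1 : ContinuousAt (fun p : I × X => FF K c (fun k => u k) (N x + 1) (p.2, (p.1 : ℝ)))
        (t, x) := by
      apply Continuous.continuousAt
      exact (hF _).comp (continuous_snd.prodMk (continuous_subtype_val.comp continuous_fst))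
    refine h1.congr ?_
    have h2 : (Prod.snd ⁻¹' (U (2 * N x)) : Set (I × X)) ∈ 𝓝 ((t, x) : I × X) :=
      ((hUo _).preimage continuous_snd).mem_nhds (hN x)
    filter_upwards [h2] with p hp
    exact (hagree (N x) p.2 p.1 hp).symm
  rw [contractible_iff_id_nullhomotopic]
  refine ⟨x₀, ⟨⟨⟨_, hHcont⟩, ?_, ?_⟩⟩⟩
  · intro x
    show FF K c (fun k => u k) (N x + 1) (x, ((0 : I) : ℝ)) = x
    have : ∀ n, FF K c (fun k => u k) n (x, (0 : ℝ)) = x := by
      intro n
      induction n with
      | zero => rfl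
      | succ n ih =>
        simp only [FF]
        rw [ih, phi_zero, hC0]
    exact this _
  · intro x
    show FF K c (fun k => u k) (N x + 1) (x, ((1 : I) : ℝ)) = x₀
    simp only [FF]
    rw [show ((1 : I) : ℝ) = 1 from rfl, phi_one]
    exact hC1 _ _ (hFU _ _ _ (hN x) _ le_rfl)

end CM
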