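import Pool.Agent.Helper59.CM.StMain

/-!
Project CM (MP_e9500f_gt): module TOWER.
-/

set_option autoImplicit false

namespace CM

namespace TOWER

open Set Topology unitInterval

/-- positions of the planar loops -/
def PP : Set ℂ := {q | |q.re| ≤ 4 ∧ |q.im| ≤ 2 ∧ (|q.im| = 2 ∨ |q.re| = 3/2 ∨ |q.re| = 4)}

theorem seg_h {a b : ℝ} {h : ℝ} (ha : |a| ≤ 4) (hb : |b| ≤ 4) (hh : |h| = 2) {u v : ℂ}
    (hu : u = ⟨a, h⟩) (hv : v = ⟨b, h⟩) (t : I) : Path.segment u v t ∈ PP := by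
  have h0 := t.2.1
  have h1 := t.2.2
  subst hu hv
  have e1 : (Path.segment (⟨a, h⟩ : ℂ) ⟨b, h⟩ t).re = (t : ℝ) * (b - a) + a := by
    simp [Path.segment_apply, AffineMap.lineMap_apply]
  have e2 : (Path.segment (⟨a, h⟩ : ℂ) ⟨b, h⟩ t).im = h := by
    simp [Path.segment_apply, AffineMap.lineMap_apply]
  refine ⟨?_, ?_, Or.inl ?_⟩
  · rw [e1]
    rw [abs_le] at ha hb ⊢
    constructor <;> nlinarith
  · rw [e2, hh]
  · rw [e2, hh]

theorem seg_v {a : ℝ} {h k : ℝ} (ha : |a| = 3/2 ∨ |a| = 4) (hh : |h| ≤ 2) (hk : |k| ≤ 2) {u v : ℂ}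
    (hu : u = ⟨a, h⟩) (hv : v = ⟨a, k⟩) (t : I) : Path.segment u v t ∈ PP := by
  have h0 := t.2.1
  have h1 := t.2.2
  subst hu hv
  have e1 : (Path.segment (⟨a, h⟩ : ℂ) ⟨a, k⟩ t).re = a := by
    simp [Path.segment_apply, AffineMap.lineMap_apply]
  have e2 : (Path.segment (⟨a, h⟩ : ℂ) ⟨a, k⟩ t).im = (t : ℝ) * (k - h) + h := by
    simp [Path.segment_apply, AffineMap.lineMap_apply]
  refine ⟨?_, ?_, Or.inr ?_⟩
  · rw [e1]
    rcases ha with h | h <;> rw [h] <;> norm_num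
  · rw [e2]
    rw [abs_le] at hh hk ⊢
    constructor <;> nlinarith
  · rw [e1]; exact ha

theorem ploop_mem {g c : ℝ} (hg : |g| = 3/2) (hc : |c| = 4) (t : I) : ploop g c t ∈ PP := by
  have u0 : up = ⟨0, 2⟩ := rfl
  have u1 : ((g : ℂ) + up) = ⟨g, 2⟩ := by apply Complex.ext <;> simp [up]
  have u2 : ((g : ℂ) - up) = ⟨g, -2⟩ := by apply Complex.ext <;> simp [up]
  have u3 : ((c : ℂ) - up) = ⟨c, -2⟩ := by apply Complex.ext <;> simp [up]
  have u4 : ((c : ℂ) + up) = ⟨c, 2⟩ := by apply Complex.ext <;> simp [up]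
  have g4 : |g| ≤ 4 := by rw [hg]; norm_num
  have c4 : |c| ≤ 4 := hc.le
  have z4 : |(0 : ℝ)| ≤ 4 := by norm_num
  have a2 : |(2 : ℝ)| = 2 := by norm_num
  have a2' : |(-2 : ℝ)| = 2 := by norm_num
  revert t
  unfold ploop
  refine trans_mem (fun t => seg_h z4 g4 a2 u0 u1 t) (trans_mem (fun t => seg_v (Or.inl hg) a2.le a2'.le u1 u2 t)
    (trans_mem (fun t => seg_h g4 c4 a2' u2 u3 t) (trans_mem (fun t => seg_v (Or.inr hc) a2'.le a2.le u3 u4 t)
      (fun t => seg_h c4 z4 a2 u4 u0 t))))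

theorem PP_box {q : ℂ} (h : q ∈ PP) :
    ((0, q) : E) ∈ {p : E | |p.1| < 1 ∧ |p.2.re| < 5 ∧ |p.2.im| < 5} := by
  refine ⟨?_, ?_, ?_⟩
  · simp
  · exact lt_of_le_of_lt h.1 (by norm_num)
  · exact lt_of_le_of_lt h.2.1 (by norm_num)

theorem PP_out {q : ℂ} (h : q ∈ PP) : ((0, q) : E) ∉ K0 := by
  rintro ⟨_, h1, h2, h3⟩
  have h1' : |q.re| ≤ 3 := h1
  have h2' : |q.im| ≤ 1 := h2
  have h3' : 3 ≤ |(0 : ℝ)| ∨ |q.re| ≤ 1 ∨ 2 ≤ |q.re| := h3
  rw [abs_zero] at h3'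
  rcases h.2.2 with h4 | h4 | h4
  · linarith
  · rcases h3' with h3 | h3 | h3 <;> linarith
  · linarith

theorem LX_mem (t : I) : LX t ∈ {p : E | |p.1| < 1 ∧ |p.2.re| < 5 ∧ |p.2.im| < 5} ∧ LX t ∉ K0 := by
  have h : ploop (-3/2) (-4) t ∈ PP := ploop_mem (by rw [abs_of_neg] <;> norm_num)
    (by rw [abs_of_neg] <;> norm_num) t
  exact ⟨PP_box h, PP_out h⟩

theorem LY_mem (t : I) : LY t ∈ {p : E | |p.1| < 1 ∧ |p.2.re| < 5 ∧ |p.2.im| < 5} ∧ LY t ∉ K0 := by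
  have h : ploop (3/2) 4 t ∈ PP := ploop_mem (by rw [abs_of_pos] <;> norm_num)
    (by rw [abs_of_pos] <;> norm_num) t
  exact ⟨PP_box h, PP_out h⟩

/-- lift of a path to a subspace -/
def lift {X : Type} [TopologicalSpace X] {M : Set X} {a b : X} (γ : Path a b) (h : ∀ t, γ t ∈ M)
    (ha : a ∈ M) (hb : b ∈ M) : Path (⟨a, ha⟩ : ↥M) ⟨b, hb⟩ where
  toFun t := ⟨γ t, h t⟩
  continuous_toFun := γ.continuous.subtype_mk _
  source' := Subtype.ext γ.source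
  target' := Subtype.ext γ.target

theorem lift_map {X : Type} [TopologicalSpace X] {M : Set X} {a b : X} (γ : Path a b)
    (h : ∀ t, γ t ∈ M) (ha : a ∈ M) (hb : b ∈ M) :
    (lift γ h ha hb).map continuous_subtype_val = γ := by
  ext t; rfl

end TOWER

open Set Topology unitInterval TOWER in
theorem pTower (h1 : StConv) (h2 : StRho) (h3 : StBf) (h4 : StOO) (h5 : StContr) (h6 : StFill)
    (h7 : StConn) (h8 : StPhi) : StTower := by
  obtain ⟨R, hR, -⟩ := h2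
  obtain ⟨⟨B, hB⟩, -⟩ := h3
  obtain ⟨hKO, hOG, hbG, hG0, hHK, h0H, hKc, hHo, hOo⟩ := h4
  obtain ⟨hcon, hMo, hGM, hOM, hbM⟩ := h5
  obtain ⟨Φ', hΦ, hΦx, hΦy, hΦG⟩ := h8
  set GE : E ≃ₜ E := R.trans B with hGE
  have hGf : ⇑GE = Gf := by
    funext x
    show B (R x) = Gf x
    rw [hR, hB]; rfl
  have hiff : ∀ x, x ∈ MM ↔ GE x ∈ MM := by
    intro x
    rw [hGf]
    constructor
    · intro hx; rw [← hGM]; exact ⟨x, hx, rfl⟩
    · intro hx
      rw [← hGM] at hx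
      obtain ⟨y, hy, hyx⟩ := hx
      have : GE y = GE x := by rw [hGf]; exact hyx
      rw [← GE.injective this]; exact hy
  let G : ↥MM ≃ₜ ↥MM := GE.subtype hiff
  have hGv : ∀ x : ↥MM, (G x : E) = Gf x := fun x => by
    show GE x = Gf x
    rw [hGf]
  have hKM : K0 ⊆ MM := fun x hx => hOM (hKO hx)
  have hptM : pt ∈ MM := hbM (by have := (LX_mem 0).1; rwa [LX.source] at this)
  let K : Set ↥MM := Subtype.val ⁻¹' K0
  have himg : Subtype.val '' Kᶜ = MM \ K0 := by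
    ext x
    constructor
    · rintro ⟨y, hy, rfl⟩
      exact ⟨y.2, hy⟩
    · rintro ⟨hx, hx'⟩
      exact ⟨⟨x, hx⟩, hx', rfl⟩
  let p : ↥MM := ⟨pt, hptM⟩
  let lx : Path p p := lift LX (fun t => hbM (LX_mem t).1) hptM hptM
  let ly : Path p p := lift LY (fun t => hbM (LY_mem t).1) hptM hptM
  have lxm : ∀ t, lx t ∈ Kᶜ := fun t => (LX_mem t).2
  have lym : ∀ t, ly t ∈ Kᶜ := fun t => (LY_mem t).2
  have hfill : ∀ F : PFun ↥MM (Multiplicative ℝ), IsPF Kᶜ F → F p p lx = 1 → F p p ly = 1 →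
      IsExact Kᶜ F := by
    intro F hF hx hy
    obtain ⟨F', hF', hFe⟩ := h1 E (Multiplicative ℝ) MM Kᶜ F hF
    rw [himg] at hF'
    obtain ⟨g, hg⟩ := h6 (Multiplicative ℝ) F' hF' (by
      have := hFe p p lx lxm
      rw [hx] at this
      exact this) (by
      have := hFe p p ly lym
      rw [hy] at this
      exact this)
    refine ⟨fun x => g x.1, fun a b q hq => ?_⟩
    rw [← hFe a b q hq]
    exact hg _ _ _ (fun t => ⟨(q t).2, hq t⟩)
  refine ⟨{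
    G := G
    K := K
    compact := ?_
    closed := hKc.isClosed.preimage continuous_subtype_val
    mono := ?_
    exhaust := ?_
    conn := ?_
    p := p
    lx := lx
    ly := ly
    lx_mem := lxm
    ly_mem := lym
    fill := hfill
    Φ := pull ⟨Subtype.val, continuous_subtype_val⟩ Φ'
    Φ_pf := ?_
    Φx := ?_
    Φy := ?_
    ΦGx := ?_
    ΦGy := ?_ }⟩
  · rw [Subtype.isCompact_iff]
    have : Subtype.val '' K = K0 := by
      rw [Subtype.image_preimage_coe]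
      exact inter_eq_right.mpr hKM
    rw [this]; exact hKc
  · intro x hx
    rw [mem_interior]
    refine ⟨Subtype.val ⁻¹' OO, ?_, hOo.preimage continuous_subtype_val, hKO hx⟩
    intro y hy
    obtain ⟨z, hz, hzy⟩ := hOG hy
    refine ⟨⟨z, hKM (hHK hz)⟩, hHK hz, Subtype.ext ?_⟩
    rw [hGv]; exact hzy
  · intro x
    have hx := x.2
    unfold MM at hx
    rw [mem_iUnion] at hx
    obtain ⟨n, y, hy, hyx⟩ := hx
    refine ⟨n, ⟨y, hKM (hHK hy)⟩, hHK hy, Subtype.ext ?_⟩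
    have hs : Function.Semiconj (Subtype.val : ↥MM → E) (⇑G) Gf := fun z => hGv z
    rw [(hs.iterate_right n) _]
    exact hyx
  · intro x hx y hy
    obtain ⟨γ, hγ⟩ := h7 x.1 ⟨x.2, hx⟩ y.1 ⟨y.2, hy⟩
    exact ⟨lift γ (fun t => (hγ t).1) x.2 y.2, fun t => (hγ t).2⟩
  · exact (hΦ.pull ⟨Subtype.val, continuous_subtype_val⟩).mono (fun x hx => hx)
  · exact hΦx
  · exact hΦy
  · exact (hΦG ⟨⇑GE, GE.continuous⟩ hGf).1
  · exact (hΦG ⟨⇑GE, GE.continuous⟩ hGf).2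

end CM
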