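import Pool.Agent.Helper59.CM.StMain

/-! Project CM, module TRANS: invariance of `IsBranched2` under homeomorphisms of the source. -/

set_option autoImplicit false

namespace CM

open Set Topology unitInterval

theorem pTrans : StTrans := by
  intro X X' _ _ h f hf
  refine ⟨hf.cont.comp h.continuous, hf.surj.comp h.surjective, hf.proper.comp h.isProperMap,
    ?_, ?_⟩
  · intro y
    haveI := hf.disc y
    have hc : Continuous (fun x : ↥((f ∘ h) ⁻¹' {y}) => (⟨h x.1, x.2⟩ : ↥(f ⁻¹' {y}))) :=
      Continuous.subtype_mk (h.continuous.comp continuous_subtype_val) _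
    exact DiscreteTopology.of_continuous_injective hc (by
      intro a b hab
      have h1 : h a.1 = h b.1 := congrArg Subtype.val hab
      exact Subtype.ext (h.injective h1))
  · obtain ⟨B, hB, hL, hcov, hcard⟩ := hf.branch
    refine ⟨B, hB, hL, hcov.comp_homeomorph h, ?_⟩
    intro y hy
    rw [preimage_comp, ← hcard y hy]
    have h1 : (⇑h ⁻¹' (f ⁻¹' {y})) = ⇑h.symm '' (f ⁻¹' {y}) := by
      rw [h.symm.image_eq_preimage_symm]
      rfl
    rw [h1]
    exact ncard_image_of_injective _ h.symm.injective

end CM
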