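import Pool.Agent.Helper59.CM.StMain

/-!
Project CM (MP_e9500f_gt): module U2, connectedness of a preimage.
-/

set_option autoImplicit false

namespace CM

open Set Topology unitInterval

theorem pU2 (h : StBox) : StU2 := by
  intro X _ _ _ f τ R C hf hR hC hJ hsub
  obtain ⟨h1, -, h3⟩ := h
  obtain ⟨hVo, -, hVJ, hVne, -⟩ := h1 R hR
  have hUo : IsOpen (f ⁻¹' (VV R)) := hVo.preimage hf.cont
  have hCU : Cᶜ ⊆ f ⁻¹' (VV R) := fun x hx hb => hx (hsub hb)
  have hpre : IsPreconnected (VV R) :=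
    (isPathConnected_iff.mpr ⟨hVne, hVJ⟩).isConnected.isPreconnected
  have key : ∀ x ∈ f ⁻¹' (VV R), ∃ w ∈ Cᶜ, JoinedIn (f ⁻¹' (VV R)) x w := by
    intro x hx
    set W : Set X := pathComponentIn (f ⁻¹' (VV R)) x with hW
    have hWo : IsOpen W := hUo.pathComponentIn x
    have hxW : x ∈ W := JoinedIn.refl hx
    have hWU : W ⊆ f ⁻¹' (VV R) := pathComponentIn_subset
    have hsubW : VV R ⊆ f '' W := by
      refine hpre.subset_of_closure_inter_subset (hf.opn _ hWo) ⟨f x, hx, mem_image_of_mem f hxW⟩ ?_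
      rintro y ⟨hy, hyV⟩
      have hcl : closure (f '' W) ⊆ f '' closure W :=
        closure_minimal (image_mono subset_closure) (hf.proper.isClosedMap _ isClosed_closure)
      obtain ⟨x', hx', rfl⟩ := hcl hy
      have hx'U : x' ∈ f ⁻¹' (VV R) := hyV
      obtain ⟨w, hw1, hw2⟩ := mem_closure_iff.mp hx' _ (hUo.pathComponentIn x')
        (JoinedIn.refl hx'U)
      exact ⟨x', JoinedIn.trans hw2 (JoinedIn.symm hw1), rfl⟩
    obtain ⟨y, hyV, hyC⟩ := h3 R hR (f '' C) (hC.image hf.cont)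
    obtain ⟨w, hw, rfl⟩ := hsubW hyV
    exact ⟨w, fun hwC => hyC ⟨w, hwC, rfl⟩, hw⟩
  intro x hx y hy
  obtain ⟨w, hw, hxw⟩ := key x hx
  obtain ⟨w', hw', hyw⟩ := key y hy
  exact (hxw.trans ((hJ w hw w' hw').mono hCU)).trans hyw.symm

end CM
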