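import Pool.Agent.Helper59.CM.StMain

/-!
Project CM (MP_e9500f_gt): MAIN2, uniqueness of path functors with values in `UU`.
-/

set_option autoImplicit false

namespace CM

open Set Topology unitInterval NS

namespace UNIQ

variable {X : Type} [TopologicalSpace X]

/-- gauge transformation -/
def gau (κ : X → UU) (h : PFun X UU) : PFun X UU := fun a b p => κ a * h a b p * (κ b)⁻¹

/-- a coefficient of the quotient of two functors -/
noncomputable def AA (h h' : PFun X UU) (w : List Bool) : PFun X (Multiplicative ℝ) :=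
  fun a b p => Multiplicative.ofAdd ((co (sr (h a b p * (h' a b p)⁻¹) - 1) w : ℚ) : ℝ)

theorem gau_pf {S : Set X} {h : PFun X UU} (κ : X → UU) (hh : IsPF S h) : IsPF S (gau κ h) := by
  refine ⟨fun a b p q H hH => ?_, fun a b c p q hp hq => ?_⟩
  · show κ a * h a b p * (κ b)⁻¹ = κ a * h a b q * (κ b)⁻¹
    rw [hh.hom a b p q H hH]
  · show κ a * h a c _ * (κ c)⁻¹ = (κ a * h a b p * (κ b)⁻¹) * (κ b * h b c q * (κ c)⁻¹)
    rw [hh.trans a b c p q hp hq]; group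

/-- the coefficients of degree `k` form a real path functor -/
theorem AA_pf (hF : StFilt) {S : Set X} {h h' : PFun X UU} (hh : IsPF S h) (hh' : IsPF S h')
    {k : ℕ} (hk : 1 ≤ k)
    (hO : ∀ (a b : X) (p : Path a b), (∀ t, p t ∈ S) →
      Ord k (sr (h a b p * (h' a b p)⁻¹) - 1))
    {w : List Bool} (hw : w.length = k) : IsPF S (AA h h' w) := by
  refine ⟨fun a b p q H hH => ?_, fun a b c p q hp hq => ?_⟩
  · show Multiplicative.ofAdd ((co (sr (h a b p * (h' a b p)⁻¹) - 1) w : ℚ) : ℝ) =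
      Multiplicative.ofAdd ((co (sr (h a b q * (h' a b q)⁻¹) - 1) w : ℚ) : ℝ)
    rw [hh.hom a b p q H hH, hh'.hom a b p q H hH]
  · show Multiplicative.ofAdd ((co (sr (h a c _ * (h' a c _)⁻¹) - 1) w : ℚ) : ℝ) =
      Multiplicative.ofAdd ((co (sr (h a b p * (h' a b p)⁻¹) - 1) w : ℚ) : ℝ) *
        Multiplicative.ofAdd ((co (sr (h b c q * (h' b c q)⁻¹) - 1) w : ℚ) : ℝ)
    rw [hh.trans a b c p q hp hq, hh'.trans a b c p q hp hq, ← ofAdd_add, ← Rat.cast_add]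
    have e : h a b p * h b c q * (h' a b p * h' b c q)⁻¹ =
        (h a b p * (h b c q * (h' b c q)⁻¹) * (h a b p)⁻¹) * (h a b p * (h' a b p)⁻¹) := by group
    obtain ⟨h1, -, h3⟩ := hF k hk
    obtain ⟨h4, h5⟩ := h3 _ (h a b p) (hO b c q hq)
    obtain ⟨-, h6⟩ := h1 _ _ h4 (hO a b p hp)
    rw [e, h6 w hw, h5 w hw, add_comm]

/-- main lemma: two functors which agree on a class `C` of loops agree on all loops, if the loops
of `C` detect exactness of real path functors -/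
theorem key (hF : StFilt) {S : Set X} {p₀ : X} (hp₀ : p₀ ∈ S) (hJ : Jn S) {h h' : PFun X UU}
    (hh : IsPF S h) (hh' : IsPF S h') (C : Path p₀ p₀ → Prop)
    (hC : ∀ z, C z → h p₀ p₀ z = h' p₀ p₀ z)
    (hfill : ∀ A : PFun X (Multiplicative ℝ), IsPF S A → (∀ z, C z → A p₀ p₀ z = 1) →
      IsExact S A) :
    ∀ z : Path p₀ p₀, (∀ t, z t ∈ S) → h p₀ p₀ z = h' p₀ p₀ z := by
  classical
  have hc : ∀ x ∈ S, ∃ c : Path p₀ x, ∀ t, c t ∈ S := by
    intro x hx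
    obtain ⟨γ, hγ⟩ := hJ p₀ hp₀ x hx
    exact ⟨γ, hγ⟩
  choose c hcS using hc
  have hd0 : ∃ d : ∀ x ∈ S, Path p₀ x, (∀ x hx t, d x hx t ∈ S) ∧ h p₀ p₀ (d p₀ hp₀) = 1 ∧
      h' p₀ p₀ (d p₀ hp₀) = 1 := by
    refine ⟨fun x hx => (c p₀ hp₀).symm.trans (c x hx), ?_, ?_, ?_⟩
    · intro x hx t
      exact trans_mem (symm_mem (hcS p₀ hp₀)) (hcS x hx) t
    · rw [hh.trans _ _ _ _ _ (symm_mem (hcS p₀ hp₀)) (hcS p₀ hp₀), hh.symm _ (hcS p₀ hp₀)]
      group
    · rw [hh'.trans _ _ _ _ _ (symm_mem (hcS p₀ hp₀)) (hcS p₀ hp₀), hh'.symm _ (hcS p₀ hp₀)]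
      group
  obtain ⟨d, hdS, hd1, hd2⟩ := hd0
  let κ : X → UU := fun x => if hx : x ∈ S then h p₀ x (d x hx) else 1
  let κ' : X → UU := fun x => if hx : x ∈ S then h' p₀ x (d x hx) else 1
  have hκ : ∀ x (hx : x ∈ S), κ x = h p₀ x (d x hx) := fun x hx => dif_pos hx
  have hκ' : ∀ x (hx : x ∈ S), κ' x = h' p₀ x (d x hx) := fun x hx => dif_pos hx
  have hκ0 : κ p₀ = 1 := by rw [hκ p₀ hp₀]; exact hd1
  have hκ0' : κ' p₀ = 1 := by rw [hκ' p₀ hp₀]; exact hd2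
  -- gauged functors are values on loops
  have hloop : ∀ (a b : X) (p : Path a b), (∀ t, p t ∈ S) → ∃ z : Path p₀ p₀, (∀ t, z t ∈ S) ∧
      gau κ h a b p = h p₀ p₀ z ∧ gau κ' h' a b p = h' p₀ p₀ z := by
    intro a b p hp
    have ha : a ∈ S := by simpa using hp 0
    have hb : b ∈ S := by simpa using hp 1
    have h1 : ∀ t, ((d a ha).trans p) t ∈ S := trans_mem (hdS a ha) hp
    refine ⟨((d a ha).trans p).trans (d b hb).symm, trans_mem h1 (symm_mem (hdS b hb)), ?_, ?_⟩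
    · rw [hh.trans _ _ _ _ _ h1 (symm_mem (hdS b hb)), hh.trans _ _ _ _ _ (hdS a ha) hp,
        hh.symm _ (hdS b hb)]
      show κ a * h a b p * (κ b)⁻¹ = _
      rw [hκ a ha, hκ b hb]
    · rw [hh'.trans _ _ _ _ _ h1 (symm_mem (hdS b hb)), hh'.trans _ _ _ _ _ (hdS a ha) hp,
        hh'.symm _ (hdS b hb)]
      show κ' a * h' a b p * (κ' b)⁻¹ = _
      rw [hκ' a ha, hκ' b hb]
  have hg0 : ∀ z : Path p₀ p₀, gau κ h p₀ p₀ z = h p₀ p₀ z := by
    intro z
    show κ p₀ * h p₀ p₀ z * (κ p₀)⁻¹ = _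
    rw [hκ0]; group
  have hg0' : ∀ z : Path p₀ p₀, gau κ' h' p₀ p₀ z = h' p₀ p₀ z := by
    intro z
    show κ' p₀ * h' p₀ p₀ z * (κ' p₀)⁻¹ = _
    rw [hκ0']; group
  have main : ∀ k : ℕ, ∀ z : Path p₀ p₀, (∀ t, z t ∈ S) →
      Ord (k + 1) (sr (h p₀ p₀ z * (h' p₀ p₀ z)⁻¹) - 1) := by
    intro k
    induction k with
    | zero =>
      intro z _ w hw
      have : w = [] := List.length_eq_zero_iff.mp (by omega)
      subst this
      rw [co_sub, sr_nil, co_one_nil, sub_self]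
    | succ k ih =>
      intro z hz w hw
      rcases Nat.lt_or_ge w.length (k + 1) with h1 | h1
      · exact ih z hz w h1
      · have hwk : w.length = k + 1 := by omega
        have hO : ∀ (a b : X) (p : Path a b), (∀ t, p t ∈ S) →
            Ord (k + 1) (sr (gau κ h a b p * (gau κ' h' a b p)⁻¹) - 1) := by
          intro a b p hp
          obtain ⟨z', hz', e1, e2⟩ := hloop a b p hp
          rw [e1, e2]
          exact ih z' hz'
        have hA := AA_pf hF (gau_pf κ hh) (gau_pf κ' hh') (Nat.le_add_left 1 k) hO hwk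
        obtain ⟨g, hg⟩ := hfill _ hA (by
          intro z' hz'
          show Multiplicative.ofAdd
            ((co (sr (gau κ h p₀ p₀ z' * (gau κ' h' p₀ p₀ z')⁻¹) - 1) w : ℚ) : ℝ) = 1
          rw [hg0, hg0', hC z' hz', mul_inv_cancel, sr_one, sub_self, co_zero]
          simp)
        have h2 := hg p₀ p₀ z hz
        rw [inv_mul_cancel] at h2
        have h3 : ((co (sr (gau κ h p₀ p₀ z * (gau κ' h' p₀ p₀ z)⁻¹) - 1) w : ℚ) : ℝ) = 0 := by
          have h4 : Multiplicative.ofAdd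
            ((co (sr (gau κ h p₀ p₀ z * (gau κ' h' p₀ p₀ z)⁻¹) - 1) w : ℚ) : ℝ) = 1 := h2
          rwa [ofAdd_eq_one] at h4
        rw [hg0, hg0'] at h3
        exact_mod_cast h3
  intro z hz
  have h1 : sr (h p₀ p₀ z * (h' p₀ p₀ z)⁻¹) - 1 = 0 := by
    ext w
    rw [co_zero]
    exact main w.length z hz w (Nat.lt_succ_self _)
  have h2 : h p₀ p₀ z * (h' p₀ p₀ z)⁻¹ = 1 := sr_inj (by rw [sr_one]; exact sub_eq_zero.mp h1)
  exact mul_inv_eq_one.mp h2

/-- from loops to gauge equivalence -/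
theorem gauge {S : Set X} {p₀ : X} (hp₀ : p₀ ∈ S) (hJ : Jn S) {h h' : PFun X UU}
    (hh : IsPF S h) (hh' : IsPF S h')
    (hl : ∀ z : Path p₀ p₀, (∀ t, z t ∈ S) → h p₀ p₀ z = h' p₀ p₀ z) :
    ∃ g : X → UU, g p₀ = 1 ∧ ∀ (a b : X) (p : Path a b), (∀ t, p t ∈ S) →
      h' a b p = (g a)⁻¹ * h a b p * g b := by
  classical
  have hc : ∀ x ∈ S, ∃ c : Path p₀ x, ∀ t, c t ∈ S := by
    intro x hx
    obtain ⟨γ, hγ⟩ := hJ p₀ hp₀ x hx
    exact ⟨γ, hγ⟩
  choose c hcS using hc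
  let g : X → UU := fun x => if hx : x ∈ S then (h p₀ x (c x hx))⁻¹ * h' p₀ x (c x hx) else 1
  have hg : ∀ x (hx : x ∈ S), g x = (h p₀ x (c x hx))⁻¹ * h' p₀ x (c x hx) :=
    fun x hx => dif_pos hx
  refine ⟨g, ?_, ?_⟩
  · rw [hg p₀ hp₀, hl _ (hcS p₀ hp₀), inv_mul_cancel]
  · intro a b p hp
    have ha : a ∈ S := by simpa using hp 0
    have hb : b ∈ S := by simpa using hp 1
    have h1 : ∀ t, ((c a ha).trans p) t ∈ S := trans_mem (hcS a ha) hp
    have h2 := hl (((c a ha).trans p).trans (c b hb).symm)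
      (trans_mem h1 (symm_mem (hcS b hb)))
    rw [hh.trans _ _ _ _ _ h1 (symm_mem (hcS b hb)), hh.trans _ _ _ _ _ (hcS a ha) hp,
        hh.symm _ (hcS b hb), hh'.trans _ _ _ _ _ h1 (symm_mem (hcS b hb)),
        hh'.trans _ _ _ _ _ (hcS a ha) hp, hh'.symm _ (hcS b hb)] at h2
    rw [hg a ha, hg b hb]
    have h3 : h' a b p = (h' p₀ a (c a ha))⁻¹ * (h' p₀ a (c a ha) * h' a b p *
        (h' p₀ b (c b hb))⁻¹) * h' p₀ b (c b hb) := by group
    rw [h3, ← h2]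
    group

end UNIQ

theorem pUniq (hF : StFilt) : StUniq := by
  intro X _ T h h' hh hh' hx hy
  have hp : T.p ∈ T.Kᶜ := by simpa using T.lx_mem 0
  refine UNIQ.gauge hp T.conn hh hh' ?_
  refine UNIQ.key hF hp T.conn hh hh' (fun z => z = T.lx ∨ z = T.ly) ?_ ?_
  · rintro z (rfl | rfl)
    · exact hx
    · exact hy
  · intro A hA hz
    exact T.fill A hA (hz _ (Or.inl rfl)) (hz _ (Or.inr rfl))

end CM
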