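import Pool.Agent.Helper59.CM.StAlg

/-!
Project CM: module WORD.
-/

set_option autoImplicit false

namespace CM

namespace WORD

private theorem irrefl' : ∀ v : List Bool, ¬ wlt v v
  | [] => by simp [wlt]
  | a :: v => by
    rintro (⟨h1, h2⟩ | ⟨_, h⟩)
    · rw [h1] at h2; exact absurd h2 (by decide)
    · exact irrefl' v h

private theorem trans' : ∀ u v w : List Bool, wlt u v → wlt v w → wlt u w
  | [], _, _ => by intro h; exact h.elim
  | _ :: _, [], _ => by intro h; exact h.elim
  | _ :: _, _ :: _, [] => by intro _ h; exact h.elim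
  | a :: u, b :: v, c :: w => by
    rintro (⟨h1, h2⟩ | ⟨h1, h2⟩) (⟨h3, h4⟩ | ⟨h3, h4⟩)
    · exact Or.inl ⟨h1, h4⟩
    · exact Or.inl ⟨h1, h3 ▸ h2⟩
    · exact Or.inl ⟨h1.trans h3, h4⟩
    · exact Or.inr ⟨h1.trans h3, trans' u v w h2 h4⟩

private theorem total' : ∀ v w : List Bool, v.length = w.length → v ≠ w → wlt v w ∨ wlt w v
  | [], [] => by intro _ h; exact absurd rfl h
  | [], _ :: _ => by intro h; simp at h
  | _ :: _, [] => by intro h; simp at h
  | a :: v, b :: w => by
    intro hl hne
    by_cases hab : a = b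
    · subst hab
      have hvw : v ≠ w := fun h => hne (by rw [h])
      rcases total' v w (by simpa using hl) hvw with h | h
      · exact Or.inl (Or.inr ⟨rfl, h⟩)
      · exact Or.inr (Or.inr ⟨rfl, h⟩)
    · cases a <;> cases b
      · exact absurd rfl hab
      · exact Or.inl (Or.inl ⟨rfl, rfl⟩)
      · exact Or.inr (Or.inl ⟨rfl, rfl⟩)
      · exact absurd rfl hab

private theorem append' : ∀ u v u' v' : List Bool, u.length = v.length →
    (wlt (u ++ u') (v ++ v') ↔ wlt u v ∨ (u = v ∧ wlt u' v'))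
  | [], [], u', v' => by
    intro _
    simp [wlt]
  | [], _ :: _, _, _ => by intro h; simp at h
  | _ :: _, [], _, _ => by intro h; simp at h
  | a :: u, b :: v, u', v' => by
    intro hl
    have ih := append' u v u' v' (by simpa using hl)
    show ((a = false ∧ b = true) ∨ (a = b ∧ wlt (u ++ u') (v ++ v'))) ↔
      ((a = false ∧ b = true) ∨ (a = b ∧ wlt u v)) ∨ (a :: u = b :: v ∧ wlt u' v')
    rw [ih, List.cons.injEq]
    tauto

end WORD

theorem pWord : StWord :=
  ⟨WORD.irrefl', WORD.trans', WORD.total', WORD.append'⟩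

end CM
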