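import Pool.Agent.Helper59.CM.StAlg

/-! Project CM, module ZZ: Lemma Z on words in `m`, `n` with `n m > m n`. -/

set_option autoImplicit false

namespace CM

namespace ZZ

theorem sw_nil (m n : List Bool) : sw m n [] = [] := rfl

theorem sw_true (m n s : List Bool) : sw m n (true :: s) = m ++ sw m n s := by
  simp [sw]

theorem sw_false (m n s : List Bool) : sw m n (false :: s) = n ++ sw m n s := by
  simp [sw]

theorem wlt_cancel (u : List Bool) : ∀ X Y : List Bool, wlt (u ++ X) (u ++ Y) ↔ wlt X Y := by
  induction u with
  | nil => intro X Y; exact Iff.rfl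
  | cons a u ih =>
    intro X Y
    show ((a = false ∧ a = true) ∨ (a = a ∧ wlt (u ++ X) (u ++ Y))) ↔ wlt X Y
    rw [ih]
    cases a <;> simp

theorem tri (m : List Bool) : ∀ n : List Bool,
    (∃ n', n = m ++ n') ∨ (∃ m', m = n ++ m') ∨ (∀ X Y, wlt (m ++ X) (n ++ Y)) ∨
      (∀ X Y, wlt (n ++ X) (m ++ Y)) := by
  induction m with
  | nil => intro n; exact Or.inl ⟨n, rfl⟩
  | cons a m ih =>
    intro n
    cases n with
    | nil => exact Or.inr (Or.inl ⟨a :: m, rfl⟩)
    | cons b n =>
      by_cases hab : a = b
      · subst hab
        rcases ih n with ⟨n', h⟩ | ⟨m', h⟩ | h | h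
        · exact Or.inl ⟨n', by rw [h]; rfl⟩
        · exact Or.inr (Or.inl ⟨m', by rw [h]; rfl⟩)
        · exact Or.inr (Or.inr (Or.inl fun X Y => Or.inr ⟨rfl, h X Y⟩))
        · exact Or.inr (Or.inr (Or.inr fun X Y => Or.inr ⟨rfl, h X Y⟩))
      · cases a with
        | false =>
          cases b with
          | false => exact absurd rfl hab
          | true => exact Or.inr (Or.inr (Or.inl fun X Y => Or.inl ⟨rfl, rfl⟩))
        | true =>
          cases b with
          | true => exact absurd rfl hab
          | false => exact Or.inr (Or.inr (Or.inr fun X Y => Or.inl ⟨rfl, rfl⟩))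

/-- rewriting words in `m, m n'` as words in `m, n'` -/
theorem sub1 (m n' : List Bool) (s : List Bool) : ∃ s₂, sw m (m ++ n') s = sw m n' s₂ := by
  induction s with
  | nil => exact ⟨[], rfl⟩
  | cons x s ih =>
    obtain ⟨s₂, h⟩ := ih
    cases x with
    | true => exact ⟨true :: s₂, by rw [sw_true, sw_true, h]⟩
    | false => exact ⟨true :: false :: s₂, by
        rw [sw_false, sw_true, sw_false, h, List.append_assoc]⟩

theorem sub1' (m n' : List Bool) (x : Bool) (s : List Bool) :
    ∃ s₂, sw m (m ++ n') (x :: s) = m ++ sw m n' s₂ := by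
  obtain ⟨s₂, h⟩ := sub1 m n' s
  cases x with
  | true => exact ⟨s₂, by rw [sw_true, h]⟩
  | false => exact ⟨false :: s₂, by rw [sw_false, sw_false, h, List.append_assoc]⟩

/-- rewriting words in `n m', n` as words in `m', n` -/
theorem sub2 (m' n : List Bool) (s : List Bool) : ∃ s₂, sw (n ++ m') n s = sw m' n s₂ := by
  induction s with
  | nil => exact ⟨[], rfl⟩
  | cons x s ih =>
    obtain ⟨s₂, h⟩ := ih
    cases x with
    | false => exact ⟨false :: s₂, by rw [sw_false, sw_false, h]⟩
    | true => exact ⟨false :: true :: s₂, by
        rw [sw_true, sw_false, sw_true, h, List.append_assoc]⟩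

theorem sub2' (m' n : List Bool) (x : Bool) (s : List Bool) :
    ∃ s₂, sw (n ++ m') n (x :: s) = n ++ sw m' n s₂ := by
  obtain ⟨s₂, h⟩ := sub2 m' n s
  cases x with
  | false => exact ⟨s₂, by rw [sw_false, h]⟩
  | true => exact ⟨true :: s₂, by rw [sw_true, sw_true, h, List.append_assoc]⟩

theorem main (h : StWord) (k : ℕ) : ∀ m n : List Bool, m.length + n.length ≤ k →
    wlt (m ++ n) (n ++ m) → ∀ s t : List Bool,
    (m ++ sw m n s).length = (n ++ sw m n t).length → wlt (m ++ sw m n s) (n ++ sw m n t) := by
  obtain ⟨hirr, htr, -, -⟩ := h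
  induction k with
  | zero =>
    intro m n hk hw
    have hm : m = [] := List.length_eq_zero_iff.1 (by omega)
    subst hm
    rw [List.nil_append, List.append_nil] at hw
    exact absurd hw (hirr n)
  | succ k ih =>
    intro m n hk hw s t hlen
    rcases tri m n with ⟨n', hn⟩ | ⟨m', hm⟩ | h3 | h4
    · subst hn
      by_cases hm0 : m = []
      · subst hm0
        simp only [List.nil_append, List.append_nil] at hw
        exact absurd hw (hirr _)
      by_cases hn0 : n' = []
      · subst hn0
        simp only [List.append_nil] at hw
        exact absurd hw (hirr _)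
      have hml : 0 < m.length := List.length_pos_iff.2 hm0
      have hnl : 0 < n'.length := List.length_pos_iff.2 hn0
      rw [List.append_assoc, wlt_cancel] at hw
      rw [List.append_assoc, wlt_cancel]
      cases s with
      | nil =>
        rw [sw_nil] at hlen
        simp only [List.length_append, List.length_nil] at hlen
        omega
      | cons x s =>
        obtain ⟨s₂, hs₂⟩ := sub1' m n' x s
        obtain ⟨t₂, ht₂⟩ := sub1 m n' t
        rw [hs₂, ht₂]
        rw [hs₂, ht₂] at hlen
        apply ih m n' _ hw
        · simp only [List.length_append] at hlen ⊢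
          omega
        · simp only [List.length_append] at hk
          omega
    · subst hm
      by_cases hn0 : n = []
      · subst hn0
        simp only [List.nil_append, List.append_nil] at hw
        exact absurd hw (hirr _)
      by_cases hm0 : m' = []
      · subst hm0
        simp only [List.append_nil] at hw
        exact absurd hw (hirr _)
      have hnl : 0 < n.length := List.length_pos_iff.2 hn0
      have hml : 0 < m'.length := List.length_pos_iff.2 hm0
      rw [List.append_assoc, wlt_cancel] at hw
      rw [List.append_assoc, wlt_cancel]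
      cases t with
      | nil =>
        rw [sw_nil] at hlen
        simp only [List.length_append, List.length_nil] at hlen
        omega
      | cons x t =>
        obtain ⟨t₂, ht₂⟩ := sub2' m' n x t
        obtain ⟨s₂, hs₂⟩ := sub2 m' n s
        rw [hs₂, ht₂]
        rw [hs₂, ht₂] at hlen
        apply ih m' n _ hw
        · simp only [List.length_append] at hlen ⊢
          omega
        · simp only [List.length_append] at hk
          omega
    · exact h3 _ _
    · exact absurd (htr _ _ _ hw (h4 m n)) (hirr _)

end ZZ

theorem pZ (h : StWord) : StZ := fun m n hw s t hlen =>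
  ZZ.main h _ m n le_rfl hw s t hlen

end CM
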