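import Pool.Agent.Helper59.CM.M_AG
import Pool.Agent.Helper59.CM.M_BALL
import Pool.Agent.Helper59.CM.M_BB
import Pool.Agent.Helper59.CM.M_BF
import Pool.Agent.Helper59.CM.M_BOX
import Pool.Agent.Helper59.CM.M_CHAIN
import Pool.Agent.Helper59.CM.M_CI
import Pool.Agent.Helper59.CM.M_COMM
import Pool.Agent.Helper59.CM.M_CONN
import Pool.Agent.Helper59.CM.M_CONTR
import Pool.Agent.Helper59.CM.M_CONV
import Pool.Agent.Helper59.CM.M_CVX
import Pool.Agent.Helper59.CM.M_DD
import Pool.Agent.Helper59.CM.M_DECK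
import Pool.Agent.Helper59.CM.M_DECKU
import Pool.Agent.Helper59.CM.M_DROP
import Pool.Agent.Helper59.CM.M_F1
import Pool.Agent.Helper59.CM.M_F2
import Pool.Agent.Helper59.CM.M_F3
import Pool.Agent.Helper59.CM.M_F4
import Pool.Agent.Helper59.CM.M_FILT
import Pool.Agent.Helper59.CM.M_FIX
import Pool.Agent.Helper59.CM.M_FOLD
import Pool.Agent.Helper59.CM.M_GAM
import Pool.Agent.Helper59.CM.M_GL
import Pool.Agent.Helper59.CM.M_INT
import Pool.Agent.Helper59.CM.M_LEAD
import Pool.Agent.Helper59.CM.M_LEV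
import Pool.Agent.Helper59.CM.M_LOCPF
import Pool.Agent.Helper59.CM.M_LOG
import Pool.Agent.Helper59.CM.M_MAGNUS
import Pool.Agent.Helper59.CM.M_MAIN
import Pool.Agent.Helper59.CM.M_ND
import Pool.Agent.Helper59.CM.M_NULL
import Pool.Agent.Helper59.CM.M_OO
import Pool.Agent.Helper59.CM.M_OPEN
import Pool.Agent.Helper59.CM.M_PAIR
import Pool.Agent.Helper59.CM.M_PHI0
import Pool.Agent.Helper59.CM.M_PHI1
import Pool.Agent.Helper59.CM.M_PHI2
import Pool.Agent.Helper59.CM.M_POT
import Pool.Agent.Helper59.CM.M_RING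
import Pool.Agent.Helper59.CM.M_ROOT
import Pool.Agent.Helper59.CM.M_SGN
import Pool.Agent.Helper59.CM.M_SQ
import Pool.Agent.Helper59.CM.M_SUBST
import Pool.Agent.Helper59.CM.M_TEL
import Pool.Agent.Helper59.CM.M_TOWER
import Pool.Agent.Helper59.CM.M_TRANS
import Pool.Agent.Helper59.CM.M_U2
import Pool.Agent.Helper59.CM.M_UNIQ
import Pool.Agent.Helper59.CM.M_WORD
import Pool.Agent.Helper59.CM.M_ZZ

/-!
Project CM (MP_e9500f_gt): assembly of all modules.
-/

set_option autoImplicit false

namespace CM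

open Set Topology

namespace FINAL

theorem aWord : StWord := pWord
theorem aLeadEx : StLeadEx := pLeadEx aWord
theorem aLead : StLead := pLead aWord
theorem aComm : StComm := pComm aWord aLeadEx aLead
theorem aND : StND := pND aWord aComm
theorem aLS : StLS := pLS
theorem aRoot : StRoot := pRoot aWord
theorem aDrop : StDrop := pDrop aWord aLeadEx aLead aLS aRoot
theorem aD : StD := pD aWord aComm aLS aRoot aDrop aLeadEx aLead
theorem aChain : StChain := pChain aWord aComm aND aD
theorem aZ : StZ := pZ aWord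
theorem aSgn : StSgn := pSgn aWord aLeadEx aLead aZ pSubst pMagnus
theorem aSign : StSign := pSign aWord aComm aSgn
theorem aGL : StGL := pGL pSq
theorem aPot : StPot := pPot aGL
theorem aExt : StExt := pExt aGL
theorem aCI : StCI := pCI pAG
theorem aStar : StStar := pStar pAG pCvx
theorem aRing : StRing := pRing pAG pCvx
theorem aShell : StShell := pShell aStar aCI pCvx
theorem aBf : StBf := pBf pBB pGam
theorem aOO : StOO := pOO pBB pGam pRho aBf
theorem aNull : StNull := pNull pBB pGam pRho aBf aOO pLog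
theorem aContr : StContr := pContr aBf pRho aOO aNull pTel
theorem aF1 : StF1 := pF1 aRing aExt pCvx
theorem aF2 : StF2 := pF2 aStar aExt
theorem aF3 : StF3 := pF3 aStar aExt
theorem aF4 : StF4 := pF4 aShell aExt
theorem aFill : StFill := pFill aF1 aF2 aF3 aF4 aContr pSC
theorem aConn : StConn := pConn aOO aContr
theorem aPhi : StPhi := pPhi (pPhi0 aPot) (pPhi1 pAG) pGam pRho aBf pSq pAG
theorem aUniq : StUniq := pUniq pFilt
theorem aPair : StPair := pPair aUniq
theorem aSeq : StSeq := pSeq aPair aChain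
theorem aRho1 : StRho1 := pRho1 pMagnus aSeq
theorem aBox : StBox := pBox aShell
theorem aDeck : StDeck := pDeck aPot pAG
theorem aDeckU : StDeckU := pDeckU pFilt aDeck
theorem aFix : StFix := pFix aPot pAG
theorem aU2 : StU2 := pU2 aBox
theorem aMain : StMain := pMain pLev aPair aSeq aRho1 aBox aDeckU aFix aU2 aSign
theorem aOpen : StOpen := pOpen pBall
theorem aFold : StFold := pFold pBall aOpen
theorem aTower : StTower := pTower pConv pRho aBf aOO aContr aFill aConn aPhi
theorem aLocPF : StLocPF := pLocPF pConv pCvx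

end FINAL

open FINAL

theorem pFinal : StFinal := by
  obtain ⟨hc, ho, -, -, -⟩ := aContr
  have hfin : Module.finrank ℝ E = Module.finrank ℝ E3 := by
    simp [E, E3, Complex.finrank_real_complex]
  let Θ : E ≃ₜ E3 := (ContinuousLinearEquiv.ofFinrankEq hfin).toHomeomorph
  have hcon : ContractibleSpace ↥(Θ '' MM) := (Θ.image MM).symm.contractibleSpace
  refine ⟨Θ '' MM, Θ.isOpenMap _ ho, hcon, ?_⟩
  intro f hf
  have hf' : IsBranched2 (f ∘ (Θ.image MM)) := pTrans _ _ (Θ.image MM) f hf
  haveI : LocallyPathConnectedSpace ↥MM := ho.locallyPathConnectedSpace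
  haveI : LocallyCompactSpace ↥MM := ho.locallyCompactSpace
  obtain ⟨τ, hτ⟩ := aFold ↥MM _ hf' (fun B _ hB => pInt MM _ B ho hf'.cont hf'.disc hB)
  obtain ⟨T⟩ := aTower
  exact aMain ↥MM T _ τ (aLocPF MM ho) hτ

end CM
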