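import Pool.Agent.Helper59.CM.StPF

set_option autoImplicit false

namespace CM

open Set Topology unitInterval

namespace AG

/-- two paths of `I` with the same end points have the same value after mapping into `S` -/
private theorem key {X Γ : Type} [TopologicalSpace X] [Group Γ] {S : Set X} {F : PFun X Γ}
    (h : IsPF S F) {a b : X} (p : Path a b) (hp : ∀ t, p t ∈ S) {s t : I} (f g : Path s t) :
    F (p s) (p t) (f.map p.continuous) = F (p s) (p t) (g.map p.continuous) := by
  haveI : ContractibleSpace I := Convex.contractibleSpace (convex_Icc (0 : ℝ) 1)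
    ⟨0, by constructor <;> norm_num⟩
  obtain ⟨H⟩ := SimplyConnectedSpace.paths_homotopic f g
  refine h.hom _ _ _ _ (H.map p.toContinuousMap) fun x => ?_
  exact hp _

/-- the segment of `I` from `s` to `t` -/
private def ln (s t : I) : Path s t where
  toFun := Icc.convexComb s t
  continuous_toFun := Set.Icc.continuous_convexComb_prod.comp
    (continuous_const.prodMk (continuous_const.prodMk continuous_id))
  source' := Icc.convexComb_zero s t
  target' := Icc.convexComb_one s t

private theorem add {X Γ : Type} [TopologicalSpace X] [Group Γ] {S : Set X} {F : PFun X Γ}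
    (h : IsPF S F) {a b : X} (p : Path a b) (hp : ∀ t, p t ∈ S) (r s t : I) :
    F _ _ (p.subpath r t) = F _ _ (p.subpath r s) * F _ _ (p.subpath s t) := by
  have h1 := key h p hp (ln r t) ((ln r s).trans (ln s t))
  have h2 : ((ln r s).trans (ln s t)).map p.continuous =
      (p.subpath r s).trans (p.subpath s t) := by
    rw [Path.map_trans]; rfl
  rw [h2] at h1
  exact h1.trans (h.trans (p r) (p s) (p t) (p.subpath r s) (p.subpath s t)
    (fun t => hp _) (fun t => hp _))

end AG

theorem pAG : StAG := by
  intro X Γ _ _ ι S O F F' hF hF' hO hS hag a b p hp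
  obtain ⟨t, ht0, htm, ⟨n, hn⟩, hti⟩ := exists_monotone_Icc_subset_open_cover_unitInterval
    (c := fun i => p ⁻¹' O i) (fun i => (hO i).preimage p.continuous) (by
      intro s _
      obtain ⟨i, hi⟩ := mem_iUnion.1 (hS (hp s))
      exact mem_iUnion.2 ⟨i, hi⟩)
  have hall : ∀ m : ℕ, F _ _ (p.subpath (t 0) (t m)) = F' _ _ (p.subpath (t 0) (t m)) := by
    intro m
    induction m with
    | zero =>
      rw [Path.subpath_self, hF.refl (hp _), hF'.refl (hp _)]
    | succ m ih =>
      rw [AG.add hF p hp (t 0) (t m) (t (m + 1)), AG.add hF' p hp (t 0) (t m) (t (m + 1)), ih]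
      congr 1
      obtain ⟨i, hi⟩ := hti m
      refine hag i _ _ _ fun s => ⟨hp _, ?_⟩
      have h1 : (p.subpath (t m) (t (m + 1))) s ∈ range (p.subpath (t m) (t (m + 1))) := ⟨s, rfl⟩
      rw [Path.range_subpath_of_le p _ _ (htm (Nat.le_succ m))] at h1
      obtain ⟨r, hr, hr'⟩ := h1
      rw [← hr']
      exact hi hr
  have h1 := hall n
  rw [ht0, hn n le_rfl, Path.subpath_zero_one, F_cast F, F_cast F'] at h1
  exact h1

end CM
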