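import Mathlib

/-!
Project CM (MP_e9500f_gt): algebra.

`NS` = noncommutative formal power series over `ℚ` in two letters (letters = `Bool`),
a series is its coefficient function on words.
-/

set_option autoImplicit false

namespace CM

/-- noncommutative power series over `ℚ` in the letters `true`, `false` -/
def NS : Type := List Bool → ℚ

namespace NS

instance : AddCommGroup NS := inferInstanceAs (AddCommGroup (List Bool → ℚ))
instance : Module ℚ NS := inferInstanceAs (Module ℚ (List Bool → ℚ))

/-- coefficient at the word `w` -/
def co (f : NS) (w : List Bool) : ℚ := f w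

/-- series from its coefficients -/
def mk (f : List Bool → ℚ) : NS := f

@[ext] theorem ext {f g : NS} (h : ∀ w, co f w = co g w) : f = g := funext h

@[simp] theorem co_mk (f : List Bool → ℚ) (w : List Bool) : co (mk f) w = f w := rfl
@[simp] theorem co_add (f g : NS) (w : List Bool) : co (f + g) w = co f w + co g w := rfl
@[simp] theorem co_sub (f g : NS) (w : List Bool) : co (f - g) w = co f w - co g w := rfl
@[simp] theorem co_neg (f : NS) (w : List Bool) : co (-f) w = - co f w := rfl
@[simp] theorem co_zero (w : List Bool) : co 0 w = 0 := rfl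
@[simp] theorem co_smul (r : ℚ) (f : NS) (w : List Bool) : co (r • f) w = r * co f w := rfl

/-- convolution, by recursion on the word -/
def mulc : List Bool → NS → NS → ℚ
  | [], f, g => co f [] * co g []
  | x :: w, f, g => co f [] * co g (x :: w) + mulc w (mk fun v => co f (x :: v)) g

instance : Mul NS := ⟨fun f g => mk fun w => mulc w f g⟩
instance : One NS := ⟨mk fun w => if w = [] then 1 else 0⟩

/-- derivative: strip the first letter `x` -/
def D (x : Bool) (f : NS) : NS := mk fun v => co f (x :: v)

@[simp] theorem co_D (x : Bool) (f : NS) (v : List Bool) : co (D x f) v = co f (x :: v) := rfl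

theorem co_one (w : List Bool) : co (1 : NS) w = if w = [] then 1 else 0 := rfl
@[simp] theorem co_one_nil : co (1 : NS) [] = 1 := rfl
@[simp] theorem co_one_cons (x : Bool) (w : List Bool) : co (1 : NS) (x :: w) = 0 := rfl
@[simp] theorem co_mul_nil (f g : NS) : co (f * g) [] = co f [] * co g [] := rfl
theorem co_mul_cons (f g : NS) (x : Bool) (w : List Bool) :
    co (f * g) (x :: w) = co f [] * co g (x :: w) + co (D x f * g) w := rfl

theorem D_mul (x : Bool) (f g : NS) : D x (f * g) = co f [] • D x g + D x f * g := by
  ext w; rfl

theorem D_add (x : Bool) (f g : NS) : D x (f + g) = D x f + D x g := rfl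
theorem D_smul (x : Bool) (r : ℚ) (f : NS) : D x (r • f) = r • D x f := rfl
theorem D_one (x : Bool) : D x 1 = 0 := rfl

private theorem add_mul' (w : List Bool) : ∀ f g h : NS,
    co ((f + g) * h) w = co (f * h) w + co (g * h) w := by
  induction w with
  | nil => intro f g h; simp; ring
  | cons x w ih => intro f g h; simp only [co_mul_cons, co_add, D_add, ih]; ring

private theorem mul_add' (w : List Bool) : ∀ f g h : NS,
    co (f * (g + h)) w = co (f * g) w + co (f * h) w := by
  induction w with
  | nil => intro f g h; simp; ring
  | cons x w ih => intro f g h; simp only [co_mul_cons, co_add, ih]; ring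

private theorem smul_mul' (w : List Bool) : ∀ (r : ℚ) (f g : NS),
    co ((r • f) * g) w = r * co (f * g) w := by
  induction w with
  | nil => intro r f g; simp; ring
  | cons x w ih => intro r f g; simp only [co_mul_cons, co_smul, D_smul, ih]; ring

private theorem mul_smul' (w : List Bool) : ∀ (r : ℚ) (f g : NS),
    co (f * (r • g)) w = r * co (f * g) w := by
  induction w with
  | nil => intro r f g; simp; ring
  | cons x w ih => intro r f g; simp only [co_mul_cons, co_smul, ih]; ring

private theorem zero_mul' (w : List Bool) : ∀ (g : NS), co (0 * g) w = 0 := by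
  intro g
  have := smul_mul' w 0 0 g
  rwa [zero_smul, zero_mul] at this

private theorem mul_zero' (w : List Bool) : ∀ (g : NS), co (g * 0) w = 0 := by
  intro g
  have := mul_smul' w 0 g 0
  rwa [zero_smul, zero_mul] at this

private theorem one_mul' (w : List Bool) (g : NS) : co (1 * g) w = co g w := by
  cases w with
  | nil => simp
  | cons x w => rw [co_mul_cons, D_one, zero_mul']; simp

private theorem mul_one' (w : List Bool) : ∀ (g : NS), co (g * 1) w = co g w := by
  induction w with
  | nil => intro g; simp
  | cons x w ih => intro g; rw [co_mul_cons, ih]; simp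

private theorem mul_assoc' (w : List Bool) : ∀ f g h : NS,
    co ((f * g) * h) w = co (f * (g * h)) w := by
  induction w with
  | nil => intro f g h; simp; ring
  | cons x w ih =>
    intro f g h
    rw [co_mul_cons, D_mul, add_mul', smul_mul', ih, co_mul_cons f, co_mul_cons g, co_mul_nil]
    ring

instance : Ring NS where
  left_distrib f g h := ext fun w => mul_add' w f g h
  right_distrib f g h := ext fun w => add_mul' w f g h
  zero_mul f := ext fun w => zero_mul' w f
  mul_zero f := ext fun w => mul_zero' w f
  mul_assoc f g h := ext fun w => mul_assoc' w f g h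
  one_mul f := ext fun w => one_mul' w f
  mul_one f := ext fun w => mul_one' w f
  neg_add_cancel f := neg_add_cancel f
  sub_eq_add_neg f g := sub_eq_add_neg f g
  zsmul := zsmulRec
  zsmul_zero' _ := rfl
  zsmul_succ' _ _ := rfl
  zsmul_neg' _ _ := rfl

instance : Algebra ℚ NS := Algebra.ofModule
  (fun r f g => ext fun w => by rw [smul_mul', co_smul])
  (fun r f g => ext fun w => by rw [mul_smul', co_smul])

/-- the coefficient of a product = sum over the ways to split the word -/
theorem co_mul (f g : NS) (w : List Bool) :
    co (f * g) w = ∑ i ∈ Finset.range (w.length + 1), co f (w.take i) * co g (w.drop i) := by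
  induction w generalizing f with
  | nil => simp
  | cons x w ih =>
    rw [co_mul_cons, ih, List.length_cons, Finset.sum_range_succ' _ (w.length + 1)]
    simp only [List.take_succ_cons, List.drop_succ_cons, List.take_zero, List.drop_zero, co_D]
    ring

end NS

open NS

/-- the group of power series with constant coefficient one -/
def UU : Subgroup NSˣ where
  carrier := {u | co (u : NS) [] = 1}
  one_mem' := rfl
  mul_mem' := by
    intro a b ha hb
    have ha' : co (a : NS) [] = 1 := ha
    have hb' : co (b : NS) [] = 1 := hb
    show co ((a * b : NSˣ) : NS) [] = 1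
    rw [Units.val_mul, co_mul_nil, ha', hb', one_mul]
  inv_mem' := by
    intro a ha
    have ha' : co (a : NS) [] = 1 := ha
    have h : co ((a : NS) * ((a⁻¹ : NSˣ) : NS)) [] = 1 := by rw [Units.mul_inv]; rfl
    rw [co_mul_nil, ha', one_mul] at h
    exact h

/-- underlying series of an element of `UU` -/
def sr (u : UU) : NS := ((u : NSˣ) : NS)

theorem sr_mul (u v : UU) : sr (u * v) = sr u * sr v := rfl
theorem sr_one : sr 1 = 1 := rfl
theorem sr_nil (u : UU) : co (sr u) [] = 1 := u.2
theorem sr_inj {u v : UU} (h : sr u = sr v) : u = v := Subtype.ext (Units.ext h)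
theorem sr_mul_inv (u : UU) : sr u * sr u⁻¹ = 1 := by rw [← sr_mul, mul_inv_cancel, sr_one]
theorem sr_inv_mul (u : UU) : sr u⁻¹ * sr u = 1 := by rw [← sr_mul, inv_mul_cancel, sr_one]

/-- lexicographic order on words of equal length (`false < true`); the shorter word is never
compared -/
def wlt : List Bool → List Bool → Prop
  | [], _ => False
  | _ :: _, [] => False
  | a :: v, b :: w => (a = false ∧ b = true) ∨ (a = b ∧ wlt v w)

/-- `Before w v`: the word `w` is more leading than `v`: shorter, or of the same length and
lexicographically larger -/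
def Before (w v : List Bool) : Prop := w.length < v.length ∨ (w.length = v.length ∧ wlt v w)

/-- `w` is the leading word of `f`, with coefficient `c ≠ 0` -/
def IsLead (f : NS) (w : List Bool) (c : ℚ) : Prop :=
  co f w = c ∧ c ≠ 0 ∧ ∀ v, Before v w → co f v = 0

/-- leading word of `u - 1` -/
def LG (u : UU) (w : List Bool) (c : ℚ) : Prop := IsLead (sr u - 1) w c

/-- commutator `a b a⁻¹ b⁻¹` -/
def cm {G : Type} [Group G] (a b : G) : G := a * b * a⁻¹ * b⁻¹

/-- the words `w₁ = [x,y]`, `w₂ = [u,[x,[y,u]]]`, `u = [x,y]`, as functions -/
def W1 {G : Type} [Group G] (a b : G) : G := cm a b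
def W2 {G : Type} [Group G] (a b : G) : G := cm (cm a b) (cm a (cm b (cm a b)))

/-- good pair -/
def Good (a b : UU) : Prop := ∃ (m n : List Bool) (α β : ℚ), LG a m α ∧ LG b n β ∧
  wlt (m ++ n) (n ++ m) ∧ n.length = 3 * m.length ∧ 0 < α ∧ β < 0

/-- pair whose leading words do not commute -/
def ND (a b : UU) : Prop := ∃ (m n : List Bool) (α β : ℚ), LG a m α ∧ LG b n β ∧
  m ++ n ≠ n ++ m

/-- free group of rank two; `xx`, `yy` the generators -/
abbrev F2 : Type := FreeGroup Bool
def xx : F2 := FreeGroup.of true
def yy : F2 := FreeGroup.of false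

/-- the homomorphism `F2 → G` with `x ↦ a`, `y ↦ b` -/
def hom2 {G : Type} [Group G] (a b : G) : F2 →* G := FreeGroup.lift fun t => if t = true then a else b

@[simp] theorem hom2_xx {G : Type} [Group G] (a b : G) : hom2 a b xx = a := by simp [hom2, xx]
@[simp] theorem hom2_yy {G : Type} [Group G] (a b : G) : hom2 a b yy = b := by simp [hom2, yy]

/-- simultaneous conjugation of pairs -/
def Conj {G : Type} [Group G] (a b a' b' : G) : Prop := ∃ g : G, a' = g * a * g⁻¹ ∧ b' = g * b * g⁻¹

end CM
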