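import Mathlib

/-!
Project CM (MP_e9500f_gt): path functors.

`PFun X Γ`: a function on all paths of `X`.  `IsPF S F`: on the paths which stay in `S`, `F` is
invariant under homotopies (rel endpoints, inside `S`) and multiplicative.
-/

set_option autoImplicit false

namespace CM

open Set Topology unitInterval

/-- a function on all paths of `X` with values in `Γ` -/
abbrev PFun (X Γ : Type) [TopologicalSpace X] : Type := ∀ a b : X, Path a b → Γ

variable {X Y Γ : Type} [TopologicalSpace X] [TopologicalSpace Y] [Group Γ]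

/-- `F` is a path functor on `S` -/
structure IsPF (S : Set X) (F : PFun X Γ) : Prop where
  hom : ∀ (a b : X) (p q : Path a b) (H : p.Homotopy q), (∀ x, H x ∈ S) → F a b p = F a b q
  trans : ∀ (a b c : X) (p : Path a b) (q : Path b c), (∀ t, p t ∈ S) → (∀ t, q t ∈ S) →
    F a c (p.trans q) = F a b p * F b c q

/-- `F` is exact on `S` (has a potential) -/
def IsExact (S : Set X) (F : PFun X Γ) : Prop :=
  ∃ g : X → Γ, ∀ (a b : X) (p : Path a b), (∀ t, p t ∈ S) → F a b p = (g a)⁻¹ * g b

/-- pull back along a continuous map -/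
def pull (φ : C(X, Y)) (F : PFun Y Γ) : PFun X Γ := fun a b p => F (φ a) (φ b) (p.map φ.continuous)

/-- any two points of `S` are joined in `S` (true for `∅`) -/
def Jn (S : Set X) : Prop := ∀ x ∈ S, ∀ y ∈ S, JoinedIn S x y

/-- every path functor on `S` with values in `Γ` is exact -/
def PFE (Γ : Type) [Group Γ] (S : Set X) : Prop := ∀ F : PFun X Γ, IsPF S F → IsExact S F

namespace IsPF

variable {S T : Set X} {F : PFun X Γ}

theorem mono (h : IsPF S F) (hT : T ⊆ S) : IsPF T F :=
  ⟨fun a b p q H hH => h.hom a b p q H fun x => hT (hH x),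
    fun a b c p q hp hq => h.trans a b c p q (fun t => hT (hp t)) (fun t => hT (hq t))⟩

theorem refl (h : IsPF S F) {a : X} (ha : a ∈ S) : F a a (Path.refl a) = 1 := by
  have h1 := h.trans a a a (Path.refl a) (Path.refl a) (fun _ => ha) (fun _ => ha)
  rw [Path.refl_trans_refl] at h1
  exact (left_eq_mul.mp h1)

/-- every point of the homotopy `p.trans p.symm ~ refl` lies on `p` -/
theorem symm (h : IsPF S F) {a b : X} (p : Path a b) (hp : ∀ t, p t ∈ S) :
    F b a p.symm = (F a b p)⁻¹ := by
  have h1 := h.trans a b a p p.symm hp (fun t => hp _)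
  have h2 : F a a (Path.refl a) = F a a (p.trans p.symm) := by
    apply h.hom a a (Path.refl a) (p.trans p.symm) (Path.Homotopy.reflTransSymm p)
    intro x
    show Path.Homotopy.reflTransSymm p x ∈ S
    have : ∃ t, Path.Homotopy.reflTransSymm p x = p t := ⟨_, rfl⟩
    obtain ⟨t, ht⟩ := this
    rw [ht]; exact hp t
  rw [h.refl (by simpa using hp 0)] at h2
  rw [h1] at h2
  exact (inv_eq_of_mul_eq_one_right h2.symm).symm

end IsPF

omit [Group Γ] in
theorem F_cast (F : PFun X Γ) {a b a' b' : X} (p : Path a b) (ha : a' = a) (hb : b' = b) :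
    F a' b' (p.cast ha hb) = F a b p := by
  subst ha hb; rfl

theorem IsExact.mono {S T : Set X} {F : PFun X Γ} (h : IsExact S F) (hT : T ⊆ S) :
    IsExact T F := by
  obtain ⟨g, hg⟩ := h
  exact ⟨g, fun a b p hp => hg a b p fun t => hT (hp t)⟩

theorem IsExact.isPF {S : Set X} {F : PFun X Γ} (h : IsExact S F) : IsPF S F := by
  obtain ⟨g, hg⟩ := h
  refine ⟨fun a b p q H hH => ?_, fun a b c p q hp hq => ?_⟩
  · have hp : ∀ t, p t ∈ S := fun t => by have := hH (0, t); simpa using this
    have hq : ∀ t, q t ∈ S := fun t => by have := hH (1, t); simpa using this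
    rw [hg a b p hp, hg a b q hq]
  · have hpq : ∀ t, (p.trans q) t ∈ S := by
      intro t
      have : (p.trans q) t ∈ range (p.trans q) := ⟨t, rfl⟩
      rw [Path.trans_range] at this
      rcases this with ⟨s, hs⟩ | ⟨s, hs⟩
      · rw [← hs]; exact hp s
      · rw [← hs]; exact hq s
    rw [hg a c _ hpq, hg a b p hp, hg b c q hq]; group

theorem IsPF.pull {S : Set Y} {F : PFun Y Γ} (h : IsPF S F) (φ : C(X, Y)) :
    IsPF (φ ⁻¹' S) (pull φ F) := by
  refine ⟨fun a b p q H hH => ?_, fun a b c p q hp hq => ?_⟩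
  · exact h.hom _ _ _ _ (H.map φ) fun x => hH x
  · show F _ _ ((p.trans q).map _) = _
    rw [Path.map_trans]
    exact h.trans _ _ _ _ _ (fun t => hp t) (fun t => hq t)

theorem trans_mem {S : Set X} {a b c : X} {p : Path a b} {q : Path b c}
    (hp : ∀ t, p t ∈ S) (hq : ∀ t, q t ∈ S) : ∀ t, (p.trans q) t ∈ S := by
  intro t
  have : (p.trans q) t ∈ range (p.trans q) := ⟨t, rfl⟩
  rw [Path.trans_range] at this
  rcases this with ⟨s, hs⟩ | ⟨s, hs⟩
  · rw [← hs]; exact hp s
  · rw [← hs]; exact hq s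

theorem symm_mem {S : Set X} {a b : X} {p : Path a b} (hp : ∀ t, p t ∈ S) :
    ∀ t, p.symm t ∈ S := fun t => hp _

/-- reparametrised paths have the same value -/
theorem IsPF.reparam {S : Set X} {F : PFun X Γ} (h : IsPF S F) {a b : X} (p : Path a b)
    (hp : ∀ t, p t ∈ S) (f : I → I) (hf : Continuous f) (hf₀ : f 0 = 0) (hf₁ : f 1 = 1) :
    F a b (p.reparam f hf hf₀ hf₁) = F a b p := by
  refine (h.hom a b _ _ (Path.Homotopy.reparam p f hf hf₀ hf₁) fun x => ?_).symm
  show p _ ∈ S
  exact hp _

end CM
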