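import Pool.Agent.Helper59.CM.Alg
import Pool.Agent.Helper59.CM.PF

/-!
Project CM (MP_e9500f_gt): the explicit manifold.

Ambient space `E = ℝ × ℂ`, points `(s, q)`, `q = y + i z`.
-/

set_option autoImplicit false

namespace CM

open Set Topology unitInterval Complex

/-- ambient space `ℝ × ℂ`, homeomorphic to `ℝ³` -/
abbrev E : Type := ℝ × ℂ

/-- the open handlebody (pretzel with two holes `1 ≤ |y| ≤ 2`, `|s| ≤ 3`) -/
def HH : Set E := {p | |p.1| < 4 ∧ |p.2.re| < 3 ∧ |p.2.im| < 1 ∧
  (3 < |p.1| ∨ |p.2.re| < 1 ∨ 2 < |p.2.re|)}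

/-- its closure -/
def K0 : Set E := {p | |p.1| ≤ 4 ∧ |p.2.re| ≤ 3 ∧ |p.2.im| ≤ 1 ∧
  (3 ≤ |p.1| ∨ |p.2.re| ≤ 1 ∨ 2 ≤ |p.2.re|)}

/-- a neighbourhood of the closure -/
def OO : Set E := {p | |p.1| < 9/2 ∧ |p.2.re| < 7/2 ∧ |p.2.im| < 3/2 ∧
  (5/2 < |p.1| ∨ |p.2.re| < 5/4 ∨ 7/4 < |p.2.re|)}

/-- width of the tunnels -/
noncomputable def ep : ℝ := 1 / 20

/-- odd increasing PL homeomorphism of `ℝ`, `3 ↦ ep`, `4 ↦ 20` -/
noncomputable def f1 (t : ℝ) : ℝ :=
  (ep / 3) * t + (20 - ep - ep / 3) * (max (t - 3) 0 + min (t + 3) 0)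

/-- odd increasing PL homeomorphism of `ℝ`, `1 ↦ 6 - ep`, `3/2 ↦ 6`, `2 ↦ 6 + ep`, `3 ↦ 20` -/
noncomputable def f2 (t : ℝ) : ℝ :=
  (6 - ep) * t + (2 * ep - (6 - ep)) * (max (t - 1) 0 + min (t + 1) 0) +
    ((14 - ep) - 2 * ep) * (max (t - 2) 0 + min (t + 2) 0)

/-- `rho '' HH` is a big box minus two thin straight tunnels in the direction of the first axis -/
noncomputable def rho (p : E) : E := (-5 * p.2.im, ⟨f2 p.2.re, f1 p.1⟩)

/-- the two positions of the tunnels -/
noncomputable def q1 : ℂ := -6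
noncomputable def q2 : ℂ := 6

/-- the point `2i` -/
def up : ℂ := ⟨0, 2⟩

/-- closed path at `q`: over the top (`z = 2`) to `y = g`, down to `z = -2`, back below -/
noncomputable def letter (q : ℂ) (g : ℝ) : Path q q :=
  (Path.segment q (q + up)).trans ((Path.segment (q + up) ((g : ℂ) + up)).trans
    ((Path.segment ((g : ℂ) + up) ((g : ℂ) - up)).trans
      ((Path.segment ((g : ℂ) - up) (q - up)).trans (Path.segment (q - up) q))))

/-- commutator of closed paths, same bracketing as `cm` -/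
noncomputable def cp {X : Type} [TopologicalSpace X] {a : X} (p q : Path a a) : Path a a :=
  ((p.trans q).trans p.symm).trans q.symm

/-- closed path spelling `W1` -/
noncomputable def W1p {X : Type} [TopologicalSpace X] {a : X} (p q : Path a a) : Path a a := cp p q

/-- closed path spelling `W2` -/
noncomputable def W2p {X : Type} [TopologicalSpace X] {a : X} (p q : Path a a) : Path a a :=
  cp (cp p q) (cp p (cp q (cp p q)))

/-- motion of the two tunnels -/
noncomputable def gam1 : Path q1 q1 := W1p (letter q1 (-3/2)) (letter q1 (3/2))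
noncomputable def gam2 : Path q2 q2 := W2p (letter q2 (-3/2)) (letter q2 (3/2))

noncomputable def bump (c q : ℂ) : ℝ := max 0 (1 - ‖q - c‖ / 11)

/-- displacement -/
noncomputable def psi (s : ℝ) (q : ℂ) : ℂ :=
  (bump q1 q : ℂ) * (gam1.extend (s + 2) - q1) + (bump q2 q : ℂ) * (gam2.extend (s - 1) - q2)

/-- pushes the straight tunnels onto the braided ones -/
noncomputable def Bf (p : E) : E := (p.1, p.2 + psi p.1 p.2)

/-- the homeomorphism -/
noncomputable def Gf (p : E) : E := Bf (rho p)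

/-- the manifold -/
noncomputable def MM : Set E := ⋃ n : ℕ, (Gf^[n]) '' HH

/-- planar loop at `2i` through the gap `y = g`, returning at `y = c` -/
noncomputable def ploop (g c : ℝ) : Path up up :=
  (Path.segment up ((g : ℂ) + up)).trans
    ((Path.segment ((g : ℂ) + up) ((g : ℂ) - up)).trans
      ((Path.segment ((g : ℂ) - up) ((c : ℂ) - up)).trans
        ((Path.segment ((c : ℂ) - up) ((c : ℂ) + up)).trans
          (Path.segment ((c : ℂ) + up) up))))

/-- the plane `s = s₀` -/
noncomputable def emb (s : ℝ) : C(ℂ, E) := ⟨fun q => (s, q), by fun_prop⟩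

/-- base point of the loops -/
noncomputable def pt : E := (0, up)

/-- the loops `x₀`, `y₀` -/
noncomputable def LX : Path pt pt := (ploop (-3/2) (-4)).map (emb 0).continuous
noncomputable def LY : Path pt pt := (ploop (3/2) 4).map (emb 0).continuous

end CM
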