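import Pool.Agent.Helper59.CM.StMain

/-!
Project CM (MP_e9500f_gt): DECK, descent of a real path functor through the quotient by an
involution.
-/

set_option autoImplicit false

namespace CM

open Set Topology unitInterval

namespace DECK

variable {X Y : Type} [TopologicalSpace X] [TopologicalSpace Y]

/-- a path functor which is trivial on the loops at `p₀` is exact -/
theorem exact_of_loops {Γ : Type} [Group Γ] {S : Set X} {p₀ : X} (hp₀ : p₀ ∈ S) (hJ : Jn S)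
    {F : PFun X Γ} (hF : IsPF S F) (hl : ∀ z : Path p₀ p₀, (∀ t, z t ∈ S) → F p₀ p₀ z = 1) :
    ∃ g : X → Γ, g p₀ = 1 ∧ ∀ (a b : X) (p : Path a b), (∀ t, p t ∈ S) →
      F a b p = (g a)⁻¹ * g b := by
  classical
  have hc : ∀ x ∈ S, ∃ c : Path p₀ x, ∀ t, c t ∈ S := by
    intro x hx
    obtain ⟨γ, hγ⟩ := hJ p₀ hp₀ x hx
    exact ⟨γ, hγ⟩
  choose c hcS using hc
  let g : X → Γ := fun x => if hx : x ∈ S then F p₀ x (c x hx) else 1
  have hg : ∀ x (hx : x ∈ S), g x = F p₀ x (c x hx) := fun x hx => dif_pos hx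
  refine ⟨g, ?_, ?_⟩
  · rw [hg p₀ hp₀, hl _ (hcS p₀ hp₀)]
  · intro a b p hp
    have ha : a ∈ S := by simpa using hp 0
    have hb : b ∈ S := by simpa using hp 1
    have h1 : ∀ t, ((c a ha).trans p) t ∈ S := trans_mem (hcS a ha) hp
    have h2 := hl (((c a ha).trans p).trans (c b hb).symm)
      (trans_mem h1 (symm_mem (hcS b hb)))
    rw [hF.trans _ _ _ _ _ h1 (symm_mem (hcS b hb)), hF.trans _ _ _ _ _ (hcS a ha) hp,
        hF.symm _ (hcS b hb)] at h2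
    rw [hg a ha, hg b hb]
    have h3 : F a b p = (F p₀ a (c a ha))⁻¹ * (F p₀ a (c a ha) * F a b p *
        (F p₀ b (c b hb))⁻¹) * F p₀ b (c b hb) := by group
    rw [h3, h2, mul_one]

theorem ftau {f : X → Y} {τ : X → X} (hf : Fold f τ) (x : X) : f (τ x) = f x :=
  ((hf.fib x (τ x)).2 (Or.inr rfl)).symm

/-- the loop `y · (τ y)⁻¹` -/
theorem loop_eq {f : X → Y} {τ : X → X} (hf : Fold f τ) {V : Set Y} {p : X} (hτ : τ p = p)
    {A : PFun X (Multiplicative ℝ)} (hA : IsPF (f ⁻¹' V) A)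
    (hsp : ∀ z : Path p p, (∀ t, z t ∈ f ⁻¹' V) → (∀ t, τ (z t) = z (σ t)) → A p p z = 1)
    (y : Path p p) (hy : ∀ t, y t ∈ f ⁻¹' V) :
    A (τ p) (τ p) (y.map hf.tcont) = A p p y := by
  let w : Path p p := (y.map hf.tcont).cast hτ.symm hτ.symm
  have hw : ∀ t, w t = τ (y t) := fun t => rfl
  have hwU : ∀ t, w t ∈ f ⁻¹' V := by
    intro t
    show f (w t) ∈ V
    rw [hw, ftau hf]
    exact hy t
  have h1 := hsp (y.trans w.symm) (trans_mem hy (symm_mem hwU)) (by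
    intro t
    have e : (y.trans w.symm) (σ t) = (w.trans y.symm) t := by
      have : (y.trans w.symm) (σ t) = (y.trans w.symm).symm t := rfl
      rw [this, Path.trans_symm, Path.symm_symm]
    rw [e, Path.trans_apply, Path.trans_apply]
    split_ifs with h
    · rw [hw]
    · show τ (w _) = y _
      rw [hw, hf.invol])
  rw [hA.trans _ _ _ _ _ hy (symm_mem hwU), hA.symm _ hwU] at h1
  have h2 : A p p w = A (τ p) (τ p) (y.map hf.tcont) := F_cast A _ _ _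
  rw [← h2]
  exact (mul_inv_eq_one.mp h1).symm

/-- Step 2: make the functor invariant -/
theorem step2 {f : X → Y} {τ : X → X} (hf : Fold f τ) {V : Set Y} {p : X} (hp : p ∈ f ⁻¹' V)
    (hτ : τ p = p) (hJ : Jn (f ⁻¹' V))
    {A : PFun X (Multiplicative ℝ)} (hA : IsPF (f ⁻¹' V) A)
    (hsp : ∀ z : Path p p, (∀ t, z t ∈ f ⁻¹' V) → (∀ t, τ (z t) = z (σ t)) → A p p z = 1) :
    ∃ e : X → Multiplicative ℝ, ∀ (a b : X) (γ : Path a b), (∀ t, γ t ∈ f ⁻¹' V) →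
      A (τ a) (τ b) (γ.map hf.tcont) * (e (τ a))⁻¹ * e (τ b) = A a b γ * (e a)⁻¹ * e b := by
  have hpt : ∀ {a b : X} (γ : Path a b), (∀ t, γ t ∈ f ⁻¹' V) →
      ∀ t, (γ.map hf.tcont) t ∈ f ⁻¹' V := by
    intro a b γ hγ t
    show f (τ (γ t)) ∈ V
    rw [ftau hf]; exact hγ t
  have hAτ : IsPF (f ⁻¹' V) (pull ⟨τ, hf.tcont⟩ A) := by
    refine (hA.pull ⟨τ, hf.tcont⟩).mono ?_
    intro x hx
    show f (τ x) ∈ V
    rw [ftau hf]; exact hx
  let B : PFun X (Multiplicative ℝ) := fun a b γ =>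
    A (τ a) (τ b) (γ.map hf.tcont) * (A a b γ)⁻¹
  have hB : IsPF (f ⁻¹' V) B := by
    refine ⟨fun a b q q' H hH => ?_, fun a b c q q' hq hq' => ?_⟩
    · show A (τ a) (τ b) (q.map hf.tcont) * (A a b q)⁻¹ =
        A (τ a) (τ b) (q'.map hf.tcont) * (A a b q')⁻¹
      have h1 : A (τ a) (τ b) (q.map hf.tcont) = A (τ a) (τ b) (q'.map hf.tcont) :=
        hAτ.hom a b q q' H hH
      rw [h1, hA.hom a b q q' H hH]
    · show A (τ a) (τ c) ((q.trans q').map hf.tcont) * (A a c (q.trans q'))⁻¹ =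
        A (τ a) (τ b) (q.map hf.tcont) * (A a b q)⁻¹ *
          (A (τ b) (τ c) (q'.map hf.tcont) * (A b c q')⁻¹)
      have h1 : A (τ a) (τ c) ((q.trans q').map hf.tcont) =
          A (τ a) (τ b) (q.map hf.tcont) * A (τ b) (τ c) (q'.map hf.tcont) :=
        hAτ.trans a b c q q' hq hq'
      rw [h1, hA.trans a b c q q' hq hq', mul_inv]
      exact mul_mul_mul_comm _ _ _ _
  obtain ⟨c, hc1, hc2⟩ := exact_of_loops hp hJ hB (by
    intro z hz
    show A (τ p) (τ p) (z.map hf.tcont) * (A p p z)⁻¹ = 1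
    rw [loop_eq hf hτ hA hsp z hz, mul_inv_cancel])
  have hcτ : ∀ x ∈ f ⁻¹' V, c (τ x) = (c x)⁻¹ := by
    intro x hx
    obtain ⟨γ, hγ⟩ := hJ p hp x hx
    have h1 := hc2 p x γ hγ
    have h2 := hc2 _ _ (γ.map hf.tcont) (hpt γ hγ)
    have h3 : B (τ p) (τ x) (γ.map hf.tcont) = (B p x γ)⁻¹ := by
      show A (τ (τ p)) (τ (τ x)) ((γ.map hf.tcont).map hf.tcont) *
        (A (τ p) (τ x) (γ.map hf.tcont))⁻¹ = (A (τ p) (τ x) (γ.map hf.tcont) * (A p x γ)⁻¹)⁻¹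
      have h4 : (γ.map hf.tcont).map hf.tcont = γ.cast (hf.invol p) (hf.invol x) := by
        ext t
        exact hf.invol _
      rw [h4, F_cast A, mul_inv, inv_inv, mul_comm]
    have hcp : c (τ p) = 1 := by rw [hτ]; exact hc1
    rw [hcp, inv_one, one_mul] at h2
    rw [hc1, inv_one, one_mul] at h1
    rw [← h2, ← h1, ← h3]
  let e : X → Multiplicative ℝ := fun x => Multiplicative.ofAdd (Multiplicative.toAdd (c x) / 2)
  refine ⟨e, ?_⟩
  intro a b γ hγ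
  have ha : a ∈ f ⁻¹' V := by simpa using hγ 0
  have hb : b ∈ f ⁻¹' V := by simpa using hγ 1
  have h1 : A (τ a) (τ b) (γ.map hf.tcont) * (A a b γ)⁻¹ = (c a)⁻¹ * c b := hc2 a b γ hγ
  have h2 := hcτ a ha
  have h3 := hcτ b hb
  have h1' := congrArg Multiplicative.toAdd h1
  have h2' := congrArg Multiplicative.toAdd h2
  have h3' := congrArg Multiplicative.toAdd h3
  simp only [toAdd_mul, toAdd_inv] at h1' h2' h3'
  apply Multiplicative.toAdd.injective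
  simp only [toAdd_mul, toAdd_inv, e, toAdd_ofAdd]
  rw [h2', h3']
  linarith

/-- local invariant potentials -/
theorem local_pot [T2Space X] {f : X → Y} {τ : X → X} (hf : Fold f τ) (hloc : LocPF X)
    {V : Set Y} (hV : IsOpen V) {A : PFun X (Multiplicative ℝ)} (hA : IsPF (f ⁻¹' V) A)
    (hinv : ∀ (a b : X) (γ : Path a b), (∀ t, γ t ∈ f ⁻¹' V) →
      A (τ a) (τ b) (γ.map hf.tcont) = A a b γ) (x : X) (hx : x ∈ f ⁻¹' V) :
    ∃ (W : Set X) (φ : X → Multiplicative ℝ), IsOpen W ∧ x ∈ W ∧ W ⊆ f ⁻¹' V ∧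
      (∀ y, τ y ∈ W ↔ y ∈ W) ∧ (∀ y ∈ W, φ (τ y) = φ y) ∧
      ∀ (a b : X) (γ : Path a b), (∀ t, γ t ∈ W) → A a b γ = (φ a)⁻¹ * φ b := by
  classical
  have hU : IsOpen (f ⁻¹' V) := hV.preimage hf.cont
  have hUτ : ∀ y, τ y ∈ f ⁻¹' V ↔ y ∈ f ⁻¹' V := by
    intro y
    show f (τ y) ∈ V ↔ f y ∈ V
    rw [ftau hf]
  by_cases hτx : τ x = x
  · obtain ⟨V₁, hV₁U, hV₁o, hxV₁, -, hPFE₁⟩ := hloc x (f ⁻¹' V) (hU.mem_nhds hx)
    obtain ⟨φ, hφ⟩ := hPFE₁ A (hA.mono hV₁U)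
    have hn : V₁ ∩ τ ⁻¹' V₁ ∈ 𝓝 x := by
      refine (hV₁o.inter (hV₁o.preimage hf.tcont)).mem_nhds ⟨hxV₁, ?_⟩
      show τ x ∈ V₁
      rw [hτx]; exact hxV₁
    obtain ⟨V₂, hV₂V, hV₂o, hxV₂, hJ₂, -⟩ := hloc x _ hn
    have hkey : ∀ y ∈ V₂, φ (τ y) = φ y := by
      intro y hy
      obtain ⟨γ, hγ⟩ := hJ₂ x hxV₂ y hy
      have h1 := hφ x y γ fun t => (hV₂V (hγ t)).1
      have h2 := hφ (τ x) (τ y) (γ.map hf.tcont) fun t => (hV₂V (hγ t)).2
      rw [hinv x y γ fun t => hV₁U (hV₂V (hγ t)).1, h1, hτx] at h2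
      exact (mul_left_cancel h2).symm
    refine ⟨V₂ ∪ τ ⁻¹' V₂, φ, hV₂o.union (hV₂o.preimage hf.tcont), Or.inl hxV₂, ?_, ?_, ?_, ?_⟩
    · rintro y (hy | hy)
      · exact hV₁U (hV₂V hy).1
      · exact (hUτ y).1 (hV₁U (hV₂V hy).1)
    · intro y
      constructor
      · rintro (hy | hy)
        · exact Or.inr hy
        · left
          have : τ (τ y) ∈ V₂ := hy
          rwa [hf.invol] at this
      · rintro (hy | hy)
        · right
          show τ (τ y) ∈ V₂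
          rwa [hf.invol]
        · exact Or.inl hy
    · rintro y (hy | hy)
      · exact hkey y hy
      · have := hkey (τ y) hy
        rw [hf.invol] at this
        exact this.symm
    · intro a b γ hγ
      refine hφ a b γ fun t => ?_
      rcases hγ t with h | h
      · exact (hV₂V h).1
      · have : τ (τ (γ t)) ∈ V₁ := (hV₂V h).2
        rwa [hf.invol] at this
  · obtain ⟨O₁, O₂, hO₁, hO₂, hxO₁, hxO₂, hdis⟩ := t2_separation (Ne.symm hτx)
    have hn : f ⁻¹' V ∩ (O₁ ∩ τ ⁻¹' O₂) ∈ 𝓝 x :=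
      (hU.inter (hO₁.inter (hO₂.preimage hf.tcont))).mem_nhds ⟨hx, hxO₁, hxO₂⟩
    obtain ⟨V₁, hV₁U, hV₁o, hxV₁, -, hPFE₁⟩ := hloc x _ hn
    obtain ⟨φ₁, hφ⟩ := hPFE₁ A (hA.mono fun y hy => (hV₁U hy).1)
    have hd : ∀ y, y ∈ V₁ → τ y ∉ V₁ := by
      intro y hy hy'
      exact Set.disjoint_left.mp hdis (hV₁U hy').2.1 (hV₁U hy).2.2
    refine ⟨V₁ ∪ τ ⁻¹' V₁, fun y => if y ∈ V₁ then φ₁ y else φ₁ (τ y),
      hV₁o.union (hV₁o.preimage hf.tcont), Or.inl hxV₁, ?_, ?_, ?_, ?_⟩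
    · rintro y (hy | hy)
      · exact (hV₁U hy).1
      · exact (hUτ y).1 (hV₁U hy).1
    · intro y
      constructor
      · rintro (hy | hy)
        · exact Or.inr hy
        · left
          have : τ (τ y) ∈ V₁ := hy
          rwa [hf.invol] at this
      · rintro (hy | hy)
        · right
          show τ (τ y) ∈ V₁
          rwa [hf.invol]
        · exact Or.inl hy
    · rintro y (hy | hy)
      · show (if τ y ∈ V₁ then φ₁ (τ y) else φ₁ (τ (τ y))) = (if y ∈ V₁ then φ₁ y else φ₁ (τ y))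
        rw [if_neg (hd y hy), if_pos hy, hf.invol]
      · have hy' : τ y ∈ V₁ := hy
        have hy2 : y ∉ V₁ := fun h => hd y h hy'
        show (if τ y ∈ V₁ then φ₁ (τ y) else φ₁ (τ (τ y))) = (if y ∈ V₁ then φ₁ y else φ₁ (τ y))
        rw [if_pos hy', if_neg hy2]
    · intro a b γ hγ
      -- the path stays in one of the two pieces
      have hcases : (∀ t, γ t ∈ V₁) ∨ (∀ t, γ t ∈ τ ⁻¹' V₁) := by
        by_contra hcon
        push Not at hcon
        obtain ⟨⟨t₁, ht₁⟩, ⟨t₂, ht₂⟩⟩ := hcon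
        have hpre : IsPreconnected (Set.univ : Set I) := isPreconnected_univ
        have h1 := hpre (γ ⁻¹' V₁) (γ ⁻¹' (τ ⁻¹' V₁)) (hV₁o.preimage γ.continuous)
          ((hV₁o.preimage hf.tcont).preimage γ.continuous) (fun t _ => hγ t)
          ⟨t₂, mem_univ _, (hγ t₂).resolve_right ht₂⟩
          ⟨t₁, mem_univ _, (hγ t₁).resolve_left ht₁⟩
        obtain ⟨t, -, h2, h3⟩ := h1
        exact hd _ h2 h3
      rcases hcases with h | h
      · have ha : a ∈ V₁ := by simpa using h 0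
        have hb : b ∈ V₁ := by simpa using h 1
        show A a b γ = (if a ∈ V₁ then φ₁ a else φ₁ (τ a))⁻¹ *
          (if b ∈ V₁ then φ₁ b else φ₁ (τ b))
        rw [if_pos ha, if_pos hb]
        exact hφ a b γ h
      · have ha : τ a ∈ V₁ := by simpa using h 0
        have hb : τ b ∈ V₁ := by simpa using h 1
        have ha' : a ∉ V₁ := fun h => hd a h ha
        have hb' : b ∉ V₁ := fun h => hd b h hb
        show A a b γ = (if a ∈ V₁ then φ₁ a else φ₁ (τ a))⁻¹ *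
          (if b ∈ V₁ then φ₁ b else φ₁ (τ b))
        rw [if_neg ha', if_neg hb']
        rw [← hφ (τ a) (τ b) (γ.map hf.tcont) h]
        exact (hinv a b γ fun t => (hUτ _).1 (hV₁U (h t)).1).symm

/-- an invariant functor is exact -/
theorem inv_exact (h1 : StPot) (h2 : StAG) [T2Space X] {f : X → Y} {τ : X → X} (hf : Fold f τ)
    (hloc : LocPF X) {V : Set Y} (hV : IsOpen V) (hPFE : PFE (Multiplicative ℝ) V)
    {A : PFun X (Multiplicative ℝ)} (hA : IsPF (f ⁻¹' V) A)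
    (hinv : ∀ (a b : X) (γ : Path a b), (∀ t, γ t ∈ f ⁻¹' V) →
      A (τ a) (τ b) (γ.map hf.tcont) = A a b γ) : IsExact (f ⁻¹' V) A := by
  classical
  have hlp := local_pot hf hloc hV hA hinv
  choose W φ hWo hxW hWU hWτ hφτ hφ using hlp
  choose s hs using hf.surj
  have hsf : ∀ (i : X) (hi : i ∈ f ⁻¹' V) (x : X), x ∈ W i hi → φ i hi (s (f x)) = φ i hi x := by
    intro i hi x hx
    have h3 : f x = f (s (f x)) := (hs (f x)).symm
    rcases (hf.fib x (s (f x))).1 h3 with h4 | h4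
    · rw [h4]
    · rw [h4, hφτ i hi x hx]
  have hsW : ∀ (i : X) (hi : i ∈ f ⁻¹' V) (y : Y), y ∈ f '' W i hi → s y ∈ W i hi := by
    rintro i hi y ⟨x, hx, rfl⟩
    have h3 : f x = f (s (f x)) := (hs (f x)).symm
    rcases (hf.fib x (s (f x))).1 h3 with h4 | h4
    · rw [h4]; exact hx
    · rw [h4]; exact (hWτ i hi x).2 hx
  obtain ⟨F, hF1, hF2⟩ := h1 Y (Multiplicative ℝ) ↥(f ⁻¹' V) (fun i => f '' W i.1 i.2)
    (fun i y => φ i.1 i.2 (s y)) (fun i => hf.opn _ (hWo i.1 i.2)) (by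
      rintro ⟨i, hi⟩ ⟨j, hj⟩ y ⟨hyi, hyj⟩
      have hsi := hsW i hi y hyi
      have hsj := hsW j hj y hyj
      obtain ⟨V', hV'W, hV'o, hxV', hJ', -⟩ := hloc (s y) (W i hi ∩ W j hj)
        (((hWo i hi).inter (hWo j hj)).mem_nhds ⟨hsi, hsj⟩)
      have hn : f '' V' ∈ 𝓝 y := (hf.opn _ hV'o).mem_nhds ⟨s y, hxV', hs y⟩
      filter_upwards [hn]
      rintro y' ⟨x', hx', rfl⟩
      obtain ⟨γ, hγ⟩ := hJ' (s y) hxV' x' hx'
      have e1 := hφ i hi _ _ γ fun t => (hV'W (hγ t)).1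
      have e2 := hφ j hj _ _ γ fun t => (hV'W (hγ t)).2
      show φ j hj (s (f x')) * (φ i hi (s (f x')))⁻¹ = φ j hj (s y) * (φ i hi (s y))⁻¹
      rw [hsf j hj x' (hV'W hx').2, hsf i hi x' (hV'W hx').1]
      have e3 : (φ i hi (s y))⁻¹ * φ i hi x' = (φ j hj (s y))⁻¹ * φ j hj x' := e1.symm.trans e2
      have e4 := congrArg Multiplicative.toAdd e3
      simp only [toAdd_mul, toAdd_inv] at e4
      apply Multiplicative.toAdd.injective
      simp only [toAdd_mul, toAdd_inv]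
      linarith)
  have hUn : (⋃ i : ↥(f ⁻¹' V), f '' W i.1 i.2) = V := by
    ext y
    constructor
    · rintro hy
      obtain ⟨i, x, hx, rfl⟩ := mem_iUnion.mp hy
      exact hWU _ _ hx
    · intro hy
      have : s y ∈ f ⁻¹' V := by show f (s y) ∈ V; rw [hs]; exact hy
      exact mem_iUnion.mpr ⟨⟨s y, this⟩, s y, hxW _ _, hs y⟩
  rw [hUn] at hF1
  obtain ⟨g, hg⟩ := hPFE F hF1
  refine ⟨fun x => g (f x), ?_⟩
  have hex : IsPF (f ⁻¹' V) (fun a b (_ : Path a b) => (g (f a))⁻¹ * g (f b)) :=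
    IsExact.isPF ⟨fun x => g (f x), fun a b p _ => rfl⟩
  intro a b p hp
  refine h2 X (Multiplicative ℝ) ↥(f ⁻¹' V) (f ⁻¹' V) (fun i => W i.1 i.2) A
    (fun a b (_ : Path a b) => (g (f a))⁻¹ * g (f b)) hA hex (fun i => hWo i.1 i.2) ?_ ?_ a b p hp
  · intro x hx
    exact mem_iUnion.mpr ⟨⟨x, hx⟩, hxW x hx⟩
  · rintro ⟨i, hi⟩ a b γ hγ
    have ha : a ∈ W i hi := by simpa using (hγ 0).2
    have hb : b ∈ W i hi := by simpa using (hγ 1).2
    have e1 := hφ i hi a b γ fun t => (hγ t).2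
    have e2 := hF2 ⟨i, hi⟩ (f a) (f b) (γ.map hf.cont) fun t => ⟨γ t, (hγ t).2, rfl⟩
    have e3 := hg (f a) (f b) (γ.map hf.cont) fun t => (hγ t).1
    show A a b γ = (g (f a))⁻¹ * g (f b)
    rw [← e3, e2, e1]
    show _ = (φ i hi (s (f a)))⁻¹ * φ i hi (s (f b))
    rw [hsf i hi a ha, hsf i hi b hb]

end DECK

theorem pDeck (h1 : StPot) (h2 : StAG) : StDeck := by
  intro X Y _ _ _ f τ V p A hf hloc hV hPFE hJ hp hτ hA hsp
  obtain ⟨e, he⟩ := DECK.step2 hf hp hτ hJ hA hsp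
  have hA' : IsPF (f ⁻¹' V) (fun a b γ => A a b γ * (e a)⁻¹ * e b) := by
    refine ⟨fun a b q q' H hH => ?_, fun a b c q q' hq hq' => ?_⟩
    · show A a b q * (e a)⁻¹ * e b = A a b q' * (e a)⁻¹ * e b
      rw [hA.hom a b q q' H hH]
    · show A a c (q.trans q') * (e a)⁻¹ * e c =
        A a b q * (e a)⁻¹ * e b * (A b c q' * (e b)⁻¹ * e c)
      rw [hA.trans a b c q q' hq hq']
      apply Multiplicative.toAdd.injective
      simp only [toAdd_mul, toAdd_inv]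
      ring
  obtain ⟨g, hg⟩ := DECK.inv_exact h1 h2 hf hloc hV hPFE hA' he
  refine ⟨fun x => g x * (e x)⁻¹, ?_⟩
  intro a b γ hγ
  have h3 : A a b γ * (e a)⁻¹ * e b = (g a)⁻¹ * g b := hg a b γ hγ
  have h4 := congrArg Multiplicative.toAdd h3
  simp only [toAdd_mul, toAdd_inv] at h4
  apply Multiplicative.toAdd.injective
  simp only [toAdd_mul, toAdd_inv]
  linarith

end CM
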