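import Pool.Agent.Helper59.CM.NP

/-!
Project CM, second part, module NPCOMP: completion by gluing two copies.
-/

set_option autoImplicit false
set_option linter.unusedSectionVars false

namespace CM

open Set Topology unitInterval

namespace NPCOMP

/-- two copies of `X`, glued outside `D` -/
inductive Gl {X : Type} (D : Set X) (τ : X → X) : Type
  | a (x : X) : Gl D τ
  | b (x : X) (h : x ∈ D) : Gl D τ

section def1

variable {X : Type} (D : Set X) (τ : X → X)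

/-- first copy -/
def i1 (x : X) : Gl D τ := Gl.a x

open Classical in
/-- second copy -/
noncomputable def i2 (x : X) : Gl D τ := if h : x ∈ D then Gl.b x h else Gl.a (τ x)

/-- exchange -/
noncomputable def tt : Gl D τ → Gl D τ
  | Gl.a x => i2 D τ x
  | Gl.b x _ => Gl.a x

/-- the map -/
def ff {Y : Type} (f : X → Y) : Gl D τ → Y
  | Gl.a x => f x
  | Gl.b x _ => f x

variable {D τ}

theorem i2_mem {x : X} (h : x ∈ D) : i2 D τ x = Gl.b x h := by
  rw [i2, dif_pos h]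

theorem i2_not {x : X} (h : x ∉ D) : i2 D τ x = Gl.a (τ x) := by
  rw [i2, dif_neg h]

theorem cover (z : Gl D τ) : (∃ x, i1 D τ x = z) ∨ (∃ x, i2 D τ x = z) := by
  cases z with
  | a x => exact Or.inl ⟨x, rfl⟩
  | b x h => exact Or.inr ⟨x, i2_mem h⟩

theorem i1_inj : Function.Injective (i1 D τ) := by
  intro x x' h
  exact Gl.a.inj h

variable (hτ : ∀ x, x ∉ D → τ x ∉ D ∧ τ (τ x) = x)

include hτ

theorem i1_eq_i2 {x x' : X} : i1 D τ x = i2 D τ x' ↔ x' ∉ D ∧ x = τ x' := by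
  constructor
  · intro h
    by_cases h1 : x' ∈ D
    · rw [i2_mem h1] at h
      exact absurd h (by rw [i1]; exact fun h => by cases h)
    · rw [i2_not h1] at h
      exact ⟨h1, Gl.a.inj h⟩
  · rintro ⟨h1, h2⟩
    rw [i2_not h1, h2]
    rfl

theorem i2_tau {x : X} (h : x ∉ D) : i2 D τ (τ x) = i1 D τ x := by
  rw [i2_not (hτ x h).1, (hτ x h).2]
  rfl

theorem i1_tau {x : X} (h : x ∉ D) : i1 D τ (τ x) = i2 D τ x := by
  rw [i2_not h]
  rfl

theorem i2_inj : Function.Injective (i2 D τ) := by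
  intro x x' h
  by_cases h1 : x' ∈ D
  · by_cases h2 : x ∈ D
    · rw [i2_mem h1, i2_mem h2] at h
      exact (Gl.b.inj h)
    · rw [i2_mem h1, i2_not h2] at h
      cases h
  · by_cases h2 : x ∈ D
    · rw [i2_not h1, i2_mem h2] at h
      cases h
    · rw [i2_not h1, i2_not h2] at h
      have h3 := Gl.a.inj h
      rw [← (hτ x h2).2, h3, (hτ x' h1).2]

theorem tt_i1 (x : X) : tt D τ (i1 D τ x) = i2 D τ x := rfl

theorem tt_i2 (x : X) : tt D τ (i2 D τ x) = i1 D τ x := by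
  by_cases h : x ∈ D
  · rw [i2_mem h]
    rfl
  · rw [← i1_tau hτ h, tt_i1 hτ, i2_tau hτ h]

theorem tt_tt (z : Gl D τ) : tt D τ (tt D τ z) = z := by
  rcases cover z with ⟨x, rfl⟩ | ⟨x, rfl⟩
  · rw [tt_i1 hτ, tt_i2 hτ]
  · rw [tt_i2 hτ, tt_i1 hτ]

theorem ff_i1 {Y : Type} (f : X → Y) (x : X) : ff D τ f (i1 D τ x) = f x := rfl

theorem ff_i2 {Y : Type} {f : X → Y} (hf : ∀ x, x ∉ D → f (τ x) = f x) (x : X) :
    ff D τ f (i2 D τ x) = f x := by
  by_cases h : x ∈ D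
  · rw [i2_mem h]
    rfl
  · rw [i2_not h]
    exact hf x h

theorem ff_tt {Y : Type} {f : X → Y} (hf : ∀ x, x ∉ D → f (τ x) = f x) (z : Gl D τ) :
    ff D τ f (tt D τ z) = ff D τ f z := by
  rcases cover z with ⟨x, rfl⟩ | ⟨x, rfl⟩
  · rw [tt_i1 hτ, ff_i2 hτ hf, ff_i1 hτ]
  · rw [tt_i2 hτ, ff_i2 hτ hf, ff_i1 hτ]

theorem fib {Y : Type} {f : X → Y} (hf : ∀ x, x ∉ D → f (τ x) = f x)
    (h2 : ∀ x x', f x = f x' → x' = x ∨ (x ∉ D ∧ x' = τ x)) (z z' : Gl D τ) :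
    ff D τ f z = ff D τ f z' ↔ z' = z ∨ z' = tt D τ z := by
  constructor
  · intro h
    rcases cover z with ⟨x, rfl⟩ | ⟨x, rfl⟩ <;> rcases cover z' with ⟨x', rfl⟩ | ⟨x', rfl⟩
    · rw [ff_i1 hτ, ff_i1 hτ] at h
      rcases h2 x x' h with h3 | ⟨h3, h4⟩
      · left; rw [h3]
      · right; rw [h4, tt_i1 hτ, i1_tau hτ h3]
    · rw [ff_i1 hτ, ff_i2 hτ hf] at h
      rcases h2 x x' h with h3 | ⟨h3, h4⟩
      · right; rw [h3, tt_i1 hτ]
      · left; rw [h4, i2_tau hτ h3]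
    · rw [ff_i1 hτ, ff_i2 hτ hf] at h
      rcases h2 x x' h with h3 | ⟨h3, h4⟩
      · right; rw [h3, tt_i2 hτ]
      · left; rw [h4, i1_tau hτ h3]
    · rw [ff_i2 hτ hf, ff_i2 hτ hf] at h
      rcases h2 x x' h with h3 | ⟨h3, h4⟩
      · left; rw [h3]
      · right; rw [h4, tt_i2 hτ, i2_tau hτ h3]
  · rintro (h | h)
    · rw [h]
    · rw [h, ff_tt hτ hf]

end def1

/-! ### topology -/

section top

variable {X : Type} [TopologicalSpace X] {D : Set X} {τ : X → X}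

noncomputable instance : TopologicalSpace (Gl D τ) :=
  TopologicalSpace.coinduced (i1 D τ) inferInstance ⊔
    TopologicalSpace.coinduced (i2 D τ) inferInstance

theorem open_iff {U : Set (Gl D τ)} :
    IsOpen U ↔ IsOpen (i1 D τ ⁻¹' U) ∧ IsOpen (i2 D τ ⁻¹' U) := Iff.rfl

theorem c1 : Continuous (i1 D τ) := ⟨fun _ hU => (open_iff.1 hU).1⟩

theorem c2 : Continuous (i2 D τ) := ⟨fun _ hU => (open_iff.1 hU).2⟩

variable (hτ : ∀ x, x ∉ D → τ x ∉ D ∧ τ (τ x) = x) (hD : IsClosed D) (hc : ContinuousOn τ Dᶜ)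

include hD hc in
theorem pre_open {O : Set X} (hO : IsOpen O) : IsOpen {x | x ∉ D ∧ τ x ∈ O} :=
  hc.isOpen_inter_preimage hD.isOpen_compl hO

include hτ hD hc

theorem emb1 : IsOpenEmbedding (i1 D τ) := by
  refine IsOpenEmbedding.of_continuous_injective_isOpenMap c1 i1_inj ?_
  intro O hO
  rw [open_iff]
  constructor
  · rw [preimage_image_eq _ i1_inj]
    exact hO
  · have h : i2 D τ ⁻¹' (i1 D τ '' O) = {x | x ∉ D ∧ τ x ∈ O} := by
      ext x
      constructor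
      · rintro ⟨y, hy, h⟩
        obtain ⟨h1, h2⟩ := (i1_eq_i2 hτ).1 h
        exact ⟨h1, h2 ▸ hy⟩
      · rintro ⟨h1, h2⟩
        exact ⟨τ x, h2, i1_tau hτ h1⟩
    rw [h]
    exact pre_open hD hc hO

theorem emb2 : IsOpenEmbedding (i2 D τ) := by
  refine IsOpenEmbedding.of_continuous_injective_isOpenMap c2 (i2_inj hτ) ?_
  intro O hO
  rw [open_iff]
  constructor
  · have h : i1 D τ ⁻¹' (i2 D τ '' O) = {x | x ∉ D ∧ τ x ∈ O} := by
      ext x
      constructor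
      · rintro ⟨y, hy, h⟩
        obtain ⟨h1, h2⟩ := (i1_eq_i2 hτ).1 h.symm
        refine ⟨h2 ▸ (hτ y h1).1, ?_⟩
        rw [h2, (hτ y h1).2]
        exact hy
      · rintro ⟨h1, h2⟩
        exact ⟨τ x, h2, i2_tau hτ h1⟩
    rw [h]
    exact pre_open hD hc hO
  · rw [preimage_image_eq _ (i2_inj hτ)]
    exact hO

omit hD hc in
theorem tt_cont : Continuous (tt D τ) := by
  refine ⟨fun U hU => ?_⟩
  obtain ⟨h1, h2⟩ := open_iff.1 hU
  rw [open_iff]
  constructor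
  · exact h2
  · have : i2 D τ ⁻¹' (tt D τ ⁻¹' U) = i1 D τ ⁻¹' U := by
      ext x
      show tt D τ (i2 D τ x) ∈ U ↔ i1 D τ x ∈ U
      rw [tt_i2 hτ]
    rw [this]
    exact h1

end top

/-! ### transport along open embeddings -/

section transport

variable {X X' : Type} [TopologicalSpace X] [TopologicalSpace X'] {i : X → X'}

theorem jn_image (hi : Continuous i) {V : Set X} (hV : Jn V) : Jn (i '' V) := by
  rintro _ ⟨x, hx, rfl⟩ _ ⟨y, hy, rfl⟩
  obtain ⟨γ, hγ⟩ := hV x hx y hy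
  exact ⟨γ.map hi, fun t => ⟨γ t, hγ t, rfl⟩⟩

open Classical in
theorem pfe_image (hi : IsOpenEmbedding i) {V : Set X} {Γ : Type} [Group Γ] (hV : PFE Γ V) :
    PFE Γ (i '' V) := by
  intro F hF
  have h1 : IsPF V (pull ⟨i, hi.continuous⟩ F) := by
    refine (hF.pull ⟨i, hi.continuous⟩).mono ?_
    intro x hx
    exact ⟨x, hx, rfl⟩
  obtain ⟨g, hg⟩ := hV _ h1
  refine ⟨fun z => if h : ∃ x, i x = z then g h.choose else 1, ?_⟩
  intro a b p hp
  have hr : ∀ t, p t ∈ range i := fun t => by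
    obtain ⟨x, _, hx⟩ := hp t
    exact ⟨x, hx⟩
  have hinv : ∀ t, ∃ x, x ∈ V ∧ i x = p t := fun t => by
    obtain ⟨x, h2, hx⟩ := hp t
    exact ⟨x, h2, hx⟩
  choose q hqV hq using hinv
  have hqc : Continuous q := by
    rw [hi.isEmbedding.continuous_iff]
    have : i ∘ q = p := funext hq
    rw [this]
    exact p.continuous
  have hg' : ∀ x, (fun z => if h : ∃ x, i x = z then g h.choose else 1 : X' → Γ) (i x) = g x := by
    intro x
    have h : ∃ y, i y = i x := ⟨x, rfl⟩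
    show (if h : ∃ y, i y = i x then g h.choose else 1) = g x
    rw [dif_pos h]
    congr 1
    exact hi.injective h.choose_spec
  obtain ⟨a0, ha0⟩ : ∃ a0, a0 = q 0 := ⟨_, rfl⟩
  obtain ⟨b0, hb0⟩ : ∃ b0, b0 = q 1 := ⟨_, rfl⟩
  have ha : i a0 = a := by rw [ha0, hq 0, p.source]
  have hb : i b0 = b := by rw [hb0, hq 1, p.target]
  subst ha hb
  rw [hg' a0, hg' b0]
  let γ : Path a0 b0 := ⟨⟨q, hqc⟩, ha0.symm, hb0.symm⟩
  have h3 := hg a0 b0 γ (fun t => hqV t)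
  rw [← h3]
  show F (i a0) (i b0) p = F (i a0) (i b0) (γ.map hi.continuous)
  congr 1
  ext t
  exact (hq t).symm

theorem loc_image (hi : IsOpenEmbedding i) (hX : LocAll X) (x : X) :
    ∀ W ∈ 𝓝 (i x), ∃ V : Set X', V ⊆ W ∧
      IsOpen V ∧ i x ∈ V ∧ Jn V ∧ ∀ (Γ : Type) [Group Γ], PFE Γ V := by
  intro W hW
  obtain ⟨V, h1, h2, h3, h4, h5⟩ := hX x (i ⁻¹' W) (hi.continuous.continuousAt hW)
  refine ⟨i '' V, ?_, hi.isOpenMap _ h2, ⟨x, h3, rfl⟩, jn_image hi.continuous h4, ?_⟩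
  · rintro _ ⟨y, hy, rfl⟩
    exact h1 hy
  · intro Γ _
    exact pfe_image hi (h5 Γ)

theorem lpc_image (hi : IsOpenEmbedding i) [LocallyPathConnectedSpace X] (x : X) :
    ∀ u : Set X', IsOpen u → i x ∈ u → pathComponentIn u (i x) ∈ 𝓝 (i x) := by
  intro u hu hx
  have h1 : IsOpen (pathComponentIn (i ⁻¹' u) x) := (hu.preimage hi.continuous).pathComponentIn x
  refine Filter.mem_of_superset ((hi.isOpenMap _ h1).mem_nhds
    ⟨x, mem_pathComponentIn_self hx, rfl⟩) ?_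
  rintro _ ⟨y, hy, rfl⟩
  obtain ⟨γ, hγ⟩ := hy
  exact ⟨γ.map hi.continuous, fun t => hγ t⟩

end transport

end NPCOMP

open NPCOMP in
theorem pComp : StComp := by
  intro X _ _ _ f D τ hf hfs hloc hfo hD hc hseg h1 h2 h3 h4 h5
  have hτ : ∀ x, x ∉ D → τ x ∉ D ∧ τ (τ x) = x := fun x hx => ⟨(h1 x hx).1, (h1 x hx).2.1⟩
  have hfτ : ∀ x, x ∉ D → f (τ x) = f x := fun x hx => (h1 x hx).2.2
  have e1 := emb1 hτ hD hc
  have e2 := emb2 hτ hD hc
  have hff1 : ∀ V : Set E3, i1 D τ ⁻¹' (ff D τ f ⁻¹' V) = f ⁻¹' V := fun V => rfl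
  have hff2 : ∀ V : Set E3, i2 D τ ⁻¹' (ff D τ f ⁻¹' V) = f ⁻¹' V := by
    intro V
    ext x
    show ff D τ f (i2 D τ x) ∈ V ↔ f x ∈ V
    rw [ff_i2 hτ hfτ]
  have hfc : Continuous (ff D τ f) := by
    refine ⟨fun V hV => ?_⟩
    rw [open_iff, hff1, hff2]
    exact ⟨hV.preimage hf, hV.preimage hf⟩
  have hfib := fib hτ hfτ h2
  -- the key property
  have hP : ∀ x : X, ∀ U₁ ∈ 𝓝 (i1 D τ x), ∀ U₂ ∈ 𝓝 (i2 D τ x), ∃ V ∈ 𝓝 (f x),
      ff D τ f ⁻¹' V ⊆ U₁ ∪ U₂ := by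
    intro x U₁ hU₁ U₂ hU₂
    have hW : i1 D τ ⁻¹' U₁ ∩ i2 D τ ⁻¹' U₂ ∈ 𝓝 x :=
      Filter.inter_mem (c1.continuousAt hU₁) (c2.continuousAt hU₂)
    by_cases hx : x ∈ D
    · obtain ⟨V, hV, hV'⟩ := h4 x hx _ hW
      refine ⟨V, hV, ?_⟩
      intro z hz
      rcases cover z with ⟨u, rfl⟩ | ⟨u, rfl⟩
      · rcases hV' u hz with h6 | ⟨h6, h7⟩
        · exact Or.inl h6.1
        · right
          have := h7.2
          rw [mem_preimage, i2_tau hτ h6] at this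
          exact this
      · have hz' : f u ∈ V := by
          rw [mem_preimage, ff_i2 hτ hfτ] at hz
          exact hz
        rcases hV' u hz' with h6 | ⟨h6, h7⟩
        · exact Or.inr h6.2
        · left
          have := h7.1
          rw [mem_preimage, i1_tau hτ h6] at this
          exact this
    · have hW' : i1 D τ ⁻¹' U₂ ∩ i2 D τ ⁻¹' U₁ ∈ 𝓝 (τ x) := by
        refine Filter.inter_mem (c1.continuousAt ?_) (c2.continuousAt ?_)
        · rw [i1_tau hτ hx]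
          exact hU₂
        · rw [i2_tau hτ hx]
          exact hU₁
      obtain ⟨V, hV, hV'⟩ := h3 x hx _ hW _ hW'
      refine ⟨V, hV, ?_⟩
      intro z hz
      rcases cover z with ⟨u, rfl⟩ | ⟨u, rfl⟩
      · rcases hV' hz with h6 | h6
        · exact Or.inl h6.1
        · exact Or.inr h6.1
      · have hz' : f u ∈ V := by
          rw [mem_preimage, ff_i2 hτ hfτ] at hz
          exact hz
        rcases hV' hz' with h6 | h6
        · exact Or.inr h6.2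
        · exact Or.inl h6.2
  refine ⟨Gl D τ, inferInstance, i1 D τ, ff D τ f, tt D τ, ⟨e1, ?_, ?_, ⟨hfc, ?_, ?_, ?_,
    tt_cont hτ, tt_tt hτ, hfib⟩, ?_, ?_, ?_⟩, fun x => rfl⟩
  · -- Hausdorff
    have key : ∀ x : X, i1 D τ x ≠ i2 D τ x → ∃ u v : Set (Gl D τ), IsOpen u ∧ IsOpen v ∧
        i1 D τ x ∈ u ∧ i2 D τ x ∈ v ∧ Disjoint u v := by
      intro x hne
      by_cases hx : x ∈ D
      · obtain ⟨W, hW, hW'⟩ := h5 x hx
        obtain ⟨W0, hW0, hW0o, hxW0⟩ := mem_nhds_iff.1 hW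
        refine ⟨i1 D τ '' W0, i2 D τ '' W0, e1.isOpenMap _ hW0o, e2.isOpenMap _ hW0o,
          ⟨x, hxW0, rfl⟩, ⟨x, hxW0, rfl⟩, ?_⟩
        rw [disjoint_left]
        rintro _ ⟨u, hu, rfl⟩ ⟨u', hu', h6⟩
        obtain ⟨h7, h8⟩ := (i1_eq_i2 hτ).1 h6.symm
        exact hW' u' (hW0 hu') h7 (h8 ▸ hW0 hu)
      · rw [← i1_tau hτ hx] at hne ⊢
        have hne' : x ≠ τ x := fun h => hne (congrArg _ h)
        obtain ⟨u, v, hu, hv, hxu, hxv, hd⟩ := t2_separation hne'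
        refine ⟨i1 D τ '' u, i1 D τ '' v, e1.isOpenMap _ hu, e1.isOpenMap _ hv,
          ⟨x, hxu, rfl⟩, ⟨τ x, hxv, rfl⟩, ?_⟩
        exact (disjoint_image_iff i1_inj).2 hd
    refine ⟨fun z z' hne => ?_⟩
    by_cases hz : ff D τ f z = ff D τ f z'
    · rcases (hfib z z').1 hz with h6 | h6
      · exact absurd h6.symm hne
      · rcases cover z with ⟨x, rfl⟩ | ⟨x, rfl⟩
        · rw [tt_i1 hτ] at h6
          subst h6
          exact key x hne
        · rw [tt_i2 hτ] at h6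
          subst h6
          obtain ⟨u, v, hu, hv, hxu, hxv, hd⟩ := key x hne.symm
          exact ⟨v, u, hv, hu, hxv, hxu, hd.symm⟩
    · obtain ⟨u, v, hu, hv, hxu, hxv, hd⟩ := t2_separation hz
      exact ⟨_, _, hu.preimage hfc, hv.preimage hfc, hxu, hxv, hd.preimage _⟩
  · -- locally path connected
    rw [locallyPathConnectedSpace_iff_pathComponentIn_mem_nhds]
    intro z
    rcases cover z with ⟨x, rfl⟩ | ⟨x, rfl⟩
    · exact lpc_image e1 x
    · exact lpc_image e2 x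
  · -- surjective
    intro y
    obtain ⟨x, hx⟩ := hfs y
    exact ⟨i1 D τ x, hx⟩
  · -- open
    intro U hU
    obtain ⟨h6, h7⟩ := open_iff.1 hU
    have : ff D τ f '' U = f '' (i1 D τ ⁻¹' U) ∪ f '' (i2 D τ ⁻¹' U) := by
      ext y
      constructor
      · rintro ⟨z, hz, rfl⟩
        rcases cover z with ⟨x, rfl⟩ | ⟨x, rfl⟩
        · exact Or.inl ⟨x, hz, rfl⟩
        · exact Or.inr ⟨x, hz, (ff_i2 hτ hfτ x).symm⟩
      · rintro (⟨x, hx, rfl⟩ | ⟨x, hx, rfl⟩)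
        · exact ⟨i1 D τ x, hx, rfl⟩
        · exact ⟨i2 D τ x, hx, ff_i2 hτ hfτ x⟩
    rw [this]
    exact (hfo _ h6).union (hfo _ h7)
  · -- proper
    rw [isProperMap_iff_ultrafilter]
    refine ⟨hfc, ?_⟩
    intro 𝒰 y hy
    obtain ⟨x, rfl⟩ := hfs y
    by_cases hU1 : (𝒰 : Filter (Gl D τ)) ≤ 𝓝 (i1 D τ x)
    · exact ⟨i1 D τ x, rfl, hU1⟩
    · refine ⟨i2 D τ x, ff_i2 hτ hfτ x, ?_⟩
      intro U₂ hU₂
      by_contra hcon
      obtain ⟨U₁, hU₁, hU₁'⟩ : ∃ U₁ ∈ 𝓝 (i1 D τ x), U₁ ∉ (𝒰 : Filter (Gl D τ)) := by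
        by_contra h
        push Not at h
        exact hU1 h
      obtain ⟨V, hV, hVs⟩ := hP x U₁ hU₁ U₂ hU₂
      have h6 : U₁ ∪ U₂ ∈ (𝒰 : Filter (Gl D τ)) := Filter.mem_of_superset (hy hV) hVs
      rcases Ultrafilter.union_mem_iff.1 h6 with h7 | h7
      · exact hU₁' h7
      · exact hcon h7
  · -- local
    intro z
    rcases cover z with ⟨x, rfl⟩ | ⟨x, rfl⟩
    · exact loc_image e1 hloc x
    · exact loc_image e2 hloc x
  · -- missing points
    intro z hz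
    cases z with
    | a x => exact absurd ⟨x, rfl⟩ hz
    | b x h => exact ⟨x, rfl⟩
  · -- segments
    intro R
    obtain ⟨L, hL⟩ := hseg R
    refine ⟨L, fun y hy => hL ⟨?_, hy.2⟩⟩
    obtain ⟨⟨z, hz, rfl⟩, -⟩ := hy
    cases z with
    | a x => exact absurd ⟨x, rfl⟩ hz
    | b x h => exact ⟨x, h, rfl⟩

end CM
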