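import Pool.Agent.Helper59.CM.NP

set_option autoImplicit false

namespace CM

open Set Topology

namespace NPCVXL

theorem span_ne_top (u v : E3) : Submodule.span ℝ ({u, v} : Set E3) ≠ ⊤ := by
  classical
  intro h
  have h1 := finrank_span_finset_le_card (R := ℝ) ({u, v} : Finset E3)
  have h2 : (({u, v} : Finset E3) : Set E3) = {u, v} := by simp
  rw [Set.finrank, h2, h, finrank_top, finrank_euclideanSpace_fin] at h1
  exact absurd (h1.trans Finset.card_le_two) (by norm_num)

theorem interior_shift (y u v : E3) :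
    interior {w : E3 | w - y ∈ Submodule.span ℝ ({u, v} : Set E3)} = ∅ := by
  by_contra hne
  obtain ⟨w, hw⟩ := Set.nonempty_iff_ne_empty.2 hne
  refine span_ne_top u v (Submodule.eq_top_of_nonempty_interior' _ ⟨w - y, ?_⟩)
  rw [mem_interior_iff_mem_nhds] at hw ⊢
  have hc : Filter.Tendsto (fun z : E3 => z + y) (𝓝 (w - y)) (𝓝 w) := by
    have : Continuous (fun z : E3 => z + y) := by fun_prop
    have h := this.tendsto (w - y)
    simpa using h
  filter_upwards [hc hw] with z hz
  have hz' : z + y - y ∈ Submodule.span ℝ ({u, v} : Set E3) := hz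
  simpa using hz'

theorem closed_shift (y u v : E3) :
    IsClosed {w : E3 | w - y ∈ Submodule.span ℝ ({u, v} : Set E3)} := by
  have h1 : IsClosed ((Submodule.span ℝ ({u, v} : Set E3) : Submodule ℝ E3) : Set E3) :=
    Submodule.closed_of_finiteDimensional _
  exact h1.preimage (by fun_prop : Continuous fun w : E3 => w - y)

theorem seg_avoid {y u x w z : E3} (hw : w - y ∉ Submodule.span ℝ ({u, x - y} : Set E3))
    (hz : z ∈ segment ℝ x w) (c : ℝ) (hc : z = y + c • u) : z = x := by
  obtain ⟨s, t, hs, ht, hst, rfl⟩ := hz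
  by_cases h0 : t = 0
  · subst h0
    have : s = 1 := by linarith
    subst this
    simp
  · exfalso
    apply hw
    have h1 : t • (w - y) ∈ Submodule.span ℝ ({u, x - y} : Set E3) := by
      have h2 : t • (w - y) = c • u + (-s) • (x - y) := by
        have hs' : s = 1 - t := by linarith
        subst hs'
        have h3 : t • w = y + c • u - (1 - t) • x := by rw [← hc]; abel
        rw [smul_sub, h3]
        module
      rw [h2]
      exact Submodule.add_mem _ (Submodule.smul_mem _ _ (Submodule.subset_span (by simp)))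
        (Submodule.smul_mem _ _ (Submodule.subset_span (by simp)))
    exact (Submodule.smul_mem_iff _ h0).1 h1

end NPCVXL

open NPCVXL in
theorem pCvxLine : StCvxLine := by
  intro V Z y u hVo hVc hZ hline x hx x' hx'
  have hU : interior ({w : E3 | w - y ∈ Submodule.span ℝ ({u, x - y} : Set E3)} ∪
      {w : E3 | w - y ∈ Submodule.span ℝ ({u, x' - y} : Set E3)}) = ∅ := by
    rw [interior_union_isClosed_of_interior_empty (closed_shift _ _ _) (interior_shift _ _ _)]
    exact interior_shift _ _ _
  obtain ⟨w, hwV, hw⟩ : ∃ w ∈ V, w ∉ ({w : E3 | w - y ∈ Submodule.span ℝ ({u, x - y} : Set E3)} ∪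
      {w : E3 | w - y ∈ Submodule.span ℝ ({u, x' - y} : Set E3)}) := by
    by_contra hcon
    push Not at hcon
    have : V ⊆ interior ({w : E3 | w - y ∈ Submodule.span ℝ ({u, x - y} : Set E3)} ∪
      {w : E3 | w - y ∈ Submodule.span ℝ ({u, x' - y} : Set E3)}) :=
      interior_maximal hcon hVo
    rw [hU] at this
    exact this hx.1
  have hw1 : w - y ∉ Submodule.span ℝ ({u, x - y} : Set E3) := fun h => hw (Or.inl h)
  have hw2 : w - y ∉ Submodule.span ℝ ({u, x' - y} : Set E3) := fun h => hw (Or.inr h)
  have key : ∀ p ∈ V \ Z, w - y ∉ Submodule.span ℝ ({u, p - y} : Set E3) →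
      JoinedIn (V \ Z) p w := by
    intro p hp hwp
    refine JoinedIn.of_segment_subset fun z hz => ?_
    have hzV : z ∈ V := hVc.segment_subset hp.1 hwV hz
    refine ⟨hzV, fun hzZ => ?_⟩
    obtain ⟨c, hc⟩ := hline z ⟨hzV, hzZ⟩
    exact hp.2 (seg_avoid hwp hz c hc ▸ hzZ)
  exact (key x hx hw1).trans (key x' hx' hw2).symm

end CM
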