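import Pool.Agent.Helper59.CM.NP
import Pool.Agent.Helper59.CM.M_FOLD
import Pool.Agent.Helper59.CM.M_OPEN

set_option autoImplicit false

namespace CM

open Set Topology unitInterval

namespace NPLOCAL

variable {X : Type} [TopologicalSpace X] [T2Space X]

/-- if `f` has at most two points in each fibre: three distinct points are impossible -/
private def Two (f : X → E3) : Prop := ∀ x₁ x₂ x₃, f x₁ = f x₂ → f x₁ = f x₃ → x₁ ≠ x₂ → x₁ ≠ x₃ →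
    x₂ ≠ x₃ → False

/-- (C2) with all the data -/
private theorem c2 (hBall : StBall) [LocallyCompactSpace X] {f : X → E3} {B : Set E3}
    (hf : Continuous f) (hopen : IsOpenMap f) (htwo : Two f) (hB : IsClosed B) (hL : Seg B)
    (hcard : ∀ y ∉ B, (f ⁻¹' {y}).ncard = 2) (x : X) (hx : ∀ x', f x' = f x → x' = x)
    (hinj : ∀ U ∈ 𝓝 x, ¬ InjOn f U) (W : Set X) (hW : W ∈ 𝓝 x) :
    ∃ (V : Set E3) (K U : Set X), IsOpen V ∧ f x ∈ V ∧ IsCompact K ∧ IsOpen U ∧ x ∈ U ∧ U ⊆ K ∧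
      U ⊆ W ∧ f ⁻¹' V ⊆ U ∧ U ⊆ f ⁻¹' V ∧ V ⊆ closure (V \ B) ∧
      ∀ y ∈ V \ B, ∃ a ∈ U, ∃ b ∈ U, a ≠ b ∧ f a = y ∧ f b = y := by
  obtain ⟨K, hK, hKW, hKc⟩ := local_compact_nhds hW
  set U0 := interior K with hU0
  have hxU0 : x ∈ U0 := mem_interior_iff_mem_nhds.mpr hK
  have hU0K : U0 ⊆ K := interior_subset
  have hU0o : IsOpen U0 := isOpen_interior
  have hD : IsCompact (K \ U0) := hKc.diff hU0o
  have hfD : IsClosed (f '' (K \ U0)) := (hD.image hf).isClosed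
  have hb : f x ∉ f '' (K \ U0) := by
    rintro ⟨z, hz, hfz⟩
    have := hx z hfz
    exact hz.2 (this ▸ hxU0)
  obtain ⟨r, hr, hrV⟩ := Metric.isOpen_iff.mp hfD.isOpen_compl (f x) hb
  obtain ⟨L, hL'⟩ := hL (‖f x‖ + r)
  have hcover : B ∩ Metric.ball (f x) r ⊆ ⋃ l ∈ L, segment ℝ l.1 l.2 := by
    intro y hy
    apply hL'
    refine ⟨hy.1, ?_⟩
    rw [mem_closedBall_zero_iff]
    have h1 : ‖y - f x‖ < r := by rw [← dist_eq_norm]; exact hy.2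
    have h2 : ‖y‖ ≤ ‖y - f x‖ + ‖f x‖ := by simpa using norm_add_le (y - f x) (f x)
    linarith
  obtain ⟨hJ, hcl⟩ := hBall B L (f x) r hB hcover
  set V := Metric.ball (f x) r with hV
  have hVo : IsOpen V := Metric.isOpen_ball
  have hxV : f x ∈ V := Metric.mem_ball_self hr
  set U := U0 ∩ f ⁻¹' V with hU
  have hUo : IsOpen U := hU0o.inter (hVo.preimage hf)
  have hxU : x ∈ U := ⟨hxU0, hxV⟩
  have hUK : U ⊆ K := inter_subset_left.trans hU0K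
  -- a point over `V` which is not in `U` is not in `K`
  have hout : ∀ z, f z ∈ V → z ∉ U → z ∉ K := by
    intro z hz hzU hzK
    by_cases hzU0 : z ∈ U0
    · exact hzU ⟨hzU0, hz⟩
    · exact hrV hz ⟨z, ⟨hzK, hzU0⟩, rfl⟩
  set T : Set E3 := {y | y ∈ V \ B ∧ ∃ a ∈ U, ∃ b ∈ U, a ≠ b ∧ f a = y ∧ f b = y} with hT
  have hTo : IsOpen T := by
    rw [isOpen_iff_mem_nhds]
    rintro y ⟨hyV, a, ha, b, hb', hab, hfa, hfb⟩
    obtain ⟨O, O', hO, hO', haO, hbO, hd⟩ := t2_separation hab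
    have h1 : f '' (O ∩ U) ∩ f '' (O' ∩ U) ∩ (V \ B) ∈ 𝓝 y := by
      refine Filter.inter_mem (Filter.inter_mem ?_ ?_) ((hVo.sdiff hB).mem_nhds hyV)
      · exact (hopen _ (hO.inter hUo)).mem_nhds ⟨a, ⟨haO, ha⟩, hfa⟩
      · exact (hopen _ (hO'.inter hUo)).mem_nhds ⟨b, ⟨hbO, hb'⟩, hfb⟩
    refine Filter.mem_of_superset h1 ?_
    rintro y' ⟨⟨⟨a', ⟨ha', haU⟩, e1⟩, ⟨b', ⟨hb'', hbU⟩, e2⟩⟩, hy'⟩
    exact ⟨hy', a', haU, b', hbU, fun e => disjoint_left.mp hd ha' (e ▸ hb''), e1, e2⟩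
  have hTsub : T ⊆ V \ B := fun y hy => hy.1
  have hTne : ((V \ B) ∩ T).Nonempty := by
    have hUn : ¬ InjOn f U := hinj U (hUo.mem_nhds hxU)
    rw [InjOn] at hUn
    push Not at hUn
    obtain ⟨a, ha, b, hb', hfab, hab⟩ := hUn
    obtain ⟨O, O', hO, hO', haO, hbO, hd⟩ := t2_separation hab
    have h1 : f '' (O ∩ U) ∩ f '' (O' ∩ U) ∈ 𝓝 (f a) := by
      refine Filter.inter_mem ?_ ?_
      · exact (hopen _ (hO.inter hUo)).mem_nhds ⟨a, ⟨haO, ha⟩, rfl⟩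
      · exact (hopen _ (hO'.inter hUo)).mem_nhds ⟨b, ⟨hbO, hb'⟩, hfab.symm⟩
    have h2 : f a ∈ closure (V \ B) := hcl ha.2
    rw [mem_closure_iff_nhds] at h2
    obtain ⟨y', ⟨⟨⟨a', ⟨ha', haU⟩, e1⟩, ⟨b', ⟨hb'', hbU⟩, e2⟩⟩, hy'⟩⟩ := h2 _ h1
    exact ⟨y', hy', hy', a', haU, b', hbU, fun e => disjoint_left.mp hd ha' (e ▸ hb''), e1, e2⟩
  have hTcl : closure T ∩ (V \ B) ⊆ T := by
    rintro y ⟨hy, hyV⟩
    obtain ⟨a, b, hab, hfib⟩ := Set.ncard_eq_two.mp (hcard y hyV.2)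
    have hfa : f a = y := by
      have : a ∈ f ⁻¹' {y} := by rw [hfib]; exact Or.inl rfl
      exact this
    have hfb : f b = y := by
      have : b ∈ f ⁻¹' {y} := by rw [hfib]; exact Or.inr rfl
      exact this
    -- no point of the fibre is outside `U`
    have key : ∀ a b : X, a ≠ b → f a = y → f b = y → a ∈ U := by
      intro a b hab hfa hfb
      by_contra haU
      have haK : a ∉ K := hout a (by rw [hfa]; exact hyV.1) haU
      obtain ⟨O, O', hO, hO', haO, hbO, hd⟩ := t2_separation hab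
      have h1 : f '' (O ∩ Kᶜ) ∈ 𝓝 y :=
        (hopen _ (hO.inter hKc.isClosed.isOpen_compl)).mem_nhds ⟨a, ⟨haO, haK⟩, hfa⟩
      rw [mem_closure_iff_nhds] at hy
      obtain ⟨y', ⟨a', ⟨-, haK'⟩, e1⟩, -, a'', ha'', b'', hb'', hne, e2, e3⟩ := hy _ h1
      exact htwo a' a'' b'' (e1.trans e2.symm) (e1.trans e3.symm)
        (fun e => haK' (e ▸ hUK ha'')) (fun e => haK' (e ▸ hUK hb'')) hne
    exact ⟨hyV, a, key a b hab hfa hfb, b, key b a hab.symm hfb hfa, hab, hfa, hfb⟩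
  have hVT : V \ B ⊆ T :=
    (OPEN.jn_preconnected hJ).subset_of_closure_inter_subset hTo hTne hTcl
  refine ⟨V, K, U, hVo, hxV, hKc, hUo, hxU, hUK, hUK.trans hKW, ?_, inter_subset_right, hcl,
    fun y hy => (hVT hy).2⟩
  intro z hz
  by_contra hzU
  have hzK : z ∉ K := hout z hz hzU
  have h1 : f '' Kᶜ ∈ 𝓝 (f z) := (hopen _ hKc.isClosed.isOpen_compl).mem_nhds ⟨z, hzK, rfl⟩
  have h2 : f z ∈ closure (V \ B) := hcl hz
  rw [mem_closure_iff_nhds] at h2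
  obtain ⟨y, ⟨z', hz', e1⟩, hy⟩ := h2 _ h1
  obtain ⟨-, a'', ha'', b'', hb'', hne, e2, e3⟩ := hVT hy
  exact htwo z' a'' b'' (e1.trans e2.symm) (e1.trans e3.symm)
    (fun e => hz' (e ▸ hUK ha'')) (fun e => hz' (e ▸ hUK hb'')) hne

end NPLOCAL

theorem pLocal (h1 : StBall) (h2 : StOpen) : StLocal := by
  intro X _ _ _ f B hf hsurj hdisc hB hL hcov hcard hint
  have hopen : IsOpenMap f := h2 X f B hf hdisc hB hL hcov hint
  have htwo : ∀ x₁ x₂ x₃, f x₁ = f x₂ → f x₁ = f x₃ → x₁ ≠ x₂ → x₁ ≠ x₃ →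
      x₂ ≠ x₃ → False := fun x₁ x₂ x₃ => FOLD.two hf hopen hint hcard
  have hfib := FOLD.fib htwo
  have hinv : ∀ x, FOLD.tau f (FOLD.tau f x) = x := by
    intro x
    have h3 : f (FOLD.tau f x) = f x := FOLD.tau_fib f x
    rcases (hfib _ _).mp h3 with h | h
    · rw [← h]; exact h.symm
    · exact h.symm
  have htf : ∀ x, f (FOLD.tau f x) = f x := FOLD.tau_fib f
  set τ := FOLD.tau f with hτ
  -- `τ x = x` iff the fibre is `{x}`
  have htx : ∀ x, τ x = x ↔ ∀ x', f x' = f x → x' = x := by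
    intro x
    constructor
    · intro h x' hx'
      rcases (hfib x x').1 hx'.symm with h3 | h3
      · exact h3
      · rw [h3, h]
    · intro h
      exact h _ (htf x)
  set D : Set X := {x | τ x = x ∧ ∃ U ∈ 𝓝 x, InjOn f U} with hD
  -- C1
  have c1 : ∀ x, τ x ≠ x → ∀ W ∈ 𝓝 x, ∀ W' ∈ 𝓝 (τ x), ∃ V ∈ 𝓝 (f x), f ⁻¹' V ⊆ W ∪ W' ∧
      ∀ u, f u ∈ V → τ u ≠ u := by
    intro x hx W hW W' hW'
    obtain ⟨W1, W2, hW1, hW2, h1, h3, hd⟩ := t2_separation (Ne.symm hx)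
    obtain ⟨O, hOW, hOo, hxO⟩ := mem_nhds_iff.mp hW
    obtain ⟨O', hOW', hOo', hxO'⟩ := mem_nhds_iff.mp hW'
    refine ⟨f '' (W1 ∩ O) ∩ f '' (W2 ∩ O'), Filter.inter_mem ?_ ?_, ?_, ?_⟩
    · exact (hopen _ (hW1.inter hOo)).mem_nhds ⟨x, ⟨h1, hxO⟩, rfl⟩
    · exact (hopen _ (hW2.inter hOo')).mem_nhds ⟨τ x, ⟨h3, hxO'⟩, htf x⟩
    · rintro u ⟨⟨a, ⟨ha1, ha2⟩, ea⟩, ⟨b, ⟨hb1, hb2⟩, eb⟩⟩
      by_contra hu
      have hne : a ≠ b := fun e => disjoint_left.mp hd ha1 (e ▸ hb1)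
      refine htwo u a b ea.symm eb.symm ?_ ?_ hne
      · intro e
        exact hu (Or.inl (hOW (e ▸ ha2)))
      · intro e
        exact hu (Or.inr (hOW' (e ▸ hb2)))
    · rintro u ⟨⟨a, ⟨ha1, ha2⟩, ea⟩, ⟨b, ⟨hb1, hb2⟩, eb⟩⟩ hu
      have hne : a ≠ b := fun e => disjoint_left.mp hd ha1 (e ▸ hb1)
      have e1 := (htx u).1 hu a ea
      have e2 := (htx u).1 hu b eb
      exact hne (e1.trans e2.symm)
  -- C2
  have c2 : ∀ x, τ x = x → x ∉ D → ∀ W ∈ 𝓝 x, ∃ V ∈ 𝓝 (f x), f ⁻¹' V ⊆ W ∧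
      ∀ u, f u ∈ V → u ∉ D := by
    intro x hx hxD W hW
    have hxi : ∀ U ∈ 𝓝 x, ¬ InjOn f U := by
      intro U hU hi
      exact hxD ⟨hx, U, hU, hi⟩
    obtain ⟨V, K, U, hVo, hxV, hKc, hUo, hxU, hUK, hUW, hVU, hUV, hcl, htwoV⟩ :=
      NPLOCAL.c2 h1 hf hopen htwo hB hL hcard x ((htx x).1 hx) hxi W hW
    refine ⟨V, hVo.mem_nhds hxV, hVU.trans hUW, ?_⟩
    rintro u huV ⟨hu1, N, hN, hNi⟩
    obtain ⟨N', hN'N, hN'o, huN'⟩ := mem_nhds_iff.mp hN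
    have hc : IsClosed (f '' (K \ N')) := ((hKc.diff hN'o).image hf).isClosed
    have hfu : f u ∉ f '' (K \ N') := by
      rintro ⟨z, hz, hfz⟩
      have := (htx u).1 hu1 z hfz
      exact hz.2 (this ▸ huN')
    have h3 : f u ∈ closure (V \ B) := hcl huV
    rw [mem_closure_iff_nhds] at h3
    obtain ⟨y, hy1, hy2⟩ := h3 _ (hc.isOpen_compl.mem_nhds hfu)
    obtain ⟨a, ha, b, hb, hab, e1, e2⟩ := htwoV y hy2
    have haN : a ∈ N' := by
      by_contra h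
      exact hy1 ⟨a, ⟨hUK ha, h⟩, e1⟩
    have hbN : b ∈ N' := by
      by_contra h
      exact hy1 ⟨b, ⟨hUK hb, h⟩, e2⟩
    exact hab (hNi (hN'N haN) (hN'N hbN) (e1.trans e2.symm))
  have h7 : ∀ x ∉ D, ∀ W ∈ 𝓝 x, ∀ W' ∈ 𝓝 (τ x), ∃ V ∈ 𝓝 (f x), f ⁻¹' V ⊆ W ∪ W' := by
    intro x hxD W hW W' hW'
    by_cases hx : τ x = x
    · obtain ⟨V, hV, hVW, -⟩ := c2 x hx hxD W hW
      exact ⟨V, hV, hVW.trans subset_union_left⟩
    · obtain ⟨V, hV, hVW, -⟩ := c1 x hx W hW W' hW'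
      exact ⟨V, hV, hVW⟩
  refine ⟨D, τ, hopen, ?_, ?_, ?_, ?_, ?_, h7, ?_, ?_⟩
  · -- closed
    rw [← isOpen_compl_iff, isOpen_iff_mem_nhds]
    intro x hxD
    by_cases hx : τ x = x
    · obtain ⟨V, hV, -, hVD⟩ := c2 x hx hxD univ Filter.univ_mem
      exact Filter.mem_of_superset (hf.continuousAt.preimage_mem_nhds hV) (fun u hu => hVD u hu)
    · obtain ⟨V, hV, -, hVD⟩ := c1 x hx univ Filter.univ_mem univ Filter.univ_mem
      exact Filter.mem_of_superset (hf.continuousAt.preimage_mem_nhds hV)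
        (fun u hu huD => hVD u hu huD.1)
  · -- continuity of `τ`
    intro x hxD
    refine ContinuousAt.continuousWithinAt ?_
    show Filter.Tendsto _ _ _
    intro N hN
    rw [Filter.mem_map]
    by_cases hx : τ x = x
    · rw [hx] at hN
      obtain ⟨V, hV, hVN, -⟩ := c2 x hx hxD N hN
      refine Filter.mem_of_superset (hf.continuousAt.preimage_mem_nhds hV) ?_
      intro u hu
      apply hVN
      show f (τ u) ∈ V
      rw [htf]
      exact hu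
    · obtain ⟨W1, W2, hW1, hW2, h1, h3, hd⟩ := t2_separation (Ne.symm hx)
      obtain ⟨N', hN'N, hN'o, hxN'⟩ := mem_nhds_iff.mp hN
      have ho : IsOpen (W1 ∩ f ⁻¹' (f '' (W2 ∩ N'))) :=
        hW1.inter ((hopen _ (hW2.inter hN'o)).preimage hf)
      refine Filter.mem_of_superset (ho.mem_nhds ⟨h1, ⟨τ x, ⟨h3, hxN'⟩,
        htf x⟩⟩) ?_
      rintro x' ⟨hx'1, ⟨z, ⟨hz2, hzN⟩, hfz⟩⟩
      apply hN'N
      rcases (hfib _ _).mp hfz.symm with h | h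
      · exact absurd hx'1 (fun h5 => disjoint_left.mp hd h5 (h ▸ hz2))
      · show τ x' ∈ N'
        rw [← h]; exact hzN
  · -- `f '' D ⊆ B`
    rintro _ ⟨x, hxD, rfl⟩
    by_contra hxB
    have hc := hcard _ hxB
    have : f ⁻¹' {f x} = {x} := by
      ext z
      constructor
      · intro hz
        exact (htx x).1 hxD.1 z hz
      · rintro rfl
        rfl
    rw [this, Set.ncard_singleton] at hc
    omega
  · intro x hxD
    refine ⟨?_, hinv x, htf x⟩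
    by_cases hx : τ x = x
    · rw [hx]; exact hxD
    · rintro ⟨h, -⟩
      rw [hinv] at h
      exact hx h.symm
  · intro x x' h
    rcases (hfib x x').1 h with h3 | h3
    · exact Or.inl h3
    · by_cases hx : x' = x
      · exact Or.inl hx
      · refine Or.inr ⟨?_, h3⟩
        rintro ⟨h4, -⟩
        exact hx (h3.trans h4)
  · intro x hxD W hW
    obtain ⟨O, hOW, hOo, hxO⟩ := mem_nhds_iff.mp hW
    refine ⟨f '' O, (hopen _ hOo).mem_nhds ⟨x, hxO, rfl⟩, ?_⟩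
    rintro u ⟨a, ha, hau⟩
    by_cases hua : a = u
    · exact Or.inl (hua ▸ hOW ha)
    · right
      rcases (hfib u a).1 hau.symm with h3 | h3
      · exact absurd h3 hua
      · refine ⟨?_, h3 ▸ hOW ha⟩
        rintro ⟨h4, -⟩
        exact hua (h3.trans h4)
  · rintro x ⟨hx, U, hU, hUi⟩
    obtain ⟨O, hOU, hOo, hxO⟩ := mem_nhds_iff.mp hU
    refine ⟨O, hOo.mem_nhds hxO, ?_⟩
    intro u hu huD hτu
    have h3 : τ u = u := hUi (hOU hτu) (hOU hu) (htf u)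
    exact huD ⟨h3, O, hOo.mem_nhds hu, hUi.mono hOU⟩

end CM
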