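import Pool.Agent.Helper59.CM.NP
import Pool.Agent.Helper59.CM.M_MAIN

/-!
Project CM2 (MP_e9500f_gt): the main argument without properness.
-/

set_option autoImplicit false

namespace CM

open Set Topology unitInterval

namespace NPMAIN

variable {X X' Γ Γ' : Type} [TopologicalSpace X] [TopologicalSpace X'] [Group Γ] [Group Γ']

theorem isPF_comp {S : Set X} {F : PFun X Γ} (h : IsPF S F) (φ : Γ →* Γ') :
    IsPF S (fun a b p => φ (F a b p)) := by
  refine ⟨fun a b p q H hH => ?_, fun a b c p q hp hq => ?_⟩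
  · show φ (F a b p) = φ (F a b q)
    rw [h.hom a b p q H hH]
  · show φ (F a c (p.trans q)) = φ (F a b p) * φ (F b c q)
    rw [h.trans a b c p q hp hq, map_mul]

theorem exact_of_loops {S : Set X} {F : PFun X Γ} (h : IsPF S F) (hJ : Jn S) {p : X} (hp : p ∈ S)
    (hl : ∀ z : Path p p, (∀ t, z t ∈ S) → F p p z = 1) : IsExact S F := by
  classical
  let c : ∀ x : X, x ∈ S → Path p x := fun x hx => (hJ p hp x hx).somePath
  have hc : ∀ (x : X) (hx : x ∈ S) (t : I), c x hx t ∈ S := fun x hx t =>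
    (hJ p hp x hx).somePath_mem t
  refine ⟨fun x => if hx : x ∈ S then F p x (c x hx) else 1, fun a b q hq => ?_⟩
  have ha : a ∈ S := by have := hq 0; simpa using this
  have hb : b ∈ S := by have := hq 1; simpa using this
  have h1 := hl (((c a ha).trans q).trans (c b hb).symm)
    (trans_mem (trans_mem (hc a ha) hq) (symm_mem (hc b hb)))
  rw [h.trans _ _ _ _ _ (trans_mem (hc a ha) hq) (symm_mem (hc b hb)),
    h.trans _ _ _ _ _ (hc a ha) hq, h.symm _ (hc b hb), mul_inv_eq_one] at h1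
  simp only [dif_pos ha, dif_pos hb]
  rw [← h1]; group

/-- lift a path through an open embedding -/
theorem lift_path {i : X → X'} (hi : IsOpenEmbedding i) {a' b' : X'} (p' : Path a' b')
    (hp : ∀ t, p' t ∈ range i) : ∃ (a b : X) (p : Path a b) (ha : a' = i a) (hb : b' = i b),
      p' = (p.map hi.continuous).cast ha hb := by
  have ha0 : a' ∈ range i := by have := hp 0; simpa using this
  have hb0 : b' ∈ range i := by have := hp 1; simpa using this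
  obtain ⟨a, rfl⟩ := ha0
  obtain ⟨b, rfl⟩ := hb0
  choose q hq using hp
  have hcont : Continuous q := by
    rw [hi.isEmbedding.continuous_iff]
    have : i ∘ q = p' := funext hq
    rw [this]; exact p'.continuous
  have h0 : q 0 = a := hi.injective (by rw [hq]; exact p'.source)
  have h1 : q 1 = b := hi.injective (by rw [hq]; exact p'.target)
  refine ⟨a, b, ⟨⟨q, hcont⟩, h0, h1⟩, rfl, rfl, ?_⟩
  ext t
  exact (hq t).symm

/-- an exact functor on `S \ Z` which is a path functor on `S` is exact on `S` -/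
theorem thin_exact (hTE : StThinEq) {Z S : Set X} {F : PFun X Γ} (hZ : IsClosed Z)
    (hT : ThinIn Z) (hS : IsOpen S) (hF : IsPF S F) (he : IsExact (S \ Z) F) : IsExact S F := by
  obtain ⟨g, hg⟩ := he
  have hone : IsPF S (fun (a b : X) (_ : Path a b) => (1 : Γ)) :=
    ⟨fun _ _ _ _ _ _ => rfl, fun _ _ _ _ _ _ _ => (mul_one _).symm⟩
  obtain ⟨g', hg'⟩ := hTE X Γ Z S _ F g hZ hT hS hone hF (fun a b p hp => by
    rw [hg a b p hp]; group)
  exact ⟨g', fun a b p hp => by rw [hg' a b p hp]; group⟩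

/-- consequence of `StKC` -/
theorem kc_contra (hKC : StKC) (hEmb : StEmb) {i : X → X'} {f : X' → E3} {τ : X' → X'}
    (hC : Comp i f τ) (S : Tower X) (A B : UU)
    (hnc : ∀ k, hom2 A B (S.Φ _ _ (S.lev k).lx) * hom2 A B (S.Φ _ _ (S.lev k).ly) ≠
      hom2 A B (S.Φ _ _ (S.lev k).ly) * hom2 A B (S.Φ _ _ (S.lev k).lx))
    (hmono : ∀ k, S.K ⊆ (S.lev k).K)
    (h : PFun X' UU) (hh : IsPF (i '' S.K)ᶜ h)
    (hag : ∀ (a b : X) (p : Path a b), (∀ t, p t ∈ S.Kᶜ) →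
      h (i a) (i b) (p.map hC.emb.continuous) = hom2 A B (S.Φ a b p))
    (R : ℝ) (hR : 0 ≤ R) (hex : IsExact (f ⁻¹' (VV R)) h) : False := by
  obtain ⟨b, hb⟩ := hKC X X' UU i f τ hC S R h hR hh hex
  obtain ⟨g, hg⟩ := (hEmb X X' UU i hC.emb (S.lev b).Kᶜ).2.2 h hb
  have h1 := hg _ _ (S.lev b).lx (S.lev b).lx_mem
  have h2 : pull ⟨i, hC.emb.continuous⟩ h _ _ (S.lev b).lx = hom2 A B (S.Φ _ _ (S.lev b).lx) :=
    hag _ _ _ fun t ht => (S.lev b).lx_mem t (hmono b ht)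
  rw [h2, inv_mul_cancel] at h1
  apply hnc b
  rw [h1]; group

end NPMAIN

open NPMAIN MAIN

theorem pMain2 (hLev : StLev) (hPair : StPair) (hSeq : StSeq) (hRho : StRho1) (hBox : StBox)
    (hDeck : StDeckU) (hFix : StFix) (hSign : StSign) (hPT : StPT) (hThin : StThin)
    (hTE : StThinEq) (hGen : StGenBox) (hEL : StEL) (hKC : StKC) (hSplit : StSplit)
    (hEmb : StEmb) : StMain2 := by
  intro X X' _ _ i f τ T hC
  haveI := hC.t2
  haveI := hC.lpc
  have hf := hC.fold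
  have hi := hC.emb
  have hic : Continuous i := hi.continuous
  have hloc : LocPF X' := by
    intro x W hW
    obtain ⟨V, h1, h2, h3, h4, h5⟩ := hC.loc x W hW
    exact ⟨V, h1, h2, h3, h4, h5 _⟩
  obtain ⟨hbox1, hbox2, hbox3⟩ := hBox
  obtain ⟨hthin, hZc, hZfc⟩ := hThin X X' i f τ hC
  set Z : Set X' := (range i)ᶜ with hZdef
  obtain ⟨A, B, hAB, hρ, hnc⟩ := hRho X T
  obtain ⟨hG, hint, hmono, hcpt⟩ := hLev X T
  have hfτ : ∀ x, f (τ x) = f x := fun x => ((hf.fib x (τ x)).2 (Or.inr rfl)).symm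
  obtain ⟨Φ', hΦ', hΦ'i⟩ := hPT X X' i f τ hC T
  set ρ : PFun X UU := fun a b p => hom2 A B (T.Φ a b p) with hρdef
  set ρ' : PFun X' UU := fun a b p => hom2 A B (Φ' a b p) with hρ'def
  have hρ' : IsPF (i '' T.K)ᶜ ρ' := isPF_comp hΦ' (hom2 A B)
  have hρ'i : ∀ (a b : X) (p : Path a b), (∀ t, p t ∈ T.Kᶜ) →
      ρ' (i a) (i b) (p.map hic) = ρ a b p := by
    intro a b p hp
    show hom2 A B (Φ' _ _ _) = hom2 A B _
    rw [hΦ'i a b p hp]
  -- compact sets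
  have hKi : ∀ S : Tower X, IsCompact (i '' S.K) := fun S => S.compact.image hic
  obtain ⟨R1, hR1, hK1⟩ := hbox2 (f '' (i '' T.K)) ((hKi T).image hf.cont)
  obtain ⟨t, htR, htfin, htu⟩ := hGen (f '' Z) R1 hZfc hC.seg hR1
  have ht0 : ∀ j, 0 < t j := fun j => hR1.trans_lt (htR j)
  have hboxbx : ∀ R, (∀ j, R ≤ t j) → box R ⊆ bx t := fun R hR y hy j => (hy j).trans (hR j)
  have hK1' : f '' (i '' T.K) ⊆ bx t := hK1.trans (hboxbx R1 fun j => (htR j).le)
  have hbxc : IsCompact (bx t) := by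
    have hcl : IsClosed (bx t) := by
      have : bx t = ⋂ j, {y : E3 | |y j| ≤ t j} := by ext y; simp [bx]
      rw [this]
      exact isClosed_iInter fun j => isClosed_le (by fun_prop) continuous_const
    obtain ⟨R0, hR0⟩ : ∃ R0, 0 ≤ R0 ∧ ∀ j, t j ≤ R0 :=
      ⟨t 0 + t 1 + t 2, by have := ht0 0; have := ht0 1; have := ht0 2; linarith, fun j => by
        have h0 := ht0 0; have h1 := ht0 1; have h2 := ht0 2
        fin_cases j <;> simp <;> linarith⟩
    exact (hbox1 R0 hR0.1).2.1.of_isClosed_subset hcl fun y hy j => (hy j).trans (hR0.2 j)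
  set ρτ : PFun X' UU := pull ⟨τ, hf.tcont⟩ ρ' with hρτdef
  have hτK : ∀ w, f w ∉ bx t → τ w ∉ i '' T.K := by
    intro w hw h
    apply hw
    have : f (τ w) ∈ bx t := hK1' ⟨τ w, h, rfl⟩
    rwa [hfτ] at this
  have hρτ : IsPF (f ⁻¹' (bx t))ᶜ ρτ := by
    refine (hρ'.pull ⟨τ, hf.tcont⟩).mono ?_
    intro w hw
    exact hτK w hw
  obtain ⟨n0, g', hg', hg'i⟩ := hEL X X' UU i f τ hC T t ρτ ht0 htfin htu hρτ
  set S := T.lev n0 with hS
  have hTS : T.K ⊆ S.K := hmono 0 n0 (Nat.zero_le _)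
  have hSρ : IsPF S.Kᶜ ρ := hρ.mono (compl_subset_compl.2 hTS)
  have hncS : ρ S.p S.p S.lx * ρ S.p S.p S.ly ≠ ρ S.p S.p S.ly * ρ S.p S.p S.lx := hnc n0
  have hncS' : g' S.p S.p S.lx * g' S.p S.p S.ly ≠ g' S.p S.p S.ly * g' S.p S.p S.lx := by
    intro hcomm
    have h1 := (hPair X S g' hg').2
    rw [W1_comm hcomm, W2_comm hcomm] at h1
    obtain ⟨hx, hy⟩ := conj_one h1
    have hSS : S.K ⊆ S.shift.K := S.mono.trans interior_subset
    obtain ⟨g, hg⟩ := (hPair X S.shift g' (hg'.mono (compl_subset_compl.2 hSS))).1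
    obtain ⟨R3, hR3, hK3⟩ := hbox2 (f '' (i '' S.shift.K) ∪ bx t)
      (((hKi S.shift).image hf.cont).union hbxc)
    have hVo := (hbox1 R3 hR3).1
    have hU3o : IsOpen (f ⁻¹' (VV R3)) := hVo.preimage hf.cont
    have hU3K : ∀ w, f w ∈ VV R3 → w ∉ i '' S.shift.K := fun w hw h =>
      hw (hK3 (Or.inl ⟨w, h, rfl⟩))
    have hU3Q : ∀ w, f w ∈ VV R3 → f w ∉ bx t := fun w hw h => hw (hK3 (Or.inr h))
    have hex1 : IsExact (i ⁻¹' (f ⁻¹' (VV R3))) (pull ⟨i, hic⟩ ρτ) := by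
      refine ⟨g, fun a b p hp => ?_⟩
      have hpK : ∀ u, p u ∈ S.shift.Kᶜ := fun u h => hU3K _ (hp u) ⟨p u, h, rfl⟩
      have e1 := hg'i a b p fun u => ⟨fun h => hpK u (hSS h), hU3Q _ (hp u)⟩
      have e2 := hg a b p hpK
      rw [hx, hy, hom2_one, mul_one, e1] at e2
      exact e2
    have hex2 : IsExact (f ⁻¹' (VV R3) \ Z) ρτ := by
      have := (hEmb X X' UU i hi _).2.1 ρτ hex1
      have hset : i '' (i ⁻¹' (f ⁻¹' (VV R3))) = f ⁻¹' (VV R3) \ Z := by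
        rw [image_preimage_eq_inter_range, hZdef, diff_compl]
      rwa [hset] at this
    have hρτ3 : IsPF (f ⁻¹' (VV R3)) ρτ := hρτ.mono fun w hw => hU3Q w hw
    obtain ⟨e, he⟩ := thin_exact hTE hZc hthin hU3o hρτ3 hex2
    have hex3 : IsExact (f ⁻¹' (VV R3)) ρ' := by
      refine ⟨fun x => e (τ x), fun a b p hp => ?_⟩
      have h2 := he _ _ (p.map hf.tcont) (fun u => by
        show f (τ (p u)) ∈ VV R3
        rw [hfτ]; exact hp u)
      rw [← h2]
      show ρ' a b p = ρ' _ _ ((p.map hf.tcont).map hf.tcont)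
      have : (p.map hf.tcont).map hf.tcont = p.cast (hf.invol a) (hf.invol b) := by
        ext u; exact hf.invol _
      rw [this, F_cast ρ']
    exact kc_contra hKC hEmb hC T A B hnc (fun k => hmono 0 k (Nat.zero_le _)) ρ' hρ' hρ'i
      R3 hR3 hex3
  -- level S.lev 4
  set S4 := S.lev 4 with hS4
  have hgood : Good (ρ _ _ S4.lx) (ρ _ _ S4.ly) := (hSeq X S ρ hSρ hncS).2 4 le_rfl
  have hgood' : Good (g' _ _ S4.lx) (g' _ _ S4.ly) := (hSeq X S g' hg' hncS').2 4 le_rfl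
  have hS4' : S4 = T.lev (n0 + 4) := T.lev_add n0 4
  have hSS4 : S.K ⊆ S4.K := by
    rw [hS4']; exact hmono n0 (n0 + 4) (Nat.le_add_right _ _)
  have hTS4 : T.K ⊆ S4.K := hTS.trans hSS4
  have hS4ρ : IsPF S4.Kᶜ ρ := hSρ.mono (compl_subset_compl.2 hSS4)
  have hS4g' : IsPF S4.Kᶜ g' := hg'.mono (compl_subset_compl.2 hSS4)
  obtain ⟨R2, hR2, hK2⟩ := hbox2 (f '' (i '' S4.K) ∪ bx t) (((hKi S4).image hf.cont).union hbxc)
  have hU2K : ∀ w, f w ∈ VV R2 → w ∉ i '' S4.K := fun w hw h => hw (hK2 (Or.inl ⟨w, h, rfl⟩))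
  have hU2Q : ∀ w, f w ∈ VV R2 → f w ∉ bx t := fun w hw h => hw (hK2 (Or.inr h))
  obtain ⟨hVo, -, hVJ, hVne, hVE⟩ := hbox1 R2 hR2
  have hU2o : IsOpen (f ⁻¹' (VV R2)) := hVo.preimage hf.cont
  have hU2sub : f ⁻¹' (VV R2) ⊆ (i '' S4.K)ᶜ := fun w hw => hU2K w hw
  obtain ⟨Φ4, hΦ4, hΦ4i⟩ := hPT X X' i f τ hC S4
  obtain ⟨A', B', hAB', hρ4, hnc4⟩ := hRho X S4
  set h' : PFun X' UU := fun a b p => hom2 A' B' (Φ4 a b p) with hh'def
  have hh' : IsPF (i '' S4.K)ᶜ h' := isPF_comp hΦ4 (hom2 A' B')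
  have hmono4 : ∀ k, S4.K ⊆ (S4.lev k).K := (fun k => (hLev X S4).2.2.1 0 k (Nat.zero_le _))
  have hfinal : ∀ _ : IsExact (f ⁻¹' (VV R2)) h', False := fun hex =>
    kc_contra hKC hEmb hC S4 A' B' hnc4 hmono4 h' hh' (by
      intro a b p hp
      show hom2 A' B' (Φ4 _ _ _) = hom2 A' B' _
      rw [hΦ4i a b p hp]) R2 hR2 hex
  apply hfinal
  by_cases hJ : Jn (f ⁻¹' (VV R2))
  swap
  · exact hSplit X' UU f τ (VV R2) h' hf hVo hVJ hVne (hVE _) (hh'.mono hU2sub) hJ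
  obtain ⟨p, hpU, hpτ⟩ := hFix X' E3 f τ (VV R2) hf hVo hVne (hVE _) hJ
  obtain ⟨g1, hg1⟩ := (hPair X S4 ρ hS4ρ).1
  obtain ⟨g2, hg2⟩ := (hPair X S4 g' hS4g').1
  have hK4o : IsOpen (i '' S4.K)ᶜ := (hKi S4).isClosed.isOpen_compl
  -- extension of the two relations to `X'`
  obtain ⟨e1, he1⟩ := hTE X' UU Z (i '' S4.K)ᶜ
    (fun a b q => hom2 (ρ S4.p S4.p S4.lx) (ρ S4.p S4.p S4.ly) (Φ4 a b q)) ρ'
    (Function.extend i g1 fun _ => 1) hZc hthin hK4o (isPF_comp hΦ4 _)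
    (hρ'.mono (compl_subset_compl.2 (image_mono hTS4))) (by
      intro a b q hq
      obtain ⟨a0, b0, q0, rfl, rfl, hq0⟩ := lift_path hi q fun u => by
        have := (hq u).2; rw [hZdef] at this; simpa using this
      have hq0K : ∀ u, q0 u ∈ S4.Kᶜ := by
        intro u h
        apply (hq u).1
        rw [hq0]
        exact ⟨q0 u, h, rfl⟩
      rw [hq0, F_cast ρ', hi.injective.extend_apply, hi.injective.extend_apply,
        hρ'i a0 b0 q0 (fun u h => hq0K u (hTS4 h)), hg1 a0 b0 q0 hq0K]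
      show _ = (g1 a0)⁻¹ * hom2 _ _ (Φ4 _ _ ((q0.map hic).cast rfl rfl)) * g1 b0
      rw [F_cast Φ4, hΦ4i a0 b0 q0 hq0K])
  obtain ⟨e2, he2⟩ := hTE X' UU Z (f ⁻¹' (VV R2))
    (fun a b q => hom2 (g' S4.p S4.p S4.lx) (g' S4.p S4.p S4.ly) (Φ4 a b q)) ρτ
    (Function.extend i g2 fun _ => 1) hZc hthin hU2o ((isPF_comp hΦ4 _).mono hU2sub)
    (hρτ.mono fun w hw => hU2Q w hw) (by
      intro a b q hq
      obtain ⟨a0, b0, q0, rfl, rfl, hq0⟩ := lift_path hi q fun u => by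
        have := (hq u).2; rw [hZdef] at this; simpa using this
      have hq0V : ∀ u, f (i (q0 u)) ∈ VV R2 := by
        intro u
        have := (hq u).1
        rw [hq0] at this
        exact this
      have hq0K : ∀ u, q0 u ∈ S4.Kᶜ := fun u h => hU2K _ (hq0V u) ⟨q0 u, h, rfl⟩
      rw [hq0, F_cast ρτ, hi.injective.extend_apply, hi.injective.extend_apply,
        ← hg'i a0 b0 q0 (fun u => ⟨fun h => hq0K u (hSS4 h), hU2Q _ (hq0V u)⟩),
        hg2 a0 b0 q0 hq0K]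
      show _ = (g2 a0)⁻¹ * hom2 _ _ (Φ4 _ _ ((q0.map hic).cast rfl rfl)) * g2 b0
      rw [F_cast Φ4, hΦ4i a0 b0 q0 hq0K])
  have key : ∀ z : Path p p, (∀ u, z u ∈ f ⁻¹' (VV R2)) → (∀ u, τ (z u) = z (σ u)) →
      h' p p z = 1 := by
    intro z hz hzτ
    by_contra hne
    have hW : Φ4 p p z ≠ 1 := by
      intro h; apply hne; show hom2 A' B' (Φ4 p p z) = 1; rw [h, map_one]
    have a1 := he1 p p z fun u => hU2sub (hz u)
    have a2 := he2 p p z hz
    have a3 : ρτ p p z = (ρ' p p z)⁻¹ := by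
      show ρ' _ _ (z.map _) = _
      have : z.map hf.tcont = z.symm.cast hpτ hpτ := by
        ext u; exact hzτ u
      rw [this, F_cast ρ']
      exact (hρ'.mono (compl_subset_compl.2 (image_mono hTS4))).symm z fun u => hU2sub (hz u)
    rw [a1] at a3
    rw [a2] at a3
    apply hSign _ _ _ _ hgood hgood' _ hW (e2 p * (e1 p)⁻¹)
    have a4 : hom2 (g' S4.p S4.p S4.lx) (g' S4.p S4.p S4.ly) (Φ4 p p z) =
        e2 p * ((e2 p)⁻¹ * hom2 (g' S4.p S4.p S4.lx) (g' S4.p S4.p S4.ly) (Φ4 p p z) * e2 p) *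
          (e2 p)⁻¹ := by group
    rw [a4, a3]; group
  have htriv := hDeck X' E3 f τ (VV R2) p h' hf hloc hVo (hVE _) hJ hpU hpτ
    (hh'.mono hU2sub) key
  exact exact_of_loops (hh'.mono hU2sub) hJ hpU htriv

end CM
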