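import Pool.Agent.Helper59.CM.StPF

/-!
Project CM, module RING (helper33): ring lemma and shell lemma.
-/

set_option autoImplicit false

namespace CM

open Set Topology unitInterval

namespace RING

theorem seg_mem {V : Type} [NormedAddCommGroup V] [NormedSpace ℝ V] {S : Set V}
    (hS : Convex ℝ S) {a b : V} (ha : a ∈ S) (hb : b ∈ S) (t : I) : Path.segment a b t ∈ S := by
  rw [Path.segment_apply]
  exact hS.lineMap_mem ha hb t.2

/-- triangle identity and comparison with segments in a convex set -/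
theorem tri (h2 : StCvx) {V Γ : Type} [NormedAddCommGroup V] [NormedSpace ℝ V] [Group Γ]
    {U : Set V} {F : PFun V Γ} (hU : Convex ℝ U) (hF : IsPF U F) {a b c : V} (ha : a ∈ U)
    (hb : b ∈ U) (hc : c ∈ U) :
    F a c (Path.segment a c) = F a b (Path.segment a b) * F b c (Path.segment b c) := by
  obtain ⟨g, hg⟩ := h2 V Γ U F hU hF
  rw [hg _ _ _ (seg_mem hU ha hc), hg _ _ _ (seg_mem hU ha hb), hg _ _ _ (seg_mem hU hb hc)]
  group

theorem anyp (h2 : StCvx) {V Γ : Type} [NormedAddCommGroup V] [NormedSpace ℝ V] [Group Γ]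
    {U : Set V} {F : PFun V Γ} (hU : Convex ℝ U) (hF : IsPF U F) {a b : V} (p : Path a b)
    (hp : ∀ t, p t ∈ U) : F a b p = F a b (Path.segment a b) := by
  obtain ⟨g, hg⟩ := h2 V Γ U F hU hF
  have ha : a ∈ U := by have := hp 0; rwa [p.source] at this
  have hb : b ∈ U := by have := hp 1; rwa [p.target] at this
  rw [hg _ _ _ hp, hg _ _ _ (seg_mem hU ha hb)]

end RING

open RING in
theorem pRing (h1 : StAG) (h2 : StCvx) : StRing := by
  intro V Γ _ _ _ U F hO hC h02 h13 hF v₀ v₁ v₂ v₃ hv₀ hv₁ hv₂ hv₃ hloop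
  classical
  have hFi : ∀ i, IsPF (U i) F := fun i => hF.mono (subset_iUnion U i)
  -- the four potentials
  set P1 := F v₀ v₁ (Path.segment v₀ v₁) with hP1
  set P2 := F v₁ v₂ (Path.segment v₁ v₂) with hP2
  set P3 := F v₂ v₃ (Path.segment v₂ v₃) with hP3
  set P4 := F v₃ v₀ (Path.segment v₃ v₀) with hP4
  let G0 : V → Γ := fun x => F v₀ x (Path.segment v₀ x)
  let G1 : V → Γ := fun x => P1 * F v₁ x (Path.segment v₁ x)
  let G2 : V → Γ := fun x => P1 * P2 * F v₂ x (Path.segment v₂ x)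
  let G3 : V → Γ := fun x => P1 * P2 * P3 * F v₃ x (Path.segment v₃ x)
  have e01 : ∀ x ∈ U 0, x ∈ U 1 → G0 x = G1 x := fun x hx0 hx1 =>
    tri h2 (hC 0) (hFi 0) hv₀.2 hv₁.1 hx0
  have e12 : ∀ x ∈ U 1, x ∈ U 2 → G1 x = G2 x := by
    intro x hx1 hx2
    show P1 * F v₁ x (Path.segment v₁ x) = P1 * P2 * F v₂ x (Path.segment v₂ x)
    rw [tri h2 (hC 1) (hFi 1) hv₁.2 hv₂.1 hx1, mul_assoc]
  have e23 : ∀ x ∈ U 2, x ∈ U 3 → G2 x = G3 x := by
    intro x hx2 hx3
    show P1 * P2 * F v₂ x (Path.segment v₂ x) = P1 * P2 * P3 * F v₃ x (Path.segment v₃ x)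
    rw [tri h2 (hC 2) (hFi 2) hv₂.2 hv₃.1 hx2]
    simp only [mul_assoc, ← hP3]
  have e30 : ∀ x ∈ U 3, x ∈ U 0 → G3 x = G0 x := by
    intro x hx3 hx0
    show P1 * P2 * P3 * F v₃ x (Path.segment v₃ x) = F v₀ x (Path.segment v₀ x)
    rw [tri h2 (hC 3) (hFi 3) hv₃.2 hv₀.1 hx3, ← mul_assoc, ← hP4, hloop, one_mul]
  -- the global potential
  let G : V → Γ := fun x => if x ∈ U 0 then G0 x else if x ∈ U 1 then G1 x else
    if x ∈ U 2 then G2 x else G3 x
  have g0 : ∀ x ∈ U 0, G x = G0 x := fun x hx => if_pos hx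
  have g1 : ∀ x ∈ U 1, G x = G1 x := by
    intro x hx
    by_cases h : x ∈ U 0
    · rw [g0 x h, e01 x h hx]
    · show (if x ∈ U 0 then G0 x else if x ∈ U 1 then G1 x else if x ∈ U 2 then G2 x else G3 x) = _
      rw [if_neg h, if_pos hx]
  have n02 : ∀ x, x ∈ U 0 → x ∈ U 2 → False := fun x h h' => by
    have : x ∈ U 0 ∩ U 2 := ⟨h, h'⟩
    rw [h02] at this
    exact this
  have n13 : ∀ x, x ∈ U 1 → x ∈ U 3 → False := fun x h h' => by
    have : x ∈ U 1 ∩ U 3 := ⟨h, h'⟩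
    rw [h13] at this
    exact this
  have g2 : ∀ x ∈ U 2, G x = G2 x := by
    intro x hx
    by_cases h : x ∈ U 1
    · rw [g1 x h, e12 x h hx]
    · show (if x ∈ U 0 then G0 x else if x ∈ U 1 then G1 x else if x ∈ U 2 then G2 x else G3 x) = _
      rw [if_neg (fun h' => n02 x h' hx), if_neg h, if_pos hx]
  have g3 : ∀ x ∈ U 3, G x = G3 x := by
    intro x hx
    by_cases h0 : x ∈ U 0
    · rw [g0 x h0, e30 x hx h0]
    by_cases h : x ∈ U 2
    · rw [g2 x h, e23 x h hx]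
    · show (if x ∈ U 0 then G0 x else if x ∈ U 1 then G1 x else if x ∈ U 2 then G2 x else G3 x) = _
      rw [if_neg h0, if_neg (fun h' => n13 x h' hx), if_neg h]
  have hE : IsExact (⋃ i, U i) (fun a b _ => (G a)⁻¹ * G b : PFun V Γ) :=
    ⟨G, fun a b p hp => rfl⟩
  have key := h1 V Γ (Fin 4) (⋃ i, U i) U F (fun a b _ => (G a)⁻¹ * G b) hF hE.isPF hO
    (subset_refl _) ?_
  · exact ⟨G, fun a b p hp => key a b p hp⟩
  · intro i a b p hp
    have hp' : ∀ t, p t ∈ U i := fun t => (hp t).2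
    have ha : a ∈ U i := by have := hp' 0; rwa [p.source] at this
    have hb : b ∈ U i := by have := hp' 1; rwa [p.target] at this
    rw [anyp h2 (hC i) (hFi i) p hp']
    show _ = (G a)⁻¹ * G b
    match i, ha, hb with
    | 0, ha, hb =>
      rw [g0 a ha, g0 b hb]
      show _ = (F v₀ a (Path.segment v₀ a))⁻¹ * F v₀ b (Path.segment v₀ b)
      rw [tri h2 (hC 0) (hFi 0) hv₀.2 ha hb]
      group
    | 1, ha, hb =>
      rw [g1 a ha, g1 b hb]
      show _ = (P1 * F v₁ a (Path.segment v₁ a))⁻¹ * (P1 * F v₁ b (Path.segment v₁ b))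
      rw [tri h2 (hC 1) (hFi 1) hv₁.2 ha hb]
      group
    | 2, ha, hb =>
      rw [g2 a ha, g2 b hb]
      show _ = (P1 * P2 * F v₂ a (Path.segment v₂ a))⁻¹ * (P1 * P2 * F v₂ b (Path.segment v₂ b))
      rw [tri h2 (hC 2) (hFi 2) hv₂.2 ha hb]
      group
    | 3, ha, hb =>
      rw [g3 a ha, g3 b hb]
      show _ = (P1 * P2 * P3 * F v₃ a (Path.segment v₃ a))⁻¹ *
        (P1 * P2 * P3 * F v₃ b (Path.segment v₃ b))
      rw [tri h2 (hC 3) (hFi 3) hv₃.2 ha hb]
      group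

open RING in
theorem pShell (h1 : StStar) (h2 : StCI) (h3 : StCvx) : StShell := by
  intro V Γ _ _ _ A C F hAO hAC hCO hCC hA01 hC02 hC13 hne hne2 hF
  have hc : ∀ (i j : Fin 4), (C i ∩ C j).Nonempty → (C i ∩ C j ∩ A 0).Nonempty := by
    intro i j hij
    have hn2 : ∀ j, (C j ∩ C (j + 1) ∩ A 0).Nonempty := by
      intro j
      obtain ⟨x, hx⟩ := hne2 0 j
      exact ⟨x, ⟨hx.1.2, hx.2⟩, hx.1.1⟩
    have hn1 : ∀ j, (C j ∩ C j ∩ A 0).Nonempty := by
      intro j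
      obtain ⟨x, hx⟩ := hne 0 j
      exact ⟨x, ⟨hx.2, hx.2⟩, hx.1⟩
    have hsw : ∀ i j, (C i ∩ C j ∩ A 0).Nonempty → (C j ∩ C i ∩ A 0).Nonempty := by
      rintro i j ⟨x, hx⟩
      exact ⟨x, ⟨hx.1.2, hx.1.1⟩, hx.2⟩
    have h20 : ¬ (C 2 ∩ C 0).Nonempty := by
      rw [inter_comm, hC02]; exact Set.not_nonempty_empty
    have h31 : ¬ (C 3 ∩ C 1).Nonempty := by
      rw [inter_comm, hC13]; exact Set.not_nonempty_empty
    have h02' : ¬ (C 0 ∩ C 2).Nonempty := by
      rw [hC02]; exact Set.not_nonempty_empty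
    have h13' : ¬ (C 1 ∩ C 3).Nonempty := by
      rw [hC13]; exact Set.not_nonempty_empty
    fin_cases i <;> fin_cases j
    · exact hn1 0
    · exact hn2 0
    · exact absurd hij h02'
    · exact hsw _ _ (hn2 3)
    · exact hsw _ _ (hn2 0)
    · exact hn1 1
    · exact hn2 1
    · exact absurd hij h13'
    · exact absurd hij h20
    · exact hsw _ _ (hn2 1)
    · exact hn1 2
    · exact hn2 2
    · exact hn2 3
    · exact absurd hij h31
    · exact hsw _ _ (hn2 2)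
    · exact hn1 3
  -- the first set
  have hS1 : (⋃ o : Option (Fin 4), (fun o : Option (Fin 4) => o.elim (A 0) C) o) =
      A 0 ∪ ⋃ i, C i := by
    ext x
    simp only [mem_iUnion, mem_union]
    constructor
    · rintro ⟨o, ho⟩
      cases o with
      | none => exact Or.inl ho
      | some i => exact Or.inr ⟨i, ho⟩
    · rintro (h | ⟨i, h⟩)
      · exact ⟨none, h⟩
      · exact ⟨some i, h⟩
  have hsub1 : (A 0 ∪ ⋃ i, C i) ⊆ A 0 ∪ A 1 ∪ ⋃ i, C i := by
    rintro x (h | h)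
    · exact Or.inl (Or.inl h)
    · exact Or.inr h
  have hex1 : IsExact (A 0 ∪ ⋃ i, C i) F := by
    have := h1 V Γ (Option (Fin 4)) (fun o => o.elim (A 0) C) none F ?_ ?_ ?_ ?_
    · rwa [hS1] at this
    · intro o
      cases o with
      | none => exact hAO 0
      | some i => exact hCO i
    · intro o
      cases o with
      | none => exact hAC 0
      | some i => exact hCC i
    · intro o o' hoo
      cases o with
      | none =>
        cases o' with
        | none =>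
          obtain ⟨x, hx⟩ := hoo
          exact ⟨x, hx, hx.1⟩
        | some j =>
          obtain ⟨x, hx⟩ := hoo
          exact ⟨x, hx, hx.1⟩
      | some i =>
        cases o' with
        | none =>
          obtain ⟨x, hx⟩ := hoo
          exact ⟨x, hx, hx.2⟩
        | some j => exact hc i j hoo
    · rw [hS1]
      exact hF.mono hsub1
  have hex2 : IsExact (A 1) F := h3 V Γ (A 1) F (hAC 1)
    (hF.mono (fun x hx => Or.inl (Or.inr hx)))
  have hU : (A 0 ∪ ⋃ i, C i) ∪ A 1 = A 0 ∪ A 1 ∪ ⋃ i, C i := by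
    ext x
    simp only [mem_union]
    tauto
  have hI : (A 0 ∪ ⋃ i, C i) ∩ A 1 = ⋃ i, (C i ∩ A 1) := by
    ext x
    simp only [mem_union, mem_inter_iff, mem_iUnion]
    constructor
    · rintro ⟨h | ⟨i, h⟩, h'⟩
      · exfalso
        have : x ∈ A 0 ∩ A 1 := ⟨h, h'⟩
        rw [hA01] at this
        exact this
      · exact ⟨i, h, h'⟩
    · rintro ⟨i, h, h'⟩
      exact ⟨Or.inr ⟨i, h⟩, h'⟩
  rw [← hU]
  refine h2 V Γ _ _ F ((hAO 0).union (isOpen_iUnion hCO)) (hAO 1) (by rw [hU]; exact hF) hex1 hex2 ?_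
  rw [hI]
  -- joined
  choose w hw using fun j => hne2 1 j
  have hcv : ∀ i, Convex ℝ (C i ∩ A 1) := fun i => (hCC i).inter (hAC 1)
  have hj : ∀ i, ∀ x ∈ C i ∩ A 1, ∀ y ∈ C i ∩ A 1, JoinedIn (⋃ i, (C i ∩ A 1)) x y := by
    intro i x hx y hy
    apply JoinedIn.of_segment_subset
    exact ((hcv i).segment_subset hx hy).trans (subset_iUnion (fun i => C i ∩ A 1) i)
  have hw1 : ∀ j, w j ∈ C j ∩ A 1 := fun j => ⟨(hw j).1.2, (hw j).1.1⟩
  have hw2 : ∀ j, w j ∈ C (j + 1) ∩ A 1 := fun j => ⟨(hw j).2, (hw j).1.1⟩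
  have hww : ∀ j, JoinedIn (⋃ i, (C i ∩ A 1)) (w j) (w (j + 1)) := fun j =>
    hj (j + 1) _ (hw2 j) _ (hw1 (j + 1))
  have h01 : JoinedIn (⋃ i, (C i ∩ A 1)) (w 0) (w 1) := hww 0
  have h12 : JoinedIn (⋃ i, (C i ∩ A 1)) (w 1) (w 2) := hww 1
  have h23 : JoinedIn (⋃ i, (C i ∩ A 1)) (w 2) (w 3) := hww 2
  have h00 : JoinedIn (⋃ i, (C i ∩ A 1)) (w 0) (w 0) := h01.trans h01.symm
  have hall : ∀ j, JoinedIn (⋃ i, (C i ∩ A 1)) (w 0) (w j) := by
    intro j
    fin_cases j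
    · exact h00
    · exact h01
    · exact h01.trans h12
    · exact (h01.trans h12).trans h23
  intro x hx y hy
  obtain ⟨i, hi⟩ := mem_iUnion.1 hx
  obtain ⟨j, hj'⟩ := mem_iUnion.1 hy
  exact ((hj i x hi (w i) (hw1 i)).trans (hall i).symm).trans
    ((hall j).trans (hj j (w j) (hw1 j) y hj'))

end CM
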