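import Pool.Agent.Helper59.CM.Alg
import Pool.Agent.Helper59.CM.PF

/-!
Project CM (MP_e9500f_gt): abstract data for the main argument.
-/

set_option autoImplicit false

namespace CM

open Set Topology unitInterval

/-- the data on the contractible manifold used in the main argument: a homeomorphism `G`, a
compact set `K` with `K ⊆ interior (G '' K)`, exhausting `X` by its iterates, loops `lx`, `ly` in the
complement of `K` which detect exactness, and a path functor `Φ` with values in the free group. -/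
structure Tower (X : Type) [TopologicalSpace X] where
  G : X ≃ₜ X
  K : Set X
  compact : IsCompact K
  closed : IsClosed K
  mono : K ⊆ interior (G '' K)
  exhaust : ∀ x : X, ∃ n : ℕ, x ∈ (⇑G)^[n] '' K
  conn : Jn Kᶜ
  p : X
  lx : Path p p
  ly : Path p p
  lx_mem : ∀ t, lx t ∈ Kᶜ
  ly_mem : ∀ t, ly t ∈ Kᶜ
  fill : ∀ F : PFun X (Multiplicative ℝ), IsPF Kᶜ F → F p p lx = 1 → F p p ly = 1 →
    IsExact Kᶜ F
  Φ : PFun X F2
  Φ_pf : IsPF Kᶜ Φ
  Φx : Φ p p lx = xx
  Φy : Φ p p ly = yy
  ΦGx : Φ (G p) (G p) (lx.map G.continuous) = W1 xx yy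
  ΦGy : Φ (G p) (G p) (ly.map G.continuous) = W2 xx yy

variable {X : Type} [TopologicalSpace X]

theorem path_map_symm_map (G : X ≃ₜ X) {a b : X} (p : Path a b) :
    (p.map G.continuous).map G.symm.continuous =
      p.cast (G.symm_apply_apply a) (G.symm_apply_apply b) := by
  ext t; simp

theorem path_symm_map_map (G : X ≃ₜ X) {a b : X} (p : Path a b) :
    (p.map G.symm.continuous).map G.continuous =
      p.cast (G.apply_symm_apply a) (G.apply_symm_apply b) := by
  ext t; simp

/-- the tower one level up -/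
def Tower.shift (T : Tower X) : Tower X where
  G := T.G
  K := T.G '' T.K
  compact := T.compact.image T.G.continuous
  closed := T.G.isClosedMap _ T.closed
  mono := by
    rw [← T.G.image_interior]
    exact image_mono T.mono
  exhaust := by
    intro x
    obtain ⟨n, y, hy, hx⟩ := T.exhaust x
    obtain ⟨z, hz, hzy⟩ := interior_subset (T.mono hy)
    refine ⟨n, T.G z, ⟨z, hz, rfl⟩, ?_⟩
    rw [hzy]; exact hx
  conn := by
    intro x hx y hy
    have key : ∀ w, w ∈ (T.G '' T.K)ᶜ → T.G.symm w ∈ T.Kᶜ := by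
      intro w hw h
      exact hw ⟨T.G.symm w, h, T.G.apply_symm_apply w⟩
    obtain ⟨γ, hγ⟩ := T.conn _ (key x hx) _ (key y hy)
    refine ⟨(γ.map T.G.continuous).cast (T.G.apply_symm_apply x).symm
      (T.G.apply_symm_apply y).symm, fun t => ?_⟩
    show T.G (γ t) ∈ (T.G '' T.K)ᶜ
    rintro ⟨z, hz, hzt⟩
    exact hγ t (T.G.injective hzt ▸ hz)
  p := T.G T.p
  lx := T.lx.map T.G.continuous
  ly := T.ly.map T.G.continuous
  lx_mem := by
    rintro t ⟨z, hz, hzt⟩
    exact T.lx_mem t (T.G.injective hzt ▸ hz)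
  ly_mem := by
    rintro t ⟨z, hz, hzt⟩
    exact T.ly_mem t (T.G.injective hzt ▸ hz)
  fill := by
    intro F hF hx hy
    have h1 : IsPF T.Kᶜ (pull ⟨T.G, T.G.continuous⟩ F) := by
      refine (hF.pull ⟨T.G, T.G.continuous⟩).mono ?_
      rintro w hw ⟨z, hz, hzt⟩
      exact hw (T.G.injective hzt ▸ hz)
    obtain ⟨g, hg⟩ := T.fill _ h1 hx hy
    refine ⟨fun w => g (T.G.symm w), fun a b p hp => ?_⟩
    have h2 := hg _ _ (p.map T.G.symm.continuous) (by
      intro t h
      exact hp t ⟨_, h, T.G.apply_symm_apply _⟩)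
    rw [← h2]
    show F a b p = F _ _ ((p.map T.G.symm.continuous).map T.G.continuous)
    rw [path_symm_map_map, F_cast F]
  Φ := pull ⟨T.G.symm, T.G.symm.continuous⟩ T.Φ
  Φ_pf := by
    refine (T.Φ_pf.pull ⟨T.G.symm, T.G.symm.continuous⟩).mono ?_
    intro w hw h
    exact hw ⟨_, h, T.G.apply_symm_apply w⟩
  Φx := by
    show T.Φ _ _ ((T.lx.map T.G.continuous).map T.G.symm.continuous) = _
    rw [path_map_symm_map, F_cast T.Φ, T.Φx]
  Φy := by
    show T.Φ _ _ ((T.ly.map T.G.continuous).map T.G.symm.continuous) = _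
    rw [path_map_symm_map, F_cast T.Φ, T.Φy]
  ΦGx := by
    show T.Φ _ _ (((T.lx.map T.G.continuous).map T.G.continuous).map T.G.symm.continuous) = _
    rw [path_map_symm_map, F_cast T.Φ, T.ΦGx]
  ΦGy := by
    show T.Φ _ _ (((T.ly.map T.G.continuous).map T.G.continuous).map T.G.symm.continuous) = _
    rw [path_map_symm_map, F_cast T.Φ, T.ΦGy]

/-- level `n` -/
def Tower.lev (T : Tower X) : ℕ → Tower X
  | 0 => T
  | n + 1 => (T.lev n).shift

theorem Tower.lev_add (T : Tower X) (m k : ℕ) : (T.lev m).lev k = T.lev (m + k) := by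
  induction k with
  | zero => rfl
  | succ k ih => show ((T.lev m).lev k).shift = (T.lev (m + k)).shift; rw [ih]

/-- Euclidean 3-space -/
abbrev E3 : Type := EuclideanSpace ℝ (Fin 3)

/-- closed box and its complement -/
def box (R : ℝ) : Set E3 := {y | ∀ i, |y i| ≤ R}
def VV (R : ℝ) : Set E3 := (box R)ᶜ

/-- `f` is a proper open surjection whose fibres are the orbits of the involution `τ` -/
structure Fold {X Y : Type} [TopologicalSpace X] [TopologicalSpace Y] (f : X → Y) (τ : X → X) :
    Prop where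
  cont : Continuous f
  surj : Function.Surjective f
  opn : IsOpenMap f
  proper : IsProperMap f
  tcont : Continuous τ
  invol : ∀ x, τ (τ x) = x
  fib : ∀ x x', f x = f x' ↔ x' = x ∨ x' = τ x

/-- small neighbourhoods on which real path functors are exact -/
def LocPF (X : Type) [TopologicalSpace X] : Prop := ∀ x : X, ∀ W ∈ 𝓝 x, ∃ V : Set X, V ⊆ W ∧
  IsOpen V ∧ x ∈ V ∧ Jn V ∧ PFE (Multiplicative ℝ) V

/-- Two-fold branched covering of `ℝ³` (topological version: the map is only required to be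
continuous).  `proper` is the completeness of a branched covering (Fox). -/
structure IsBranched2 {X : Type} [TopologicalSpace X] (f : X → E3) : Prop where
  cont : Continuous f
  surj : Function.Surjective f
  proper : IsProperMap f
  disc : ∀ y, DiscreteTopology ↥(f ⁻¹' {y})
  branch : ∃ B : Set E3, IsClosed B ∧
    (∀ R : ℝ, ∃ L : Finset (E3 × E3), B ∩ Metric.closedBall 0 R ⊆ ⋃ l ∈ L, segment ℝ l.1 l.2) ∧
    IsCoveringMapOn f Bᶜ ∧ ∀ y ∉ B, (f ⁻¹' {y}).ncard = 2

end CM
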