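import Pool.Agent.Helper59.CM.StMain

/-!
Project CM (MP_e9500f_gt), second part: branched coverings which are not assumed proper.
Statements with written proofs.  Plan: `/team-store/MP_e9500f-NP-plan.md`.
-/

set_option autoImplicit false

namespace CM

open Set Topology unitInterval

/-- every bounded part of `B` is contained in a finite union of segments -/
def Seg (B : Set E3) : Prop := ∀ R : ℝ, ∃ L : Finset (E3 × E3),
  B ∩ Metric.closedBall 0 R ⊆ ⋃ l ∈ L, segment ℝ l.1 l.2

/-- Two-fold branched covering of `ℝ³`, without properness. -/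
structure IsBr2 {X : Type} [TopologicalSpace X] (f : X → E3) : Prop where
  cont : Continuous f
  surj : Function.Surjective f
  disc : ∀ y, DiscreteTopology ↥(f ⁻¹' {y})
  branch : ∃ B : Set E3, IsClosed B ∧ Seg B ∧ IsCoveringMapOn f Bᶜ ∧
    ∀ y ∉ B, (f ⁻¹' {y}).ncard = 2

/-- small neighbourhoods on which all path functors are exact -/
def LocAll (X : Type) [TopologicalSpace X] : Prop := ∀ x : X, ∀ W ∈ 𝓝 x, ∃ V : Set X, V ⊆ W ∧
  IsOpen V ∧ x ∈ V ∧ Jn V ∧ ∀ (Γ : Type) [Group Γ], PFE Γ V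

/-- `i : X → X'` open embedding, `f : X' → ℝ³` a proper fold with involution `τ`; the points
outside the image of `i` are exchanged with points of the image. -/
structure Comp {X X' : Type} [TopologicalSpace X] [TopologicalSpace X'] (i : X → X')
    (f : X' → E3) (τ : X' → X') : Prop where
  emb : IsOpenEmbedding i
  t2 : T2Space X'
  lpc : LocallyPathConnectedSpace X'
  fold : Fold f τ
  loc : LocAll X'
  miss : ∀ z, z ∉ range i → τ z ∈ range i
  seg : Seg (f '' (range i)ᶜ)

/-- NP1 (local structure of `f`). `D` = the points `x` with fibre `{x}` near which `f` is injective;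
`τ x` = the other point of the fibre, or `x`.
Proof. `f` is open (`StOpen`), fibres have one or two points (three points over `y` would have disjoint
neighbourhoods with images neighbourhoods of `y`, giving a point outside `B` with three
preimages). (C1) If the fibre of `y` is `{x, x'}`, `x ≠ x'`, take disjoint small neighbourhoods `W`, `W'`: every
point near `y` has exactly one preimage in each, and no other. (C2) If the fibre is `{x}` and `f` is not
injective near `x`: let `W` be an open neighbourhood with compact closure and `V` a ball about `f x`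
disjoint from `f '' (frontier W)` (fibre `{x}`), `W' = W ∩ f⁻¹' V`. `f : W' → V` is proper, over `V \ B`
(joined, `StBall`) the number of preimages in `W'` is locally constant, it is two somewhere (take
`u ≠ u'` in `W'` with `f u = f u'` and move to a point outside `B`, (C1)), so it is two, and a point of
`f⁻¹' V` outside `W'` would give a third preimage of some point outside `B`; so `f⁻¹' V ⊆ W`.
(C3) `D` is closed: points with two-point fibre are interior to the complement by (C1); at a point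
as in (C2), points `u` near it with one-point fibre have, arbitrarily near, points of `V \ B` with two
preimages, both near `u` (properness of `W' → V`), so `f` is not injective near `u`. -/
def StLocal : Prop := ∀ (X : Type) [TopologicalSpace X] [T2Space X] [LocallyCompactSpace X]
  (f : X → E3) (B : Set E3), Continuous f → Function.Surjective f →
  (∀ y, DiscreteTopology ↥(f ⁻¹' {y})) → IsClosed B → Seg B → IsCoveringMapOn f Bᶜ →
  (∀ y ∉ B, (f ⁻¹' {y}).ncard = 2) → interior (f ⁻¹' B) = ∅ →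
  ∃ (D : Set X) (τ : X → X), IsOpenMap f ∧ IsClosed D ∧ ContinuousOn τ Dᶜ ∧
    f '' D ⊆ B ∧
    (∀ x, x ∉ D → τ x ∉ D ∧ τ (τ x) = x ∧ f (τ x) = f x) ∧
    (∀ x x', f x = f x' → x' = x ∨ (x ∉ D ∧ x' = τ x)) ∧
    (∀ x ∉ D, ∀ W ∈ 𝓝 x, ∀ W' ∈ 𝓝 (τ x), ∃ V ∈ 𝓝 (f x), f ⁻¹' V ⊆ W ∪ W') ∧
    (∀ x ∈ D, ∀ W ∈ 𝓝 x, ∃ V ∈ 𝓝 (f x), ∀ u, f u ∈ V → u ∈ W ∨ (u ∉ D ∧ τ u ∈ W)) ∧
    (∀ x ∈ D, ∃ W ∈ 𝓝 x, ∀ u ∈ W, u ∉ D → τ u ∉ W)

/-- NP2 (completion by gluing two copies). From the data of `StLocal`: `X' = X ⊕ D` with the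
topology coinduced by `i₁ x = inl x` and `i₂ x = inl (τ x)` (`x ∉ D`), `i₂ x = inr x` (`x ∈ D`), that is, two
copies of `X` glued along `Dᶜ` by `τ`; both `i₁`, `i₂` are open embeddings, `τ'` exchanges `i₁ x` and `i₂ x`,
`f' (i₁ x) = f' (i₂ x) = f x`. -/
def StComp : Prop := ∀ (X : Type) [TopologicalSpace X] [T2Space X] [LocallyPathConnectedSpace X]
  (f : X → E3) (D : Set X) (τ : X → X), Continuous f → Function.Surjective f → LocAll X →
  IsOpenMap f → IsClosed D → ContinuousOn τ Dᶜ → Seg (f '' D) →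
  (∀ x, x ∉ D → τ x ∉ D ∧ τ (τ x) = x ∧ f (τ x) = f x) →
  (∀ x x', f x = f x' → x' = x ∨ (x ∉ D ∧ x' = τ x)) →
  (∀ x ∉ D, ∀ W ∈ 𝓝 x, ∀ W' ∈ 𝓝 (τ x), ∃ V ∈ 𝓝 (f x), f ⁻¹' V ⊆ W ∪ W') →
  (∀ x ∈ D, ∀ W ∈ 𝓝 x, ∃ V ∈ 𝓝 (f x), ∀ u, f u ∈ V → u ∈ W ∨ (u ∉ D ∧ τ u ∈ W)) →
  (∀ x ∈ D, ∃ W ∈ 𝓝 x, ∀ u ∈ W, u ∉ D → τ u ∉ W) →
  ∃ (X' : Type) (_ : TopologicalSpace X') (i : X → X') (f' : X' → E3) (τ' : X' → X'),
    Comp i f' τ' ∧ ∀ x, f' (i x) = f x

/-- NP3 (sections near the missing points, over a compact set `Q`). Proof: `κ = (range i)ᶜ ∩ f⁻¹' Q`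
and `τ '' κ` are disjoint compact sets; choose an open `N ⊇ κ` with `N ∩ τ '' N = ∅`, `N` disjoint from the closed
set `τ '' (range i)ᶜ`; `f` is injective and open on `N`; `N' = f '' N`, `s` = inverse. -/
def StChart : Prop := ∀ (X X' : Type) [TopologicalSpace X] [TopologicalSpace X'] (i : X → X')
  (f : X' → E3) (τ : X' → X') (Q : Set E3), Comp i f τ → IsCompact Q →
  ∃ (N : Set E3) (s : E3 → X'), IsOpen N ∧ f '' (range i)ᶜ ∩ Q ⊆ N ∧ ContinuousOn s N ∧
    (∀ y ∈ N, f (s y) = y) ∧ (∀ O ⊆ N, IsOpen O → IsOpen (s '' O)) ∧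
    (∀ y ∈ N, s y ∉ range i ↔ y ∈ f '' (range i)ᶜ)

/-- `Z` is thin: locally it does not separate. -/
def ThinIn {X : Type} [TopologicalSpace X] (Z : Set X) : Prop := ∀ x : X, ∀ W ∈ 𝓝 x,
  ∃ V : Set X, V ⊆ W ∧ IsOpen V ∧ x ∈ V ∧ Jn V ∧ Jn (V \ Z) ∧ V ⊆ closure (V \ Z) ∧
    ∀ (Γ : Type) [Group Γ], PFE Γ V

/-- NP4. The set of missing points is closed and thin; its image is closed. Proof at a missing point `z`: `V`
= image under the section (`StChart` with `Q = {f z}`) of a small ball; `StBall` for the closed set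
`f '' (range i)ᶜ`; `StCvx` for path functors on the ball. -/
def StThin : Prop := ∀ (X X' : Type) [TopologicalSpace X] [TopologicalSpace X'] (i : X → X')
  (f : X' → E3) (τ : X' → X'), Comp i f τ → ThinIn (range i)ᶜ ∧ IsClosed (range i)ᶜ ∧
    IsClosed (f '' (range i)ᶜ)

/-- NP5 (gauge extension over a thin set). Proof: on a small `V` both functors are exact,
`F = g₁`, `F' = g₂`; on the joined set `V \ Z`: `g₂ a * (g a)⁻¹ * (g₁ a)⁻¹` is constant, `= k`; put
`g' x = (g₁ x)⁻¹ * k⁻¹ * g₂ x` at points `x` of `Z`; independent of `V`; conclude by `StAG`. -/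
def StThinEq : Prop := ∀ (X Γ : Type) [TopologicalSpace X] [Group Γ] (Z S : Set X)
  (F F' : PFun X Γ) (g : X → Γ), IsClosed Z → ThinIn Z → IsOpen S → IsPF S F → IsPF S F' →
  (∀ (a b : X) (p : Path a b), (∀ t, p t ∈ S \ Z) → F' a b p = (g a)⁻¹ * F a b p * g b) →
  ∃ g' : X → Γ, ∀ (a b : X) (p : Path a b), (∀ t, p t ∈ S) →
    F' a b p = (g' a)⁻¹ * F a b p * g' b

/-- NP6 (extension over a thin set). If `F` is exact near the points of `Z`, it extends. Proof: for `z ∈ S ∩ Z`
choose `V_z` thin, `F` exact on `V_z \ Z` with potential `g_z`; extend `g_z` to the points `a` of `V_z ∩ Z` by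
`g_z(w) * (g_a(w))⁻¹`, `w` near `a` outside `Z` (constant near `a`); on overlaps `g_z' * g_z⁻¹` is locally
constant; glue `F` and the exact functors on the `V_z` by `StGL`. -/
def StThinExt : Prop := ∀ (X Γ : Type) [TopologicalSpace X] [Group Γ] (Z S : Set X)
  (F : PFun X Γ), IsClosed Z → ThinIn Z → IsOpen S → IsPF (S \ Z) F →
  (∀ z ∈ S ∩ Z, ∃ W ∈ 𝓝 z, W ⊆ S ∧ IsExact (W \ Z) F) →
  ∃ F' : PFun X Γ, IsPF S F' ∧ ∀ (a b : X) (p : Path a b), (∀ t, p t ∈ S \ Z) →
    F' a b p = F a b p

/-- NP7 (open embeddings). -/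
def StEmb : Prop := ∀ (X X' Γ : Type) [TopologicalSpace X] [TopologicalSpace X'] [Group Γ]
  (i : X → X') (hi : IsOpenEmbedding i) (S : Set X),
  (∀ F : PFun X Γ, IsPF S F → ∃ F' : PFun X' Γ, IsPF (i '' S) F' ∧
    ∀ (a b : X) (p : Path a b), (∀ t, p t ∈ S) → F' (i a) (i b) (p.map hi.continuous) = F a b p) ∧
  (∀ F' : PFun X' Γ, IsExact S (pull ⟨i, hi.continuous⟩ F') → IsExact (i '' S) F') ∧
  (∀ F' : PFun X' Γ, IsExact (i '' S) F' → IsExact S (pull ⟨i, hi.continuous⟩ F'))

/-- NP8 (depth). Loops in the complement of level `k` have values in `1 + m^(k+1)`.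
Proof: induction on `k`; the coefficients of degree `k+1` are (after choosing paths from the base point)
a real path functor on the complement of level `k`; by `StPair` the values on the loops of the next
level are conjugates of `W1`, `W2` of elements of `1 + m^(k+1)`, which lie in `1 + m^(k+2)`; so the
coefficients vanish there and `fill` applies. -/
def StDeep : Prop := ∀ (X : Type) [TopologicalSpace X] (T : Tower X) (h : PFun X UU),
  IsPF T.Kᶜ h → ∀ (k : ℕ) (a : X) (z : Path a a), (∀ t, z t ∈ (T.lev k).Kᶜ) →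
    Ord (k + 1) (sr (h a a z) - 1)

/-- NP9. A real path functor becomes exact at the next level. Proof: `F` and `hom2 (F lx) (F ly) ∘ Φ`
agree on `lx`, `ly`, so they are gauge equivalent (`fill` for the quotient), and
`hom2 .. (W1 xx yy) = 1` in a commutative group. -/
def StRealNext : Prop := ∀ (X : Type) [TopologicalSpace X] (T : Tower X)
  (F : PFun X (Multiplicative ℝ)), IsPF T.Kᶜ F → IsExact T.shift.Kᶜ F

/-- NP10 (`Φ` extends over the missing points).
Proof. Let `z` be missing, `y = f z`, `s` the section near `y`. Choose `r` small: `s '' ball y r` avoids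
`i '' T.K`, and for the finitely many segments `l` covering `f '' (range i)ᶜ` near `y`: `l` misses the ball or
`y ∈ l` and each endpoint of `l` different from `y` is outside the ball. Let `L` be the union of the segments
through `y`; `ball y r \ L` is invariant under the contractions with centre `y` (factor in `(0,1]`) and
joined (`StBall`). For a loop `γ` in `ball y r \ L`, the contracted loop `γ_t` is conjugate to it
(`StSq`), and for small `t` it is in the complement of any given level, so by `StDeep` (for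
`hom2 A B ∘ Φ`, `hom2 A B` injective) the value of `Φ` on it is `1`. So `Φ ∘ s` is exact on `ball y r \ L`, and, since
`L` is thin, on `ball y r \ f '' (range i)ᶜ` (`StThinEq`, `StBall`). Now `StThinExt` (`StEmb` to pass to
`X'`). -/
def StPT : Prop := ∀ (X X' : Type) [TopologicalSpace X] [TopologicalSpace X'] (i : X → X')
  (f : X' → E3) (τ : X' → X') (hC : Comp i f τ) (T : Tower X),
  ∃ Φ' : PFun X' F2, IsPF (i '' T.K)ᶜ Φ' ∧ ∀ (a b : X) (p : Path a b), (∀ t, p t ∈ T.Kᶜ) →
    Φ' (i a) (i b) (p.map hC.emb.continuous) = T.Φ a b p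

/-- closed box -/
def bx (t : Fin 3 → ℝ) : Set E3 := {y | ∀ j, |y j| ≤ t j}

/-- NP11 (generic box). Choose `t 0`, then `t 1`, then `t 2`: avoid the finitely many values for which
a segment is contained in a face plane, and the coordinates of the (finitely many) points already
found on the previous faces. -/
def StGenBox : Prop := ∀ (Z : Set E3) (R : ℝ), IsClosed Z → Seg Z → 0 ≤ R → ∃ t : Fin 3 → ℝ,
  (∀ j, R < t j) ∧ {y | y ∈ Z ∧ y ∈ bx t ∧ ∃ j, |y j| = t j}.Finite ∧
  ∀ y ∈ Z, y ∈ bx t → ∀ j k, |y j| = t j → |y k| = t k → j = k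

/-- NP12 (extension lemma). A path functor `g` outside `f⁻¹' (bx t)`, `t` generic, extends to the complement of some
level of the tower.
Proof. Exits: the finitely many missing points `z` with `f z` on the boundary of the box; small
disjoint open `β_z` = section images of balls `V` about `f z`, `V \ bx t` is a half ball, convex, so `g` is
exact on the union of the `β_z \ f⁻¹' (bx t)`. `N = f⁻¹' (interior of the box) ∪ ⋃ β_z` is open and contains all
missing points of `f⁻¹' (bx t)`, so the compact set `f⁻¹' (bx t) \ N` is in `i '' (T.lev n).K` for large `n`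
(`StLev`). Apply `StExt` in `X` to `S = {x | x ∉ (T.lev n).K, f (i x) ∉ bx t}` and `i⁻¹' N \ (T.lev n).K`. -/
def StEL : Prop := ∀ (X X' Γ : Type) [TopologicalSpace X] [TopologicalSpace X'] [Group Γ]
  (i : X → X') (f : X' → E3) (τ : X' → X') (hC : Comp i f τ) (T : Tower X) (t : Fin 3 → ℝ)
  (g : PFun X' Γ), (∀ j, 0 < t j) →
  {y | y ∈ f '' (range i)ᶜ ∧ y ∈ bx t ∧ ∃ j, |y j| = t j}.Finite →
  (∀ y ∈ f '' (range i)ᶜ, y ∈ bx t → ∀ j k, |y j| = t j → |y k| = t k → j = k) →
  IsPF (f ⁻¹' (bx t))ᶜ g →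
  ∃ (n : ℕ) (g' : PFun X Γ), IsPF (T.lev n).Kᶜ g' ∧
    ∀ (a b : X) (p : Path a b), (∀ u, p u ∈ (T.lev n).Kᶜ ∧ f (i (p u)) ∉ bx t) →
      g' a b p = g (i a) (i b) (p.map hC.emb.continuous)

/-- NP13 (forest lemma). `Y = YA ∪ YB`, the intersection is the disjoint union of finitely many joined
open sets `W j`. If every real path functor on `Y` which is exact on `YA` and `YB` is exact on `Y`, then the same
holds for every group.
Proof. `F` with potentials `gA`, `gB`, `gA = κ j * gB` on `W j`. Remove the constants one after the other. For `j`: the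
real functor with potentials `0` on `YA` and (indicator of `W j`) on `YB` (`StPot`) is exact, potential
`e`; `e` is constant along paths in `YA`, `e - 1_{W j}` is constant along paths in `YB`, `e = c` on
`W j`. Let `u = κ j` where `e > c - 1/2` and `1` elsewhere on `YA`; `v = κ j` where `e - 1_{W j} > c - 1/2`,
`1` elsewhere on `YB`. Replace `gA`, `gB` by `u⁻¹ * gA`, `v⁻¹ * gB`: they are still potentials, now equal on `W j`, and
`κ k` is replaced by a conjugate for `k ≠ j` (there `u = v`). At the end `gA = gB` on the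
intersection, so `F` is exact (`StAG`). -/
def StForest : Prop := ∀ (X Γ : Type) [TopologicalSpace X] [Group Γ] (YA YB : Set X) (r : ℕ)
  (W : Fin r → Set X) (F : PFun X Γ), IsOpen YA → IsOpen YB → (∀ j, IsOpen (W j)) →
  (∀ j, Jn (W j)) → (∀ j k, j ≠ k → W j ∩ W k = ∅) → YA ∩ YB = ⋃ j, W j →
  (∀ A : PFun X (Multiplicative ℝ), IsPF (YA ∪ YB) A → IsExact YA A → IsExact YB A →
    IsExact (YA ∪ YB) A) →
  IsPF (YA ∪ YB) F → IsExact YA F → IsExact YB F → IsExact (YA ∪ YB) F

/-- NP14 (generic grid). `Pl` = finite set of coordinate planes `(j,c) : y j = c`, containing the six faces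
of the box `bx t`; mesh smaller than `δ`; `Z` meets the planes inside the box in finitely many points,
each on exactly one plane, and near each such point `Z` is a straight line transversal to the
plane.
Proof. Segments `l ∈ L` cover `Z` near the box. A point `y ∈ Z ∩ l` is good if it is not an end point of `l`, not on a
segment of `L` which is not collinear with `l`, and in the relative interior of `Z ∩ l` in `l`. The points of `Z`
which are not good with a direction `u`, `u j ≠ 0`, have a closed nowhere dense image under `y ↦ y j`.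
So the values `c` can be chosen, one after the other, avoiding these sets and the coordinates of
points already found. -/
def StGrid : Prop := ∀ (Z : Set E3) (R δ : ℝ), IsClosed Z → Seg Z → 0 ≤ R → 0 < δ →
  ∃ (t : Fin 3 → ℝ) (Pl : Finset (Fin 3 × ℝ)), (∀ j, R < t j) ∧
    (∀ j, (j, t j) ∈ Pl ∧ (j, -t j) ∈ Pl) ∧ (∀ q ∈ Pl, |q.2| ≤ t q.1) ∧
    (∀ x ∈ bx t, ∀ x' ∈ bx t, (∀ q ∈ Pl, (x q.1 < q.2 ∧ x' q.1 < q.2) ∨
      (q.2 < x q.1 ∧ q.2 < x' q.1)) → dist x x' < δ) ∧
    {y | y ∈ Z ∧ y ∈ bx t ∧ ∃ q ∈ Pl, y q.1 = q.2}.Finite ∧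
    (∀ y ∈ Z, y ∈ bx t → ∀ q ∈ Pl, y q.1 = q.2 → (∀ q' ∈ Pl, y q'.1 = q'.2 → q' = q) ∧
      ∃ (ρ : ℝ) (u : E3), 0 < ρ ∧ u q.1 ≠ 0 ∧
        ∀ x ∈ Metric.ball y ρ, x ∈ Z ↔ ∃ c : ℝ, x = y + c • u)

/-- NP15. An open convex set minus a subset of a line, closed in it, is joined. -/
def StCvxLine : Prop := ∀ (V Z : Set E3) (y u : E3), IsOpen V → Convex ℝ V → IsClosed Z →
  (∀ x ∈ V ∩ Z, ∃ c : ℝ, x = y + c • u) → Jn (V \ Z)

/-- wall data at level `b` -/
structure WallData {X X' : Type} [TopologicalSpace X] [TopologicalSpace X'] (i : X → X')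
    (T : Tower X) {Γ : Type} [Group Γ] (h : PFun X' Γ) (b r : ℕ) (YA YB : Set X')
    (W : Fin r → Set X') : Prop where
  openA : IsOpen YA
  openB : IsOpen YB
  openW : ∀ j, IsOpen (W j)
  jn : ∀ j, Jn (W j)
  disj : ∀ j k, j ≠ k → W j ∩ W k = ∅
  inter : YA ∩ YB = ⋃ j, W j
  sub : YA ∪ YB ⊆ i '' (T.lev b).Kᶜ
  sup : ∃ b', i '' (T.lev b').Kᶜ ⊆ YA ∪ YB
  exA : IsExact YA h
  exB : IsExact YB h

/-- NP16 (walls). Let `h` be exact on `f⁻¹' (VV R)`.
Proof. `Z' = f '' (range i)ᶜ`, `Q` = `bx t` from `StGrid`, `O` = complement of `Q`, `s` the section over `Q`, defined on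
`N ⊇ Z' ∩ Q` (`StChart`). `δ`: for `y ∈ Z' ∩ Q`, `ball y δ ⊆ N` and `s '' ball y δ` is in a set on which `h` is exact
(Lebesgue number, `Comp.loc`); choose the grid with mesh `δ/2`. `J` = the finite set of points of `Z' ∩ Q` on
the planes. At level `b` choose `ρ` (small: balls `ball y ρ`, `y ∈ J`, disjoint, in `N`, meet only one plane, `Z'` is a
line in `ball y (2ρ)`, `s '' ball y ρ` avoids `i '' (T.lev b).K`) and then `ε < ρ`, `ε < δ/2`: the `ε`-neighbourhood `N_ε` of
`Z' ∩ Q` is in `N`, `s '' N_ε` avoids `i '' (T.lev b).K`, and `N_ε ∩ (planes) ∩ Q ⊆ ⋃ ball y ρ`.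
`YB = ⋃ s '' (ball y ρ \ Z')`, `YA = (f⁻¹' O ∩ i '' (T.lev b).Kᶜ) ∪ s '' ((N_ε ∩ Q) \ (planes ∪ Z'))`.
`W` for `y ∈ J` and a side of its plane: `s '' ((ball y ρ ∩ side ∩ N_ε) \ Z')` if this side is in `Q`,
`s '' ((ball y ρ ∩ side) \ Z')` if it is in `O`; joined by `StCvxLine`, since `N_ε ∩ ball y ρ` = ball intersected with the
`ε`-neighbourhood of the convex set `Z' ∩ Q ∩ ball y (2ρ)`. `YA` is exact: the part over `O` by hypothesis, the
others are in cells of the grid, of diameter `< δ/2`. `sup`: `f⁻¹' Q \ s '' N_ε` is compact and contained in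
`range i`, so in `i '' (T.lev b').K`. For the second claim take the constants `ρ`, `ε` at level `b` smaller than those
at level `0`. -/
def StWall : Prop := ∀ (X X' Γ : Type) [TopologicalSpace X] [TopologicalSpace X'] [Group Γ]
  (i : X → X') (f : X' → E3) (τ : X' → X') (_ : Comp i f τ) (T : Tower X) (R : ℝ)
  (h : PFun X' Γ), 0 ≤ R → IsPF (i '' T.K)ᶜ h → IsExact (f ⁻¹' (VV R)) h →
  ∃ (r : ℕ) (YA YB : Set X') (W : Fin r → Set X'), WallData i T h 0 r YA YB W ∧
    ∀ b : ℕ, ∃ (YA' YB' : Set X') (W' : Fin r → Set X'), WallData i T h b r YA' YB' W' ∧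
      YA' ⊆ YA ∧ YB' ⊆ YB ∧ ∀ j, W' j ⊆ W j

/-- NP17 (key contradiction). If `h` is exact on `f⁻¹' (VV R)`, then it is exact on the complement of
some level.
Proof. Let `b'` be as in `sup` for level `0` and apply `StWall` with `b = b' + 1`. By `StForest` it suffices that a real functor
`A` on `YA' ∪ YB'`, exact on `YA'` and `YB'` (potentials `aA`, `aB`, `aA - aB = c j` on `W' j`), is exact. The real
functor `A⁰` on `YA ∪ YB` with potentials `0` on `YA` and `c j` on `W j` (`0` elsewhere on `YB`) (`StPot`), pulled back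
to `X`, is a path functor on `(T.lev b').Kᶜ`, so exact on `(T.lev (b'+1)).Kᶜ` (`StRealNext`), so exact on
`YA' ∪ YB'` (`StEmb`), potential `e`. On `YA'` `e` is constant along paths, on `YB'` `e - c j 1_{W j}` is. The function
`aA - e` on `YA'`, `aB - e + c j 1_{W j}` on `YB'` is a potential of `A`. -/
def StKC : Prop := ∀ (X X' Γ : Type) [TopologicalSpace X] [TopologicalSpace X'] [Group Γ]
  (i : X → X') (f : X' → E3) (τ : X' → X') (_ : Comp i f τ) (T : Tower X) (R : ℝ)
  (h : PFun X' Γ), 0 ≤ R → IsPF (i '' T.K)ᶜ h → IsExact (f ⁻¹' (VV R)) h →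
  ∃ b, IsExact (i '' (T.lev b).Kᶜ) h

/-- NP18 (split case). If the preimage of `V` is not joined, every path functor on it is exact.
Proof. A path component `W` of `U = f⁻¹' V` is open, its image is open and closed in `V` (properness, as in
`StU2`), so `f '' W = V`. If `W` meets `τ '' W`, they are equal and `W = U`. Otherwise `U = W ∪ τ '' W`, disjoint,
and `f` is a homeomorphism from `W` onto `V` and from `τ '' W` onto `V`; use `PFE Γ V`. -/
def StSplit : Prop := ∀ (X' Γ : Type) [TopologicalSpace X'] [T2Space X']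
  [LocallyPathConnectedSpace X'] [Group Γ] (f : X' → E3) (τ : X' → X') (V : Set E3)
  (F : PFun X' Γ), Fold f τ → IsOpen V → Jn V → V.Nonempty → PFE Γ V → IsPF (f ⁻¹' V) F →
  ¬ Jn (f ⁻¹' V) → IsExact (f ⁻¹' V) F

/-- NP19. Open subsets of `E`. -/
def StLocAll : Prop := ∀ M : Set E, IsOpen M → LocAll ↥M

/-- NP20 (main argument). -/
def StMain2 : Prop := ∀ (X X' : Type) [TopologicalSpace X] [TopologicalSpace X'] (i : X → X')
  (f : X' → E3) (τ : X' → X') (T : Tower X), Comp i f τ → False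

/-- FINAL2. -/
def StFinal2 : Prop := ∃ M : Set E3, IsOpen M ∧ ContractibleSpace ↥M ∧
  ∀ f : ↥M → E3, ¬ IsBr2 f

end CM
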