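import Pool.Agent.Helper59.CM.Alg

/-!
Project CM (MP_e9500f_gt): statements of the algebra modules, with written proofs.
A module proves `theorem StX_proof : StX` (other statements may be taken as hypotheses).
-/

set_option autoImplicit false

namespace CM

open NS

/-- ALG1a (order). For words of equal length `wlt` is a strict total order, compatible with
concatenation. -/
def StWord : Prop :=
  (∀ v : List Bool, ¬ wlt v v) ∧
  (∀ u v w : List Bool, wlt u v → wlt v w → wlt u w) ∧
  (∀ v w : List Bool, v.length = w.length → v ≠ w → wlt v w ∨ wlt w v) ∧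
  (∀ u v u' v' : List Bool, u.length = v.length →
      (wlt (u ++ u') (v ++ v') ↔ wlt u v ∨ (u = v ∧ wlt u' v')))

/-- ALG1b. Every nonzero series has a leading word (finitely many words of a given length). -/
def StLeadEx : Prop := ∀ f : NS, f ≠ 0 → ∃ (w : List Bool) (c : ℚ), IsLead f w c

/-- ALG1c. Uniqueness, products, small perturbations, sums of terms with the same leading word,
scalars. -/
def StLead : Prop :=
  (∀ (f : NS) (w w' : List Bool) (c c' : ℚ), IsLead f w c → IsLead f w' c' → w = w' ∧ c = c') ∧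
  (∀ (f g : NS) (m n : List Bool) (α β : ℚ), IsLead f m α → IsLead g n β →
      IsLead (f * g) (m ++ n) (α * β)) ∧
  (∀ (f g : NS) (m : List Bool) (α : ℚ), IsLead f m α →
      (∀ v, ¬ Before m v → co g v = 0) → IsLead (f + g) m α) ∧
  (∀ (f g : NS) (m : List Bool) (α β : ℚ), IsLead f m α → IsLead g m β → α + β ≠ 0 →
      IsLead (f + g) m (α + β)) ∧
  (∀ (f : NS) (m : List Bool) (α r : ℚ), IsLead f m α → r ≠ 0 → IsLead (r • f) m (r * α))

/-- ALG2. Group level: commutators, inverses, conjugates.
Proofs: `[a,b] - 1 = (ab-ba) a⁻¹ b⁻¹` with `ab - ba = (a-1)(b-1) - (b-1)(a-1)`, and `a⁻¹b⁻¹` has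
leading word `[]` with coefficient one; `a⁻¹ - 1 = -(a-1)a⁻¹`; `g a g⁻¹ - 1 = g (a-1) g⁻¹`. -/
def StComm : Prop :=
  (∀ (a b : UU) (m n : List Bool) (α β : ℚ), LG a m α → LG b n β →
      (wlt (n ++ m) (m ++ n) → LG (cm a b) (m ++ n) (α * β)) ∧
      (wlt (m ++ n) (n ++ m) → LG (cm a b) (n ++ m) (-(α * β)))) ∧
  (∀ (a : UU) (m : List Bool) (α : ℚ), LG a m α → LG a⁻¹ m (-α)) ∧
  (∀ (a g : UU) (m : List Bool) (α : ℚ), LG a m α → LG (g * a * g⁻¹) m α) ∧
  (∀ (a b : UU) (w : List Bool) (c : ℚ),
      LG (cm a b) w c ↔ IsLead ((sr a - 1) * (sr b - 1) - (sr b - 1) * (sr a - 1)) w c) ∧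
  (∀ a : UU, a ≠ 1 → ∃ (w : List Bool) (c : ℚ), LG a w c ∧ w ≠ []) ∧
  (∀ (a : UU) (w w' : List Bool) (c c' : ℚ), LG a w c → LG a w' c' → w = w' ∧ c = c')

/-- ALG3. Effect of `(a,b) ↦ (W1 a b, W2 a b)` when the leading words do not commute.
Proof: apply `StComm` four times.  With `mn > nm`: `u=[a,b]` has `mn, αβ`; `[b,u]` has
`mnn, -αβ²`; `[a,[b,u]]` has `mmnn, -α²β²`; `[u,[a,[b,u]]]` has `mmnnmn, (αβ)³`.
With `mn < nm`: `u`: `nm, -αβ`; `[b,u]`: `nnm, -αβ²`; `[a,[b,u]]`: `nnmm, α²β²`;
`[u,..]`: `nnmmnm, (αβ)³`. All comparisons are decided by the first place where `mn` is compared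
with `nm` (equal lengths). -/
def StND : Prop := ∀ (a b : UU) (m n : List Bool) (α β : ℚ), LG a m α → LG b n β →
  (wlt (n ++ m) (m ++ n) → LG (W1 a b) (m ++ n) (α * β) ∧
      LG (W2 a b) (m ++ m ++ n ++ n ++ m ++ n) ((α * β) ^ 3) ∧
      wlt ((m ++ n) ++ (m ++ m ++ n ++ n ++ m ++ n)) ((m ++ m ++ n ++ n ++ m ++ n) ++ (m ++ n))) ∧
  (wlt (m ++ n) (n ++ m) → LG (W1 a b) (n ++ m) (-(α * β)) ∧
      LG (W2 a b) (n ++ n ++ m ++ m ++ n ++ m) ((α * β) ^ 3) ∧
      wlt ((n ++ m) ++ (n ++ n ++ m ++ m ++ n ++ m)) ((n ++ n ++ m ++ m ++ n ++ m) ++ (n ++ m)))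

/-- `r` repeated `i` times -/
def rep (i : ℕ) (r : List Bool) : List Bool := (List.replicate i r).flatten

/-- ALG4. Commuting words are powers of a common word. (Induction on total length: the shorter one
is a prefix of the longer one.) Moreover a word commuting with a positive power of `r`... is
handled by `StRoot`. -/
def StLS : Prop := ∀ m n : List Bool, m ++ n = n ++ m →
  ∃ (r : List Bool) (i j : ℕ), m = rep i r ∧ n = rep j r

/-- ALG4b. If `d` commutes with `r^k`, `k ≥ 1`, then `d` commutes with `r`; and for `|d r| = |r d|`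
comparisons: `dr < rd` implies `d r^k < r^k d` and conversely (k ≥ 1). -/
def StRoot : Prop := ∀ (d r : List Bool) (k : ℕ), 1 ≤ k →
  (d ++ rep k r = rep k r ++ d → d ++ r = r ++ d) ∧
  (wlt (d ++ r) (r ++ d) → wlt (d ++ rep k r) (rep k r ++ d)) ∧
  (wlt (r ++ d) (d ++ r) → wlt (rep k r ++ d) (d ++ rep k r))

/-- ALG5 (Drop lemma). `f g ≠ g f`, leading words `m`, `n` of `f`, `g` nonempty and commuting;
then the leading word `d` of `fg - gf` does not commute with `m` (nor with `n`).
Proof. By `StLS`, `StRoot` write `m = r^i`, `n = r^j` with `i,j ≥ 1` and suppose `d` commutes with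
`m`, hence with `r`; `StLS` for `d` and `r` and a common root: enlarge nothing - instead choose `r`
primitive (of minimal length with `m,n ∈ ⟨r⟩`; then `d` commuting with `r` is a power of `r`).
Let `c` be the number with `T = f^j - c g^i` having zero coefficient at `r^(ij)`. Then
`fT - Tf = -c (f g^i - g^i f) = -c ∑_k g^k (fg-gf) g^(i-1-k)` has leading word `r^(j(i-1)) d`
(all terms have the same leading coefficient, characteristic zero), in particular `T ≠ 0`,
`fT ≠ Tf`. If the leading word `q` of `T` does not commute with `m`, then the leading word of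
`fT - Tf` is `mq` or `qm`, which does not commute with `r` (StRoot) - contradiction. So `q` is a power of `r`,
longer than `r^(ij)`. The number `|lead(fg-gf)| - |lead f| - |lead g| ≥ 0` is smaller for the pair
`(f,T)` than for `(f,g)`: induction on it. -/
def StDrop : Prop := ∀ (f g : NS) (m n d : List Bool) (α β γ : ℚ),
  IsLead f m α → IsLead g n β → m ≠ [] → n ≠ [] → m ++ n = n ++ m →
  IsLead (f * g - g * f) d γ → d ++ m ≠ m ++ d ∧ d ++ n ≠ n ++ d

/-- ALG6. Noncommuting pair with commuting leading words: after one step the leading words do not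
commute.  Proof: `u = [a,b]` has leading word `d` (StDrop) not commuting with `m` and `n`;
`m = r^i`, `n = r^j`.
If `rd > dr`: `[b,u]` has `r^j d`; `[a,[b,u]]` has `r^(i+j) d`; `[u,..]` has `r^(i+j) d d`.
If `rd < dr`: `d r^j`, `d r^(i+j)`, `d d r^(i+j)`. `d` does not commute with these. -/
def StD : Prop := ∀ (a b : UU) (m n : List Bool) (α β : ℚ), a * b ≠ b * a →
  LG a m α → LG b n β → m ++ n = n ++ m → ND (W1 a b) (W2 a b)

/-- ALG7. The chain. Proof: a noncommuting pair is ND (leading words do not commute) or case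
`StD`; `ND` pairs do not commute; after ND signs are `(σαβ, (αβ)³)` and the relation is `m'n' < n'm'`,
`|n'| = 3|m'|`; two further steps give `α > 0, β < 0`; this persists.  Everything is invariant
under simultaneous conjugation. -/
def StChain : Prop := ∀ (a b : ℕ → UU),
  (∀ k, Conj (W1 (a k) (b k)) (W2 (a k) (b k)) (a (k + 1)) (b (k + 1))) →
  a 0 * b 0 ≠ b 0 * a 0 →
  (∀ k, a k * b k ≠ b k * a k) ∧ (∀ k, 4 ≤ k → Good (a k) (b k))

/-- substitution of words: `true ↦ m`, `false ↦ n` -/
def sw (m n : List Bool) (s : List Bool) : List Bool :=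
  (s.map fun t => if t = true then m else n).flatten

/-- ALG8 (Lemma Z). Proof: induction on `|m|+|n|`. If neither of `m`, `n` is a prefix of the other,
`nm > mn` means `n > m` at the first difference. If `n = m n'` (`n' ≠ []`): `n'm > m n'`, and `s` is nonempty,
begins with `m`: `m·s' < n'·t` by induction for the pair `(m,n')`, where `s', t` are rewritten as words in
`m, n'`. If `m = n m'`: `n m' > m' n`; compare `m' s < t`, `t = n t'` similarly. -/
def StZ : Prop := ∀ m n : List Bool, wlt (m ++ n) (n ++ m) → ∀ s t : List Bool,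
  (m ++ sw m n s).length = (n ++ sw m n t).length → wlt (m ++ sw m n s) (n ++ sw m n t)

/-- the two variables -/
def var (t : Bool) : NS := NS.mk fun w => if w = [t] then 1 else 0

/-- product `s(p,q)` over the letters of the word `s` -/
def wp (p q : NS) (s : List Bool) : NS := (s.map fun t => if t = true then p else q).prod

/-- ALG9 (substitution). For `p`, `q` without constant term there is a ring homomorphism
`θ : NS → NS`, `var true ↦ p`, `var false ↦ q`, with `co (θ f) w = ∑_s co f s * co (s(p,q)) w`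
(finite sum: `co (s(p,q)) w = 0` if `|s| > |w|`). -/
def StSubst : Prop := ∀ p q : NS, co p [] = 0 → co q [] = 0 →
  ∃ θ : NS →+* NS, θ (var true) = p ∧ θ (var false) = q ∧
    ∀ (f : NS) (w : List Bool), co (θ f) w =
      ∑ᶠ s : List Bool, co f s * co (wp p q s) w

/-- ALG10 (Magnus). `1 + var t` are invertible, and the homomorphism `F2 → UU` they define is
injective. (For the proof one can use `Pool.Agent.Helper14.DL.MAG`, coefficients in `ℤ`.) -/
def StMagnus : Prop := ∃ a b : UU, sr a = 1 + var true ∧ sr b = 1 + var false ∧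
  a * b ≠ b * a ∧ ∀ W : F2, W ≠ 1 → hom2 a b W ≠ 1

/-- ALG11 (signs). For good pairs `(a,b)`, `(a',b')` and `W ≠ 1` in `F2`: the leading coefficients
of `W(a,b) - 1` and `W(a',b') - 1` have the same sign.
Proof. Let `F = Σ f_s s` be the Magnus series of `W` minus one, `F ≠ 0`, `f_[] = 0`. `W(a,b) - 1 = Σ f_s s(a-1,b-1)`
(StSubst; both sides of `hom2 a b = θ ∘ Magnus` are homomorphisms). The term `s` has leading word
`sw m n s` and coefficient `f_s α^i β^j` (`i`, `j` = numbers of letters `true`, `false` in `s`). By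
StZ the words `sw m n s` are pairwise different, ordered as follows: length `(i+3j)|m|` first, and for
equal length: lexicographic comparison with `false` larger than `true`; so the `s` in the support of `F`
whose term leads is the same for both pairs, and the sign of its coefficient is
`sign(f_s) (-1)^j`. -/
def StSgn : Prop := ∀ a b a' b' : UU, Good a b → Good a' b' → ∀ W : F2, W ≠ 1 →
  ∃ (w w' : List Bool) (c c' : ℚ), LG (hom2 a b W) w c ∧ LG (hom2 a' b' W) w' c' ∧ 0 < c * c'

/-- ALG12. Consequence: `W(a',b')` is not conjugate to `W(a,b)⁻¹`. -/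
def StSign : Prop := ∀ a b a' b' : UU, Good a b → Good a' b' → ∀ W : F2, W ≠ 1 →
  ∀ g : UU, hom2 a' b' W ≠ g * (hom2 a b W)⁻¹ * g⁻¹

/-- order at least `k` -/
def Ord (k : ℕ) (f : NS) : Prop := ∀ w : List Bool, w.length < k → co f w = 0

/-- ALG13 (filtration). -/
def StFilt : Prop := ∀ k : ℕ, 1 ≤ k →
  (∀ u v : UU, Ord k (sr u - 1) → Ord k (sr v - 1) → Ord k (sr (u * v) - 1) ∧
      ∀ w : List Bool, w.length = k → co (sr (u * v) - 1) w = co (sr u - 1) w + co (sr v - 1) w) ∧
  (∀ u : UU, Ord k (sr u - 1) → Ord k (sr u⁻¹ - 1) ∧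
      ∀ w : List Bool, w.length = k → co (sr u⁻¹ - 1) w = - co (sr u - 1) w) ∧
  (∀ u g : UU, Ord k (sr u - 1) → Ord k (sr (g * u * g⁻¹) - 1) ∧
      ∀ w : List Bool, w.length = k → co (sr (g * u * g⁻¹) - 1) w = co (sr u - 1) w)

end CM
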