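import Pool.Agent.Helper59.CM.Geo
import Pool.Agent.Helper59.CM.StPF

/-!
Project CM (MP_e9500f_gt): statements about the explicit manifold, with written proofs.
-/

set_option autoImplicit false

namespace CM

open Set Topology unitInterval

/-- push with centre `c` to `r` -/
noncomputable def bb (c r q : ℂ) : ℂ := q + (bump c q : ℂ) * (r - c)

/-- GEO1. `q ↦ bb c r q` is a homeomorphism of `ℂ` for `‖r - c‖ ≤ 8` (a `8/11`-Lipschitz
perturbation of the identity: contraction principle), with jointly continuous inverse `e`. -/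
def StBB : Prop := ∀ c : ℂ, ∃ e : ℂ × ℂ → ℂ,
  ContinuousOn e (Metric.closedBall c 8 ×ˢ univ) ∧
  ∀ r ∈ Metric.closedBall c 8, ∀ q : ℂ, bb c r (e (r, q)) = q ∧ e (r, bb c r q) = q ∧
    (11 ≤ ‖q - c‖ → e (r, q) = q) ∧ (‖q - c‖ < 11 → ‖e (r, q) - c‖ < 11) ∧
    ‖q - r‖ ≤ 2 * ‖e (r, q) - c‖ ∧ (e (r, q) - c ≠ 0 ↔ q ≠ r)

/-- allowed positions of the tunnels -/
def TT (c : ℂ) : Set ℂ := {r | ‖r - c‖ ≤ 8 ∧ |r.re| ≤ 6 ∧ |r.im| ≤ 2 ∧
  (|r.im| = 2 ∨ |r.re| = 3/2 ∨ |r.re| = 6)}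

/-- GEO2. The letters and the paths `gam1`, `gam2` stay in the allowed positions. -/
def StGam : Prop :=
  (∀ t, letter q1 (-3/2) t ∈ TT q1) ∧ (∀ t, letter q1 (3/2) t ∈ TT q1) ∧
  (∀ t, letter q2 (-3/2) t ∈ TT q2) ∧ (∀ t, letter q2 (3/2) t ∈ TT q2) ∧
  (∀ t, gam1 t ∈ TT q1) ∧ (∀ t, gam2 t ∈ TT q2)

/-- GEO3. `f1`, `f2` are homeomorphisms of `ℝ` with the values in their doc strings; `rho` is a
homeomorphism; image of `HH`. -/
def StRho : Prop := ∃ R : E ≃ₜ E, ⇑R = rho ∧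
  rho '' HH = {p | |p.1| < 5 ∧ |p.2.re| < 20 ∧ |p.2.im| < 20 ∧
    ¬ (|p.2.im| ≤ ep ∧ 6 - ep ≤ |p.2.re| ∧ |p.2.re| ≤ 6 + ep)} ∧
  f1 0 = 0 ∧ f2 0 = 0 ∧ f2 (3/2) = 6 ∧ f2 (-3/2) = -6 ∧ f2 4 = 20 + (14 - ep) ∧
  f2 (-4) = -(20 + (14 - ep)) ∧ StrictMono f2

/-- GEO4. `Bf` is a homeomorphism: for `s ≤ 0` it is `(s, bb q1 (gam1.extend (s+2)) q)`, for
`s ≥ 0` it is `(s, bb q2 (gam2.extend (s-1)) q)`; for `|s| ≤ 1` and `2 ≤ |s|` it is the identity. -/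
def StBf : Prop := (∃ B : E ≃ₜ E, ⇑B = Bf) ∧
  (∀ (s : ℝ) (q : ℂ), s ≤ 0 → Bf (s, q) = (s, bb q1 (gam1.extend (s + 2)) q)) ∧
  (∀ (s : ℝ) (q : ℂ), 0 ≤ s → Bf (s, q) = (s, bb q2 (gam2.extend (s - 1)) q)) ∧
  (∀ (s : ℝ) (q : ℂ), |s| ≤ 1 ∨ 2 ≤ |s| → Bf (s, q) = (s, q))

/-- GEO5. Position of `K0` and its neighbourhood. (A point of `OO` in the image of a closed tunnel
square would be within `0.13` of `gam_i`, but `OO` at `|s| ≤ 2` is at distance at least `1/4` from the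
allowed positions `TT`.) -/
def StOO : Prop := K0 ⊆ OO ∧ OO ⊆ Gf '' HH ∧
  {p : E | |p.1| < 1 ∧ |p.2.re| < 5 ∧ |p.2.im| < 5} ⊆ Gf '' HH ∧ Gf 0 = 0 ∧ HH ⊆ K0 ∧
  (0 : E) ∈ HH ∧ IsCompact K0 ∧ IsOpen HH ∧ IsOpen OO

/-- GEO6. Logarithm along a commutator path: `e_{γ(t)}(q) - c = (q - c) exp (lam t q)`, `lam = 0` at
`t = 0` and at `t = 1`.
Proof. The map `(t,q) ↦ (e_{γ t}(q) - c)/(q - c)` is continuous on `I × Q` with values in `ℂ \ 0`, one for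
`t = 0`; lift it through the covering `exp` (`Complex.isCoveringMap_exp`,
`IsCoveringMap.liftHomotopy`). For a path `p` of positions avoiding `q` let `inc p` be the increment of a
continuous logarithm of `e_{p t}(q) - c`; `inc` is additive under concatenation, changes sign under
`symm`; hence `inc (cp p p') = 0`, which is the value of `lam` at `t = 1`. -/
def StLog : Prop := ∀ (c : ℂ) (p p' : Path c c) (Q : Set ℂ) (e : ℂ × ℂ → ℂ),
  c ∉ Q → (∀ t, ‖p t - c‖ ≤ 8 ∧ p t ∉ Q) → (∀ t, ‖p' t - c‖ ≤ 8 ∧ p' t ∉ Q) →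
  ContinuousOn e (Metric.closedBall c 8 ×ˢ univ) →
  (∀ r ∈ Metric.closedBall c 8, ∀ q : ℂ, bb c r (e (r, q)) = q ∧ e (r, bb c r q) = q ∧
    (e (r, q) - c ≠ 0 ↔ q ≠ r)) →
  ∃ lam : ℝ × ℂ → ℂ, ContinuousOn lam (Icc 0 1 ×ˢ Q) ∧ ∀ q ∈ Q, lam (0, q) = 0 ∧ lam (1, q) = 0 ∧
    ∀ t ∈ Icc (0 : ℝ) 1, e ((cp p p').extend t, q) = c + (q - c) * Complex.exp (lam (t, q))

/-- GEO7. The inclusion `K0 → Gf '' HH` is null homotopic relative to the origin.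
Proof. Write `Bf⁻¹ (s,q) = (s, e(s,q))`. For `s ∈ [-2,-1]` deform `e(s,q) = q1 + (q-q1) exp lam` by
`q1 + (q-q1) exp ((1-u) lam)`, `lam` from `StLog` (`Q` = the three squares `|y| ≤ 1` or `2 ≤ |y| ≤ 3`, `|z| ≤ 1`),
similarly for `s ∈ [1,2]`, constant for the other `s` (`e = q` there); the distance to `q1` stays between
`0.2` and `11`, so the point stays in the box minus tunnel squares (`StRho`).  Then contract
`(s,q)` linearly to `0`.  Apply `Bf`. -/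
def StNull : Prop := ∃ c : E × ℝ → E, ContinuousOn c (K0 ×ˢ Icc 0 1) ∧
  (∀ p ∈ K0, c (p, 0) = p ∧ c (p, 1) = 0) ∧ (∀ t ∈ Icc (0 : ℝ) 1, c (0, t) = 0) ∧
  (∀ p ∈ K0, ∀ t ∈ Icc (0 : ℝ) 1, c (p, t) ∈ Gf '' HH)

/-- GEO8 (telescope). Proof: `u_k = 1` on `K (2k)`, `0` outside `U (2k+1)` (Urysohn);
`C_k (x,t) = c_{2k+1}(x, t u_k(x))` on `K (2k+1)`, `x` elsewhere; `C_k` is a homotopy from the identity
to `g_k`, `g_k (K (2k)) = x₀`, moves points only inside `U (2k+2)`. Run `C_0, C_1, C_2, …`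
(the `k`-th after `g_{k-1} ∘ … ∘ g_0`) on the intervals `[1-2^{-k}, 1-2^{-k-1}]`, `x₀` at time `1`. A point
of `U (2k)` is at `x₀` from the end of step `k` on, so this is continuous. -/
def StTel : Prop := ∀ (X : Type) [TopologicalSpace X] [NormalSpace X] (x₀ : X) (U K : ℕ → Set X)
  (c : ℕ → X × ℝ → X), (∀ n, IsOpen (U n)) → (∀ n, IsClosed (K n)) → (∀ n, U n ⊆ K n) →
  (∀ n, K n ⊆ U (n + 1)) → (⋃ n, U n) = univ → x₀ ∈ U 0 →
  (∀ n, ContinuousOn (c n) (K n ×ˢ Icc 0 1)) →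
  (∀ n, ∀ x ∈ K n, c n (x, 0) = x ∧ c n (x, 1) = x₀) →
  (∀ n, ∀ t ∈ Icc (0 : ℝ) 1, c n (x₀, t) = x₀) →
  (∀ n, ∀ x ∈ K n, ∀ t ∈ Icc (0 : ℝ) 1, c n (x, t) ∈ U (n + 1)) → ContractibleSpace X

/-- GEO9. `MM` is contractible (transport `StNull` by the iterates of `Gf`, apply `StTel` in
`↥MM`), open, `Gf '' MM = MM`. -/
def StContr : Prop := ContractibleSpace ↥MM ∧ IsOpen MM ∧ Gf '' MM = MM ∧ OO ⊆ MM ∧
  {p : E | |p.1| < 1 ∧ |p.2.re| < 5 ∧ |p.2.im| < 5} ⊆ MM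

/-- pieces of the handlebody -/
def K2 : Set E := {p ∈ K0 | 1 ≤ |p.1| ∨ |p.2.re| ≤ 1}
def K6 : Set E := {p ∈ K0 | 3 ≤ |p.1| ∨ |p.2.re| ≤ 1}
def K10 : Set E := {p ∈ K0 | |p.2.re| ≤ 1}

/-- FILL1 (two slices). `N = {|s| < 1, -5 < y < -1, |z| < 5}`; `N \ K0` is the ring `z > 1`, `y > -2`, `z < -1`,
`y < -3` (`StRing` with the four corners of `LX`); `StExt` extends over `N`; then the mirror image with
`LY`. -/
def StF1 : Prop := ∀ (Γ : Type) [Group Γ] (M : Set E) (F : PFun E Γ), IsOpen M →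
  {p : E | |p.1| < 1 ∧ |p.2.re| < 5 ∧ |p.2.im| < 5} ⊆ M → IsPF (M \ K0) F →
  F pt pt LX = 1 → F pt pt LY = 1 → ∃ F' : PFun E Γ, IsPF (M \ K2) F' ∧
    ∀ (a b : E) (p : Path a b), (∀ t, p t ∈ M \ K0) → F' a b p = F a b p

/-- FILL2 (four stubs). First stub: `N = {1/2 < s < 3, -7/2 < y < -7/4, |z| < 3/2} ⊆ OO`,
`N \ K2` = union of the convex sets `s < 1` (centre), `z > 1`, `z < -1`, `y < -3`, `y > -2` (intersected with `N`):
`StStar`, `StExt`. The other stubs are mirror images. -/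
def StF2 : Prop := ∀ (Γ : Type) [Group Γ] (M : Set E) (F : PFun E Γ), IsOpen M → OO ⊆ M →
  IsPF (M \ K2) F → ∃ F' : PFun E Γ, IsPF (M \ K6) F' ∧
    ∀ (a b : E) (p : Path a b), (∀ t, p t ∈ M \ K2) → F' a b p = F a b p

/-- FILL3 (four arms). First arm: `N = {5/2 < s < 9/2, -7/2 < y < -1, |z| < 3/2} ⊆ OO`, `N \ K6` = union of
`y < -3` (centre), `z > 1`, `z < -1`, `s > 4`, `s < 3`. The others are mirror images. -/
def StF3 : Prop := ∀ (Γ : Type) [Group Γ] (M : Set E) (F : PFun E Γ), IsOpen M → OO ⊆ M →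
  IsPF (M \ K6) F → ∃ F' : PFun E Γ, IsPF (M \ K10) F' ∧
    ∀ (a b : E) (p : Path a b), (∀ t, p t ∈ M \ K6) → F' a b p = F a b p

/-- FILL4 (the last box). `N = {|s| < 9/2, |y| < 5/4, |z| < 3/2}`, `N \ K10` is a shell (`StShell`). -/
def StF4 : Prop := ∀ (Γ : Type) [Group Γ] (M : Set E) (F : PFun E Γ), IsOpen M → OO ⊆ M →
  IsPF (M \ K10) F → ∃ F' : PFun E Γ, IsPF M F' ∧
    ∀ (a b : E) (p : Path a b), (∀ t, p t ∈ M \ K10) → F' a b p = F a b p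

/-- FILL. From `StF1..StF4`, `StContr`, `StSC`. -/
def StFill : Prop := ∀ (Γ : Type) [Group Γ] (F : PFun E Γ), IsPF (MM \ K0) F →
  F pt pt LX = 1 → F pt pt LY = 1 → IsExact (MM \ K0) F

/-- CONN. `MM \ K0` is joined. Proof: `OO \ K0` is joined (layers `1 < z < 3/2`, `-3/2 < z < -1` over the
planar region, connected through the margins `s > 4`); a path in `MM` from a point outside `K0` to
the origin first meets `K0` at a point of `OO`, just before it is in `OO \ K0`. -/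
def StConn : Prop := Jn (MM \ K0)

open Classical in
/-- potential on the lower side -/
noncomputable def phim (p : E) : F2 :=
  if |p.1| < 3 ∧ |p.2.im| < 1 ∧ -2 < p.2.re ∧ p.2.re < -1 then xx⁻¹
  else if |p.1| < 3 ∧ |p.2.im| < 1 ∧ 1 < p.2.re ∧ p.2.re < 2 then yy⁻¹ else 1

/-- PHI1. The functor `Φ` on the complement of `K0` (from `StPot`, cover by the upper side
`-1 < z`, potential `1`, and the lower side `z < 1`, potential `phim`; on the overlap `|z| < 1` outside `K0`,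
`phim` is locally constant). -/
def StPhi0 : Prop := ∃ Φ : PFun E F2, IsPF K0ᶜ Φ ∧
  (∀ (a b : E) (p : Path a b), (∀ t, p t ∈ K0ᶜ ∧ -1 < (p t).2.im) → Φ a b p = 1) ∧
  (∀ (a b : E) (p : Path a b), (∀ t, p t ∈ K0ᶜ ∧ (p t).2.im < 1) → Φ a b p = (phim a)⁻¹ * phim b)

/-- allowed positions for the planar functor: complement of the three closed squares -/
def SL : Set ℂ := {q | ¬ (|q.im| ≤ 1 ∧ (|q.re| ≤ 1 ∨ (2 ≤ |q.re| ∧ |q.re| ≤ 3)))}

/-- PHI2. Planar functor: in the slab `|s| < 3`, `Φ` only depends on the planar component.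
Proof: `Φ` and the pull-back of `Φ'` (`Φ' p = Φ ((0, ·) ∘ p)`) agree on paths of the slab inside the upper
or the lower side; `StAG`. -/
def StPhi1 : Prop := ∀ Φ : PFun E F2, IsPF K0ᶜ Φ →
  (∀ (a b : E) (p : Path a b), (∀ t, p t ∈ K0ᶜ ∧ -1 < (p t).2.im) → Φ a b p = 1) →
  (∀ (a b : E) (p : Path a b), (∀ t, p t ∈ K0ᶜ ∧ (p t).2.im < 1) → Φ a b p = (phim a)⁻¹ * phim b) →
  ∃ Φ' : PFun ℂ F2, IsPF SL Φ' ∧
    (∀ (a b : E) (p : Path a b), (∀ t, |(p t).1| < 3 ∧ (p t).2 ∈ SL) →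
      Φ a b p = Φ' a.2 b.2 (p.map continuous_snd)) ∧
    Φ' q1 q1 (letter q1 (-3/2)) = xx ∧ Φ' q1 q1 (letter q1 (3/2)) = yy ∧
    Φ' q2 q2 (letter q2 (-3/2)) = xx ∧ Φ' q2 q2 (letter q2 (3/2)) = yy

/-- PHI3. Values of `Φ`. `Gf` maps the vertical segment of `LX` at `y = -3/2` to the path
`(s, gam1.extend (s+2))`, `-10 ≤ s ≤ 10`, and the other segments to the outside (`|s| = 10` or `y < -20`, `z = 0`);
inside `|s| ≤ 2` use `StPhi1` and multiplicativity on `W1p`, `W2p`. -/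
def StPhi : Prop := ∃ Φ : PFun E F2, IsPF K0ᶜ Φ ∧ Φ pt pt LX = xx ∧ Φ pt pt LY = yy ∧
  ∀ G : C(E, E), ⇑G = Gf → Φ (G pt) (G pt) (LX.map G.continuous) = W1 xx yy ∧
    Φ (G pt) (G pt) (LY.map G.continuous) = W2 xx yy

end CM
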