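import Pool.Agent.Helper59.CM.Main
import Pool.Agent.Helper59.CM.StAlg
import Pool.Agent.Helper59.CM.StGeo

/-!
Project CM (MP_e9500f_gt): statements of the main argument, with written proofs.
-/

set_option autoImplicit false

namespace CM

open Set Topology unitInterval

/-- MAIN1 (levels). `(T.lev n).K` increases, every compact set is contained in some level. Proof:
`K_n ⊆ interior K_{n+1}`, `⋃ K_n = univ` (`exhaust`; `(T.lev n).K = G^[n] '' K`). -/
def StLev : Prop := ∀ (X : Type) [TopologicalSpace X] (T : Tower X),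
  (∀ n, (T.lev n).G = T.G) ∧
  (∀ n, (T.lev n).K ⊆ interior (T.lev (n + 1)).K) ∧
  (∀ m n, m ≤ n → (T.lev m).K ⊆ (T.lev n).K) ∧
  (∀ C : Set X, IsCompact C → ∃ N, ∀ n, N ≤ n → C ⊆ (T.lev n).K)

/-- MAIN2 (uniqueness). Two path functors `Kᶜ → UU` with the same values on `lx`, `ly` are gauge
equivalent.
Proof. Choose paths from `T.p` to all points of `Kᶜ` (`conn`), the constant path for `T.p`. It suffices
that `h z = h' z` for every loop `z` at `T.p` in `Kᶜ` (then `g x = (h c_x)⁻¹ h' c_x`, `c_x` = the path). Show by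
induction on `k ≥ 1`: `Ord k (sr (h z * (h' z)⁻¹) - 1)` for all loops. Step: gauge both functors by the
chosen paths: `h₁ p = h (c_a · p · c_b⁻¹)` (a loop), same for `h'₁`; for a word `w` of length `k`,
`A p = co (sr (h₁ p * (h'₁ p)⁻¹) - 1) w` is additive: `h₁(pq) h'₁(pq)⁻¹ = h₁ p (h₁ q h'₁ q⁻¹) h'₁ p⁻¹
= [h₁ p (h₁ q h'₁ q⁻¹) h₁ p⁻¹] [h₁ p h'₁ p⁻¹]` and `StFilt`. So `A` (real valued) is a path functor on
`Kᶜ`, zero on `lx`, `ly`, exact by `fill`, so zero on loops at `T.p`. -/
def StUniq : Prop := ∀ (X : Type) [TopologicalSpace X] (T : Tower X) (h h' : PFun X UU),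
  IsPF T.Kᶜ h → IsPF T.Kᶜ h' → h T.p T.p T.lx = h' T.p T.p T.lx →
  h T.p T.p T.ly = h' T.p T.p T.ly →
  ∃ g : X → UU, g T.p = 1 ∧ ∀ (a b : X) (p : Path a b), (∀ t, p t ∈ T.Kᶜ) →
    h' a b p = (g a)⁻¹ * h a b p * g b

/-- MAIN3 (pairs). `h = R ∘ Φ` up to gauge, `R = hom2 (h lx) (h ly)`; value of `h` on the loops of the
next level. Proof: `StUniq` for `h` and `hom2 .. ∘ Φ`; `T.ΦGx`, `T.ΦGy`, `(T.shift).lx = T.lx.map G`, and
`hom2 a b (W1 xx yy) = W1 a b`. -/
def StPair : Prop := ∀ (X : Type) [TopologicalSpace X] (T : Tower X) (h : PFun X UU),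
  IsPF T.Kᶜ h →
  (∃ g : X → UU, ∀ (a b : X) (p : Path a b), (∀ t, p t ∈ T.Kᶜ) →
    h a b p = (g a)⁻¹ * hom2 (h T.p T.p T.lx) (h T.p T.p T.ly) (T.Φ a b p) * g b) ∧
  Conj (W1 (h T.p T.p T.lx) (h T.p T.p T.ly)) (W2 (h T.p T.p T.lx) (h T.p T.p T.ly))
    (h T.shift.p T.shift.p T.shift.lx) (h T.shift.p T.shift.p T.shift.ly)

/-- MAIN4 (sequence of pairs), from `StPair`, `StChain`. -/
def StSeq : Prop := ∀ (X : Type) [TopologicalSpace X] (T : Tower X) (h : PFun X UU),
  IsPF T.Kᶜ h → h T.p T.p T.lx * h T.p T.p T.ly ≠ h T.p T.p T.ly * h T.p T.p T.lx →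
  (∀ k, h _ _ (T.lev k).lx * h _ _ (T.lev k).ly ≠ h _ _ (T.lev k).ly * h _ _ (T.lev k).lx) ∧
  (∀ k, 4 ≤ k → Good (h _ _ (T.lev k).lx) (h _ _ (T.lev k).ly))

/-- MAIN5. Magnus functor: for every tower there is a path functor `ρ` on `Kᶜ` with values in
`UU`, not commuting on `lx`, `ly` at any level, `ρ = hom2 A B ∘ Φ`, `hom2 A B` injective. -/
def StRho1 : Prop := ∀ (X : Type) [TopologicalSpace X] (T : Tower X),
  ∃ A B : UU, (∀ W : F2, W ≠ 1 → hom2 A B W ≠ 1) ∧
    IsPF T.Kᶜ (fun a b p => hom2 A B (T.Φ a b p)) ∧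
    ∀ k, hom2 A B (T.Φ _ _ (T.lev k).lx) * hom2 A B (T.Φ _ _ (T.lev k).ly) ≠
      hom2 A B (T.Φ _ _ (T.lev k).ly) * hom2 A B (T.Φ _ _ (T.lev k).lx)

/-- BOX. `VV R` is open, joined, all path functors on it are exact (`StShell`: six half spaces);
`box R` is compact; every bounded set is in a box; the image of a compact set is not all of
`VV R`. -/
def StBox : Prop :=
  (∀ R : ℝ, 0 ≤ R → IsOpen (VV R) ∧ IsCompact (box R) ∧ Jn (VV R) ∧ (VV R).Nonempty ∧
    ∀ (Γ : Type) [Group Γ], PFE Γ (VV R)) ∧
  (∀ C : Set E3, IsCompact C → ∃ R : ℝ, 0 ≤ R ∧ C ⊆ box R) ∧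
  (∀ R : ℝ, 0 ≤ R → ∀ C : Set E3, IsCompact C → ∃ y ∈ VV R, y ∉ C)

/-- DECK. A real path functor `A` on `U = f⁻¹' V`, `V` open with exact real path functors, which
vanishes on the loops `z` at the fixed point `p` with `τ (z t) = z (1 - t)`, is exact.
Proof. (1) For a loop `y` at `p` in `U` the loop `z = y · (τ y)⁻¹` satisfies `τ z = z⁻¹` literally, so
`A y = A (τ y)` for all loops `y` at `p`. (2) So `A (τ γ) - A γ = c b - c a` for a function `c` on `U`
(choose paths from `p`), `c p = 0`; then `c (τ x) = - c x`; replace `A` by the gauge equivalent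
`A' γ = A γ + (c b - c a)/2`, which satisfies `A' (τ γ) = A' γ`. (3) Every `x ∈ U` has an open
neighbourhood `W ⊆ U`, `τ W = W`, with a potential `φ` of `A'` on `W`, `φ (τ y) = φ y`: if `τ x ≠ x` take
`W = W₁ ∪ τ W₁`, `W₁ ∩ τ W₁ = ∅` (potential on `W₁` by `LocPF`, transported to `τ W₁`); if `τ x = x` take `V₁` from
`LocPF`, and `V₂ ∋ x` from `LocPF` with `V₂ ∪ τ V₂ ⊆ V₁`, `W = V₂ ∪ τ V₂`, `φ y = A'(path x → y in V₁)`: for `y ∈ V₂`
and a path `c` from `x` to `y` in `V₂`, `τ c` is a path in `V₁` from `x` to `τ y`, so `φ (τ y) = A' (τ c) = A' c = φ y`.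
(4) `φ` descends to `φ̄` on the open set `f '' W`; on overlaps the differences are locally constant
upstairs, hence downstairs (`f` is open, `W = f⁻¹' (f '' W)`). `StPot` gives a path functor on `V`, exact with potential
`g`; `A'` and `γ ↦ g (f b) - g (f a)` agree on small paths, so everywhere (`StAG`). -/
def StDeck : Prop := ∀ (X Y : Type) [TopologicalSpace X] [TopologicalSpace Y] [T2Space X]
  (f : X → Y) (τ : X → X) (V : Set Y) (p : X) (A : PFun X (Multiplicative ℝ)),
  Fold f τ → LocPF X → IsOpen V → PFE (Multiplicative ℝ) V → Jn (f ⁻¹' V) → p ∈ f ⁻¹' V →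
  τ p = p → IsPF (f ⁻¹' V) A →
  (∀ z : Path p p, (∀ t, z t ∈ f ⁻¹' V) → (∀ t, τ (z t) = z (σ t)) → A p p z = 1) →
  IsExact (f ⁻¹' V) A

/-- DECKU. The same for functors with values in `UU`, on loops at `p`: induction on the filtration
(`StFilt`), as in `StUniq`: choose paths from `p`, gauge, the coefficients of degree `k` are additive,
vanish on the special loops, hence exact by `StDeck`. -/
def StDeckU : Prop := ∀ (X Y : Type) [TopologicalSpace X] [TopologicalSpace Y] [T2Space X]
  (f : X → Y) (τ : X → X) (V : Set Y) (p : X) (h : PFun X UU),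
  Fold f τ → LocPF X → IsOpen V → PFE (Multiplicative ℝ) V → Jn (f ⁻¹' V) → p ∈ f ⁻¹' V →
  τ p = p → IsPF (f ⁻¹' V) h →
  (∀ z : Path p p, (∀ t, z t ∈ f ⁻¹' V) → (∀ t, τ (z t) = z (σ t)) → h p p z = 1) →
  ∀ z : Path p p, (∀ t, z t ∈ f ⁻¹' V) → h p p z = 1

/-- FIX. The involution has a fixed point over `V`.
Proof. Otherwise: for `x` choose an open `W ∋ x` with `W ∩ τ W = ∅`; `O_x = f '' W ∩ V` open. Choose a set
theoretic section `s : Y → X` of `f`. Potentials `φ_x y = 0` if `s y ∈ W`, `1` if not (values in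
`Multiplicative (ZMod 2)`), on `O_x`; differences on overlaps are locally constant. By `StPot` a path functor
on `V`, exact with potential `g` (`PFE`).  For a path `γ` in `U` from `x` to `x'`: the label of the end
(`0` if `s (f x') = x'`) minus the label of the start equals `g (f x') - g (f x)` (agreement on small
paths, or a clopen argument along `γ`); apply it to a path from `x` to `τ x` (`Jn`): `1 = 0`. -/
def StFix : Prop := ∀ (X Y : Type) [TopologicalSpace X] [TopologicalSpace Y] [T2Space X]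
  (f : X → Y) (τ : X → X) (V : Set Y), Fold f τ → IsOpen V → V.Nonempty →
  PFE (Multiplicative (ZMod 2)) V → Jn (f ⁻¹' V) → ∃ p ∈ f ⁻¹' V, τ p = p

/-- U2. The preimage of `VV R` is joined.
Proof. `Cᶜ` is joined and contained in `U = f⁻¹' VV R`. Let `x ∈ U` and `W` = the points joined to `x` in
`U`, open. `f '' W` is open and closed in `VV R` (if `y ∈ VV R` is a limit of points of `f '' W`, by properness
some point `x'` over `y` is a cluster point of points of `W`, a path connected neighbourhood of `x'` in `U`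
meets `W`), so `f '' W = VV R`; `f '' C` is compact, so some point of `W` is outside `C`. -/
def StU2 : Prop := ∀ (X : Type) [TopologicalSpace X] [T2Space X] [LocallyPathConnectedSpace X]
  (f : X → E3) (τ : X → X) (R : ℝ) (C : Set X), Fold f τ → 0 ≤ R → IsCompact C → Jn Cᶜ →
  f ⁻¹' (box R) ⊆ C → Jn (f ⁻¹' (VV R))

/-- MAIN6. The contradiction (from all of the above; see the plan, section 3). -/
def StMain : Prop := ∀ (X : Type) [TopologicalSpace X] [T2Space X] [LocallyPathConnectedSpace X]
  (T : Tower X) (f : X → E3) (τ : X → X), LocPF X → Fold f τ → False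

/-- BALL. The complement of `B` in a ball is path connected and dense. (Two points of `V \ B` can
first be moved off all the segments, then joined by a broken line with one intermediate point,
avoiding finitely many planes.) -/
def StBall : Prop := ∀ (B : Set E3) (L : Finset (E3 × E3)) (c : E3) (r : ℝ), IsClosed B →
  B ∩ Metric.ball c r ⊆ ⋃ l ∈ L, segment ℝ l.1 l.2 →
  Jn (Metric.ball c r \ B) ∧ Metric.ball c r ⊆ closure (Metric.ball c r \ B)

/-- INT. A continuous map with discrete fibres from an open subset of `E` does not map a nonempty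
open set into a set which is locally contained in finitely many segments.
Proof. Some nonempty open set is mapped into one segment (finitely many closed sets); compose with a
linear functional injective on the segment: a continuous real function `g` with discrete fibres on a
ball; it takes values `α < β`, a value `c` between them only finitely often on a smaller closed ball, but a
ball minus a finite set is connected. -/
def StInt : Prop := ∀ (M : Set E) (f : ↥M → E3) (B : Set E3), IsOpen M → Continuous f →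
  (∀ y, DiscreteTopology ↥(f ⁻¹' {y})) →
  (∀ R : ℝ, ∃ L : Finset (E3 × E3), B ∩ Metric.closedBall 0 R ⊆ ⋃ l ∈ L, segment ℝ l.1 l.2) →
  interior (f ⁻¹' B) = ∅

/-- OPEN. Such a map is open. Proof at `x` with `b = f x`: choose an open `W ∋ x` with compact
closure `⊆` the given neighbourhood and `closure W ∩ f⁻¹' {b} = {x}`; a ball `V ∋ b` disjoint from the compact
set `f '' (closure W \ W)`; `W' = W ∩ f⁻¹' V`; `f '' (W' \ f⁻¹' B)` is nonempty, open (covering), and closed in `V \ B`,
which is connected (`StBall`), so it is `V \ B`; `f '' (closure W) ∩ V` is closed in `V`, contains the dense set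
`V \ B`, so `V ⊆ f '' W`. -/
def StOpen : Prop := ∀ (X : Type) [TopologicalSpace X] [T2Space X] [LocallyCompactSpace X]
  (f : X → E3) (B : Set E3), Continuous f → (∀ y, DiscreteTopology ↥(f ⁻¹' {y})) → IsClosed B →
  (∀ R : ℝ, ∃ L : Finset (E3 × E3), B ∩ Metric.closedBall 0 R ⊆ ⋃ l ∈ L, segment ℝ l.1 l.2) →
  IsCoveringMapOn f Bᶜ → interior (f ⁻¹' B) = ∅ → IsOpenMap f

/-- FOLD. From the branched covering to the involution.
Proof. Fibres have at most two points: three points over `b` have disjoint neighbourhoods, their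
images are neighbourhoods of `b`, a point outside `B` in all three images would have three preimages.
`τ x` = the other point of the fibre (or `x`). Continuity at `x`: if `y = τ x ≠ x`, for disjoint
neighbourhoods `W_x`, `W_y`, a point `x'` near `x` has `f x' ∈ f '' W_y`, so `τ x' ∈ W_y`; if `τ x = x`, `f⁻¹'` of a small
neighbourhood of `f x` is in a given neighbourhood of `x` (closed map). -/
def StFold : Prop := ∀ (X : Type) [TopologicalSpace X] [T2Space X] [LocallyCompactSpace X]
  (f : X → E3), IsBranched2 f →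
  (∀ B : Set E3, IsClosed B →
    (∀ R : ℝ, ∃ L : Finset (E3 × E3), B ∩ Metric.closedBall 0 R ⊆ ⋃ l ∈ L, segment ℝ l.1 l.2) →
    interior (f ⁻¹' B) = ∅) → ∃ τ : X → X, Fold f τ

/-- TOWER. The explicit manifold carries a tower. (`G` = restriction of `Gf`, `K` = `K0`, loops `LX`, `LY`, functor
`StPhi` pulled back to `↥MM`; `fill` from `StFill` and `StConv`.) -/
def StTower : Prop := Nonempty (Tower ↥MM)

/-- LOCPF. Small balls. (`StConv`, `StCvx`.) -/
def StLocPF : Prop := ∀ M : Set E, IsOpen M → LocPF ↥M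

/-- TRANS. Invariance under homeomorphisms of the source. -/
def StTrans : Prop := ∀ (X X' : Type) [TopologicalSpace X] [TopologicalSpace X'] (h : X ≃ₜ X')
  (f : X' → E3), IsBranched2 f → IsBranched2 (f ∘ h)

/-- FINAL. -/
def StFinal : Prop := ∃ M : Set E3, IsOpen M ∧ ContractibleSpace ↥M ∧
  ∀ f : ↥M → E3, ¬ IsBranched2 f

end CM
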